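import Mathlib
import Pool.Agent.MRZ.Sup

/-!
# SSP (sparse shifts of primes): definitions

Problem MP_0bfb7f_nt, project of helper80. Goal: for *sparse* sets of shifts `h` (values of a polynomial, primes, any
set with small additive energy) of size `≥ (log X)^C` the sum `∑_{n ≤ X} b_n Λ(n) μ(n+h)` is `o(X)` for almost all
`h`. New ingredient: a restriction estimate for the primes in windows of length `(log X)^C`, proved with the
Goldston–Selberg majorant `ν`.

`L = primorial R`. Frequencies are `t ∈ ZMod L`, with the character `n ↦ chi R t n = e(t n / L)`. The order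
`addOrderOf t` of `t` is the denominator `q` of the fraction `t / L`; it is squarefree.

* `vv R t = μ(q)/φ(q)` if `q ≤ R`, else `0`;
* `lamR R n = ∑_t vv R t · chi R t n = ∑_{q ≤ R} (μ(q)/φ(q)) c_q(n)` (Ramanujan sums);
* `GG R = ∑_{q ≤ R squarefree} 1/φ(q)`;
* `nu R n = ‖lamR R n‖² / GG R` : majorant of `(GG R) · 1_{n prime, n > R}`;
* `uu R t = (1/GG R) ∑_f vv R f · vv R (t - f)` : the Fourier coefficients of `nu R`;
* `nuF R w n` (frequencies of order `≤ w`) and `nuS R w n` (order `> w`): `nu = nuF + nuS`.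
-/

set_option autoImplicit false

namespace Pool.SSP

open Finset Pool.MRZ

instance neZero_primorial (R : ℕ) : NeZero (primorial R) := ⟨(primorial_pos R).ne'⟩

/-- the character `n ↦ e(t n / L)`, `L = primorial R` -/
noncomputable def chi (R : ℕ) (t : ZMod (primorial R)) (n : ℕ) : ℂ :=
  ZMod.stdAddChar (t * (n : ZMod (primorial R)))

/-- `μ(q)/φ(q)` for `q = addOrderOf t ≤ R` -/
noncomputable def vv (R : ℕ) (t : ZMod (primorial R)) : ℝ :=
  if addOrderOf t ≤ R then
    ((ArithmeticFunction.moebius (addOrderOf t) : ℤ) : ℝ) / (Nat.totient (addOrderOf t) : ℝ) else 0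

/-- `∑_{q ≤ R squarefree} 1/φ(q)` -/
noncomputable def GG (R : ℕ) : ℝ :=
  ∑ q ∈ (Icc 1 R).filter Squarefree, (1 : ℝ) / (Nat.totient q : ℝ)

/-- Goldston's approximant of the primes -/
noncomputable def lamR (R n : ℕ) : ℂ := ∑ t : ZMod (primorial R), (vv R t : ℂ) * chi R t n

/-- the majorant -/
noncomputable def nu (R n : ℕ) : ℝ := ‖lamR R n‖ ^ 2 / GG R

/-- the Fourier coefficients of the majorant -/
noncomputable def uu (R : ℕ) (t : ZMod (primorial R)) : ℝ :=
  (GG R)⁻¹ * ∑ f : ZMod (primorial R), vv R f * vv R (t - f)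

/-- the part of `nu` with denominators `≤ w` -/
noncomputable def nuF (R w n : ℕ) : ℂ :=
  ∑ t ∈ (Finset.univ : Finset (ZMod (primorial R))).filter (fun t => addOrderOf t ≤ w),
    (uu R t : ℂ) * chi R t n

/-- the part of `nu` with denominators `> w` -/
noncomputable def nuS (R w n : ℕ) : ℂ :=
  ∑ t ∈ (Finset.univ : Finset (ZMod (primorial R))).filter (fun t => w < addOrderOf t),
    (uu R t : ℂ) * chi R t n

/-- additive energy of order `r` of a finite family of integers: the number of `(x, y) ∈ K^r × K^r` with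
`∑ φ(x_i) = ∑ φ(y_i)` -/
def energy {ι : Type*} [DecidableEq ι] (r : ℕ) (K : Finset ι) (φ : ι → ℤ) : ℕ :=
  ((Fintype.piFinset (fun _ : Fin r => K) ×ˢ Fintype.piFinset (fun _ : Fin r => K)).filter
    (fun z : (Fin r → ι) × (Fin r → ι) => ∑ i, φ (z.1 i) = ∑ i, φ (z.2 i))).card

lemma chi_add (R : ℕ) (s t : ZMod (primorial R)) (n : ℕ) : chi R (s + t) n = chi R s n * chi R t n := by
  unfold chi
  rw [add_mul, AddChar.map_add_eq_mul]

lemma norm_chi (R : ℕ) (t : ZMod (primorial R)) (n : ℕ) : ‖chi R t n‖ = 1 := by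
  unfold chi
  rw [ZMod.stdAddChar_apply]
  exact Circle.norm_coe _

/-- `chi` in terms of `ee` -/
lemma chi_eq_ee (R : ℕ) (t : ZMod (primorial R)) (n : ℕ) :
    chi R t n = ee ((t.val : ℝ) / (primorial R : ℕ) * n) := by
  unfold chi ee
  have h1 : t * (n : ZMod (primorial R)) = (((t.val * n : ℕ) : ℤ) : ZMod (primorial R)) := by
    push_cast
    rw [ZMod.natCast_zmod_val]
  rw [h1, ZMod.stdAddChar_coe]
  congr 1
  push_cast
  ring

end Pool.SSP
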