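import Mathlib
import Pool.Agent.SSP.Defs
import Pool.Agent.MRZ.Dft

/-!
# SSP/Energy: additive energies and exponential sums

`energy r K φ = #{(x,y) ∈ K^r × K^r : ∑ φ(x_i) = ∑ φ(y_i)}`.

* `dft_energy_eq`: if `|φ k| ≤ B` on `K` and `2 r B < N` then
  `∑_{ρ<N} ‖∑_{k∈K} e(ρ φ(k)/N)‖^{2r} = N · energy r K φ`. Proof: `‖Z‖^{2r} = Z^r conj(Z)^r`,
  `Z^r = ∑_{x∈K^r} e(ρ ∑φ(x_i)/N)` (`Finset.sum_pow'`/`Finset.prod_univ_sum`), and orthogonality `dft_orth`: only the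
  pairs with `N ∣ ∑φ(x_i) - ∑φ(y_i)`, i.e. equality since `|difference| ≤ 2rB < N`, contribute `N`.
* `dft_energy`: if `1 ≤ φ k ≤ H`, `r H ≤ N`, `1 ≤ N`, `‖c k‖ ≤ 1` on `K` then
  `∑_{ρ<N} ‖∑_{k∈K} c_k e(ρ φ(k)/N)‖^{2r} ≤ N · energy r K φ`: the same expansion, all products of `c`'s are bounded by
  one in absolute value, and the differences are `< N` in absolute value (`r = 0`: both sides are `N`).
* `energy_succ`: `energy (r+1) K φ ≤ #K² · energy r K φ` (by `dft_energy_eq` with a large `N` and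
  `‖Z‖^{2r+2} ≤ #K² ‖Z‖^{2r}`).
* `energy_subset`, `energy_sub_const` (translation invariance), `energy_congr`.
* `energy_image`: `energy` along an injective reindexing: `energy r (K.image f) φ = energy r K (φ ∘ f)`, `f` injective on
  `K`; for the inequality `≤` (which is all that is needed) compose with a section.
-/

set_option autoImplicit false

namespace Pool.SSP

open Finset Pool.MRZ

variable {ι : Type} [DecidableEq ι]

lemma ee_sum {κ : Type} (s : Finset κ) (x : κ → ℝ) : ee (∑ i ∈ s, x i) = ∏ i ∈ s, ee (x i) := by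
  classical
  induction s using Finset.induction_on with
  | empty => simp [ee_zero]
  | insert a s ha ih => rw [Finset.sum_insert ha, Finset.prod_insert ha, ee_add, ih]

lemma pow_expand (r : ℕ) (K : Finset ι) (φ : ι → ℤ) (c : ι → ℂ) (α : ℝ) :
    (∑ k ∈ K, c k * ee (α * (φ k : ℝ))) ^ r =
      ∑ x ∈ Fintype.piFinset (fun _ : Fin r => K),
        (∏ i, c (x i)) * ee (α * ((∑ i, φ (x i) : ℤ) : ℝ)) := by
  rw [Finset.sum_pow']
  refine Finset.sum_congr rfl fun x _ => ?_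
  rw [Finset.prod_mul_distrib]
  congr 1
  rw [Int.cast_sum, Finset.mul_sum, ee_sum]

lemma dft_gen (r : ℕ) (K : Finset ι) (φ : ι → ℤ) (c : ι → ℂ) (N : ℕ) (hN1 : 1 ≤ N)
    (hlt : ∀ x ∈ Fintype.piFinset (fun _ : Fin r => K), ∀ y ∈ Fintype.piFinset (fun _ : Fin r => K),
      |∑ i, φ (x i) - ∑ i, φ (y i)| < N) :
    ((∑ ρ ∈ range N, ‖∑ k ∈ K, c k * ee ((ρ : ℝ) / N * (φ k : ℝ))‖ ^ (2 * r) : ℝ) : ℂ) =
      N * ∑ z ∈ (Fintype.piFinset (fun _ : Fin r => K) ×ˢ Fintype.piFinset (fun _ : Fin r => K)).filter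
        (fun z : (Fin r → ι) × (Fin r → ι) => ∑ i, φ (z.1 i) = ∑ i, φ (z.2 i)),
        (∏ i, c (z.1 i)) * (starRingEnd ℂ) (∏ i, c (z.2 i)) := by
  have h1 : ∀ ρ : ℕ, ((‖∑ k ∈ K, c k * ee ((ρ : ℝ) / N * (φ k : ℝ))‖ : ℝ) : ℂ) ^ (2 * r) =
      ∑ z ∈ Fintype.piFinset (fun _ : Fin r => K) ×ˢ Fintype.piFinset (fun _ : Fin r => K),
        ((∏ i, c (z.1 i)) * (starRingEnd ℂ) (∏ i, c (z.2 i))) *
          ee ((ρ : ℝ) / N * ((∑ i, φ (z.1 i) - ∑ i, φ (z.2 i) : ℤ) : ℝ)) := by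
    intro ρ
    have h2 : ((‖∑ k ∈ K, c k * ee ((ρ : ℝ) / N * (φ k : ℝ))‖ : ℝ) : ℂ) ^ (2 * r) =
        (∑ k ∈ K, c k * ee ((ρ : ℝ) / N * (φ k : ℝ))) ^ r *
          (starRingEnd ℂ) ((∑ k ∈ K, c k * ee ((ρ : ℝ) / N * (φ k : ℝ))) ^ r) := by
      rw [map_pow, ← mul_pow, Complex.mul_conj, Complex.normSq_eq_norm_sq, pow_mul]
      push_cast
      rfl
    rw [h2, pow_expand, map_sum, Finset.sum_mul_sum, Finset.sum_product]
    refine Finset.sum_congr rfl fun x _ => Finset.sum_congr rfl fun y _ => ?_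
    rw [map_mul, conj_ee]
    have h3 : ee ((ρ : ℝ) / N * ((∑ i, φ (x i) - ∑ i, φ (y i) : ℤ) : ℝ)) =
        ee ((ρ : ℝ) / N * ((∑ i, φ (x i) : ℤ) : ℝ)) * ee (-((ρ : ℝ) / N * ((∑ i, φ (y i) : ℤ) : ℝ))) := by
      rw [← ee_add]
      congr 1
      push_cast
      ring
    rw [h3]
    ring
  push_cast
  simp_rw [h1]
  rw [Finset.sum_comm, Finset.sum_filter, Finset.mul_sum]
  refine Finset.sum_congr rfl fun z hz => ?_
  rw [← Finset.mul_sum, dft_orth N hN1]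
  rw [Finset.mem_product] at hz
  have h4 := hlt z.1 hz.1 z.2 hz.2
  by_cases h5 : ∑ i, φ (z.1 i) = ∑ i, φ (z.2 i)
  · rw [if_pos h5, if_pos]
    · ring
    · rw [h5, sub_self]
      exact dvd_zero _
  · rw [if_neg h5, if_neg]
    · ring
    · intro hd
      have h6 := Int.eq_zero_of_abs_lt_dvd hd h4
      exact h5 (by linarith)

theorem dft_energy_eq (r : ℕ) (K : Finset ι) (φ : ι → ℤ) (B N : ℕ) (hφ : ∀ k ∈ K, |φ k| ≤ B)
    (hN : 2 * r * B < N) :
    ∑ ρ ∈ range N, ‖∑ k ∈ K, ee ((ρ : ℝ) / N * (φ k : ℝ))‖ ^ (2 * r) = N * energy r K φ := by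
  have hN1 : 1 ≤ N := by omega
  have hb : ∀ x ∈ Fintype.piFinset (fun _ : Fin r => K), |∑ i, φ (x i)| ≤ r * B := by
    intro x hx
    rw [Fintype.mem_piFinset] at hx
    calc |∑ i, φ (x i)| ≤ ∑ i, |φ (x i)| := Finset.abs_sum_le_sum_abs _ _
      _ ≤ ∑ _i : Fin r, (B : ℤ) := Finset.sum_le_sum fun i _ => hφ _ (hx i)
      _ = r * B := by simp
  have h := dft_gen r K φ (fun _ => 1) N hN1 (by
    intro x hx y hy
    have h1 := hb x hx
    have h2 := hb y hy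
    have h3 : (2 * r * B : ℤ) < N := by exact_mod_cast hN
    calc |∑ i, φ (x i) - ∑ i, φ (y i)| ≤ |∑ i, φ (x i)| + |∑ i, φ (y i)| := abs_sub _ _
      _ < N := by linarith)
  simp only [one_mul, Finset.prod_const_one, map_one, mul_one, Finset.sum_const, nsmul_eq_mul] at h
  unfold energy
  exact_mod_cast h

theorem dft_energy (r : ℕ) (K : Finset ι) (φ : ι → ℤ) (c : ι → ℂ) (H N : ℕ) (hc : ∀ k ∈ K, ‖c k‖ ≤ 1)
    (hφ : ∀ k ∈ K, 1 ≤ φ k ∧ φ k ≤ H) (hN : r * H ≤ N) (hN1 : 1 ≤ N) :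
    ∑ ρ ∈ range N, ‖∑ k ∈ K, c k * ee ((ρ : ℝ) / N * (φ k : ℝ))‖ ^ (2 * r) ≤ N * energy r K φ := by
  have hb : ∀ x ∈ Fintype.piFinset (fun _ : Fin r => K), (r : ℤ) ≤ ∑ i, φ (x i) ∧
      ∑ i, φ (x i) ≤ r * H := by
    intro x hx
    rw [Fintype.mem_piFinset] at hx
    constructor
    · calc (r : ℤ) = ∑ _i : Fin r, (1 : ℤ) := by simp
        _ ≤ ∑ i, φ (x i) := Finset.sum_le_sum fun i _ => (hφ _ (hx i)).1
    · calc ∑ i, φ (x i) ≤ ∑ _i : Fin r, (H : ℤ) := Finset.sum_le_sum fun i _ => (hφ _ (hx i)).2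
        _ = r * H := by simp
  have h := dft_gen r K φ c N hN1 (by
    intro x hx y hy
    have h1 := hb x hx
    have h2 := hb y hy
    have h3 : (r * H : ℤ) ≤ N := by exact_mod_cast hN
    rcases Nat.eq_zero_or_pos r with hr | hr
    · subst hr
      simp
      omega
    · have h4 : (1 : ℤ) ≤ r := by exact_mod_cast hr
      rw [abs_lt]
      constructor <;> linarith)
  have h1 : ((∑ ρ ∈ range N, ‖∑ k ∈ K, c k * ee ((ρ : ℝ) / N * (φ k : ℝ))‖ ^ (2 * r) : ℝ)) =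
      ‖((∑ ρ ∈ range N, ‖∑ k ∈ K, c k * ee ((ρ : ℝ) / N * (φ k : ℝ))‖ ^ (2 * r) : ℝ) : ℂ)‖ := by
    rw [Complex.norm_real, Real.norm_of_nonneg]
    positivity
  rw [h1, h, norm_mul, Complex.norm_natCast]
  refine mul_le_mul_of_nonneg_left ?_ (Nat.cast_nonneg _)
  refine (norm_sum_le _ _).trans ?_
  unfold energy
  rw [Finset.card_eq_sum_ones, Nat.cast_sum]
  refine Finset.sum_le_sum fun z hz => ?_
  rw [Finset.mem_filter, Finset.mem_product, Fintype.mem_piFinset, Fintype.mem_piFinset] at hz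
  rw [norm_mul, RCLike.norm_conj, norm_prod, norm_prod]
  have h2 : ∏ i, ‖c (z.1 i)‖ ≤ 1 := Finset.prod_le_one (fun _ _ => norm_nonneg _) (fun i _ => hc _ (hz.1.1 i))
  have h3 : ∏ i, ‖c (z.2 i)‖ ≤ 1 := Finset.prod_le_one (fun _ _ => norm_nonneg _) (fun i _ => hc _ (hz.1.2 i))
  push_cast
  exact mul_le_one₀ h2 (Finset.prod_nonneg fun _ _ => norm_nonneg _) h3

theorem energy_succ (r : ℕ) (K : Finset ι) (φ : ι → ℤ) :
    energy (r + 1) K φ ≤ K.card ^ 2 * energy r K φ := by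
  classical
  obtain ⟨B, hB⟩ : ∃ B : ℕ, ∀ k ∈ K, |φ k| ≤ B := by
    refine ⟨∑ k ∈ K, (φ k).natAbs, fun k hk => ?_⟩
    have h1 : (φ k).natAbs ≤ ∑ k ∈ K, (φ k).natAbs :=
      Finset.single_le_sum (f := fun k => (φ k).natAbs) (fun _ _ => Nat.zero_le _) hk
    rw [Int.abs_eq_natAbs]
    exact_mod_cast h1
  set N : ℕ := 2 * (r + 1) * B + 1 with hNdef
  have hN1 : 2 * (r + 1) * B < N := by omega
  have hN2 : 2 * r * B < N := by
    have : 2 * r * B ≤ 2 * (r + 1) * B := by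
      apply Nat.mul_le_mul_right
      omega
    omega
  have h1 := dft_energy_eq (r + 1) K φ B N hB hN1
  have h2 := dft_energy_eq r K φ B N hB hN2
  have hNpos : (0 : ℝ) < N := by
    have : 0 < N := by omega
    exact_mod_cast this
  have h3 : (N : ℝ) * energy (r + 1) K φ ≤ N * ((K.card : ℝ) ^ 2 * energy r K φ) := by
    rw [← h1]
    have h4 : (N : ℝ) * ((K.card : ℝ) ^ 2 * energy r K φ) = (K.card : ℝ) ^ 2 * (N * energy r K φ) := by ring
    rw [h4, ← h2, Finset.mul_sum]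
    refine Finset.sum_le_sum fun ρ _ => ?_
    have h5 : ‖∑ k ∈ K, ee ((ρ : ℝ) / N * (φ k : ℝ))‖ ≤ K.card := by
      refine (norm_sum_le _ _).trans ?_
      simp
    have h6 : 2 * (r + 1) = 2 + 2 * r := by ring
    rw [h6, pow_add]
    refine mul_le_mul_of_nonneg_right ?_ (by positivity)
    exact pow_le_pow_left₀ (norm_nonneg _) h5 2
  have h7 := le_of_mul_le_mul_left h3 hNpos
  exact_mod_cast h7

theorem energy_subset (r : ℕ) {K K' : Finset ι} (h : K ⊆ K') (φ : ι → ℤ) :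
    energy r K φ ≤ energy r K' φ := by
  unfold energy
  apply Finset.card_le_card
  intro z hz
  simp only [Finset.mem_filter, Finset.mem_product, Fintype.mem_piFinset] at hz ⊢
  exact ⟨⟨fun i => h (hz.1.1 i), fun i => h (hz.1.2 i)⟩, hz.2⟩

theorem energy_sub_const (r : ℕ) (K : Finset ι) (φ : ι → ℤ) (h : ℤ) :
    energy r K (fun k => φ k - h) = energy r K φ := by
  unfold energy
  congr 1
  apply Finset.filter_congr
  intro z _
  simp only [Finset.sum_sub_distrib]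
  constructor
  · intro h1
    linarith
  · intro h1
    linarith

theorem energy_congr (r : ℕ) (K : Finset ι) {φ ψ : ι → ℤ} (h : ∀ k ∈ K, φ k = ψ k) :
    energy r K φ = energy r K ψ := by
  unfold energy
  congr 1
  apply Finset.filter_congr
  intro z hz
  simp only [Finset.mem_product, Fintype.mem_piFinset] at hz
  have h1 : ∑ i, φ (z.1 i) = ∑ i, ψ (z.1 i) := Finset.sum_congr rfl fun i _ => h _ (hz.1 i)
  have h2 : ∑ i, φ (z.2 i) = ∑ i, ψ (z.2 i) := Finset.sum_congr rfl fun i _ => h _ (hz.2 i)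
  rw [h1, h2]

theorem energy_comp_le {κ : Type} [DecidableEq κ] (r : ℕ) (K : Finset ι) (K' : Finset κ) (f : ι → κ)
    (φ : κ → ℤ) (hf : Set.InjOn f K) (hK : ∀ k ∈ K, f k ∈ K') :
    energy r K (fun k => φ (f k)) ≤ energy r K' φ := by
  unfold energy
  apply Finset.card_le_card_of_injOn (fun z => (fun i => f (z.1 i), fun i => f (z.2 i)))
  · intro z hz
    simp only [Finset.coe_filter, Finset.mem_product, Fintype.mem_piFinset, Set.mem_setOf_eq] at hz ⊢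
    exact ⟨⟨fun i => hK _ (hz.1.1 i), fun i => hK _ (hz.1.2 i)⟩, hz.2⟩
  · intro z hz w hw hzw
    simp only [Finset.coe_filter, Finset.mem_product, Fintype.mem_piFinset, Set.mem_setOf_eq] at hz hw
    simp only [Prod.mk.injEq] at hzw
    apply Prod.ext
    · funext i
      exact hf (hz.1.1 i) (hw.1.1 i) (congrFun hzw.1 i)
    · funext i
      exact hf (hz.1.2 i) (hw.1.2 i) (congrFun hzw.2 i)

end Pool.SSP
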