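import Mathlib

/-!
# SSP/LevSum: summation over the level sets (pure inequality)

Let `r ≥ 2` and let `s, α, β ≥ 0` be functions on a finite set `T`: `s ≤ 1`, `α ≤ M`, `β ≤ η`, `∑β ≤ M`,
`∑ s^{2r} ≤ M`, `∑ α ≤ M L`, and `#{α ≥ λ} ≤ C λ^{-(1+1/(2r))}` for `L^{-r} ≤ λ ≤ 1`. If `η` is small and `L` is large
(depending on `r, M, C, ε`) then `∑ s √(αβ) ≤ ε`.

Proof. We may assume `M ≥ 1`. Choose `j₀` (large, depending on `ε`), and let `J` be the largest integer with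
`2^{-J-1} ≥ L^{-r}` (`J ≥ j₀` for large `L`).
(I) `α > 2^{-j₀}`: at most `C 2^{j₀(1+τ)}` elements, `τ = 1/(2r)`; each term is `≤ √(Mη)`. Total `≤ ε/3` if `η` is small.
(II) `2^{-j-1} < α ≤ 2^{-j}`, `j₀ ≤ j ≤ J`: there are `n_j ≤ C 2^{(j+1)(1+τ)}` elements. Hölder:
`∑_{level j} s² ≤ n_j^{1-1/r} (∑ s^{2r})^{1/r} ≤ n_j^{1-1/r} M`. Cauchy–Schwarz:
`∑_{level j} s √(αβ) ≤ 2^{-j/2} (∑_{level j} s²)^{1/2} (∑ β)^{1/2} ≤ 2^{-j/2} n_j^{(1-1/r)/2} M`.
Exponent of `2^j`: `(1/2)((1+τ)(1-1/r) - 1) = (1/2)(τ - 1/r - τ/r) ≤ (1/2)(1/(2r) - 1/r) = -1/(4r)`. So the sum over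
`j ≥ j₀` is `≤ C' 2^{-j₀/(4r)} ≤ ε/3` for `j₀` large.
(III) `α ≤ 2^{-J-1} ≤ 2 L^{-r}`: `∑ s √(αβ) ≤ (∑ s² α)^{1/2} M^{1/2}`, and by Hölder with exponents `r`, `r/(r-1)`
`∑ s² α ≤ (∑ s^{2r})^{1/r} (∑ α^{r/(r-1)})^{(r-1)/r} ≤ M ((2L^{-r})^{1/(r-1)} ∑ α)^{(r-1)/r}
≤ M (2^{1/(r-1)} M L^{1 - r/(r-1)})^{(r-1)/r} = M · 2^{1/r} M^{(r-1)/r} L^{-1/r} → 0`.
-/

set_option autoImplicit false

namespace Pool.SSP

open Finset

private lemma pow_rpow' {x : ℝ} (hx : 0 ≤ x) (j : ℕ) (y : ℝ) : (x ^ j) ^ y = (x ^ y) ^ j := by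
  rw [← Real.rpow_natCast, ← Real.rpow_mul hx, mul_comm, Real.rpow_mul hx, Real.rpow_natCast]

/-- pointwise dyadic bound -/
private lemma point_bound (q : ℝ) (hq : 0 ≤ q) (lam a : ℝ) (j0 N : ℕ) (hlam : 0 < lam)
    (h0 : lam ≤ (1 / 2 : ℝ) ^ (j0 + 1)) (hN : (1 / 2 : ℝ) ^ N < lam) (ha : 2 * lam ≤ a)
    (haj : a ≤ (1 / 2 : ℝ) ^ j0) :
    a ^ q ≤ ∑ j ∈ (Finset.range N).filter (fun j => j0 ≤ j ∧ lam ≤ (1 / 2 : ℝ) ^ (j + 1)),
      (if (1 / 2 : ℝ) ^ (j + 1) ≤ a then ((1 / 2 : ℝ) ^ j) ^ q else 0) := by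
  classical
  have ha0 : 0 < a := by linarith
  have hex : ∃ j, j0 ≤ j ∧ (1 / 2 : ℝ) ^ (j + 1) ≤ a := by
    obtain ⟨n, hn⟩ := exists_pow_lt_of_lt_one ha0 (show (1 / 2 : ℝ) < 1 by norm_num)
    refine ⟨max j0 n, le_max_left _ _, ?_⟩
    exact (pow_le_pow_of_le_one (by norm_num) (by norm_num)
      ((le_max_right j0 n).trans (Nat.le_succ _))).trans hn.le
  obtain ⟨hj1, hj2⟩ := Nat.find_spec hex
  have hmin : ∀ m < Nat.find hex, ¬ (j0 ≤ m ∧ (1 / 2 : ℝ) ^ (m + 1) ≤ a) := fun m hm =>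
    Nat.find_min hex hm
  set j := Nat.find hex with hj
  have haj' : a ≤ (1 / 2 : ℝ) ^ j ∧ lam ≤ (1 / 2 : ℝ) ^ (j + 1) := by
    rcases Nat.eq_or_lt_of_le hj1 with h | h
    · rw [← h]
      exact ⟨haj, h0⟩
    · obtain ⟨m, hm⟩ : ∃ m, j = m + 1 := ⟨j - 1, by omega⟩
      have h3 := hmin m (by omega)
      have h4 : a < (1 / 2 : ℝ) ^ j := by
        by_contra h5
        push Not at h5
        apply h3
        rw [hm] at h5
        exact ⟨by omega, h5⟩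
      refine ⟨h4.le, ?_⟩
      have h5 : (1 / 2 : ℝ) ^ (j + 1) = (1 / 2 : ℝ) ^ j * (1 / 2) := pow_succ _ _
      rw [h5]
      linarith
  have hjN : j < N := by
    by_contra h
    push Not at h
    have h1 : (1 / 2 : ℝ) ^ (j + 1) ≤ (1 / 2 : ℝ) ^ N :=
      pow_le_pow_of_le_one (by norm_num) (by norm_num) (by omega)
    linarith [haj'.2]
  have hjmem : j ∈ (Finset.range N).filter (fun j => j0 ≤ j ∧ lam ≤ (1 / 2 : ℝ) ^ (j + 1)) := by
    rw [Finset.mem_filter, Finset.mem_range]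
    exact ⟨hjN, hj1, haj'.2⟩
  calc a ^ q ≤ ((1 / 2 : ℝ) ^ j) ^ q := Real.rpow_le_rpow ha0.le haj'.1 hq
    _ = (if (1 / 2 : ℝ) ^ (j + 1) ≤ a then ((1 / 2 : ℝ) ^ j) ^ q else 0) := by rw [if_pos hj2]
    _ ≤ _ := Finset.single_le_sum
      (f := fun j => (if (1 / 2 : ℝ) ^ (j + 1) ≤ a then ((1 / 2 : ℝ) ^ j) ^ q else 0))
      (fun j _ => by
        split_ifs
        · positivity
        · exact le_rfl) hjmem

private lemma geom_part {b : ℝ} (hb0 : 0 < b) (hb1 : b < 1) (j0 : ℕ) (S : Finset ℕ)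
    (hS : ∀ j ∈ S, j0 ≤ j) : ∑ j ∈ S, b ^ j ≤ b ^ j0 / (1 - b) := by
  classical
  have hsum : Summable (fun j : ℕ => b ^ j0 * b ^ j) :=
    (summable_geometric_of_lt_one hb0.le hb1).mul_left _
  have h1 : ∑ j ∈ S, b ^ j = ∑ j ∈ S.image (fun j => j - j0), b ^ j0 * b ^ j := by
    rw [Finset.sum_image]
    · refine Finset.sum_congr rfl fun j hj => ?_
      rw [← pow_add]
      congr 1
      have := hS j hj
      omega
    · intro x hx y hy hxy
      have h2 := hS x hx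
      have h3 := hS y hy
      dsimp only at hxy
      omega
  rw [h1]
  refine (hsum.sum_le_tsum _ fun j _ => by positivity).trans ?_
  rw [tsum_mul_left, tsum_geometric_of_lt_one hb0.le hb1, div_eq_mul_inv]

theorem level_sum (r : ℕ) (hr : 2 ≤ r) (M C ε : ℝ) (hM : 0 < M) (hC : 0 < C) (hε : 0 < ε) :
    ∃ (η L₀ : ℝ), 0 < η ∧ ∀ {ι : Type} (T : Finset ι) (s α β : ι → ℝ) (L : ℝ), L₀ ≤ L →
      (∀ i ∈ T, 0 ≤ s i ∧ s i ≤ 1) → (∀ i ∈ T, 0 ≤ α i ∧ α i ≤ M) →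
      (∀ i ∈ T, 0 ≤ β i ∧ β i ≤ η) → ∑ i ∈ T, β i ≤ M → ∑ i ∈ T, s i ^ (2 * r) ≤ M →
      ∑ i ∈ T, α i ≤ M * L →
      (∀ lam : ℝ, L ^ (-(r : ℝ)) ≤ lam → lam ≤ 1 →
        ((T.filter (fun i => lam ≤ α i)).card : ℝ) ≤ C * lam ^ (-(1 + 1 / (2 * (r : ℝ))))) →
      ∑ i ∈ T, s i * Real.sqrt (α i * β i) ≤ ε := by
  classical
  have hr2 : (2 : ℝ) ≤ r := by exact_mod_cast hr
  have hr0 : (0 : ℝ) < r := by linarith
  have hr1 : (0 : ℝ) < r - 1 := by linarith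
  obtain ⟨q, hq⟩ : ∃ q : ℝ, q = r / (r - 1) := ⟨_, rfl⟩
  obtain ⟨τ, hτ⟩ : ∃ τ : ℝ, τ = 1 / (2 * (r : ℝ)) := ⟨_, rfl⟩
  rw [← hτ]
  have hq1 : q - 1 = 1 / (r - 1) := by
    rw [hq]
    field_simp
    ring
  have hq1' : 0 < q - 1 := by
    rw [hq1]
    positivity
  have hq0 : 0 < q := by linarith
  have hτq : 1 + τ < q := by
    have h1 : τ < q - 1 := by
      rw [hτ, hq1]
      apply one_div_lt_one_div_of_lt hr1
      linarith
    linarith
  have hconj : (r : ℝ).HolderConjugate q := by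
    rw [Real.holderConjugate_iff]
    refine ⟨by linarith, ?_⟩
    rw [hq]
    field_simp
    ring
  obtain ⟨b, hb⟩ : ∃ b : ℝ, b = (1 / 2 : ℝ) ^ q * 2 ^ (1 + τ) := ⟨_, rfl⟩
  have hb0 : 0 < b := by
    rw [hb]
    positivity
  have hb1 : b < 1 := by
    have h1 : b = (2 : ℝ) ^ (1 + τ - q) := by
      rw [hb, Real.rpow_sub (by norm_num), one_div, Real.inv_rpow (by norm_num)]
      field_simp
    rw [h1]
    exact Real.rpow_lt_one_of_one_lt_of_neg (by norm_num) (by linarith)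
  -- the target size of the sum of `α ^ q`
  obtain ⟨A0, hA0, hA0'⟩ : ∃ A0 : ℝ, 0 < A0 ∧ ∀ A, 0 ≤ A → A ≤ A0 →
      Real.sqrt (M ^ (1 / (r : ℝ)) * A ^ (1 / q)) * Real.sqrt M ≤ ε / 2 := by
    have hMr : 0 < M ^ (1 / (r : ℝ)) := by positivity
    refine ⟨((ε / 2) ^ 2 / (M ^ (1 / (r : ℝ)) * M)) ^ q, by positivity, ?_⟩
    intro A hA hA1
    have h1 : A ^ (1 / q) ≤ (ε / 2) ^ 2 / (M ^ (1 / (r : ℝ)) * M) := by
      have h2 := Real.rpow_le_rpow hA hA1 (by positivity : 0 ≤ 1 / q)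
      rw [← Real.rpow_mul (by positivity), mul_one_div_cancel hq0.ne', Real.rpow_one] at h2
      exact h2
    rw [← Real.sqrt_mul (by positivity)]
    apply Real.sqrt_le_iff.2
    refine ⟨by positivity, ?_⟩
    calc M ^ (1 / (r : ℝ)) * A ^ (1 / q) * M
        ≤ M ^ (1 / (r : ℝ)) * ((ε / 2) ^ 2 / (M ^ (1 / (r : ℝ)) * M)) * M := by
          gcongr
      _ = (ε / 2) ^ 2 := by
          field_simp
  obtain ⟨j0, hj0⟩ : ∃ j0 : ℕ, C * 2 ^ (1 + τ) * (b ^ j0 / (1 - b)) ≤ A0 / 2 := by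
    have hc : 0 < A0 / 2 * (1 - b) / (C * 2 ^ (1 + τ)) := by
      have : 0 < 1 - b := by linarith
      positivity
    obtain ⟨n, hn⟩ := exists_pow_lt_of_lt_one hc hb1
    refine ⟨n, ?_⟩
    have h1b : 0 < 1 - b := by linarith
    rw [lt_div_iff₀ (by positivity)] at hn
    rw [mul_div_assoc', div_le_iff₀ h1b]
    linarith
  obtain ⟨δ, hδ⟩ : ∃ δ : ℝ, δ = (1 / 2 : ℝ) ^ j0 := ⟨_, rfl⟩
  have hδ0 : 0 < δ := by
    rw [hδ]
    positivity
  have hδ1 : δ ≤ 1 := by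
    rw [hδ]
    exact pow_le_one₀ (by norm_num) (by norm_num)
  obtain ⟨η, hη, hη'⟩ : ∃ η : ℝ, 0 < η ∧ C * δ ^ (-(1 + τ)) * Real.sqrt (M * η) ≤ ε / 2 := by
    have hK : 0 < C * δ ^ (-(1 + τ)) := by positivity
    refine ⟨(ε / 2 / (C * δ ^ (-(1 + τ)))) ^ 2 / M, by positivity, ?_⟩
    have h1 : M * ((ε / 2 / (C * δ ^ (-(1 + τ)))) ^ 2 / M) =
        (ε / 2 / (C * δ ^ (-(1 + τ)))) ^ 2 := by
      field_simp
    rw [h1, Real.sqrt_sq (by positivity)]
    apply le_of_eq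
    field_simp
  have hev : ∀ᶠ L : ℝ in Filter.atTop, 1 ≤ L ∧ L ^ (-(r : ℝ)) ≤ (1 / 2 : ℝ) ^ (j0 + 1) ∧
      (2 * L ^ (-(r : ℝ))) ^ (q - 1) * (M * L) ≤ A0 / 2 := by
    have h1 := Filter.eventually_ge_atTop (1 : ℝ)
    have h2 : ∀ᶠ L : ℝ in Filter.atTop, L ^ (-(r : ℝ)) ≤ (1 / 2 : ℝ) ^ (j0 + 1) :=
      ((tendsto_rpow_neg_atTop hr0).eventually (gt_mem_nhds (by positivity))).mono
        fun L hL => le_of_lt hL
    have h3 : ∀ᶠ L : ℝ in Filter.atTop, L ^ (-(q - 1)) ≤ A0 / 2 / (2 ^ (q - 1) * M) :=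
      ((tendsto_rpow_neg_atTop hq1').eventually (gt_mem_nhds (by positivity))).mono
        fun L hL => le_of_lt hL
    filter_upwards [h1, h2, h3] with L hL1 hL2 hL3
    refine ⟨hL1, hL2, ?_⟩
    have hL0 : 0 < L := by linarith
    have h4 : (2 * L ^ (-(r : ℝ))) ^ (q - 1) * (M * L) = 2 ^ (q - 1) * M * L ^ (-(q - 1)) := by
      rw [Real.mul_rpow (by norm_num) (by positivity), ← Real.rpow_mul hL0.le]
      have h5 : L ^ (-(r : ℝ) * (q - 1)) * L = L ^ (-(q - 1)) := by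
        nth_rewrite 2 [← Real.rpow_one L]
        rw [← Real.rpow_add hL0]
        congr 1
        rw [hq1]
        field_simp
        ring
      rw [← h5]
      ring
    rw [h4]
    rw [le_div_iff₀ (by positivity)] at hL3
    linarith
  obtain ⟨L₀, hL₀⟩ := Filter.eventually_atTop.1 hev
  refine ⟨η, L₀, hη, ?_⟩
  intro ι T s α β L hL hs hα hβ hβM hsM hαM hcard
  obtain ⟨hL1, hL2, hL3⟩ := hL₀ L hL
  have hLpos : 0 < L := by linarith
  obtain ⟨lam, hlam⟩ : ∃ lam : ℝ, lam = L ^ (-(r : ℝ)) := ⟨_, rfl⟩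
  rw [← hlam] at hL2 hL3 hcard
  have hlam0 : 0 < lam := by
    rw [hlam]
    positivity
  rw [← Finset.sum_filter_add_sum_filter_not T (fun i => δ ≤ α i)]
  have hI : ∑ i ∈ T.filter (fun i => δ ≤ α i), s i * Real.sqrt (α i * β i) ≤ ε / 2 := by
    have h1 : ∑ i ∈ T.filter (fun i => δ ≤ α i), s i * Real.sqrt (α i * β i) ≤
        (T.filter (fun i => δ ≤ α i)).card • Real.sqrt (M * η) := by
      apply Finset.sum_le_card_nsmul
      intro i hi
      have hiT := (Finset.mem_filter.1 hi).1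
      have h2 : Real.sqrt (α i * β i) ≤ Real.sqrt (M * η) :=
        Real.sqrt_le_sqrt (mul_le_mul (hα i hiT).2 (hβ i hiT).2 (hβ i hiT).1 hM.le)
      calc s i * Real.sqrt (α i * β i) ≤ 1 * Real.sqrt (M * η) :=
            mul_le_mul (hs i hiT).2 h2 (Real.sqrt_nonneg _) zero_le_one
        _ = Real.sqrt (M * η) := one_mul _
    refine h1.trans ?_
    rw [nsmul_eq_mul]
    refine le_trans ?_ hη'
    apply mul_le_mul_of_nonneg_right _ (Real.sqrt_nonneg _)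
    apply hcard δ _ hδ1
    refine hL2.trans ?_
    rw [hδ]
    exact pow_le_pow_of_le_one (by norm_num) (by norm_num) (Nat.le_succ _)
  have hII : ∑ i ∈ T.filter (fun i => ¬ δ ≤ α i), s i * Real.sqrt (α i * β i) ≤ ε / 2 := by
    set T' := T.filter (fun i => ¬ δ ≤ α i) with hT'
    have hsub : T' ⊆ T := Finset.filter_subset _ _
    have hCS : ∑ i ∈ T', s i * Real.sqrt (α i * β i) ≤
        Real.sqrt (∑ i ∈ T', s i ^ 2 * α i) * Real.sqrt (∑ i ∈ T', β i) := by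
      have h1 := Real.sum_mul_le_sqrt_mul_sqrt T' (fun i => s i * Real.sqrt (α i))
        (fun i => Real.sqrt (β i))
      have h2 : ∑ i ∈ T', s i * Real.sqrt (α i * β i) =
          ∑ i ∈ T', s i * Real.sqrt (α i) * Real.sqrt (β i) :=
        Finset.sum_congr rfl fun i hi => by
          rw [Real.sqrt_mul (hα i (hsub hi)).1]
          ring
      have h3 : ∑ i ∈ T', (s i * Real.sqrt (α i)) ^ 2 = ∑ i ∈ T', s i ^ 2 * α i :=
        Finset.sum_congr rfl fun i hi => by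
          rw [mul_pow, Real.sq_sqrt (hα i (hsub hi)).1]
      have h4 : ∑ i ∈ T', Real.sqrt (β i) ^ 2 = ∑ i ∈ T', β i :=
        Finset.sum_congr rfl fun i hi => Real.sq_sqrt (hβ i (hsub hi)).1
      rw [h3, h4] at h1
      rw [h2]
      exact h1
    have hHo : ∑ i ∈ T', s i ^ 2 * α i ≤
        M ^ (1 / (r : ℝ)) * (∑ i ∈ T', α i ^ q) ^ (1 / q) := by
      have h1 := Real.inner_le_Lp_mul_Lq_of_nonneg T' hconj (f := fun i => s i ^ 2) (g := α)
        (fun i _ => sq_nonneg (s i)) (fun i hi => (hα i (hsub hi)).1)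
      refine h1.trans ?_
      apply mul_le_mul_of_nonneg_right _ (by
        apply Real.rpow_nonneg
        exact Finset.sum_nonneg fun i hi => Real.rpow_nonneg (hα i (hsub hi)).1 _)
      apply Real.rpow_le_rpow (Finset.sum_nonneg fun i _ => by positivity) _ (by positivity)
      have h2 : ∀ i, (s i ^ 2) ^ (r : ℝ) = s i ^ (2 * r) := fun i => by
        rw [Real.rpow_natCast, ← pow_mul]
      simp only [h2]
      exact (Finset.sum_le_sum_of_subset_of_nonneg hsub fun i hi _ => by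
        have := (hs i hi).1
        positivity).trans hsM
    have hA : ∑ i ∈ T', α i ^ q ≤ A0 := by
      obtain ⟨N, hN⟩ := exists_pow_lt_of_lt_one hlam0 (show (1 / 2 : ℝ) < 1 by norm_num)
      set S := (Finset.range N).filter (fun j => j0 ≤ j ∧ lam ≤ (1 / 2 : ℝ) ^ (j + 1)) with hS
      have hpt : ∀ i ∈ T', α i ^ q ≤ (∑ j ∈ S,
          (if (1 / 2 : ℝ) ^ (j + 1) ≤ α i then ((1 / 2 : ℝ) ^ j) ^ q else 0)) +
          (2 * lam) ^ (q - 1) * α i := by
        intro i hi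
        have hαi := (hα i (hsub hi)).1
        have hαδ : α i < δ := by
          have := (Finset.mem_filter.1 hi).2
          linarith [not_le.1 this]
        have hS0 : 0 ≤ ∑ j ∈ S,
            (if (1 / 2 : ℝ) ^ (j + 1) ≤ α i then ((1 / 2 : ℝ) ^ j) ^ q else 0) :=
          Finset.sum_nonneg fun j _ => by
            split_ifs
            · positivity
            · exact le_rfl
        by_cases h : 2 * lam ≤ α i
        · have h1 := point_bound q hq0.le lam (α i) j0 N hlam0 hL2 hN h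
            (by rw [← hδ]; exact hαδ.le)
          have h2 : 0 ≤ (2 * lam) ^ (q - 1) * α i := by positivity
          linarith
        · push Not at h
          have h1 : α i ^ q ≤ (2 * lam) ^ (q - 1) * α i := by
            rcases hαi.eq_or_lt with h0 | h0
            · rw [← h0, Real.zero_rpow hq0.ne', mul_zero]
            · have h2 : α i ^ q = α i ^ (q - 1) * α i := by
                nth_rewrite 3 [← Real.rpow_one (α i)]
                rw [← Real.rpow_add h0]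
                congr 1
                ring
              rw [h2]
              exact mul_le_mul_of_nonneg_right
                (Real.rpow_le_rpow hαi h.le hq1'.le) hαi
          linarith
      refine (Finset.sum_le_sum hpt).trans ?_
      rw [Finset.sum_add_distrib, Finset.sum_comm, ← Finset.mul_sum]
      have h1 : (2 * lam) ^ (q - 1) * ∑ i ∈ T', α i ≤ A0 / 2 := by
        refine le_trans ?_ hL3
        apply mul_le_mul_of_nonneg_left _ (by positivity)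
        exact (Finset.sum_le_sum_of_subset_of_nonneg hsub fun i hi _ => (hα i hi).1).trans hαM
      have h2 : ∑ j ∈ S, ∑ i ∈ T',
          (if (1 / 2 : ℝ) ^ (j + 1) ≤ α i then ((1 / 2 : ℝ) ^ j) ^ q else 0) ≤ A0 / 2 := by
        have h3 : ∀ j ∈ S, ∑ i ∈ T',
            (if (1 / 2 : ℝ) ^ (j + 1) ≤ α i then ((1 / 2 : ℝ) ^ j) ^ q else 0) ≤
            C * 2 ^ (1 + τ) * b ^ j := by
          intro j hj
          obtain ⟨-, hj1, hj2⟩ := Finset.mem_filter.1 hj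
          rw [← Finset.sum_filter, Finset.sum_const, nsmul_eq_mul]
          have h4 : ((T'.filter (fun i => (1 / 2 : ℝ) ^ (j + 1) ≤ α i)).card : ℝ) ≤
              C * ((1 / 2 : ℝ) ^ (j + 1)) ^ (-(1 + τ)) := by
            refine le_trans ?_ (hcard _ hj2 (pow_le_one₀ (by norm_num) (by norm_num)))
            exact_mod_cast Finset.card_le_card (Finset.filter_subset_filter _ hsub)
          have h5 : ((1 / 2 : ℝ) ^ (j + 1)) ^ (-(1 + τ)) = (2 ^ (1 + τ)) ^ (j + 1) := by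
            rw [pow_rpow' (by norm_num), one_div, Real.inv_rpow (by norm_num),
              Real.rpow_neg (by norm_num), inv_inv]
          have h6 : ((1 / 2 : ℝ) ^ j) ^ q = ((1 / 2 : ℝ) ^ q) ^ j := pow_rpow' (by norm_num) _ _
          rw [h5] at h4
          rw [h6]
          calc ((T'.filter (fun i => (1 / 2 : ℝ) ^ (j + 1) ≤ α i)).card : ℝ) *
                ((1 / 2 : ℝ) ^ q) ^ j ≤ (C * (2 ^ (1 + τ)) ^ (j + 1)) * ((1 / 2 : ℝ) ^ q) ^ j :=
                mul_le_mul_of_nonneg_right h4 (by positivity)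
            _ = C * 2 ^ (1 + τ) * b ^ j := by
                rw [hb, mul_pow, pow_succ]
                ring
        refine (Finset.sum_le_sum h3).trans ?_
        rw [← Finset.mul_sum]
        refine le_trans ?_ hj0
        apply mul_le_mul_of_nonneg_left _ (by positivity)
        exact geom_part hb0 hb1 j0 S fun j hj => (Finset.mem_filter.1 hj).2.1
      linarith
    have hA1 : 0 ≤ ∑ i ∈ T', α i ^ q :=
      Finset.sum_nonneg fun i hi => Real.rpow_nonneg (hα i (hsub hi)).1 _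
    refine hCS.trans (le_trans ?_ (hA0' _ hA1 hA))
    apply mul_le_mul (Real.sqrt_le_sqrt hHo) _ (Real.sqrt_nonneg _) (Real.sqrt_nonneg _)
    apply Real.sqrt_le_sqrt
    exact (Finset.sum_le_sum_of_subset_of_nonneg hsub fun i hi _ => (hβ i hi).1).trans hβM
  linarith

end Pool.SSP
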