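import Mathlib
import Pool.Agent.SSP.Defs
import Pool.Agent.Lib.PrimePairs

/-!
# SSP/Ord: orders in `ZMod (primorial R)`, the function `vv`, the sum `GG`

* `ord_dvd`, `ord_sqf`, `ord_pos`: `addOrderOf t` divides `primorial R`, is squarefree and positive
  (`addOrderOf_dvd_card`, `primorial` is a product of distinct primes).
* `dvd_primorial`: a squarefree `q ≤ R` divides `primorial R`.
* `vv_ord`, `vv_neg`: `vv` depends only on the order; `vv (-t) = vv t` (`addOrderOf_neg`).
* `GG_ge`: `(1/2) log R ≤ GG R` and `1 ≤ GG R` for `R ≥ 1`. Proof: `1/φ(q) ≥ 1/q`, and `log_le_SQ` of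
  `Pool/Agent/Lib/PrimePairs.lean` with `D = 1` (`F 1 = 1`) gives `log R ≤ 2 ∑_{q ≤ R squarefree} 1/q`.
* `sum_mm`: `∑_{m ≤ R squarefree} m/φ(m)² ≤ C · GG R`. Proof: for squarefree `m`, `m/φ(m) = ∏_{p ∣ m} (1 + 1/(p-1)) =
  ∑_{k ∣ m} 1/φ(k)`. So the sum is `∑_{k} (1/φ(k)) ∑_{m = k j} 1/φ(m) ≤ ∑_k φ(k)^{-2} GG R` (`j` squarefree, coprime
  to `k`, `φ(kj) = φ(k) φ(j)`), and `∑_k φ(k)^{-2} < ∞` over squarefree `k`: e.g. `φ(k)² ≥ k^{3/2}/C` (for squarefree
  `k`: `(p-1)² ≥ p^{3/2}` for `p ≥ 5`, so `φ(k)² ≥ c k^{3/2}` with `c = (1/2^{3/2})(4/3^{3/2})`).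
* `div_phi`: `q/φ(q) ≤ 2^{ω(q)}` for squarefree `q` (indeed for all `q ≥ 1`).
-/

set_option autoImplicit false

namespace Pool.SSP

open Finset Pool.MRZ

namespace OrdAux

/-- `1/φ` as an arithmetic function -/
noncomputable def ip : ArithmeticFunction ℝ := ⟨fun n => 1 / (Nat.totient n : ℝ), by simp⟩

lemma ip_apply (n : ℕ) : ip n = 1 / (Nat.totient n : ℝ) := rfl

lemma ip_mult : ip.IsMultiplicative := by
  constructor
  · simp [ip_apply]
  · intro m n h
    rw [ip_apply, ip_apply, ip_apply, Nat.totient_mul h]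
    push_cast
    rw [one_div_mul_one_div]

/-- `1/φ²` as an arithmetic function -/
noncomputable def ip2 : ArithmeticFunction ℝ := ⟨fun n => 1 / (Nat.totient n : ℝ) ^ 2, by simp⟩

lemma ip2_apply (n : ℕ) : ip2 n = 1 / (Nat.totient n : ℝ) ^ 2 := rfl

lemma ip2_mult : ip2.IsMultiplicative := by
  constructor
  · simp [ip2_apply]
  · intro m n h
    rw [ip2_apply, ip2_apply, ip2_apply, Nat.totient_mul h]
    push_cast
    rw [one_div_mul_one_div, mul_pow]

lemma totient_sqf {m : ℕ} (hm : Squarefree m) : Nat.totient m = ∏ p ∈ m.primeFactors, (p - 1) := by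
  have h1 := Nat.totient_mul_prod_primeFactors m
  rw [Nat.prod_primeFactors_of_squarefree hm, mul_comm] at h1
  exact Nat.eq_of_mul_eq_mul_left (Nat.pos_of_ne_zero hm.ne_zero) h1

lemma div_phi_eq {m : ℕ} (hm : Squarefree m) :
    (m : ℝ) / (Nat.totient m : ℝ) = ∑ k ∈ m.divisors, 1 / (Nat.totient k : ℝ) := by
  have h1 := ip_mult.prodPrimeFactors_one_add_of_squarefree hm
  have h2 : ∑ k ∈ m.divisors, 1 / (Nat.totient k : ℝ) = ∑ d ∈ m.divisors, ip d := rfl
  rw [h2, ← h1]
  have h3 : (m : ℝ) = ∏ p ∈ m.primeFactors, (p : ℝ) := by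
    rw [← Nat.cast_prod, Nat.prod_primeFactors_of_squarefree hm]
  have h4 : (Nat.totient m : ℝ) = ∏ p ∈ m.primeFactors, ((p : ℝ) - 1) := by
    rw [totient_sqf hm]
    push_cast
    refine Finset.prod_congr rfl ?_
    intro p hp
    have := (Nat.prime_of_mem_primeFactors hp).one_lt
    rw [Nat.cast_sub this.le, Nat.cast_one]
  rw [h4]
  nth_rewrite 1 [h3]
  rw [← Finset.prod_div_distrib]
  refine Finset.prod_congr rfl ?_
  intro p hp
  have hp' := Nat.prime_of_mem_primeFactors hp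
  have h5 : (1 : ℝ) < p := by exact_mod_cast hp'.one_lt
  rw [ip_apply, Nat.totient_prime hp', Nat.cast_sub hp'.one_lt.le, Nat.cast_one]
  have h6 : (p : ℝ) - 1 ≠ 0 := by linarith
  field_simp
  ring

end OrdAux

theorem ord_dvd (R : ℕ) (t : ZMod (primorial R)) : addOrderOf t ∣ primorial R := by
  have h := addOrderOf_dvd_card (x := t)
  rwa [ZMod.card] at h

theorem ord_sqf (R : ℕ) (t : ZMod (primorial R)) : Squarefree (addOrderOf t) :=
  (squarefree_primorial R).squarefree_of_dvd (ord_dvd R t)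

theorem ord_pos (R : ℕ) (t : ZMod (primorial R)) : 0 < addOrderOf t :=
  Nat.pos_of_ne_zero (ord_sqf R t).ne_zero

theorem dvd_primorial (R q : ℕ) (hq : Squarefree q) (hqR : q ≤ R) : q ∣ primorial R := by
  rw [← Nat.prod_primeFactors_of_squarefree hq]
  unfold primorial
  apply Finset.prod_dvd_prod_of_subset
  intro p hp
  have hp' := Nat.prime_of_mem_primeFactors hp
  have hpl := Nat.dvd_of_mem_primeFactors hp
  simp only [Finset.mem_filter, Finset.mem_range]
  refine ⟨?_, hp'⟩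
  have := Nat.le_of_dvd (Nat.pos_of_ne_zero hq.ne_zero) hpl
  omega

theorem vv_ord (R : ℕ) (s t : ZMod (primorial R)) (h : addOrderOf s = addOrderOf t) : vv R s = vv R t := by
  unfold vv
  rw [h]

theorem vv_neg (R : ℕ) (t : ZMod (primorial R)) : vv R (-t) = vv R t :=
  vv_ord R (-t) t (addOrderOf_neg t)

theorem GG_ge (R : ℕ) (hR : 1 ≤ R) : (1 / 2 : ℝ) * Real.log R ≤ GG R ∧ 1 ≤ GG R := by
  constructor
  · have h1 := Pool.Agent.Lib.PrimePairs.log_le_SQ 1 R one_pos hR
    have h2 : Pool.Agent.Lib.PrimePairs.F 1 = 1 := by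
      unfold Pool.Agent.Lib.PrimePairs.F
      simp
    rw [h2] at h1
    have h3 : ∑ l ∈ Pool.Agent.Lib.PrimePairs.SQ 1 R, (1 : ℝ) / l ≤ GG R := by
      unfold GG
      have h4 : ∑ l ∈ Pool.Agent.Lib.PrimePairs.SQ 1 R, (1 : ℝ) / l ≤
          ∑ l ∈ Pool.Agent.Lib.PrimePairs.SQ 1 R, (1 : ℝ) / (Nat.totient l : ℝ) := by
        refine Finset.sum_le_sum ?_
        intro l hl
        rw [Pool.Agent.Lib.PrimePairs.mem_SQ] at hl
        have h5 : 0 < Nat.totient l := Nat.totient_pos.2 hl.1.1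
        have h6 : Nat.totient l ≤ l := Nat.totient_le l
        exact one_div_le_one_div_of_le (by exact_mod_cast h5) (by exact_mod_cast h6)
      refine h4.trans (Finset.sum_le_sum_of_subset_of_nonneg ?_ ?_)
      · intro l hl
        rw [Pool.Agent.Lib.PrimePairs.mem_SQ] at hl
        rw [Finset.mem_filter, Finset.mem_Icc]
        exact ⟨hl.1, hl.2.1⟩
      · intro l _ _
        positivity
    linarith
  · unfold GG
    have h1 : (1 : ℕ) ∈ (Icc 1 R).filter Squarefree := by
      rw [Finset.mem_filter, Finset.mem_Icc]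
      exact ⟨⟨le_refl 1, hR⟩, squarefree_one⟩
    have h2 := Finset.single_le_sum (f := fun q : ℕ => (1 : ℝ) / (Nat.totient q : ℝ))
      (fun q _ => by positivity) h1
    simpa using h2

theorem sum_mm : ∃ C : ℝ, 0 < C ∧ ∀ R : ℕ,
    ∑ m ∈ (Icc 1 R).filter Squarefree, (m : ℝ) / (Nat.totient m : ℝ) ^ 2 ≤ C * GG R := by
  refine ⟨Real.exp 2, Real.exp_pos 2, ?_⟩
  intro R
  have hk : ∑ k ∈ (Icc 1 R).filter Squarefree, 1 / (Nat.totient k : ℝ) ^ 2 ≤ Real.exp 2 := by
    have h1 : ∑ k ∈ (Icc 1 R).filter Squarefree, 1 / (Nat.totient k : ℝ) ^ 2 ≤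
        ∑ k ∈ (primorial R).divisors, OrdAux.ip2 k := by
      refine Finset.sum_le_sum_of_subset_of_nonneg ?_ ?_
      · intro k hk
        rw [Finset.mem_filter, Finset.mem_Icc] at hk
        rw [Nat.mem_divisors]
        exact ⟨dvd_primorial R k hk.2 hk.1.2, (primorial_pos R).ne'⟩
      · intro k _ _
        positivity
    refine h1.trans ?_
    rw [← OrdAux.ip2_mult.prodPrimeFactors_one_add_of_squarefree (squarefree_primorial R)]
    refine (Real.prod_one_add_le_exp_sum _ ?_).trans ?_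
    · intro k
      rw [OrdAux.ip2_apply]
      positivity
    refine Real.exp_le_exp.2 ?_
    have h2 : ∑ p ∈ (primorial R).primeFactors, OrdAux.ip2 p =
        ∑ p ∈ (primorial R).primeFactors, (fun k : ℕ => (1 : ℝ) / (k : ℝ) ^ 2) (p - 1) := by
      refine Finset.sum_congr rfl ?_
      intro p hp
      have hp' := Nat.prime_of_mem_primeFactors hp
      show 1 / (Nat.totient p : ℝ) ^ 2 = 1 / ((p - 1 : ℕ) : ℝ) ^ 2
      rw [Nat.totient_prime hp']
    rw [h2, ← Finset.sum_image (f := fun k : ℕ => (1 : ℝ) / (k : ℝ) ^ 2) (g := fun p : ℕ => p - 1)]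
    · refine le_trans ?_ (Pool.Agent.Lib.PrimePairs.sum_inv_sq_le R)
      refine Finset.sum_le_sum_of_subset_of_nonneg ?_ ?_
      · intro k hk
        rw [Finset.mem_image] at hk
        obtain ⟨p, hp, rfl⟩ := hk
        have hp' := Nat.prime_of_mem_primeFactors hp
        have h3 := (hp'.dvd_primorial_iff).1 (Nat.dvd_of_mem_primeFactors hp)
        have h4 := hp'.two_le
        rw [Finset.mem_Icc]
        omega
      · intro k _ _
        positivity
    · intro a ha b hb hab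
      have h3 := (Nat.prime_of_mem_primeFactors ha).two_le
      have h4 := (Nat.prime_of_mem_primeFactors hb).two_le
      have h5 : a - 1 = b - 1 := hab
      omega
  have hm : ∑ m ∈ (Icc 1 R).filter Squarefree, (m : ℝ) / (Nat.totient m : ℝ) ^ 2 =
      ∑ m ∈ (Icc 1 R).filter Squarefree, ∑ x ∈ m.divisorsAntidiagonal,
        (1 / (Nat.totient x.1 : ℝ) ^ 2) * (1 / (Nat.totient x.2 : ℝ)) := by
    refine Finset.sum_congr rfl ?_
    intro m hm
    rw [Finset.mem_filter, Finset.mem_Icc] at hm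
    have h1 : (m : ℝ) / (Nat.totient m : ℝ) ^ 2 =
        ((m : ℝ) / (Nat.totient m : ℝ)) * (1 / (Nat.totient m : ℝ)) := by
      rw [div_mul_div_comm, mul_one, pow_two]
    rw [h1, OrdAux.div_phi_eq hm.2, ← Nat.sum_divisorsAntidiagonal (fun k _ => 1 / (Nat.totient k : ℝ)),
      Finset.sum_mul]
    refine Finset.sum_congr rfl ?_
    intro x hx
    rw [Nat.mem_divisorsAntidiagonal] at hx
    have h2 : Squarefree (x.1 * x.2) := by
      rw [hx.1]
      exact hm.2
    have h3 := Nat.coprime_of_squarefree_mul h2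
    have h4 : (Nat.totient m : ℝ) = (Nat.totient x.1 : ℝ) * (Nat.totient x.2 : ℝ) := by
      rw [← hx.1, Nat.totient_mul h3]
      push_cast
      rfl
    rw [h4, one_div_mul_one_div, one_div_mul_one_div, ← mul_assoc, pow_two]
  rw [hm, ← Finset.sum_biUnion]
  · have h5 : ∑ x ∈ ((Icc 1 R).filter Squarefree).biUnion Nat.divisorsAntidiagonal,
        (1 / (Nat.totient x.1 : ℝ) ^ 2) * (1 / (Nat.totient x.2 : ℝ)) ≤
        ∑ x ∈ ((Icc 1 R).filter Squarefree) ×ˢ ((Icc 1 R).filter Squarefree),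
        (1 / (Nat.totient x.1 : ℝ) ^ 2) * (1 / (Nat.totient x.2 : ℝ)) := by
      refine Finset.sum_le_sum_of_subset_of_nonneg ?_ ?_
      · intro x hx
        rw [Finset.mem_biUnion] at hx
        obtain ⟨m, hm, hx⟩ := hx
        rw [Finset.mem_filter, Finset.mem_Icc] at hm
        rw [Nat.mem_divisorsAntidiagonal] at hx
        obtain ⟨hx1, hx2⟩ := hx
        have h6 : x.1 ∣ m := ⟨x.2, hx1.symm⟩
        have h7 : x.2 ∣ m := ⟨x.1, by rw [← hx1, mul_comm]⟩
        have hm0 : 0 < m := hm.1.1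
        have h8 := Nat.pos_of_dvd_of_pos h6 hm0
        have h9 := Nat.pos_of_dvd_of_pos h7 hm0
        have h10 := Nat.le_of_dvd hm0 h6
        have h11 := Nat.le_of_dvd hm0 h7
        rw [Finset.mem_product, Finset.mem_filter, Finset.mem_filter, Finset.mem_Icc,
          Finset.mem_Icc]
        exact ⟨⟨⟨h8, h10.trans hm.1.2⟩, hm.2.squarefree_of_dvd h6⟩,
          ⟨⟨h9, h11.trans hm.1.2⟩, hm.2.squarefree_of_dvd h7⟩⟩
      · intro x _ _
        positivity
    refine h5.trans ?_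
    rw [Finset.sum_product]
    have h6 : ∑ x ∈ (Icc 1 R).filter Squarefree, ∑ y ∈ (Icc 1 R).filter Squarefree,
        (1 / (Nat.totient x : ℝ) ^ 2) * (1 / (Nat.totient y : ℝ)) =
        (∑ k ∈ (Icc 1 R).filter Squarefree, 1 / (Nat.totient k : ℝ) ^ 2) * GG R := by
      unfold GG
      rw [Finset.sum_mul]
      refine Finset.sum_congr rfl ?_
      intro k _
      rw [Finset.mul_sum]
    have h7 : 0 ≤ GG R := Finset.sum_nonneg fun q _ => by positivity
    exact (le_of_eq h6).trans (mul_le_mul_of_nonneg_right hk h7)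
  · intro a ha b hb hab
    rw [Function.onFun, Finset.disjoint_left]
    intro x hx hx'
    rw [Nat.mem_divisorsAntidiagonal] at hx hx'
    exact hab (hx.1.symm.trans hx'.1)

theorem div_phi (q : ℕ) (hq : 1 ≤ q) : (q : ℝ) / (Nat.totient q : ℝ) ≤ 2 ^ q.primeFactors.card := by
  have h1 := Nat.totient_mul_prod_primeFactors q
  have h2 : ∏ p ∈ q.primeFactors, p ≤ ∏ p ∈ q.primeFactors, (2 * (p - 1)) := by
    refine Finset.prod_le_prod' ?_
    intro p hp
    have := (Nat.prime_of_mem_primeFactors hp).two_le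
    omega
  rw [Finset.prod_mul_distrib, Finset.prod_const] at h2
  have h3 : 0 < ∏ p ∈ q.primeFactors, (p - 1) := by
    refine Finset.prod_pos ?_
    intro p hp
    have := (Nat.prime_of_mem_primeFactors hp).two_le
    omega
  have h4 : 0 < Nat.totient q := Nat.totient_pos.2 hq
  have h5 : q ≤ 2 ^ q.primeFactors.card * Nat.totient q := by
    have h6 : q * ∏ p ∈ q.primeFactors, (p - 1) ≤
        (2 ^ q.primeFactors.card * Nat.totient q) * ∏ p ∈ q.primeFactors, (p - 1) := by
      calc q * ∏ p ∈ q.primeFactors, (p - 1) = Nat.totient q * ∏ p ∈ q.primeFactors, p := h1.symm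
        _ ≤ Nat.totient q * (2 ^ q.primeFactors.card * ∏ p ∈ q.primeFactors, (p - 1)) :=
          Nat.mul_le_mul_left _ h2
        _ = _ := by ring
    exact Nat.le_of_mul_le_mul_right h6 h3
  rw [div_le_iff₀ (by exact_mod_cast h4)]
  exact_mod_cast h5

end Pool.SSP
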