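import Mathlib
import Pool.Agent.SSP.Ord

/-!
# SSP/Ram: Ramanujan sums

* `sum_tors`: for `q ∣ L = primorial R`: `∑_{t : q • t = 0} chi R t n = q` if `q ∣ n`, else `0`. (The `t` with
  `q • t = 0` are the `j (L/q)`, `0 ≤ j < q`, and `chi R (j (L/q)) n = e(j n / q)`. Or: the set is an additive subgroup
  of order `q`, `t ↦ chi R t n` is a character of it, trivial iff `q ∣ n`.)
* `ram`: for `q ∣ L`: `∑_{addOrderOf t = q} chi R t n = ∑_{d ∣ q, d ∣ n} μ(q/d) d`. Proof: `∑_{d ∣ q} A_d = q 1_{q ∣ n}`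
  with `A_d = ∑_{addOrderOf t = d} chi R t n` (`q • t = 0 ↔ addOrderOf t ∣ q`); Möbius inversion on the divisors of `L`
  (e.g. strong induction on `q`, or `ArithmeticFunction.sum_eq_iff_sum_mul_moebius_eq_on`).
* `ram_cop`: if `n` is coprime to `q` the sum is `μ(q)`.
* `ram_le`: `‖∑_{addOrderOf t = q} chi R t n‖ ≤ ∑_{d ∣ q, d ∣ n} d`.
* `card_tors`: `#{t : q • t = 0} = q` for `q ∣ L` (so `≤ q`; `IsAddCyclic.card_nsmul_eq_zero_le`).
-/

set_option autoImplicit false

namespace Pool.SSP

open Finset Pool.MRZ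

theorem tors_eq (R q m : ℕ) (hm : primorial R = q * m) :
    (Finset.univ : Finset (ZMod (primorial R))).filter (fun t => q • t = 0) =
      (Finset.range q).image (fun j => ((j * m : ℕ) : ZMod (primorial R))) ∧
    Set.InjOn (fun j : ℕ => ((j * m : ℕ) : ZMod (primorial R))) (Finset.range q) := by
  have hL : 0 < primorial R := primorial_pos R
  have hq0 : 0 < q := Nat.pos_of_ne_zero fun h => by
    rw [hm, h, zero_mul] at hL
    exact lt_irrefl _ hL
  have hm0 : 0 < m := Nat.pos_of_ne_zero fun h => by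
    rw [hm, h, mul_zero] at hL
    exact lt_irrefl _ hL
  constructor
  · ext t
    rw [Finset.mem_filter, Finset.mem_image]
    constructor
    · rintro ⟨-, ht⟩
      have h1 : ((q * t.val : ℕ) : ZMod (primorial R)) = 0 := by
        rw [Nat.cast_mul, ZMod.natCast_zmod_val, ← nsmul_eq_mul]
        exact ht
      rw [ZMod.natCast_eq_zero_iff] at h1
      have h1' : q * m ∣ q * t.val := hm.symm.dvd.trans h1
      obtain ⟨j, hj⟩ := Nat.dvd_of_mul_dvd_mul_left hq0 h1'
      refine ⟨j, ?_, ?_⟩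
      · rw [Finset.mem_range]
        have h2 := (ZMod.val_lt t).trans_eq hm
        rw [hj, mul_comm q m] at h2
        exact lt_of_mul_lt_mul_left h2 (Nat.zero_le m)
      · rw [mul_comm, ← hj, ZMod.natCast_zmod_val]
    · rintro ⟨j, -, rfl⟩
      refine ⟨Finset.mem_univ _, ?_⟩
      rw [nsmul_eq_mul, ← Nat.cast_mul, ZMod.natCast_eq_zero_iff, hm]
      exact ⟨j, by ring⟩
  · intro a ha b hb hab
    have ha' : a * m < primorial R := by
      rw [hm]
      exact Nat.mul_lt_mul_of_pos_right (Finset.mem_range.1 ha) hm0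
    have hb' : b * m < primorial R := by
      rw [hm]
      exact Nat.mul_lt_mul_of_pos_right (Finset.mem_range.1 hb) hm0
    have h1 := congrArg ZMod.val hab
    simp only at h1
    rw [ZMod.val_cast_of_lt ha', ZMod.val_cast_of_lt hb'] at h1
    exact Nat.eq_of_mul_eq_mul_right hm0 h1

theorem card_tors (R q : ℕ) (hq : q ∣ primorial R) :
    ((Finset.univ : Finset (ZMod (primorial R))).filter (fun t => q • t = 0)).card = q := by
  obtain ⟨m, hm⟩ := hq
  obtain ⟨h1, h2⟩ := tors_eq R q m hm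
  rw [h1, Finset.card_image_of_injOn h2, Finset.card_range]

theorem sum_tors (R q n : ℕ) (hq : q ∣ primorial R) :
    ∑ t ∈ (Finset.univ : Finset (ZMod (primorial R))).filter (fun t => q • t = 0), chi R t n =
      if q ∣ n then (q : ℂ) else 0 := by
  obtain ⟨m, hm⟩ := hq
  obtain ⟨h1, h2⟩ := tors_eq R q m hm
  have hL : 0 < primorial R := primorial_pos R
  have hm0 : 0 < m := Nat.pos_of_ne_zero fun h => by
    rw [hm, h, mul_zero] at hL
    exact lt_irrefl _ hL
  rw [h1, Finset.sum_image h2]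
  obtain ⟨ζ, hζ⟩ : ∃ ζ : ℂ, ZMod.stdAddChar ((m * n : ℕ) : ZMod (primorial R)) = ζ := ⟨_, rfl⟩
  have hchi : ∀ j : ℕ, chi R ((j * m : ℕ) : ZMod (primorial R)) n = ζ ^ j := by
    intro j
    have h3 : ((j * m : ℕ) : ZMod (primorial R)) * (n : ZMod (primorial R)) =
        j • ((m * n : ℕ) : ZMod (primorial R)) := by
      rw [nsmul_eq_mul]
      push_cast
      ring
    unfold chi
    rw [h3, AddChar.map_nsmul_eq_pow, hζ]
  simp only [hchi]
  have hζq : ζ ^ q = 1 := by
    rw [← hζ, ← AddChar.map_nsmul_eq_pow]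
    have h3 : q • ((m * n : ℕ) : ZMod (primorial R)) = 0 := by
      rw [nsmul_eq_mul, ← Nat.cast_mul, ZMod.natCast_eq_zero_iff, hm]
      exact ⟨n, by ring⟩
    rw [h3, AddChar.map_zero_eq_one]
  have hiff : ζ = 1 ↔ q ∣ n := by
    constructor
    · intro h3
      have h4 : ((m * n : ℕ) : ZMod (primorial R)) = 0 := by
        apply ZMod.injective_stdAddChar
        rw [hζ, h3, AddChar.map_zero_eq_one]
      rw [ZMod.natCast_eq_zero_iff, hm, mul_comm q m] at h4
      exact Nat.dvd_of_mul_dvd_mul_left hm0 h4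
    · rintro ⟨c, rfl⟩
      have h4 : ((m * (q * c) : ℕ) : ZMod (primorial R)) = 0 := by
        rw [ZMod.natCast_eq_zero_iff, hm]
        exact ⟨c, by ring⟩
      rw [← hζ, h4, AddChar.map_zero_eq_one]
  by_cases hd : q ∣ n
  · rw [if_pos hd, hiff.2 hd]
    simp
  · rw [if_neg hd]
    have h3 : ζ ≠ 1 := fun h => hd (hiff.1 h)
    rw [geom_sum_eq h3, hζq, sub_self, zero_div]

theorem ram (R q n : ℕ) (hq : q ∣ primorial R) :
    ∑ t ∈ (Finset.univ : Finset (ZMod (primorial R))).filter (fun t => addOrderOf t = q), chi R t n =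
      ∑ d ∈ q.divisors.filter (fun d => d ∣ n), ((ArithmeticFunction.moebius (q / d) : ℤ) : ℂ) * (d : ℂ) := by
  have hL : 0 < primorial R := primorial_pos R
  have key := (ArithmeticFunction.sum_eq_iff_sum_mul_moebius_eq_on
    (f := fun q => ∑ t ∈ (Finset.univ : Finset (ZMod (primorial R))).filter
      (fun t => addOrderOf t = q), chi R t n)
    (g := fun q => if q ∣ n then (q : ℂ) else 0) {q | q ∣ primorial R}
    (fun a b hab hb => hab.trans hb)).1 (by
      intro q hq0 hq
      rw [← sum_tors R q n hq]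
      have h1 : (Finset.univ : Finset (ZMod (primorial R))).filter (fun t => q • t = 0) =
          q.divisors.biUnion fun d => (Finset.univ : Finset (ZMod (primorial R))).filter
            (fun t => addOrderOf t = d) := by
        ext t
        simp only [Finset.mem_filter, Finset.mem_univ, true_and, Finset.mem_biUnion,
          Nat.mem_divisors]
        constructor
        · intro ht
          exact ⟨_, ⟨addOrderOf_dvd_iff_nsmul_eq_zero.2 ht, hq0.ne'⟩, rfl⟩
        · rintro ⟨d, ⟨hd, -⟩, rfl⟩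
          exact addOrderOf_dvd_iff_nsmul_eq_zero.1 hd
      rw [h1, Finset.sum_biUnion]
      intro a _ b _ hab
      rw [Function.onFun, Finset.disjoint_left]
      intro t ha hb
      rw [Finset.mem_filter] at ha hb
      exact hab (ha.2.symm.trans hb.2)) q (Nat.pos_of_dvd_of_pos hq hL) hq
  rw [← key, Nat.sum_divisorsAntidiagonal'
    (f := fun a b => ((ArithmeticFunction.moebius a : ℤ) : ℂ) * if b ∣ n then (b : ℂ) else 0),
    Finset.sum_filter]
  refine Finset.sum_congr rfl fun d _ => ?_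
  rw [mul_ite, mul_zero]

theorem ram_cop (R q n : ℕ) (hq : q ∣ primorial R) (hn : Nat.Coprime n q) :
    ∑ t ∈ (Finset.univ : Finset (ZMod (primorial R))).filter (fun t => addOrderOf t = q), chi R t n =
      ((ArithmeticFunction.moebius q : ℤ) : ℂ) := by
  have hL : 0 < primorial R := primorial_pos R
  have hq0 := Nat.pos_of_dvd_of_pos hq hL
  rw [ram R q n hq]
  have h1 : q.divisors.filter (fun d => d ∣ n) = {1} := by
    ext d
    rw [Finset.mem_filter, Nat.mem_divisors, Finset.mem_singleton]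
    constructor
    · rintro ⟨⟨h1, -⟩, h2⟩
      exact Nat.eq_one_of_dvd_coprimes hn h2 h1
    · rintro rfl
      exact ⟨⟨one_dvd _, hq0.ne'⟩, one_dvd _⟩
  rw [h1, Finset.sum_singleton, Nat.div_one, Nat.cast_one, mul_one]

theorem ram_le (R q n : ℕ) (hq : q ∣ primorial R) :
    ‖∑ t ∈ (Finset.univ : Finset (ZMod (primorial R))).filter (fun t => addOrderOf t = q), chi R t n‖ ≤
      ∑ d ∈ q.divisors.filter (fun d => d ∣ n), (d : ℝ) := by
  rw [ram R q n hq]
  refine (norm_sum_le _ _).trans (Finset.sum_le_sum fun d _ => ?_)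
  rw [norm_mul, Complex.norm_natCast, Complex.norm_intCast]
  have h1 : |((ArithmeticFunction.moebius (q / d) : ℤ) : ℝ)| ≤ 1 := by
    rw [← Int.cast_abs]
    exact_mod_cast ArithmeticFunction.abs_moebius_le_one
  calc _ ≤ 1 * (d : ℝ) := mul_le_mul_of_nonneg_right h1 (Nat.cast_nonneg d)
    _ = d := one_mul _

end Pool.SSP
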