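import Mathlib
import Pool.Agent.SSP.Ram

/-!
# SSP/Major: the majorant

* `lamR_prime`: for a prime `p > R ≥ 1`: `lamR R p = GG R`. Proof: group the sum over `t` by `q = addOrderOf t ≤ R`
  (`q` squarefree, `q ∣ primorial R`, and every squarefree `q ≤ R` occurs): by `ram_cop` (`p` prime, `q ≤ R < p`, so
  coprime) it is `∑_{q ≤ R squarefree} (μ(q)/φ(q)) μ(q) = GG R` (`μ(q)² = 1`).
* `lamR_real`: `conj (lamR R n) = lamR R n` (`vv_neg`, `chi R (-t) n = conj (chi R t n)`).
* `nu_eq`: `nu R n = ∑_t uu R t · chi R t n` (`‖z‖² = z · conj z = z²`, `chi_add`, reindex `t = f + f'`).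
* `nu_split`: `nu = nuF + nuS`.
* `uu_supp`: `uu R t = 0` if `addOrderOf t > R²`: if `vv f ≠ 0 ≠ vv (t-f)` then `addOrderOf t` divides
  `addOrderOf f * addOrderOf (t-f) ≤ R²` (`t = f + (t - f)`; `addOrderOf_add_dvd...` or `nsmul`).
* `uu_ord`: `uu` depends only on the order: if `addOrderOf s = addOrderOf t` there is a unit `c` of `ZMod L` with
  `s = c t` (both are generators of the same cyclic subgroup; write `t = a (L/q)`, `s = a' (L/q)` with `a, a'` prime to
  `q` and lift the unit `a'/a` of `ZMod q` with `ZMod.unitsMap_surjective`), and `vv R (c f) = vv R f`.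
* `maj`: for all `k ≤ X`, `R ≥ 2`, `X ≤ R^17`: `thp k ≤ 34 · nu R k + (if k ≤ R then log X else 0)`. Proof: only primes
  `k` matter; for `k > R`: `nu R k = GG R ≥ (1/2) log R ≥ (1/34) log X`.
-/

set_option autoImplicit false

namespace Pool.SSP

open Finset Pool.MRZ

lemma conj_chi (R : ℕ) (t : ZMod (primorial R)) (n : ℕ) :
    (starRingEnd ℂ) (chi R t n) = chi R (-t) n := by
  unfold chi
  rw [neg_mul, AddChar.map_neg_eq_conj]

lemma GG_nonneg (R : ℕ) : 0 ≤ GG R := by
  unfold GG
  exact Finset.sum_nonneg fun q _ => by positivity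

lemma GG_pos (R : ℕ) (hR : 1 ≤ R) : 0 < GG R := by
  have := (GG_ge R hR).2
  linarith

theorem lamR_prime (R p : ℕ) (hR : 1 ≤ R) (hp : p.Prime) (hpR : R < p) : lamR R p = (GG R : ℂ) := by
  classical
  have h1 : lamR R p = ∑ t ∈ (Finset.univ : Finset (ZMod (primorial R))).filter
      (fun t => addOrderOf t ≤ R), (vv R t : ℂ) * chi R t p := by
    unfold lamR
    rw [Finset.sum_filter]
    refine Finset.sum_congr rfl fun t _ => ?_
    split_ifs with h
    · rfl
    · unfold vv
      rw [if_neg h]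
      simp
  have h2 : ∀ t ∈ (Finset.univ : Finset (ZMod (primorial R))).filter
      (fun t => addOrderOf t ≤ R), addOrderOf t ∈ (Icc 1 R).filter Squarefree := by
    intro t ht
    rw [Finset.mem_filter] at ht
    rw [Finset.mem_filter, Finset.mem_Icc]
    exact ⟨⟨ord_pos R t, ht.2⟩, ord_sqf R t⟩
  rw [h1, ← Finset.sum_fiberwise_of_maps_to h2]
  unfold GG
  push_cast
  refine Finset.sum_congr rfl fun q hq => ?_
  rw [Finset.mem_filter, Finset.mem_Icc] at hq
  obtain ⟨⟨hq1, hqR⟩, hqs⟩ := hq
  have h3 : ((Finset.univ : Finset (ZMod (primorial R))).filter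
      (fun t => addOrderOf t ≤ R)).filter (fun t => addOrderOf t = q) =
      (Finset.univ : Finset (ZMod (primorial R))).filter (fun t => addOrderOf t = q) := by
    ext t
    simp only [Finset.mem_filter, Finset.mem_univ, true_and]
    constructor
    · intro h
      exact h.2
    · intro h
      exact ⟨h ▸ hqR, h⟩
  rw [h3]
  have h4 : ∀ t ∈ (Finset.univ : Finset (ZMod (primorial R))).filter (fun t => addOrderOf t = q),
      (vv R t : ℂ) * chi R t p =
      (((ArithmeticFunction.moebius q : ℤ) : ℂ) / (Nat.totient q : ℂ)) * chi R t p := by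
    intro t ht
    rw [Finset.mem_filter] at ht
    unfold vv
    rw [ht.2, if_pos hqR]
    push_cast
    rfl
  rw [Finset.sum_congr rfl h4, ← Finset.mul_sum]
  have h5 : Nat.Coprime p q := by
    rw [Nat.Prime.coprime_iff_not_dvd hp]
    intro hd
    have := Nat.le_of_dvd (by omega) hd
    omega
  rw [ram_cop R q p (dvd_primorial R q hqs hqR) h5]
  have h6 : ((ArithmeticFunction.moebius q : ℤ) : ℂ) * ((ArithmeticFunction.moebius q : ℤ) : ℂ) = 1 := by
    have h7 : ArithmeticFunction.moebius q * ArithmeticFunction.moebius q = 1 := by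
      have h8 := ArithmeticFunction.moebius_sq_eq_one_of_squarefree hqs
      rw [sq] at h8
      exact h8
    exact_mod_cast h7
  rw [div_mul_eq_mul_div, h6]

theorem lamR_real (R n : ℕ) : (starRingEnd ℂ) (lamR R n) = lamR R n := by
  unfold lamR
  rw [map_sum]
  refine Fintype.sum_equiv (Equiv.neg _) _ _ fun t => ?_
  rw [map_mul, conj_chi, Equiv.neg_apply, vv_neg, Complex.conj_ofReal]

theorem nu_nonneg (R n : ℕ) : 0 ≤ nu R n := by
  unfold nu
  exact div_nonneg (sq_nonneg _) (GG_nonneg R)

theorem nu_eq (R n : ℕ) : (nu R n : ℂ) = ∑ t : ZMod (primorial R), (uu R t : ℂ) * chi R t n := by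
  have h1 : (nu R n : ℂ) = ((GG R)⁻¹ : ℝ) * (lamR R n * lamR R n) := by
    unfold nu
    rw [div_eq_mul_inv, mul_comm]
    push_cast
    congr 1
    have h2 := Complex.mul_conj (lamR R n)
    rw [lamR_real, Complex.normSq_eq_norm_sq] at h2
    rw [h2]
    push_cast
    rfl
  rw [h1]
  unfold lamR uu
  rw [Finset.sum_mul_sum, Finset.mul_sum]
  have h3 : ∀ f : ZMod (primorial R), ∑ f' : ZMod (primorial R),
      (vv R f : ℂ) * chi R f n * ((vv R f' : ℂ) * chi R f' n) =
      ∑ t : ZMod (primorial R), (vv R f : ℂ) * (vv R (t - f) : ℂ) * chi R t n := by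
    intro f
    refine Fintype.sum_equiv (Equiv.addRight f) _ _ fun f' => ?_
    rw [Equiv.coe_addRight, add_sub_cancel_right, chi_add]
    ring
  simp_rw [h3]
  rw [← Finset.mul_sum, Finset.sum_comm, Finset.mul_sum]
  refine Finset.sum_congr rfl fun t _ => ?_
  push_cast
  rw [← Finset.sum_mul]
  ring

theorem nu_split (R w n : ℕ) : (nu R n : ℂ) = nuF R w n + nuS R w n := by
  rw [nu_eq]
  unfold nuF nuS
  rw [← Finset.sum_filter_add_sum_filter_not Finset.univ (fun t => addOrderOf t ≤ w)]
  simp only [not_le]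

theorem uu_supp (R : ℕ) (hR : 1 ≤ R) (t : ZMod (primorial R)) (h : R ^ 2 < addOrderOf t) : uu R t = 0 := by
  unfold uu
  have h1 : ∀ f : ZMod (primorial R), vv R f * vv R (t - f) = 0 := by
    intro f
    by_cases hf : addOrderOf f ≤ R
    · by_cases hf' : addOrderOf (t - f) ≤ R
      · exfalso
        have h2 : addOrderOf (f + (t - f)) ∣ Nat.lcm (addOrderOf f) (addOrderOf (t - f)) :=
          (AddCommute.all f (t - f)).addOrderOf_add_dvd_lcm
        rw [add_sub_cancel] at h2
        have h3 : addOrderOf t ∣ addOrderOf f * addOrderOf (t - f) :=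
          h2.trans (Nat.lcm_dvd_mul _ _)
        have h4 := Nat.le_of_dvd (Nat.mul_pos (ord_pos R f) (ord_pos R (t - f))) h3
        have h5 : addOrderOf f * addOrderOf (t - f) ≤ R * R := Nat.mul_le_mul hf hf'
        rw [sq] at h
        omega
      · have h2 : vv R (t - f) = 0 := by
          unfold vv
          rw [if_neg hf']
        rw [h2, mul_zero]
    · have h2 : vv R f = 0 := by
        unfold vv
        rw [if_neg hf]
      rw [h2, zero_mul]
  rw [Finset.sum_eq_zero fun f _ => h1 f, mul_zero]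

lemma ord_unit_mul {N : ℕ} (u x : ZMod N) (hu : IsUnit u) : addOrderOf (u * x) = addOrderOf x := by
  have h1 : Function.Injective (AddMonoidHom.mulLeft u) := by
    intro a b hab
    exact hu.mul_left_cancel hab
  exact addOrderOf_injective (AddMonoidHom.mulLeft u) h1 x

lemma exists_unit_mul {N : ℕ} [NeZero N] (s t : ZMod N) (h : addOrderOf s = addOrderOf t) :
    ∃ c : ZMod N, IsUnit c ∧ s = c * t := by
  obtain ⟨d, hd, u, hu, rfl⟩ := s.eq_unit_mul_divisor
  obtain ⟨d', hd', u', hu', rfl⟩ := t.eq_unit_mul_divisor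
  have hN : N ≠ 0 := NeZero.ne N
  rw [ord_unit_mul u _ hu, ord_unit_mul u' _ hu', ZMod.addOrderOf_coe _ hN, ZMod.addOrderOf_coe _ hN,
    Nat.gcd_eq_right hd, Nat.gcd_eq_right hd'] at h
  have h1 : d = d' := by
    have h2 : N / (N / d) = N / (N / d') := by rw [h]
    rwa [Nat.div_div_self hd hN, Nat.div_div_self hd' hN] at h2
  subst h1
  obtain ⟨v, rfl⟩ := hu
  obtain ⟨v', rfl⟩ := hu'
  refine ⟨(v * v'⁻¹ : (ZMod N)ˣ), Units.isUnit _, ?_⟩
  rw [← mul_assoc]
  congr 1
  rw [← Units.val_mul]
  simp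

theorem uu_ord (R : ℕ) (s t : ZMod (primorial R)) (h : addOrderOf s = addOrderOf t) : uu R s = uu R t := by
  obtain ⟨c, hc, rfl⟩ := exists_unit_mul s t h
  unfold uu
  congr 1
  obtain ⟨v, rfl⟩ := hc
  symm
  refine Fintype.sum_equiv (Units.mulLeft v) _ _ fun f => ?_
  rw [Units.mulLeft_apply, ← mul_sub, vv_ord R _ f (ord_unit_mul _ f v.isUnit),
    vv_ord R _ (t - f) (ord_unit_mul _ (t - f) v.isUnit)]

theorem maj (R X k : ℕ) (hR : 2 ≤ R) (hX : X ≤ R ^ 17) (hk : k ≤ X) :
    thp k ≤ 34 * nu R k + (if k ≤ R then Real.log X else 0) := by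
  have h0 := nu_nonneg R k
  have hif : 0 ≤ (if k ≤ R then Real.log X else 0) := by
    split_ifs
    · exact Real.log_natCast_nonneg X
    · exact le_rfl
  by_cases hp : k.Prime
  · have hlk : Real.log k ≤ Real.log X := by
      apply Real.log_le_log
      · exact_mod_cast hp.pos
      · exact_mod_cast hk
    unfold thp
    rw [if_pos hp]
    by_cases hkR : k ≤ R
    · rw [if_pos hkR]
      linarith
    · rw [if_neg hkR, add_zero]
      have hR1 : 1 ≤ R := by omega
      have hG := GG_pos R hR1
      have h1 : nu R k = GG R := by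
        unfold nu
        rw [lamR_prime R k hR1 hp (by omega), Complex.norm_real, Real.norm_eq_abs, sq_abs]
        field_simp
      rw [h1]
      have h2 := (GG_ge R hR1).1
      have h3 : Real.log X ≤ 17 * Real.log R := by
        have h4 : Real.log X ≤ Real.log ((R : ℝ) ^ 17) := by
          apply Real.log_le_log
          · have : 0 < X := lt_of_lt_of_le hp.pos hk
            exact_mod_cast this
          · exact_mod_cast hX
        rw [Real.log_pow] at h4
        push_cast at h4
        exact h4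
      linarith
  · have h1 : thp k = 0 := by
      unfold thp
      rw [if_neg hp]
    rw [h1]
    linarith

end Pool.SSP
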