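import Mathlib
import Pool.Agent.SSP.Major

/-!
# SSP/Coef: the Fourier coefficients of the majorant are small

`uu_le`: `|uu R t| ≤ C · 12^{ω(q)} / q`, `q = addOrderOf t`, for all `R ≥ 1`.

Proof. `|uu R t| ≤ (GG R)⁻¹ ∑_f |vv f| |vv (t-f)|`, and `|vv f| ≤ 1/φ(addOrderOf f)` if `addOrderOf f ≤ R`, else `0`.
Let `r₁ = addOrderOf f`, `r₂ = addOrderOf (t - f)`, both `≤ R`, squarefree, dividing `L = primorial R`.
(1) For given `(r₁, r₂)` the number of `f` is at most `gcd(r₁, r₂)`: if `f, f'` are two of them then `δ = f - f'` has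
`r₁ • δ = 0` and `r₂ • δ = 0`, so `gcd(r₁,r₂) • δ = 0`; use `card_tors`.
(2) With `m = r₁/gcd(r₁,q)` we have also `m = r₂/gcd(r₂,q)`: both are `addOrderOf (q • f) = addOrderOf (q • (f - t))`
(`addOrderOf_nsmul`: the order of `q • f` is `r₁ / gcd(r₁, q)`; `q • t = 0`). So `r₁ = m d₁`, `r₂ = m d₂`,
`d₁, d₂ ∣ q`, `m ≤ R` squarefree and coprime to `q`, and `lcm(d₁, d₂) = q` because `q ∣ lcm(r₁, r₂) = m lcm(d₁,d₂)`.
(3) `gcd(r₁,r₂) = m gcd(d₁,d₂)`, `φ(r₁)φ(r₂) = φ(m)² φ(d₁) φ(d₂)`, `φ(d₁)φ(d₂) = φ(q) φ(gcd(d₁,d₂))`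
(`Nat.totient_gcd_mul_totient_mul` or the multiplicativity for squarefree numbers:
`φ(a) φ(b) = φ(lcm a b) φ(gcd a b)`).
(4) The sum is at most `∑_m m/φ(m)² · ∑_{d₁,d₂ ∣ q} gcd(d₁,d₂)/(φ(q) φ(gcd(d₁,d₂)))`. By `div_phi`
`g/φ(g) ≤ 2^{ω(q)}` for `g ∣ q` and `1/φ(q) ≤ 2^{ω(q)}/q`; the number of pairs `(d₁,d₂)` of divisors with
`lcm = q` is `3^{ω(q)}` (squarefree `q`); the sum over `m` is `≤ C GG R` (`sum_mm`). Total `≤ C 12^{ω(q)}/q`.
(Any constant base instead of `12` would do, but please prove the statement with `16` which leaves room: the number of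
pairs `(d₁, d₂)` of divisors of `q` is `4^{ω(q)}` without using `lcm = q`.)
-/

set_option autoImplicit false

namespace Pool.SSP

open Finset Pool.MRZ

namespace CoefAux

/-- `φ(a) φ(b) = φ(gcd) φ(lcm)` -/
theorem totient_gcd_lcm (a b : ℕ) (ha : 0 < a) :
    Nat.totient a * Nat.totient b = Nat.totient (Nat.gcd a b) * Nat.totient (Nat.lcm a b) := by
  have hg : 0 < Nat.gcd a b := Nat.gcd_pos_of_pos_left b ha
  have h1 := Nat.totient_gcd_mul_totient_mul a b
  have h2 := Nat.totient_gcd_mul_totient_mul (Nat.gcd a b) (Nat.lcm a b)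
  have h3 : Nat.gcd (Nat.gcd a b) (Nat.lcm a b) = Nat.gcd a b :=
    Nat.gcd_eq_left ((Nat.gcd_dvd_left a b).trans (Nat.dvd_lcm_left a b))
  rw [h3, Nat.gcd_mul_lcm] at h2
  have h4 : Nat.totient (Nat.gcd a b) * Nat.totient (a * b) = 
      Nat.totient (Nat.gcd a b) * Nat.totient (Nat.lcm a b) * Nat.gcd a b := h2
  rw [h1] at h4
  exact Nat.eq_of_mul_eq_mul_right hg h4

theorem card_div (q : ℕ) (hq : Squarefree q) : q.divisors.card ≤ 2 ^ q.primeFactors.card := by
  rw [Nat.card_divisors hq.ne_zero]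
  refine Finset.prod_le_pow_card _ _ _ fun p _ => ?_
  have := hq.natFactorization_le_one p
  omega

theorem four_pow (n : ℕ) : (2 : ℝ) ^ n * 2 ^ n = 4 ^ n := by
  rw [← mul_pow]
  norm_num

theorem card_le (R r1 r2 : ℕ) (h1 : r1 ∣ primorial R) (t : ZMod (primorial R)) :
    ((Finset.univ : Finset (ZMod (primorial R))).filter
      (fun f => addOrderOf f = r1 ∧ addOrderOf (t - f) = r2)).card ≤ Nat.gcd r1 r2 := by
  rcases Finset.eq_empty_or_nonempty ((Finset.univ : Finset (ZMod (primorial R))).filter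
      (fun f => addOrderOf f = r1 ∧ addOrderOf (t - f) = r2)) with h | ⟨f0, hf0⟩
  · rw [h]
    simp
  rw [Finset.mem_filter] at hf0
  obtain ⟨-, h01, h02⟩ := hf0
  rw [← card_tors R (Nat.gcd r1 r2) ((Nat.gcd_dvd_left r1 r2).trans h1)]
  refine Finset.card_le_card_of_injOn (fun f => f - f0) ?_ ?_
  · intro f hf
    simp only [Finset.coe_filter, Finset.mem_univ, true_and, Set.mem_ofPred_eq] at hf ⊢
    obtain ⟨hf1, hf2⟩ := hf
    have e1 : r1 • (f - f0) = 0 := by
      rw [nsmul_sub]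
      nth_rewrite 1 [← hf1]
      rw [addOrderOf_nsmul_eq_zero, ← h01, addOrderOf_nsmul_eq_zero, sub_zero]
    have e2 : r2 • (f - f0) = 0 := by
      have e3 : f - f0 = (t - f0) - (t - f) := by ring
      rw [e3, nsmul_sub]
      nth_rewrite 1 [← h02]
      rw [addOrderOf_nsmul_eq_zero, ← hf2, addOrderOf_nsmul_eq_zero, sub_zero]
    rw [← addOrderOf_dvd_iff_nsmul_eq_zero] at e1 e2 ⊢
    exact Nat.dvd_gcd e1 e2
  · intro a _ b _ hab
    simpa using hab

theorem structure_pair (R : ℕ) (t f : ZMod (primorial R)) (m d1 d2 : ℕ)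
    (hm : addOrderOf (addOrderOf t • f) = m)
    (hd1 : Nat.gcd (addOrderOf f) (addOrderOf t) = d1)
    (hd2 : Nat.gcd (addOrderOf (t - f)) (addOrderOf t) = d2) :
    addOrderOf f = m * d1 ∧ addOrderOf (t - f) = m * d2 ∧ Nat.Coprime m (addOrderOf t) ∧
      Nat.lcm d1 d2 = addOrderOf t := by
  have hq0 := ord_pos R t
  have e1 : addOrderOf f = m * d1 := by
    rw [← hm, addOrderOf_nsmul, ← hd1]
    exact (Nat.div_mul_cancel (Nat.gcd_dvd_left _ _)).symm
  have e2 : addOrderOf (t - f) = m * d2 := by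
    have h3 : addOrderOf (addOrderOf t • (t - f)) = m := by
      rw [nsmul_sub, addOrderOf_nsmul_eq_zero, zero_sub, addOrderOf_neg, hm]
    rw [← h3, addOrderOf_nsmul, ← hd2]
    exact (Nat.div_mul_cancel (Nat.gcd_dvd_left _ _)).symm
  have hcop : Nat.Coprime m (addOrderOf t) := by
    by_contra hc
    obtain ⟨p, hp, hpm, hpq⟩ := Nat.Prime.not_coprime_iff_dvd.1 hc
    have h4 : p ∣ addOrderOf f := by
      rw [e1]
      exact hpm.mul_right d1
    have h5 : p ∣ d1 := by
      rw [← hd1]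
      exact Nat.dvd_gcd h4 hpq
    have h6 : p * p ∣ addOrderOf f := by
      rw [e1]
      exact mul_dvd_mul hpm h5
    have h7 := ord_sqf R f p h6
    exact hp.one_lt.ne' (Nat.isUnit_iff.1 h7)
  refine ⟨e1, e2, hcop, ?_⟩
  refine Nat.dvd_antisymm ?_ ?_
  · refine Nat.lcm_dvd ?_ ?_
    · rw [← hd1]
      exact Nat.gcd_dvd_right _ _
    · rw [← hd2]
      exact Nat.gcd_dvd_right _ _
  · have h8 : addOrderOf t ∣ m * Nat.lcm d1 d2 := by
      rw [addOrderOf_dvd_iff_nsmul_eq_zero]
      have h9 : t = f + (t - f) := by ring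
      rw [h9, nsmul_add]
      have h10 : (m * Nat.lcm d1 d2) • f = 0 := by
        rw [← addOrderOf_dvd_iff_nsmul_eq_zero, e1]
        exact Nat.mul_dvd_mul_left m (Nat.dvd_lcm_left d1 d2)
      have h11 : (m * Nat.lcm d1 d2) • (t - f) = 0 := by
        rw [← addOrderOf_dvd_iff_nsmul_eq_zero, e2]
        exact Nat.mul_dvd_mul_left m (Nat.dvd_lcm_right d1 d2)
      rw [h10, h11, add_zero]
    exact Nat.Coprime.dvd_of_dvd_mul_left hcop.symm h8

/-- the weight of a pair -/
noncomputable def ww (R : ℕ) (t f : ZMod (primorial R)) : ℝ :=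
  1 / (Nat.totient (addOrderOf f) : ℝ) * (1 / (Nat.totient (addOrderOf (t - f)) : ℝ))

theorem fiber_le (R : ℕ) (t : ZMod (primorial R)) (F : Finset (ZMod (primorial R))) (m d1 d2 : ℕ) :
    ∑ f ∈ F.filter (fun f => (addOrderOf (addOrderOf t • f),
        Nat.gcd (addOrderOf f) (addOrderOf t), Nat.gcd (addOrderOf (t - f)) (addOrderOf t)) =
        (m, d1, d2)), ww R t f ≤
      (m : ℝ) / (Nat.totient m : ℝ) ^ 2 *
        (4 ^ (addOrderOf t).primeFactors.card / (addOrderOf t : ℝ)) := by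
  rcases Finset.eq_empty_or_nonempty (F.filter (fun f => (addOrderOf (addOrderOf t • f),
        Nat.gcd (addOrderOf f) (addOrderOf t), Nat.gcd (addOrderOf (t - f)) (addOrderOf t)) =
        (m, d1, d2))) with h | ⟨f0, hf0⟩
  · rw [h]
    simp only [Finset.sum_empty]
    positivity
  rw [Finset.mem_filter] at hf0
  obtain ⟨-, hf0⟩ := hf0
  simp only [Prod.mk.injEq] at hf0
  obtain ⟨e1, e2, hcop, hlcm⟩ := structure_pair R t f0 m d1 d2 hf0.1 hf0.2.1 hf0.2.2
  have hq0 := ord_pos R t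
  have hqs := ord_sqf R t
  have hf00 := ord_pos R f0
  have ht00 := ord_pos R (t - f0)
  have hm0 : 0 < m := by
    rcases Nat.eq_zero_or_pos m with h | h
    · rw [h, Nat.zero_mul] at e1; omega
    · exact h
  have hd10 : 0 < d1 := by
    rcases Nat.eq_zero_or_pos d1 with h | h
    · rw [h, Nat.mul_zero] at e1; omega
    · exact h
  have hd20 : 0 < d2 := by
    rcases Nat.eq_zero_or_pos d2 with h | h
    · rw [h, Nat.mul_zero] at e2; omega
    · exact h
  have hd1q : d1 ∣ addOrderOf t := by rw [← hlcm]; exact Nat.dvd_lcm_left d1 d2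
  have hd2q : d2 ∣ addOrderOf t := by rw [← hlcm]; exact Nat.dvd_lcm_right d1 d2
  have hw : ∀ f ∈ F.filter (fun f => (addOrderOf (addOrderOf t • f),
        Nat.gcd (addOrderOf f) (addOrderOf t), Nat.gcd (addOrderOf (t - f)) (addOrderOf t)) =
        (m, d1, d2)), ww R t f = 1 / ((Nat.totient m : ℝ) ^ 2 *
          ((Nat.totient (Nat.gcd d1 d2) : ℝ) * (Nat.totient (addOrderOf t) : ℝ))) := by
    intro f hf
    rw [Finset.mem_filter] at hf
    obtain ⟨-, hf⟩ := hf
    simp only [Prod.mk.injEq] at hf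
    obtain ⟨g1, g2, -, -⟩ := structure_pair R t f m d1 d2 hf.1 hf.2.1 hf.2.2
    unfold ww
    rw [g1, g2, Nat.totient_mul (hcop.coprime_dvd_right hd1q),
      Nat.totient_mul (hcop.coprime_dvd_right hd2q)]
    have h3 := totient_gcd_lcm d1 d2 hd10
    rw [hlcm] at h3
    have h4 : (Nat.totient (Nat.gcd d1 d2) : ℝ) * (Nat.totient (addOrderOf t) : ℝ) =
        (Nat.totient d1 : ℝ) * (Nat.totient d2 : ℝ) := by
      exact_mod_cast h3.symm
    rw [h4]
    push_cast
    rw [← one_div_mul_one_div_rev]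
    rw [← one_div_mul_one_div_rev, ← one_div_mul_one_div_rev]
    ring
  rw [Finset.sum_congr rfl hw, Finset.sum_const, nsmul_eq_mul]
  have hcard : ((F.filter (fun f => (addOrderOf (addOrderOf t • f),
        Nat.gcd (addOrderOf f) (addOrderOf t), Nat.gcd (addOrderOf (t - f)) (addOrderOf t)) =
        (m, d1, d2))).card : ℝ) ≤ (m : ℝ) * (Nat.gcd d1 d2 : ℝ) := by
    have h5 : (F.filter (fun f => (addOrderOf (addOrderOf t • f),
        Nat.gcd (addOrderOf f) (addOrderOf t), Nat.gcd (addOrderOf (t - f)) (addOrderOf t)) =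
        (m, d1, d2))).card ≤ m * Nat.gcd d1 d2 := by
      rw [← Nat.gcd_mul_left]
      refine le_trans (Finset.card_le_card ?_)
        (card_le R (m * d1) (m * d2) (by rw [← e1]; exact ord_dvd R f0) t)
      intro f hf
      rw [Finset.mem_filter] at hf
      obtain ⟨-, hf⟩ := hf
      simp only [Prod.mk.injEq] at hf
      obtain ⟨g1, g2, -, -⟩ := structure_pair R t f m d1 d2 hf.1 hf.2.1 hf.2.2
      rw [Finset.mem_filter]
      exact ⟨Finset.mem_univ _, g1, g2⟩
    exact_mod_cast h5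
  have hg0 : 0 < Nat.gcd d1 d2 := Nat.gcd_pos_of_pos_left d2 hd10
  have hgq : Nat.gcd d1 d2 ∣ addOrderOf t := (Nat.gcd_dvd_left d1 d2).trans hd1q
  have hphm : (0 : ℝ) < (Nat.totient m : ℝ) := by exact_mod_cast Nat.totient_pos.2 hm0
  have hphg : (0 : ℝ) < (Nat.totient (Nat.gcd d1 d2) : ℝ) := by
    exact_mod_cast Nat.totient_pos.2 hg0
  have hphq : (0 : ℝ) < (Nat.totient (addOrderOf t) : ℝ) := by exact_mod_cast Nat.totient_pos.2 hq0
  have hqr : (0 : ℝ) < (addOrderOf t : ℝ) := by exact_mod_cast hq0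
  have b1 : (Nat.gcd d1 d2 : ℝ) / (Nat.totient (Nat.gcd d1 d2) : ℝ) ≤
      2 ^ (addOrderOf t).primeFactors.card := by
    refine (div_phi _ hg0).trans ?_
    refine pow_le_pow_right₀ (by norm_num) (Finset.card_le_card ?_)
    exact Nat.primeFactors_mono hgq hq0.ne'
  have b2 : 1 / (Nat.totient (addOrderOf t) : ℝ) ≤
      2 ^ (addOrderOf t).primeFactors.card / (addOrderOf t : ℝ) := by
    rw [le_div_iff₀ hqr]
    have := div_phi (addOrderOf t) hq0
    calc 1 / (Nat.totient (addOrderOf t) : ℝ) * (addOrderOf t : ℝ)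
        = (addOrderOf t : ℝ) / (Nat.totient (addOrderOf t) : ℝ) := by ring
      _ ≤ _ := this
  calc ((F.filter (fun f => (addOrderOf (addOrderOf t • f),
        Nat.gcd (addOrderOf f) (addOrderOf t), Nat.gcd (addOrderOf (t - f)) (addOrderOf t)) =
        (m, d1, d2))).card : ℝ) * (1 / ((Nat.totient m : ℝ) ^ 2 *
          ((Nat.totient (Nat.gcd d1 d2) : ℝ) * (Nat.totient (addOrderOf t) : ℝ))))
      ≤ ((m : ℝ) * (Nat.gcd d1 d2 : ℝ)) * (1 / ((Nat.totient m : ℝ) ^ 2 *
          ((Nat.totient (Nat.gcd d1 d2) : ℝ) * (Nat.totient (addOrderOf t) : ℝ)))) := by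
        refine mul_le_mul_of_nonneg_right hcard (by positivity)
    _ = (m : ℝ) / (Nat.totient m : ℝ) ^ 2 * (((Nat.gcd d1 d2 : ℝ) /
          (Nat.totient (Nat.gcd d1 d2) : ℝ)) * (1 / (Nat.totient (addOrderOf t) : ℝ))) := by
        field_simp
    _ ≤ (m : ℝ) / (Nat.totient m : ℝ) ^ 2 * (2 ^ (addOrderOf t).primeFactors.card *
          (2 ^ (addOrderOf t).primeFactors.card / (addOrderOf t : ℝ))) := by
        refine mul_le_mul_of_nonneg_left ?_ (by positivity)
        exact mul_le_mul b1 b2 (by positivity) (by positivity)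
    _ = (m : ℝ) / (Nat.totient m : ℝ) ^ 2 *
        (4 ^ (addOrderOf t).primeFactors.card / (addOrderOf t : ℝ)) := by
        rw [← four_pow]
        ring

theorem vv_abs (R : ℕ) (f : ZMod (primorial R)) :
    |vv R f| ≤ if addOrderOf f ≤ R then 1 / (Nat.totient (addOrderOf f) : ℝ) else 0 := by
  unfold vv
  split_ifs with h
  · rw [abs_div, abs_of_nonneg (a := (Nat.totient (addOrderOf f) : ℝ)) (Nat.cast_nonneg _)]
    refine div_le_div_of_nonneg_right ?_ (Nat.cast_nonneg _)
    have := ArithmeticFunction.abs_moebius_le_one (n := addOrderOf f)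
    exact_mod_cast this
  · simp

end CoefAux

open CoefAux

theorem uu_le : ∃ C : ℝ, 0 < C ∧ ∀ (R : ℕ) (t : ZMod (primorial R)), 1 ≤ R →
    |uu R t| ≤ C * 16 ^ (addOrderOf t).primeFactors.card / (addOrderOf t : ℝ) := by
  obtain ⟨C, hC, hsum⟩ := sum_mm
  refine ⟨C, hC, fun R t hR => ?_⟩
  have hq0 := ord_pos R t
  have hqs := ord_sqf R t
  have hqr : (0 : ℝ) < (addOrderOf t : ℝ) := by exact_mod_cast hq0
  have hGG := (GG_ge R hR).2
  have hG0 : 0 < GG R := lt_of_lt_of_le one_pos hGG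
  obtain ⟨F, hF⟩ : ∃ F : Finset (ZMod (primorial R)), F = (Finset.univ : Finset (ZMod (primorial R))).filter
    (fun f => addOrderOf f ≤ R ∧ addOrderOf (t - f) ≤ R) := ⟨_, rfl⟩
  obtain ⟨Φ, hΦ⟩ : ∃ Φ : ZMod (primorial R) → ℕ × ℕ × ℕ, Φ = fun f => (addOrderOf (addOrderOf t • f),
        Nat.gcd (addOrderOf f) (addOrderOf t), Nat.gcd (addOrderOf (t - f)) (addOrderOf t)) :=
    ⟨_, rfl⟩
  -- the sum over `f`
  have h1 : |∑ f : ZMod (primorial R), vv R f * vv R (t - f)| ≤ ∑ f ∈ F, ww R t f := by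
    calc |∑ f : ZMod (primorial R), vv R f * vv R (t - f)|
        ≤ ∑ f : ZMod (primorial R), |vv R f * vv R (t - f)| := Finset.abs_sum_le_sum_abs _ _
      _ ≤ ∑ f : ZMod (primorial R), if (addOrderOf f ≤ R ∧ addOrderOf (t - f) ≤ R) then
            ww R t f else 0 := by
          refine Finset.sum_le_sum fun f _ => ?_
          rw [abs_mul]
          have a1 := vv_abs R f
          have a2 := vv_abs R (t - f)
          have a3 : |vv R f| * |vv R (t - f)| ≤
              (if addOrderOf f ≤ R then 1 / (Nat.totient (addOrderOf f) : ℝ) else 0) *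
              (if addOrderOf (t - f) ≤ R then 1 / (Nat.totient (addOrderOf (t - f)) : ℝ)
                else 0) := by
            refine mul_le_mul a1 a2 (abs_nonneg _) ?_
            split_ifs
            · positivity
            · exact le_rfl
          refine a3.trans (le_of_eq ?_)
          unfold ww
          by_cases b1 : addOrderOf f ≤ R <;> by_cases b2 : addOrderOf (t - f) ≤ R <;> simp [b1, b2]
      _ = ∑ f ∈ F, ww R t f := by
          rw [hF, Finset.sum_filter]
  -- fibres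
  have hmaps : ∀ f ∈ F, Φ f ∈ ((Icc 1 R).filter Squarefree) ×ˢ
      ((addOrderOf t).divisors ×ˢ (addOrderOf t).divisors) := by
    intro f hf
    rw [hF, Finset.mem_filter] at hf
    obtain ⟨-, hf1, hf2⟩ := hf
    rw [hΦ]
    simp only [Finset.mem_product, Finset.mem_filter, Finset.mem_Icc, Nat.mem_divisors]
    have h3 : addOrderOf (addOrderOf t • f) ∣ addOrderOf f := by
      rw [addOrderOf_nsmul]
      exact Nat.div_dvd_of_dvd (Nat.gcd_dvd_left _ _)
    refine ⟨⟨⟨ord_pos R _, ?_⟩, ord_sqf R _⟩, ⟨Nat.gcd_dvd_right _ _, hq0.ne'⟩,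
      Nat.gcd_dvd_right _ _, hq0.ne'⟩
    exact (Nat.le_of_dvd (ord_pos R f) h3).trans hf1
  have h2 : ∑ f ∈ F, ww R t f ≤ C * GG R * (16 ^ (addOrderOf t).primeFactors.card /
      (addOrderOf t : ℝ)) := by
    rw [← Finset.sum_fiberwise_of_maps_to hmaps]
    calc ∑ j ∈ ((Icc 1 R).filter Squarefree) ×ˢ
          ((addOrderOf t).divisors ×ˢ (addOrderOf t).divisors),
            ∑ f ∈ F.filter (fun f => Φ f = j), ww R t f
        ≤ ∑ j ∈ ((Icc 1 R).filter Squarefree) ×ˢ
          ((addOrderOf t).divisors ×ˢ (addOrderOf t).divisors),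
            ((j.1 : ℝ) / (Nat.totient j.1 : ℝ) ^ 2 *
        (4 ^ (addOrderOf t).primeFactors.card / (addOrderOf t : ℝ))) := by
          refine Finset.sum_le_sum fun j _ => ?_
          obtain ⟨m, d1, d2⟩ := j
          rw [hΦ]
          exact fiber_le R t F m d1 d2
      _ = (∑ m ∈ (Icc 1 R).filter Squarefree, (m : ℝ) / (Nat.totient m : ℝ) ^ 2) *
            (((addOrderOf t).divisors.card : ℝ) * ((addOrderOf t).divisors.card : ℝ)) *
            (4 ^ (addOrderOf t).primeFactors.card / (addOrderOf t : ℝ)) := by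
          rw [Finset.sum_product]
          simp only [Finset.sum_const, Finset.card_product, nsmul_eq_mul, Nat.cast_mul]
          rw [Finset.sum_mul, Finset.sum_mul]
          refine Finset.sum_congr rfl fun m _ => ?_
          ring
      _ ≤ (C * GG R) * (2 ^ (addOrderOf t).primeFactors.card *
            2 ^ (addOrderOf t).primeFactors.card) *
            (4 ^ (addOrderOf t).primeFactors.card / (addOrderOf t : ℝ)) := by
          have hcd : ((addOrderOf t).divisors.card : ℝ) ≤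
              2 ^ (addOrderOf t).primeFactors.card := by
            exact_mod_cast card_div (addOrderOf t) hqs
          refine mul_le_mul_of_nonneg_right ?_ (by positivity)
          refine mul_le_mul (hsum R) ?_ (by positivity) (by positivity)
          exact mul_le_mul hcd hcd (by positivity) (by positivity)
      _ = C * GG R * (16 ^ (addOrderOf t).primeFactors.card / (addOrderOf t : ℝ)) := by
          have h16 : (16 : ℝ) ^ (addOrderOf t).primeFactors.card =
              4 ^ (addOrderOf t).primeFactors.card * 4 ^ (addOrderOf t).primeFactors.card := by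
            rw [← mul_pow]
            norm_num
          rw [h16, four_pow]
          ring
  unfold uu
  rw [abs_mul, abs_inv, abs_of_pos hG0]
  calc (GG R)⁻¹ * |∑ f : ZMod (primorial R), vv R f * vv R (t - f)|
      ≤ (GG R)⁻¹ * (C * GG R * (16 ^ (addOrderOf t).primeFactors.card / (addOrderOf t : ℝ))) :=
        mul_le_mul_of_nonneg_left (h1.trans h2) (by positivity)
    _ = C * 16 ^ (addOrderOf t).primeFactors.card / (addOrderOf t : ℝ) := by
        field_simp

end Pool.SSP
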