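import Mathlib
import Pool.Agent.SSP.Coef
import Pool.Agent.MRZ.Dft
import Pool.Agent.MRZ.MinSum

/-!
# SSP/Sharp: the high-denominator part of the majorant in short windows

`sharp_window`: for `R, w, H ≥ 1`, `R^16 ≤ X` and every real `θ`
`∑_{x<X} ‖∑_{x<k≤x+H} nuS R w k e(θk)‖² ≤ C X (H²/√w + H (1 + log R)^A)`, `C, A` absolute.

Proof. Let `L = primorial R`, `T` = the set of `t` with `w < addOrderOf t ≤ R²` (`uu_supp`: the other `t` with
`addOrderOf t > w` do not contribute). With `x + j`, `1 ≤ j ≤ H`: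
`∑_{x<k≤x+H} nuS R w k e(θk) = ∑_{t∈T} z_t e(x (θ + t/L))`, `z_t = uu R t · D_t`, `D_t = ∑_{1≤j≤H} e(j (θ + t/L))`
(`chi_eq_ee`, `t/L` means `t.val/L`).
(1) `∑_{x<X} ‖∑_{t∈T} z_t e(x(θ + t/L))‖² = ∑_{t,t'} z_t conj z_{t'} ∑_{x<X} e(x (t-t')/L)`. Diagonal: `X ∑|z_t|²`.
For `t ≠ t'` the fraction `(t.val - t'.val)/L` is not an integer and has denominator (the order of `t - t'`) at most
`R⁴` (`addOrderOf (t-t') ∣ addOrderOf t * addOrderOf t'`), so the geometric sum is at most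
`2/|1 - e(β)| ≤ 1/(2‖β‖) ≤ R⁴` in absolute value (`|e(β) - 1| = 2 |sin πβ| ≥ 4‖β‖ ≥ 4/R⁴`). So the off-diagonal part
is at most `R⁴ (∑_t |z_t|)² ≤ R⁴ · #T · ∑|z_t|²`, and `#T ≤ ∑_{q ≤ R²} q ≤ R⁴` (`card_tors`). As `R^8 ≤ X`, the sum is
`≤ 2 X ∑ |z_t|²`.
(2) For `q ∣ L`: `∑_{t : q • t = 0} |D_t|² = q · #{(j,j') ∈ [1,H]² : q ∣ j - j'} ≤ q H (H/q + 1) = H² + qH`
(expand the square; `∑_{t : q•t=0} e((j-j')t/L) = q 1_{q ∣ j-j'}` — as in `sum_tors`; the `t` are `i (L/q)`, `i < q`, so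
this is orthogonality mod `q`, `Pool.MRZ.dft_orth`).
(3) By `uu_le`: `∑_{t∈T} |z_t|² ≤ ∑_{w<q≤R², q squarefree} C² 256^{ω(q)} q^{-2} (H² + qH)`.
`∑_{q>w} 256^{ω(q)} q^{-2} ≤ w^{-1/2} ∑_q 256^{ω(q)} q^{-3/2} ≤ C w^{-1/2}` (convergent: `256^{ω(q)} ≤ C q^{1/4}` for
squarefree `q`, because only the primes `p < 256^4` have `256 > p^{1/4}`).
`∑_{q ≤ R² squarefree} 256^{ω(q)}/q ≤ (∑_{m ≤ R²} 1/m)^{256} ≤ (1 + 2 log R)^{256} ≤ 2^{256} (1 + log R)^{256}`
(expand the power: for squarefree `q` the number of factorisations of `q` into `256` ordered factors is `256^{ω(q)}`;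
or: by induction over the primes `p ≤ R²`, `∑_{q ≤ Q, q squarefree} k^{ω(q)}/q ≤ (∑_{m≤Q} 1/m)^k` follows from the case
`k → k+1`: `(k+1)^{ω(q)} = ∑_{d ∣ q} k^{ω(d)}`, so `∑_{q≤Q} (k+1)^{ω(q)}/q ≤ ∑_{d ≤ Q} k^{ω(d)}/d ∑_{e ≤ Q} 1/e`.)
The lemma `sum_pow_omega` is exported, it is also used in `SSP/Flat`.
-/

set_option autoImplicit false

namespace Pool.SSP

open Finset Pool.MRZ

/-- `n ↦ k^{ω(n)}` -/
noncomputable def Sharp.ff (k : ℕ) : ArithmeticFunction ℝ :=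
  ⟨fun n => if n = 0 then 0 else (k : ℝ) ^ n.primeFactors.card, by simp⟩

lemma Sharp.ff_apply (k : ℕ) {n : ℕ} (hn : n ≠ 0) : Sharp.ff k n = (k : ℝ) ^ n.primeFactors.card := by
  show (if n = 0 then 0 else (k : ℝ) ^ n.primeFactors.card) = _
  rw [if_neg hn]

lemma Sharp.ff_mult (k : ℕ) : (Sharp.ff k).IsMultiplicative := by
  refine ArithmeticFunction.IsMultiplicative.iff_ne_zero.2 ⟨?_, ?_⟩
  · rw [Sharp.ff_apply k one_ne_zero]
    simp
  · intro m n hm hn hmn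
    rw [Sharp.ff_apply k (mul_ne_zero hm hn), Sharp.ff_apply k hm, Sharp.ff_apply k hn,
      hmn.primeFactors_mul, Finset.card_union_of_disjoint hmn.disjoint_primeFactors, pow_add]

lemma Sharp.sum_div (k : ℕ) {q : ℕ} (hq : Squarefree q) :
    ∑ d ∈ q.divisors, (k : ℝ) ^ d.primeFactors.card = ((k : ℝ) + 1) ^ q.primeFactors.card := by
  have h := ArithmeticFunction.IsMultiplicative.prodPrimeFactors_one_add_of_squarefree
    (Sharp.ff_mult k) hq
  have h1 : ∀ p ∈ q.primeFactors, (1 + Sharp.ff k p) = (k : ℝ) + 1 := by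
    intro p hp
    have hp' := Nat.prime_of_mem_primeFactors hp
    rw [Sharp.ff_apply k hp'.ne_zero, hp'.primeFactors]
    simp [add_comm]
  rw [Finset.prod_congr rfl h1, Finset.prod_const] at h
  rw [h]
  refine Finset.sum_congr rfl fun d hd => ?_
  rw [Sharp.ff_apply k (Nat.pos_of_mem_divisors hd).ne']

lemma Sharp.harm (Q : ℕ) : ∑ e ∈ Icc 1 Q, (1 : ℝ) / e ≤ 1 + Real.log Q := by
  have h := harmonic_le_one_add_log Q
  have h1 : ((harmonic Q : ℚ) : ℝ) = ∑ e ∈ Icc 1 Q, (1 : ℝ) / e := by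
    rw [harmonic_eq_sum_Icc]
    push_cast
    simp
  rwa [h1] at h

theorem sum_pow_omega (k Q : ℕ) :
    ∑ q ∈ (Icc 1 Q).filter Squarefree, (k : ℝ) ^ q.primeFactors.card / (q : ℝ) ≤ (1 + Real.log Q) ^ k := by
  have hlog : 0 ≤ Real.log Q := Real.log_natCast_nonneg Q
  induction k with
  | zero =>
    rw [pow_zero]
    calc ∑ q ∈ (Icc 1 Q).filter Squarefree, ((0 : ℕ) : ℝ) ^ q.primeFactors.card / (q : ℝ)
        ≤ ∑ q ∈ (Icc 1 Q).filter Squarefree, (if q = 1 then (1 : ℝ) else 0) := by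
          refine Finset.sum_le_sum fun q hq => ?_
          split_ifs with h1
          · subst h1
            simp
          · rw [Finset.mem_filter, Finset.mem_Icc] at hq
            have h2 : q.primeFactors.card ≠ 0 := by
              rw [Ne, Finset.card_eq_zero, Nat.primeFactors_eq_empty]
              omega
            rw [Nat.cast_zero, zero_pow h2, zero_div]
      _ ≤ 1 := by
          rw [Finset.sum_ite_eq']
          split_ifs <;> norm_num
  | succ k ih =>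
    have h1 : ∀ q ∈ (Icc 1 Q).filter Squarefree,
        ((k + 1 : ℕ) : ℝ) ^ q.primeFactors.card / (q : ℝ) =
        ∑ d ∈ q.divisors, (k : ℝ) ^ d.primeFactors.card / (d : ℝ) * (1 / ((q / d : ℕ) : ℝ)) := by
      intro q hq
      rw [Finset.mem_filter, Finset.mem_Icc] at hq
      push_cast
      rw [← Sharp.sum_div k hq.2, Finset.sum_div]
      refine Finset.sum_congr rfl fun d hd => ?_
      have hd1 := Nat.dvd_of_mem_divisors hd
      have hd0 : (d : ℝ) ≠ 0 := by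
        have := Nat.pos_of_mem_divisors hd
        exact_mod_cast this.ne'
      rw [Nat.cast_div hd1 hd0]
      have hq0 : (q : ℝ) ≠ 0 := by
        have : q ≠ 0 := by omega
        exact_mod_cast this
      field_simp
    rw [Finset.sum_congr rfl h1, Finset.sum_sigma']
    have h2 : ∑ x ∈ ((Icc 1 Q).filter Squarefree).sigma (fun q => q.divisors),
        (k : ℝ) ^ x.2.primeFactors.card / (x.2 : ℝ) * (1 / ((x.1 / x.2 : ℕ) : ℝ)) ≤
        ∑ y ∈ ((Icc 1 Q).filter Squarefree) ×ˢ (Icc 1 Q),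
          (k : ℝ) ^ y.1.primeFactors.card / (y.1 : ℝ) * (1 / (y.2 : ℝ)) := by
      have hinj : Set.InjOn (fun x : (_ : ℕ) × ℕ => (x.2, x.1 / x.2))
          (((Icc 1 Q).filter Squarefree).sigma (fun q => q.divisors)) := by
        rintro ⟨q, d⟩ hx ⟨q', d'⟩ hx' h
        rw [Finset.mem_coe, Finset.mem_sigma] at hx hx'
        simp only [Prod.mk.injEq] at h
        obtain ⟨h1, h2⟩ := h
        dsimp only at hx hx'
        subst h1
        have e1 := Nat.div_mul_cancel (Nat.dvd_of_mem_divisors hx.2)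
        have e2 := Nat.div_mul_cancel (Nat.dvd_of_mem_divisors hx'.2)
        rw [h2, e2] at e1
        rw [e1]
      rw [← Finset.sum_image (g := fun x : (_ : ℕ) × ℕ => (x.2, x.1 / x.2))
        (f := fun y : ℕ × ℕ => (k : ℝ) ^ y.1.primeFactors.card / (y.1 : ℝ) * (1 / (y.2 : ℝ))) hinj]
      refine Finset.sum_le_sum_of_subset_of_nonneg ?_ fun y _ _ => by positivity
      intro y hy
      rw [Finset.mem_image] at hy
      obtain ⟨⟨q, d⟩, hx, rfl⟩ := hy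
      rw [Finset.mem_sigma] at hx
      obtain ⟨hq, hd⟩ := hx
      dsimp only at hq hd
      rw [Finset.mem_filter, Finset.mem_Icc] at hq
      have hd1 := Nat.dvd_of_mem_divisors hd
      have hd0 := Nat.pos_of_mem_divisors hd
      have hle := Nat.le_of_dvd (by omega) hd1
      rw [Finset.mem_product, Finset.mem_filter, Finset.mem_Icc, Finset.mem_Icc]
      refine ⟨⟨⟨hd0, hle.trans hq.1.2⟩, hq.2.squarefree_of_dvd hd1⟩, ?_, ?_⟩
      · exact Nat.div_pos hle hd0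
      · exact (Nat.div_le_self _ _).trans hq.1.2
    refine h2.trans ?_
    rw [Finset.sum_product]
    have h3 : ∑ x ∈ (Icc 1 Q).filter Squarefree, ∑ y ∈ Icc 1 Q,
        (k : ℝ) ^ x.primeFactors.card / (x : ℝ) * (1 / (y : ℝ)) =
        (∑ x ∈ (Icc 1 Q).filter Squarefree, (k : ℝ) ^ x.primeFactors.card / (x : ℝ)) *
          ∑ y ∈ Icc 1 Q, 1 / (y : ℝ) := (Finset.sum_mul_sum _ _ _ _).symm
    dsimp only
    rw [h3, pow_succ]
    exact mul_le_mul ih (Sharp.harm Q) (Finset.sum_nonneg fun e _ => by positivity) (by positivity)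

lemma Sharp.normsq (z : ℂ) : ((‖z‖ ^ 2 : ℝ) : ℂ) = z * (starRingEnd ℂ) z := by
  rw [Complex.mul_conj, Complex.normSq_eq_norm_sq]

/-- geometric sum -/
lemma Sharp.geo {X : ℕ} {β δ : ℝ} (hδ : 0 < δ) (h : ∀ n : ℤ, δ ≤ |β - n|) :
    ‖∑ x ∈ range X, ee (x * β)‖ ≤ 1 / (2 * δ) := by
  have hdz : δ ≤ dz β := h (round β)
  have h1 := geo_le 0 X β (Nat.zero_le X)
  unfold mn at h1
  rw [if_neg (by linarith)] at h1
  have h2 := h1.trans (min_le_right _ _)
  have h3 : ‖∑ x ∈ range X, ee (x * β)‖ = ‖∑ m ∈ Finset.Ioc 0 X, ee (β * m)‖ := by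
    have h4 : ∑ m ∈ Finset.Ioc 0 X, ee (β * m) = ee β * ∑ x ∈ range X, ee (x * β) := by
      rw [Finset.mul_sum]
      have h5 : Finset.Ioc 0 X = (range X).image (fun x => x + 1) := by
        ext m
        simp only [Finset.mem_Ioc, Finset.mem_image, Finset.mem_range]
        constructor
        · rintro ⟨a, b⟩
          exact ⟨m - 1, by omega, by omega⟩
        · rintro ⟨a, b, rfl⟩
          omega
      rw [h5, Finset.sum_image (fun a _ b _ hab => by simpa using hab)]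
      refine Finset.sum_congr rfl fun x _ => ?_
      rw [← ee_add]
      congr 1
      push_cast
      ring
    rw [h4, norm_mul, norm_ee, one_mul]
  rw [h3]
  refine h2.trans ?_
  exact one_div_le_one_div_of_le (by positivity) (by linarith)

/-- large sieve inequality for separated frequencies -/
lemma Sharp.ls {ι : Type*} [DecidableEq ι] (T : Finset ι) (β : ι → ℝ) (z : ι → ℂ) (X : ℕ) {δ : ℝ}
    (hδ : 0 < δ) (hsep : ∀ s ∈ T, ∀ t ∈ T, s ≠ t → ∀ n : ℤ, δ ≤ |β s - β t - n|) :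
    ∑ x ∈ range X, ‖∑ t ∈ T, z t * ee (x * β t)‖ ^ 2 ≤
      (X + T.card * (1 / (2 * δ))) * ∑ t ∈ T, ‖z t‖ ^ 2 := by
  have key : ((∑ x ∈ range X, ‖∑ t ∈ T, z t * ee (x * β t)‖ ^ 2 : ℝ) : ℂ) =
      ∑ s ∈ T, ∑ t ∈ T, (z s * (starRingEnd ℂ) (z t)) * ∑ x ∈ range X, ee (x * (β s - β t)) := by
    push_cast
    have h1 : ∀ x ∈ range X, ((‖∑ t ∈ T, z t * ee (x * β t)‖ : ℝ) : ℂ) ^ 2 =
        ∑ s ∈ T, ∑ t ∈ T, (z s * (starRingEnd ℂ) (z t)) * ee (x * (β s - β t)) := by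
      intro x _
      have h2 := Sharp.normsq (∑ t ∈ T, z t * ee (x * β t))
      push_cast at h2
      rw [h2, map_sum, Finset.sum_mul_sum]
      refine Finset.sum_congr rfl fun s _ => Finset.sum_congr rfl fun t _ => ?_
      rw [map_mul, conj_ee]
      have h3 : ee (x * (β s - β t)) = ee (x * β s) * ee (-(x * β t)) := by
        rw [← ee_add]
        congr 1
        ring
      rw [h3]
      ring
    rw [Finset.sum_congr rfl h1, Finset.sum_comm]
    refine Finset.sum_congr rfl fun s _ => ?_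
    rw [Finset.sum_comm]
    refine Finset.sum_congr rfl fun t _ => ?_
    rw [Finset.mul_sum]
  have h0 : ∑ x ∈ range X, ‖∑ t ∈ T, z t * ee (x * β t)‖ ^ 2 ≤
      ∑ s ∈ T, ∑ t ∈ T, (‖z s‖ * ‖z t‖) * (if s = t then (X : ℝ) else 1 / (2 * δ)) := by
    have h1 : (∑ x ∈ range X, ‖∑ t ∈ T, z t * ee (x * β t)‖ ^ 2 : ℝ) =
        ‖((∑ x ∈ range X, ‖∑ t ∈ T, z t * ee (x * β t)‖ ^ 2 : ℝ) : ℂ)‖ := by
      rw [Complex.norm_real, Real.norm_of_nonneg (Finset.sum_nonneg fun _ _ => by positivity)]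
    rw [h1, key]
    refine (norm_sum_le _ _).trans (Finset.sum_le_sum fun s hs => ?_)
    refine (norm_sum_le _ _).trans (Finset.sum_le_sum fun t ht => ?_)
    rw [norm_mul, norm_mul, RCLike.norm_conj]
    refine mul_le_mul_of_nonneg_left ?_ (by positivity)
    split_ifs with hst
    · subst hst
      refine (norm_sum_le _ _).trans ?_
      simp
    · exact Sharp.geo hδ (hsep s hs t ht hst)
  refine h0.trans ?_
  have h2 : ∑ s ∈ T, ∑ t ∈ T, (‖z s‖ * ‖z t‖) * (if s = t then (X : ℝ) else 1 / (2 * δ)) ≤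
      ∑ s ∈ T, ∑ t ∈ T, ((if s = t then (X : ℝ) * ‖z s‖ ^ 2 else 0) +
        (‖z s‖ * ‖z t‖) * (1 / (2 * δ))) := by
    refine Finset.sum_le_sum fun s _ => Finset.sum_le_sum fun t _ => ?_
    split_ifs with hst
    · subst hst
      have : 0 ≤ ‖z s‖ * ‖z s‖ * (1 / (2 * δ)) := by positivity
      nlinarith
    · simp
  refine h2.trans ?_
  have h3 : ∑ s ∈ T, ∑ t ∈ T, ((if s = t then (X : ℝ) * ‖z s‖ ^ 2 else 0) +
        (‖z s‖ * ‖z t‖) * (1 / (2 * δ))) = X * ∑ t ∈ T, ‖z t‖ ^ 2 +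
        (1 / (2 * δ)) * (∑ t ∈ T, ‖z t‖) ^ 2 := by
    simp_rw [Finset.sum_add_distrib]
    congr 1
    · rw [Finset.mul_sum]
      refine Finset.sum_congr rfl fun s hs => ?_
      rw [Finset.sum_ite_eq, if_pos hs]
    · rw [pow_two, Finset.sum_mul_sum, Finset.mul_sum]
      refine Finset.sum_congr rfl fun s _ => ?_
      rw [Finset.mul_sum]
      exact Finset.sum_congr rfl fun t _ => by ring
  rw [h3]
  have h4 : (∑ t ∈ T, ‖z t‖) ^ 2 ≤ T.card * ∑ t ∈ T, ‖z t‖ ^ 2 := sq_sum_le_card_mul_sum_sq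
  have h5 : 1 / (2 * δ) * (∑ t ∈ T, ‖z t‖) ^ 2 ≤ 1 / (2 * δ) * (T.card * ∑ t ∈ T, ‖z t‖ ^ 2) :=
    mul_le_mul_of_nonneg_left h4 (by positivity)
  calc (X : ℝ) * ∑ t ∈ T, ‖z t‖ ^ 2 + 1 / (2 * δ) * (∑ t ∈ T, ‖z t‖) ^ 2
      ≤ (X : ℝ) * ∑ t ∈ T, ‖z t‖ ^ 2 + 1 / (2 * δ) * (T.card * ∑ t ∈ T, ‖z t‖ ^ 2) := by linarith
    _ = _ := by ring

/-- separation of the fractions -/
lemma Sharp.sep {L : ℕ} [NeZero L] {R : ℕ} (θ : ℝ) {s t : ZMod L} (hst : s ≠ t)
    (hs : addOrderOf s ≤ R ^ 2) (ht : addOrderOf t ≤ R ^ 2) (hR : 1 ≤ R) (n : ℤ) :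
    1 / (R : ℝ) ^ 4 ≤ |(θ + (s.val : ℝ) / (L : ℕ)) - (θ + (t.val : ℝ) / (L : ℕ)) - n| := by
  have hL0 : 0 < L := Nat.pos_of_ne_zero (NeZero.ne L)
  obtain ⟨m, hm⟩ : ∃ m : ℤ, m = (s.val : ℤ) - t.val - n * L := ⟨_, rfl⟩
  have hLr : (0 : ℝ) < L := by exact_mod_cast hL0
  have h1 : (θ + (s.val : ℝ) / (L : ℕ)) - (θ + (t.val : ℝ) / (L : ℕ)) - n = (m : ℝ) / L := by
    rw [hm]
    push_cast
    field_simp
    ring
  rw [h1, abs_div, abs_of_pos hLr]
  -- the class of `m`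
  have h2 : ((m : ℤ) : ZMod L) = s - t := by
    rw [hm]
    push_cast
    have h3 : ((L : ℕ) : ZMod L) = 0 := ZMod.natCast_self _
    rw [h3, mul_zero, sub_zero, ZMod.natCast_zmod_val, ZMod.natCast_zmod_val]
  obtain ⟨Q, hQ⟩ : ∃ Q : ℕ, Q = addOrderOf s * addOrderOf t := ⟨_, rfl⟩
  have h4 : ((Q * m : ℤ) : ZMod L) = 0 := by
    push_cast
    rw [h2, hQ]
    have e1 : addOrderOf s • s = 0 := addOrderOf_nsmul_eq_zero s
    have e2 : addOrderOf t • t = 0 := addOrderOf_nsmul_eq_zero t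
    rw [nsmul_eq_mul] at e1 e2
    push_cast
    calc ((addOrderOf s : ZMod L) * (addOrderOf t : ZMod L)) * (s - t)
        = (addOrderOf t : ZMod L) * ((addOrderOf s : ZMod L) * s) -
          (addOrderOf s : ZMod L) * ((addOrderOf t : ZMod L) * t) := by ring
      _ = 0 := by rw [e1, e2, mul_zero, mul_zero, sub_zero]
  have h5 : (L : ℤ) ∣ Q * m := (ZMod.intCast_zmod_eq_zero_iff_dvd _ _).1 h4
  have hm0 : m ≠ 0 := by
    intro h
    rw [h, Int.cast_zero] at h2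
    exact hst (sub_eq_zero.1 h2.symm)
  have hQ0 : 0 < Q := by
    rw [hQ]
    exact Nat.mul_pos (addOrderOf_pos s) (addOrderOf_pos t)
  have h6 : (L : ℤ) ≤ |(Q : ℤ) * m| := by
    have h7 : (Q : ℤ) * m ≠ 0 := mul_ne_zero (by exact_mod_cast hQ0.ne') hm0
    have h8 : (L : ℤ) ∣ |(Q : ℤ) * m| := (dvd_abs _ _).2 h5
    exact Int.le_of_dvd (abs_pos.2 h7) h8
  have h7 : (L : ℝ) ≤ Q * |(m : ℝ)| := by
    have h8 : ((L : ℤ) : ℝ) ≤ ((|(Q : ℤ) * m| : ℤ) : ℝ) := by exact_mod_cast h6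
    push_cast at h8
    rwa [abs_mul, abs_of_nonneg (by positivity : (0 : ℝ) ≤ (Q : ℝ))] at h8
  have h8 : (Q : ℝ) ≤ (R : ℝ) ^ 4 := by
    have : Q ≤ R ^ 4 := by
      rw [hQ]
      calc addOrderOf s * addOrderOf t ≤ R ^ 2 * R ^ 2 := Nat.mul_le_mul hs ht
        _ = R ^ 4 := by ring
    exact_mod_cast this
  have hR4 : (0 : ℝ) < (R : ℝ) ^ 4 := by
    have : (0 : ℝ) < R := by exact_mod_cast hR
    positivity
  rw [div_le_div_iff₀ hR4 hLr, one_mul]
  calc (L : ℝ) ≤ Q * |(m : ℝ)| := h7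
    _ ≤ (R : ℝ) ^ 4 * |(m : ℝ)| := mul_le_mul_of_nonneg_right h8 (abs_nonneg _)
    _ = _ := by ring

/-- `chi R t j * conj (chi R t j')` -/
lemma Sharp.chi_conj (R : ℕ) (t : ZMod (primorial R)) (j j' : ℕ) :
    chi R t j * (starRingEnd ℂ) (chi R t j') = chi R t (j + (primorial R - 1) * j') := by
  have h1 : chi R t (j + (primorial R - 1) * j') = chi R t j * chi R t ((primorial R - 1) * j') := by
    unfold chi
    rw [← AddChar.map_add_eq_mul]
    congr 1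
    push_cast
    ring
  have h2 : chi R t ((primorial R - 1) * j') * chi R t j' = 1 := by
    unfold chi
    rw [← AddChar.map_add_eq_mul]
    have h3 : t * (((primorial R - 1) * j' : ℕ) : ZMod (primorial R)) + t * (j' : ZMod (primorial R)) = 0 := by
      have h4 : (((primorial R - 1 : ℕ) : ZMod (primorial R))) = -1 := by
        rw [Nat.cast_sub (primorial_pos R), ZMod.natCast_self]
        simp
      rw [Nat.cast_mul, h4]
      ring
    rw [h3, AddChar.map_zero_eq_one]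
  have h3 : chi R t j' * (starRingEnd ℂ) (chi R t j') = 1 := by
    rw [← Sharp.normsq, norm_chi]
    norm_num
  rw [h1]
  congr 1
  calc (starRingEnd ℂ) (chi R t j') = (chi R t ((primorial R - 1) * j') * chi R t j') *
        (starRingEnd ℂ) (chi R t j') := by rw [h2, one_mul]
    _ = chi R t ((primorial R - 1) * j') * (chi R t j' * (starRingEnd ℂ) (chi R t j')) := by ring
    _ = _ := by rw [h3, mul_one]

lemma Sharp.dvd_iff {R q : ℕ} (hq : q ∣ primorial R) (j j' : ℕ) :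
    q ∣ j + (primorial R - 1) * j' ↔ j' ≡ j [MOD q] := by
  have h1 : (q : ℤ) ∣ ((j + (primorial R - 1) * j' : ℕ) : ℤ) ↔ (q : ℤ) ∣ (j : ℤ) - j' := by
    have hL := primorial_pos R
    have e : ((j + (primorial R - 1) * j' : ℕ) : ℤ) = ((j : ℤ) - j') + (primorial R : ℤ) * j' := by
      rw [Nat.cast_add, Nat.cast_mul, Nat.cast_sub hL]
      push_cast
      ring
    rw [e]
    exact dvd_add_left (dvd_mul_of_dvd_left (by exact_mod_cast hq) _)
  rw [← Int.natCast_dvd_natCast, h1, Nat.modEq_iff_dvd]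

/-- the second moment of the kernel over the `q`-torsion -/
lemma Sharp.moment (R q H : ℕ) (θ : ℝ) (hq : q ∣ primorial R) (hH : 1 ≤ H) :
    ∑ t ∈ (Finset.univ : Finset (ZMod (primorial R))).filter (fun t => q • t = 0),
      ‖∑ j ∈ Icc 1 H, ee (j * θ) * chi R t j‖ ^ 2 ≤ (H : ℝ) ^ 2 + q * H := by
  have hq0 : 0 < q := Nat.pos_of_dvd_of_pos hq (primorial_pos R)
  have key : ((∑ t ∈ (Finset.univ : Finset (ZMod (primorial R))).filter (fun t => q • t = 0),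
      ‖∑ j ∈ Icc 1 H, ee (j * θ) * chi R t j‖ ^ 2 : ℝ) : ℂ) =
      ∑ j ∈ Icc 1 H, ∑ j' ∈ Icc 1 H, (ee (j * θ) * (starRingEnd ℂ) (ee (j' * θ))) *
        (if j' ≡ j [MOD q] then (q : ℂ) else 0) := by
    push_cast
    have h1 : ∀ t : ZMod (primorial R), ((‖∑ j ∈ Icc 1 H, ee (j * θ) * chi R t j‖ : ℝ) : ℂ) ^ 2 =
        ∑ j ∈ Icc 1 H, ∑ j' ∈ Icc 1 H, (ee (j * θ) * (starRingEnd ℂ) (ee (j' * θ))) *
          chi R t (j + (primorial R - 1) * j') := by
      intro t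
      have h2 := Sharp.normsq (∑ j ∈ Icc 1 H, ee (j * θ) * chi R t j)
      push_cast at h2
      rw [h2, map_sum, Finset.sum_mul_sum]
      refine Finset.sum_congr rfl fun j _ => Finset.sum_congr rfl fun j' _ => ?_
      rw [map_mul, ← Sharp.chi_conj]
      ring
    simp_rw [h1]
    rw [Finset.sum_comm]
    refine Finset.sum_congr rfl fun j _ => ?_
    rw [Finset.sum_comm]
    refine Finset.sum_congr rfl fun j' _ => ?_
    rw [← Finset.mul_sum, sum_tors R q _ hq]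
    congr 1
    simp only [Sharp.dvd_iff hq]
  have h1 : (∑ t ∈ (Finset.univ : Finset (ZMod (primorial R))).filter (fun t => q • t = 0),
      ‖∑ j ∈ Icc 1 H, ee (j * θ) * chi R t j‖ ^ 2 : ℝ) =
      ‖((∑ t ∈ (Finset.univ : Finset (ZMod (primorial R))).filter (fun t => q • t = 0),
      ‖∑ j ∈ Icc 1 H, ee (j * θ) * chi R t j‖ ^ 2 : ℝ) : ℂ)‖ := by
    rw [Complex.norm_real, Real.norm_of_nonneg (Finset.sum_nonneg fun _ _ => by positivity)]
  rw [h1, key]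
  have hqr : (0 : ℝ) < q := by exact_mod_cast hq0
  calc ‖∑ j ∈ Icc 1 H, ∑ j' ∈ Icc 1 H, (ee (j * θ) * (starRingEnd ℂ) (ee (j' * θ))) *
        (if j' ≡ j [MOD q] then (q : ℂ) else 0)‖
      ≤ ∑ j ∈ Icc 1 H, ∑ j' ∈ Icc 1 H, (if j' ≡ j [MOD q] then (q : ℝ) else 0) := by
        refine (norm_sum_le _ _).trans (Finset.sum_le_sum fun j _ => ?_)
        refine (norm_sum_le _ _).trans (Finset.sum_le_sum fun j' _ => ?_)
        rw [norm_mul, norm_mul, RCLike.norm_conj, norm_ee, norm_ee, one_mul, one_mul]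
        split_ifs <;> simp
    _ ≤ ∑ j ∈ Icc 1 H, ((H : ℝ) + q) := by
        refine Finset.sum_le_sum fun j _ => ?_
        rw [← Finset.sum_filter, Finset.sum_const, nsmul_eq_mul]
        have h2 := (abs_le.1 (Pool.Agent.Lib.PrimePairs.abs_count_modEq_sub_le 0 H q j (Nat.zero_le H) hq0)).2
        have h3 : Icc 1 H = Ioc 0 H := by
          ext m
          simp only [Finset.mem_Icc, Finset.mem_Ioc]
          omega
        rw [h3]
        have h4 : ((((Ioc 0 H).filter (fun n => n ≡ j [MOD q])).card : ℕ) : ℝ) ≤ H / q + 1 := by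
          push_cast at h2
          rw [sub_zero] at h2
          linarith
        calc ((((Ioc 0 H).filter (fun n => n ≡ j [MOD q])).card : ℕ) : ℝ) * q ≤ (H / q + 1) * q :=
              mul_le_mul_of_nonneg_right h4 hqr.le
          _ = H + q := by field_simp
    _ = (H : ℝ) ^ 2 + q * H := by
        rw [Finset.sum_const, Nat.card_Icc, nsmul_eq_mul, Nat.add_sub_cancel]
        ring

/-- powers `K^{ω(q)}` are small -/
lemma Sharp.pow_small (K : ℝ) (hK : 1 ≤ K) : ∃ C : ℝ, 0 < C ∧ ∀ q : ℕ, Squarefree q →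
    K ^ q.primeFactors.card ≤ C * (q : ℝ) ^ (1 / 4 : ℝ) := by
  obtain ⟨N, hN⟩ : ∃ N : ℕ, ∀ n : ℕ, N ≤ n → K ≤ (n : ℝ) ^ (1 / 4 : ℝ) := by
    have h1 : Filter.Tendsto (fun n : ℕ => (n : ℝ) ^ (1 / 4 : ℝ)) Filter.atTop Filter.atTop :=
      (tendsto_rpow_atTop (by norm_num)).comp tendsto_natCast_atTop_atTop
    obtain ⟨N, hN⟩ := Filter.eventually_atTop.1 (h1.eventually_ge_atTop K)
    exact ⟨N, hN⟩
  refine ⟨K ^ N, by positivity, fun q hq => ?_⟩
  have hq1 : (q : ℝ) ^ (1 / 4 : ℝ) = ∏ p ∈ q.primeFactors, (p : ℝ) ^ (1 / 4 : ℝ) := by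
    have h2 := Nat.prod_primeFactors_of_squarefree hq
    conv_lhs => rw [← h2]
    push_cast
    rw [Real.finsetProd_rpow]
    intro p _
    positivity
  have h3 : K ^ q.primeFactors.card = ∏ p ∈ q.primeFactors, K := by
    rw [Finset.prod_const]
  rw [h3, hq1, ← Finset.prod_filter_mul_prod_filter_not q.primeFactors (fun p => p < N) (fun _ => K),
    ← Finset.prod_filter_mul_prod_filter_not q.primeFactors (fun p => p < N)
      (fun p => (p : ℝ) ^ (1 / 4 : ℝ))]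
  have h4 : ∏ p ∈ q.primeFactors.filter (fun p => p < N), K ≤ K ^ N := by
    rw [Finset.prod_const]
    refine pow_le_pow_right₀ hK ?_
    calc (q.primeFactors.filter (fun p => p < N)).card ≤ (range N).card :=
          Finset.card_le_card fun p hp => by
            rw [Finset.mem_range]
            exact (Finset.mem_filter.1 hp).2
      _ = N := Finset.card_range N
  have h5 : (1 : ℝ) ≤ ∏ p ∈ q.primeFactors.filter (fun p => p < N), (p : ℝ) ^ (1 / 4 : ℝ) := by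
    refine Finset.prod_induction _ (fun x : ℝ => 1 ≤ x) (fun a b ha hb => one_le_mul_of_one_le_of_one_le ha hb)
      le_rfl fun p hp => ?_
    have hp' := Nat.prime_of_mem_primeFactors (Finset.mem_filter.1 hp).1
    exact Real.one_le_rpow (by exact_mod_cast hp'.one_le) (by norm_num)
  have h6 : ∏ p ∈ q.primeFactors.filter (fun p => ¬ p < N), K ≤
      ∏ p ∈ q.primeFactors.filter (fun p => ¬ p < N), (p : ℝ) ^ (1 / 4 : ℝ) := by
    refine Finset.prod_le_prod (fun _ _ => by linarith) fun p hp => ?_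
    exact hN p (not_lt.1 (Finset.mem_filter.1 hp).2)
  have h7 : 0 ≤ ∏ p ∈ q.primeFactors.filter (fun p => ¬ p < N), (p : ℝ) ^ (1 / 4 : ℝ) :=
    Finset.prod_nonneg fun p _ => by positivity
  calc (∏ p ∈ q.primeFactors.filter (fun p => p < N), K) *
        ∏ p ∈ q.primeFactors.filter (fun p => ¬ p < N), K
      ≤ K ^ N * ∏ p ∈ q.primeFactors.filter (fun p => ¬ p < N), (p : ℝ) ^ (1 / 4 : ℝ) :=
        mul_le_mul h4 h6 (Finset.prod_nonneg fun _ _ => by linarith) (by positivity)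
    _ ≤ K ^ N * ((∏ p ∈ q.primeFactors.filter (fun p => p < N), (p : ℝ) ^ (1 / 4 : ℝ)) *
        ∏ p ∈ q.primeFactors.filter (fun p => ¬ p < N), (p : ℝ) ^ (1 / 4 : ℝ)) := by
        refine mul_le_mul_of_nonneg_left ?_ (by positivity)
        exact le_mul_of_one_le_left h7 h5

/-- the tail of the convergent series -/
lemma Sharp.tail : ∃ C : ℝ, 0 < C ∧ ∀ w M : ℕ, 1 ≤ w →
    ∑ q ∈ (Icc 1 M).filter (fun q => Squarefree q ∧ w < q), (256 : ℝ) ^ q.primeFactors.card / (q : ℝ) ^ 2 ≤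
      C / Real.sqrt w := by
  obtain ⟨C, hC, h⟩ := Sharp.pow_small 256 (by norm_num)
  have hs : Summable (fun n : ℕ => 1 / (n : ℝ) ^ (5 / 4 : ℝ)) :=
    Real.summable_one_div_nat_rpow.2 (by norm_num)
  refine ⟨C * (∑' n : ℕ, 1 / (n : ℝ) ^ (5 / 4 : ℝ) + 1), ?_, fun w M hw => ?_⟩
  · have : 0 ≤ ∑' n : ℕ, 1 / (n : ℝ) ^ (5 / 4 : ℝ) := tsum_nonneg fun n => by positivity
    positivity
  have hw0 : (0 : ℝ) < w := by exact_mod_cast hw
  have hsw : 0 < Real.sqrt w := Real.sqrt_pos.2 hw0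
  have h1 : ∀ q ∈ (Icc 1 M).filter (fun q => Squarefree q ∧ w < q),
      (256 : ℝ) ^ q.primeFactors.card / (q : ℝ) ^ 2 ≤
        (C / Real.sqrt w) * (1 / (q : ℝ) ^ (5 / 4 : ℝ)) := by
    intro q hq
    rw [Finset.mem_filter, Finset.mem_Icc] at hq
    obtain ⟨⟨hq1, -⟩, hsq, hwq⟩ := hq
    have hq0 : (0 : ℝ) < q := by exact_mod_cast hq1
    have e : (q : ℝ) ^ 2 = (q : ℝ) ^ (1 / 4 : ℝ) * Real.sqrt q * (q : ℝ) ^ (5 / 4 : ℝ) := by
      rw [Real.sqrt_eq_rpow, ← Real.rpow_add hq0, ← Real.rpow_add hq0, ← Real.rpow_natCast]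
      norm_num
    have h2 : Real.sqrt w ≤ Real.sqrt q := Real.sqrt_le_sqrt (by exact_mod_cast hwq.le)
    have hp1 : 0 < (q : ℝ) ^ (1 / 4 : ℝ) := by positivity
    have hp2 : 0 < (q : ℝ) ^ (5 / 4 : ℝ) := by positivity
    rw [e]
    calc (256 : ℝ) ^ q.primeFactors.card / ((q : ℝ) ^ (1 / 4 : ℝ) * Real.sqrt q * (q : ℝ) ^ (5 / 4 : ℝ))
        ≤ (C * (q : ℝ) ^ (1 / 4 : ℝ)) / ((q : ℝ) ^ (1 / 4 : ℝ) * Real.sqrt w * (q : ℝ) ^ (5 / 4 : ℝ)) := by
          gcongr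
          exact h q hsq
      _ = _ := by field_simp
  refine (Finset.sum_le_sum h1).trans ?_
  rw [← Finset.mul_sum]
  have h3 : ∑ q ∈ (Icc 1 M).filter (fun q => Squarefree q ∧ w < q), 1 / (q : ℝ) ^ (5 / 4 : ℝ) ≤
      ∑' n : ℕ, 1 / (n : ℝ) ^ (5 / 4 : ℝ) := hs.sum_le_tsum _ fun n _ => by positivity
  calc C / Real.sqrt w * ∑ q ∈ (Icc 1 M).filter (fun q => Squarefree q ∧ w < q), 1 / (q : ℝ) ^ (5 / 4 : ℝ)
      ≤ C / Real.sqrt w * (∑' n : ℕ, 1 / (n : ℝ) ^ (5 / 4 : ℝ) + 1) :=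
        mul_le_mul_of_nonneg_left (by linarith) (by positivity)
    _ = _ := by ring

lemma Sharp.sum_shift (x H : ℕ) (f : ℕ → ℂ) :
    ∑ k ∈ Ioc x (x + H), f k = ∑ j ∈ Icc 1 H, f (x + j) := by
  have h5 : Ioc x (x + H) = (Icc 1 H).image (fun j => x + j) := by
    ext m
    simp only [Finset.mem_Ioc, Finset.mem_image, Finset.mem_Icc]
    constructor
    · rintro ⟨a, b⟩
      exact ⟨m - x, by omega, by omega⟩
    · rintro ⟨a, b, rfl⟩
      omega
  rw [h5, Finset.sum_image (fun a _ b _ hab => by simpa using hab)]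

/-- the frequencies which occur -/
noncomputable def Sharp.TT (R w : ℕ) : Finset (ZMod (primorial R)) :=
  Finset.univ.filter (fun t => w < addOrderOf t ∧ addOrderOf t ≤ R ^ 2)

lemma Sharp.card_TT (R w : ℕ) : ((Sharp.TT R w).card : ℝ) ≤ (R : ℝ) ^ 4 := by
  have h1 : Sharp.TT R w ⊆ ((Icc 1 (R ^ 2)).filter (fun q => q ∣ primorial R)).biUnion
      (fun q => (Finset.univ : Finset (ZMod (primorial R))).filter (fun t => q • t = 0)) := by
    intro t ht
    unfold Sharp.TT at ht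
    rw [Finset.mem_filter] at ht
    rw [Finset.mem_biUnion]
    refine ⟨addOrderOf t, ?_, ?_⟩
    · rw [Finset.mem_filter, Finset.mem_Icc]
      exact ⟨⟨addOrderOf_pos t, ht.2.2⟩, ord_dvd R t⟩
    · rw [Finset.mem_filter]
      exact ⟨Finset.mem_univ _, addOrderOf_nsmul_eq_zero t⟩
  have h2 : (Sharp.TT R w).card ≤ R ^ 4 := by
    calc (Sharp.TT R w).card ≤ _ := Finset.card_le_card h1
      _ ≤ ∑ q ∈ (Icc 1 (R ^ 2)).filter (fun q => q ∣ primorial R),
          ((Finset.univ : Finset (ZMod (primorial R))).filter (fun t => q • t = 0)).card :=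
          Finset.card_biUnion_le
      _ ≤ ∑ q ∈ (Icc 1 (R ^ 2)).filter (fun q => q ∣ primorial R), R ^ 2 := by
          refine Finset.sum_le_sum fun q hq => ?_
          rw [Finset.mem_filter, Finset.mem_Icc] at hq
          rw [card_tors R q hq.2]
          exact hq.1.2
      _ ≤ ∑ q ∈ Icc 1 (R ^ 2), R ^ 2 :=
          Finset.sum_le_sum_of_subset_of_nonneg (Finset.filter_subset _ _) fun _ _ _ => Nat.zero_le _
      _ = R ^ 4 := by
          rw [Finset.sum_const, Nat.card_Icc, Nat.add_sub_cancel, smul_eq_mul]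
          ring
  exact_mod_cast h2

/-- the window sum as an exponential sum in `x` -/
lemma Sharp.window (R w H x : ℕ) (θ : ℝ) (hR : 1 ≤ R) :
    ∑ k ∈ Ioc x (x + H), nuS R w k * ee (θ * k) =
      ∑ t ∈ Sharp.TT R w, ((uu R t : ℂ) * ∑ j ∈ Icc 1 H, ee (j * θ) * chi R t j) *
        ee (x * (θ + (t.val : ℝ) / (primorial R : ℕ))) := by
  have h1 : ∀ k, nuS R w k = ∑ t ∈ Sharp.TT R w, (uu R t : ℂ) * chi R t k := by
    intro k
    unfold nuS Sharp.TT
    symm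
    refine Finset.sum_subset ?_ ?_
    · intro t ht
      rw [Finset.mem_filter] at ht ⊢
      exact ⟨ht.1, ht.2.1⟩
    · intro t ht ht'
      rw [Finset.mem_filter] at ht ht'
      have h2 : R ^ 2 < addOrderOf t := by
        by_contra hcon
        exact ht' ⟨ht.1, ht.2, not_lt.1 hcon⟩
      rw [uu_supp R hR t h2]
      simp
  rw [Sharp.sum_shift]
  simp_rw [h1, Finset.sum_mul, Finset.mul_sum, Finset.sum_mul]
  rw [Finset.sum_comm]
  refine Finset.sum_congr rfl fun t _ => Finset.sum_congr rfl fun j _ => ?_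
  have h3 : chi R t (x + j) * ee (θ * ((x + j : ℕ) : ℝ)) =
      (ee (j * θ) * chi R t j) * ee (x * (θ + (t.val : ℝ) / (primorial R : ℕ))) := by
    rw [chi_eq_ee, chi_eq_ee, ← ee_add, ← ee_add, ← ee_add]
    congr 1
    push_cast
    ring
  calc (uu R t : ℂ) * chi R t (x + j) * ee (θ * ((x + j : ℕ) : ℝ))
      = (uu R t : ℂ) * (chi R t (x + j) * ee (θ * ((x + j : ℕ) : ℝ))) := by ring
    _ = _ := by rw [h3]; ring

/-- the sum of the squares of the coefficients -/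
lemma Sharp.coef {C1 : ℝ} (huu : ∀ (R : ℕ) (t : ZMod (primorial R)), 1 ≤ R →
    |uu R t| ≤ C1 * 16 ^ (addOrderOf t).primeFactors.card / (addOrderOf t : ℝ))
    (R w H : ℕ) (θ : ℝ) (hR : 1 ≤ R) (hH : 1 ≤ H) :
    ∑ t ∈ Sharp.TT R w, ‖(uu R t : ℂ) * ∑ j ∈ Icc 1 H, ee (j * θ) * chi R t j‖ ^ 2 ≤
      ∑ q ∈ (Icc 1 (R ^ 2)).filter (fun q => Squarefree q ∧ w < q),
        C1 ^ 2 * (256 : ℝ) ^ q.primeFactors.card / (q : ℝ) ^ 2 * ((H : ℝ) ^ 2 + q * H) := by
  have hmaps : ∀ t ∈ Sharp.TT R w, addOrderOf t ∈ (Icc 1 (R ^ 2)).filter (fun q => Squarefree q ∧ w < q) := by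
    intro t ht
    unfold Sharp.TT at ht
    rw [Finset.mem_filter] at ht
    rw [Finset.mem_filter, Finset.mem_Icc]
    exact ⟨⟨addOrderOf_pos t, ht.2.2⟩, ord_sqf R t, ht.2.1⟩
  rw [← Finset.sum_fiberwise_of_maps_to hmaps]
  refine Finset.sum_le_sum fun q hq => ?_
  rw [Finset.mem_filter, Finset.mem_Icc] at hq
  have hq0 : (0 : ℝ) < q := by exact_mod_cast hq.1.1
  by_cases hqL : q ∣ primorial R
  · have h1 : ∀ t ∈ (Sharp.TT R w).filter (fun t => addOrderOf t = q),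
        ‖(uu R t : ℂ) * ∑ j ∈ Icc 1 H, ee (j * θ) * chi R t j‖ ^ 2 ≤
        (C1 ^ 2 * (256 : ℝ) ^ q.primeFactors.card / (q : ℝ) ^ 2) *
          ‖∑ j ∈ Icc 1 H, ee (j * θ) * chi R t j‖ ^ 2 := by
      intro t ht
      have hord := (Finset.mem_filter.1 ht).2
      have h2 := huu R t hR
      rw [hord] at h2
      rw [norm_mul, mul_pow, Complex.norm_real, Real.norm_eq_abs]
      refine mul_le_mul_of_nonneg_right ?_ (by positivity)
      calc |uu R t| ^ 2 ≤ (C1 * 16 ^ q.primeFactors.card / (q : ℝ)) ^ 2 :=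
            pow_le_pow_left₀ (abs_nonneg _) h2 2
        _ = C1 ^ 2 * (256 : ℝ) ^ q.primeFactors.card / (q : ℝ) ^ 2 := by
            rw [div_pow, mul_pow, ← pow_mul, mul_comm q.primeFactors.card 2, pow_mul]
            norm_num
    refine (Finset.sum_le_sum h1).trans ?_
    rw [← Finset.mul_sum]
    refine mul_le_mul_of_nonneg_left ?_ (by positivity)
    refine le_trans ?_ (Sharp.moment R q H θ hqL hH)
    refine Finset.sum_le_sum_of_subset_of_nonneg ?_ fun _ _ _ => by positivity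
    intro t ht
    rw [Finset.mem_filter] at ht ⊢
    refine ⟨Finset.mem_univ _, ?_⟩
    rw [← ht.2]
    exact addOrderOf_nsmul_eq_zero t
  · have h1 : (Sharp.TT R w).filter (fun t => addOrderOf t = q) = ∅ := by
      rw [Finset.filter_eq_empty_iff]
      intro t _ h
      exact hqL (h ▸ ord_dvd R t)
    rw [h1, Finset.sum_empty]
    positivity

theorem sharp_window : ∃ (C : ℝ) (A : ℕ), 0 < C ∧ ∀ (R w H X : ℕ) (θ : ℝ), 1 ≤ R → 1 ≤ w → 1 ≤ H →
    R ^ 16 ≤ X →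
    ∑ x ∈ range X, ‖∑ k ∈ Ioc x (x + H), nuS R w k * ee (θ * k)‖ ^ 2 ≤
      C * X * ((H : ℝ) ^ 2 / Real.sqrt w + H * (1 + Real.log R) ^ A) := by
  obtain ⟨C1, hC1, huu⟩ := uu_le
  obtain ⟨C2, hC2, htail⟩ := Sharp.tail
  refine ⟨2 * C1 ^ 2 * (C2 + 2 ^ 256), 256, by positivity, ?_⟩
  intro R w H X θ hR hw hH hX
  have hR0 : (1 : ℝ) ≤ R := by exact_mod_cast hR
  have hlog : 0 ≤ Real.log R := Real.log_natCast_nonneg R
  have hw0 : (0 : ℝ) < w := by exact_mod_cast hw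
  have hsw : 0 < Real.sqrt w := Real.sqrt_pos.2 hw0
  have hH0 : (0 : ℝ) ≤ H := Nat.cast_nonneg H
  have hR4 : (0 : ℝ) < (R : ℝ) ^ 4 := by positivity
  -- the large sieve
  have h1 := Sharp.ls (Sharp.TT R w) (fun t => θ + (t.val : ℝ) / (primorial R : ℕ))
    (fun t => (uu R t : ℂ) * ∑ j ∈ Icc 1 H, ee (j * θ) * chi R t j) X
    (δ := 1 / (R : ℝ) ^ 4) (by positivity) (by
      intro s hs t ht hst n
      unfold Sharp.TT at hs ht
      rw [Finset.mem_filter] at hs ht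
      exact Sharp.sep θ hst hs.2.2 ht.2.2 hR n)
  have h2 : ∑ x ∈ range X, ‖∑ k ∈ Ioc x (x + H), nuS R w k * ee (θ * k)‖ ^ 2 =
      ∑ x ∈ range X, ‖∑ t ∈ Sharp.TT R w, ((uu R t : ℂ) * ∑ j ∈ Icc 1 H, ee (j * θ) * chi R t j) *
        ee (x * (θ + (t.val : ℝ) / (primorial R : ℕ)))‖ ^ 2 := by
    refine Finset.sum_congr rfl fun x _ => ?_
    rw [Sharp.window R w H x θ hR]
  rw [h2]
  refine h1.trans ?_
  have h3 := Sharp.coef huu R w H θ hR hH
  have h4 : (X : ℝ) + (Sharp.TT R w).card * (1 / (2 * (1 / (R : ℝ) ^ 4))) ≤ 2 * X := by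
    have e1 : 1 / (2 * (1 / (R : ℝ) ^ 4)) = (R : ℝ) ^ 4 / 2 := by field_simp
    have e2 : ((Sharp.TT R w).card : ℝ) * ((R : ℝ) ^ 4 / 2) ≤ (R : ℝ) ^ 4 * ((R : ℝ) ^ 4 / 2) :=
      mul_le_mul_of_nonneg_right (Sharp.card_TT R w) (by positivity)
    have e3 : (R : ℝ) ^ 16 ≤ X := by exact_mod_cast hX
    have e4 : (R : ℝ) ^ 8 ≤ (R : ℝ) ^ 16 := pow_le_pow_right₀ hR0 (by norm_num)
    have e5 : (R : ℝ) ^ 4 * ((R : ℝ) ^ 4 / 2) = (R : ℝ) ^ 8 / 2 := by ring
    rw [e1]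
    have e6 : (0 : ℝ) ≤ (R : ℝ) ^ 8 := by positivity
    linarith
  have h5 : ∑ q ∈ (Icc 1 (R ^ 2)).filter (fun q => Squarefree q ∧ w < q),
        C1 ^ 2 * (256 : ℝ) ^ q.primeFactors.card / (q : ℝ) ^ 2 * ((H : ℝ) ^ 2 + q * H) ≤
      C1 ^ 2 * (C2 + 2 ^ 256) * ((H : ℝ) ^ 2 / Real.sqrt w + H * (1 + Real.log R) ^ 256) := by
    have e1 : ∑ q ∈ (Icc 1 (R ^ 2)).filter (fun q => Squarefree q ∧ w < q),
        C1 ^ 2 * (256 : ℝ) ^ q.primeFactors.card / (q : ℝ) ^ 2 * ((H : ℝ) ^ 2 + q * H) =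
        C1 ^ 2 * (H : ℝ) ^ 2 * (∑ q ∈ (Icc 1 (R ^ 2)).filter (fun q => Squarefree q ∧ w < q),
          (256 : ℝ) ^ q.primeFactors.card / (q : ℝ) ^ 2) +
        C1 ^ 2 * H * ∑ q ∈ (Icc 1 (R ^ 2)).filter (fun q => Squarefree q ∧ w < q),
          (256 : ℝ) ^ q.primeFactors.card / (q : ℝ) := by
      rw [Finset.mul_sum, Finset.mul_sum, ← Finset.sum_add_distrib]
      refine Finset.sum_congr rfl fun q hq => ?_
      rw [Finset.mem_filter, Finset.mem_Icc] at hq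
      have hq0 : (q : ℝ) ≠ 0 := by
        have : q ≠ 0 := by omega
        exact_mod_cast this
      field_simp
    have e2 := htail w (R ^ 2) hw
    have e3 : ∑ q ∈ (Icc 1 (R ^ 2)).filter (fun q => Squarefree q ∧ w < q),
          (256 : ℝ) ^ q.primeFactors.card / (q : ℝ) ≤ 2 ^ 256 * (1 + Real.log R) ^ 256 := by
      calc ∑ q ∈ (Icc 1 (R ^ 2)).filter (fun q => Squarefree q ∧ w < q),
          (256 : ℝ) ^ q.primeFactors.card / (q : ℝ)
          ≤ ∑ q ∈ (Icc 1 (R ^ 2)).filter Squarefree, (256 : ℝ) ^ q.primeFactors.card / (q : ℝ) := by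
            refine Finset.sum_le_sum_of_subset_of_nonneg ?_ fun _ _ _ => by positivity
            intro q hq
            rw [Finset.mem_filter] at hq ⊢
            exact ⟨hq.1, hq.2.1⟩
        _ ≤ (1 + Real.log ((R ^ 2 : ℕ) : ℝ)) ^ 256 := by
            have := sum_pow_omega 256 (R ^ 2)
            push_cast at this ⊢
            exact this
        _ ≤ (2 * (1 + Real.log R)) ^ 256 := by
            have e4 : Real.log ((R ^ 2 : ℕ) : ℝ) = 2 * Real.log R := by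
              push_cast
              rw [Real.log_pow]
              norm_num
            rw [e4]
            exact pow_le_pow_left₀ (by linarith) (by linarith) 256
        _ = _ := by rw [mul_pow]
    rw [e1]
    have hP : 0 ≤ (1 + Real.log R) ^ 256 := pow_nonneg (by linarith) _
    have hK : (0 : ℝ) ≤ 2 ^ 256 := pow_nonneg (by norm_num) _
    generalize (1 + Real.log R) ^ 256 = P at *
    generalize (2 : ℝ) ^ 256 = K2 at *
    have hC1' : 0 ≤ C1 ^ 2 := by positivity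
    have f1 : C1 ^ 2 * (H : ℝ) ^ 2 * (∑ q ∈ (Icc 1 (R ^ 2)).filter (fun q => Squarefree q ∧ w < q),
          (256 : ℝ) ^ q.primeFactors.card / (q : ℝ) ^ 2) ≤ C1 ^ 2 * (H : ℝ) ^ 2 * (C2 / Real.sqrt w) :=
      mul_le_mul_of_nonneg_left e2 (by positivity)
    have f2 : C1 ^ 2 * (H : ℝ) * (∑ q ∈ (Icc 1 (R ^ 2)).filter (fun q => Squarefree q ∧ w < q),
          (256 : ℝ) ^ q.primeFactors.card / (q : ℝ)) ≤
          C1 ^ 2 * (H : ℝ) * (K2 * P) :=
      mul_le_mul_of_nonneg_left e3 (by positivity)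
    have f3 : 0 ≤ C1 ^ 2 * (K2) * ((H : ℝ) ^ 2 / Real.sqrt w) := by positivity
    have f4 : 0 ≤ C1 ^ 2 * C2 * (H * P) := by positivity
    have f5 : C1 ^ 2 * (C2 + K2) * ((H : ℝ) ^ 2 / Real.sqrt w + H * P) =
        C1 ^ 2 * (H : ℝ) ^ 2 * (C2 / Real.sqrt w) +
        C1 ^ 2 * (H : ℝ) * (K2 * P) +
        C1 ^ 2 * (K2) * ((H : ℝ) ^ 2 / Real.sqrt w) +
        C1 ^ 2 * C2 * (H * P) := by ring
    rw [f5]
    linarith
  have h6 : 0 ≤ ∑ t ∈ Sharp.TT R w, ‖(uu R t : ℂ) * ∑ j ∈ Icc 1 H, ee (j * θ) * chi R t j‖ ^ 2 :=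
    Finset.sum_nonneg fun _ _ => by positivity
  generalize (1 + Real.log R) ^ 256 = P at *
  generalize (2 : ℝ) ^ 256 = K2 at *
  calc ((X : ℝ) + (Sharp.TT R w).card * (1 / (2 * (1 / (R : ℝ) ^ 4)))) *
        ∑ t ∈ Sharp.TT R w, ‖(uu R t : ℂ) * ∑ j ∈ Icc 1 H, ee (j * θ) * chi R t j‖ ^ 2
      ≤ (2 * X) * (C1 ^ 2 * (C2 + K2) *
          ((H : ℝ) ^ 2 / Real.sqrt w + H * P)) :=
        mul_le_mul h4 (h3.trans h5) h6 (by positivity)
    _ = _ := by ring

end Pool.SSP
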