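import Mathlib
import Pool.Agent.SSP.Coef
import Pool.Agent.SSP.Sharp

/-!
# SSP/Flat: moments of the low-denominator part of the majorant

`flat_moment`: for every `m` there are `C, A` with `∑_{n≤X} ‖nuF R w n‖^m ≤ C X (1 + log w)^A` (`R, w ≥ 1`).

Proof. Group by the order `q ≤ w` (`q` squarefree): by `uu_ord` the coefficient is constant on `{addOrderOf t = q}`, so
by `uu_le` and `ram_le`
`‖nuF R w n‖ ≤ ∑_{q ≤ w sqfree} C 16^{ω(q)}/q ∑_{d ∣ q, d ∣ n} d ≤ C ∑_{d ∣ n, d ≤ w sqfree} 16^{ω(d)} ∑_{e ≤ w sqfree} 16^{ω(e)}/e`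
(`q = d e`, `ω(q) = ω(d) + ω(e)`), `≤ C (1 + log w)^{16} D(n)`, `D(n) = ∑_{d ∣ n, d ≤ w sqfree} 16^{ω(d)}`
(`sum_pow_omega`, `w ≥ 1`).
Moments: pointwise `D(n)^m ≤ ∑_{e ∣ n, e ≤ w^m sqfree} (64^m)^{ω(e)}` (induction on `m`, group by the `lcm`), so
`∑_{n≤X} D(n)^m ≤ X ∑_{e ≤ w^m sqfree} (64^m)^{ω(e)}/e ≤ X (1 + m log w)^{64^m}` by `sum_pow_omega`.
-/

set_option autoImplicit false

namespace Pool.SSP

open Finset Pool.MRZ

namespace FlatAux

/-- squarefree numbers up to `w` -/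
def SS (w : ℕ) : Finset ℕ := (Icc 1 w).filter Squarefree

lemma mem_SS {w q : ℕ} : q ∈ SS w ↔ (1 ≤ q ∧ q ≤ w) ∧ Squarefree q := by
  unfold SS
  rw [mem_filter, mem_Icc]

/-- `D(n)` with base `B` -/
def DD (w B n : ℕ) : ℕ := ∑ d ∈ (SS w).filter (fun d => d ∣ n), B ^ d.primeFactors.card

lemma sqf_lcm {a b : ℕ} (ha : Squarefree a) (hb : Squarefree b) : Squarefree (Nat.lcm a b) := by
  have ha0 := ha.ne_zero
  have hb0 := hb.ne_zero
  rw [Nat.squarefree_iff_factorization_le_one (Nat.lcm_ne_zero ha0 hb0)]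
  intro p
  rw [Nat.factorization_lcm ha0 hb0]
  exact sup_le (ha.natFactorization_le_one p) (hb.natFactorization_le_one p)

lemma DD_pow (w n m : ℕ) (hw : 1 ≤ w) : DD w 16 n ^ m ≤ DD (w ^ m) (64 ^ m) n := by
  induction m with
  | zero =>
    unfold DD
    rw [pow_zero, pow_zero, pow_zero]
    have h1 : (1 : ℕ) ∈ (SS 1).filter (fun d => d ∣ n) := by
      rw [mem_filter, mem_SS]
      exact ⟨⟨⟨le_refl 1, le_refl 1⟩, squarefree_one⟩, one_dvd n⟩
    have h2 := Finset.single_le_sum (f := fun d : ℕ => 1 ^ d.primeFactors.card)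
      (fun d _ => Nat.zero_le _) h1
    simpa using h2
  | succ m ih =>
    rw [pow_succ]
    refine (Nat.mul_le_mul_right _ ih).trans ?_
    unfold DD
    rw [Finset.sum_mul_sum, ← Finset.sum_product']
    have hmap : ∀ x ∈ ((SS (w ^ m)).filter (fun d => d ∣ n)) ×ˢ ((SS w).filter (fun d => d ∣ n)),
        Nat.lcm x.1 x.2 ∈ (SS (w ^ (m + 1))).filter (fun d => d ∣ n) := by
      intro x hx
      rw [mem_product, mem_filter, mem_filter, mem_SS, mem_SS] at hx
      obtain ⟨⟨⟨⟨a1, a2⟩, a3⟩, a4⟩, ⟨⟨b1, b2⟩, b3⟩, b4⟩ := hx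
      rw [mem_filter, mem_SS]
      refine ⟨⟨⟨Nat.pos_of_ne_zero (Nat.lcm_ne_zero (by omega) (by omega)), ?_⟩, sqf_lcm a3 b3⟩,
        Nat.lcm_dvd a4 b4⟩
      refine (Nat.le_of_dvd (by positivity) (Nat.lcm_dvd_mul x.1 x.2)).trans ?_
      rw [pow_succ]
      exact Nat.mul_le_mul a2 b2
    rw [← Finset.sum_fiberwise_of_maps_to hmap]
    refine Finset.sum_le_sum fun g hg => ?_
    rw [mem_filter, mem_SS] at hg
    obtain ⟨⟨⟨g1, g2⟩, g3⟩, g4⟩ := hg
    obtain ⟨T, hT⟩ : ∃ T : Finset (ℕ × ℕ), T =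
        (((SS (w ^ m)).filter (fun d => d ∣ n)) ×ˢ ((SS w).filter (fun d => d ∣ n))).filter
          (fun x => Nat.lcm x.1 x.2 = g) := ⟨_, rfl⟩
    have hsub : T ⊆ g.divisors ×ˢ g.divisors := by
      intro x hx
      rw [hT, mem_filter] at hx
      rw [mem_product, Nat.mem_divisors, Nat.mem_divisors]
      have hg : g ≠ 0 := by omega
      exact ⟨⟨hx.2 ▸ Nat.dvd_lcm_left _ _, hg⟩, ⟨hx.2 ▸ Nat.dvd_lcm_right _ _, hg⟩⟩
    rw [← hT]
    calc ∑ x ∈ T, (64 ^ m) ^ x.1.primeFactors.card * 16 ^ x.2.primeFactors.card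
        ≤ ∑ x ∈ T, (64 ^ m) ^ g.primeFactors.card * 16 ^ g.primeFactors.card := by
          refine Finset.sum_le_sum fun x hx => ?_
          have h1 := hsub hx
          rw [mem_product, Nat.mem_divisors, Nat.mem_divisors] at h1
          refine Nat.mul_le_mul ?_ ?_
          · exact Nat.pow_le_pow_right (by positivity)
              (Finset.card_le_card (Nat.primeFactors_mono h1.1.1 h1.1.2))
          · exact Nat.pow_le_pow_right (by norm_num)
              (Finset.card_le_card (Nat.primeFactors_mono h1.2.1 h1.2.2))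
      _ = T.card * ((64 ^ m) ^ g.primeFactors.card * 16 ^ g.primeFactors.card) := by
          rw [Finset.sum_const, smul_eq_mul]
      _ ≤ (2 ^ g.primeFactors.card * 2 ^ g.primeFactors.card) *
          ((64 ^ m) ^ g.primeFactors.card * 16 ^ g.primeFactors.card) := by
          refine Nat.mul_le_mul_right _ ((Finset.card_le_card hsub).trans ?_)
          rw [Finset.card_product]
          exact Nat.mul_le_mul (CoefAux.card_div g g3) (CoefAux.card_div g g3)
      _ = (64 ^ (m + 1)) ^ g.primeFactors.card := by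
          rw [← mul_pow, ← mul_pow, ← mul_pow]
          congr 1
          ring

lemma sum_DD (w B X : ℕ) :
    ∑ n ∈ Icc 1 X, (DD w B n : ℝ) ≤ X * (1 + Real.log w) ^ B := by
  have h1 : ∑ n ∈ Icc 1 X, (DD w B n : ℝ) =
      ∑ d ∈ SS w, ((Icc 1 X).filter (fun n => d ∣ n)).card * (B : ℝ) ^ d.primeFactors.card := by
    unfold DD
    push_cast
    simp_rw [Finset.sum_filter]
    rw [Finset.sum_comm]
    refine Finset.sum_congr rfl fun d _ => ?_
    rw [← Finset.sum_filter, Finset.sum_const, nsmul_eq_mul]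
  rw [h1]
  have h2 : ∀ d ∈ SS w, ((Icc 1 X).filter (fun n => d ∣ n)).card * (B : ℝ) ^ d.primeFactors.card ≤
      X * ((B : ℝ) ^ d.primeFactors.card / (d : ℝ)) := by
    intro d hd
    rw [mem_SS] at hd
    have hd0 : (0 : ℝ) < d := by exact_mod_cast hd.1.1
    have h3 : (((Icc 1 X).filter (fun n => d ∣ n)).card : ℝ) ≤ X / d := by
      have h4 : ((Icc 1 X).filter (fun n => d ∣ n)).card = X / d := by
        have h5 : Icc 1 X = Ioc 0 X := by
          ext a
          rw [mem_Icc, mem_Ioc]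
          omega
        rw [h5]
        exact Nat.Ioc_filter_dvd_card_eq_div X d
      rw [h4]
      exact Nat.cast_div_le
    calc _ ≤ (X / d : ℝ) * (B : ℝ) ^ d.primeFactors.card :=
          mul_le_mul_of_nonneg_right h3 (by positivity)
      _ = _ := by ring
  refine (Finset.sum_le_sum h2).trans ?_
  rw [← Finset.mul_sum]
  exact mul_le_mul_of_nonneg_left (sum_pow_omega B w) (Nat.cast_nonneg X)

lemma card_pf_mul {d e : ℕ} (h : Squarefree (d * e)) :
    (d * e).primeFactors.card = d.primeFactors.card + e.primeFactors.card := by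
  have hc := Nat.coprime_of_squarefree_mul h
  rw [hc.primeFactors_mul, Finset.card_union_of_disjoint hc.disjoint_primeFactors]

lemma pair_sum (w n : ℕ) :
    ∑ q ∈ SS w, (16 : ℝ) ^ q.primeFactors.card / (q : ℝ) *
      ∑ d ∈ q.divisors.filter (fun d => d ∣ n), (d : ℝ) ≤
    (DD w 16 n : ℝ) * (1 + Real.log w) ^ 16 := by
  have h0 : (DD w 16 n : ℝ) * (1 + Real.log w) ^ 16 ≥ (DD w 16 n : ℝ) *
      ∑ e ∈ SS w, (16 : ℝ) ^ e.primeFactors.card / (e : ℝ) := by
    refine mul_le_mul_of_nonneg_left ?_ (Nat.cast_nonneg _)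
    have := sum_pow_omega 16 w
    push_cast at this
    exact this
  refine le_trans ?_ h0
  have h1 : (DD w 16 n : ℝ) = ∑ d ∈ (SS w).filter (fun d => d ∣ n), (16 : ℝ) ^ d.primeFactors.card := by
    unfold DD
    push_cast
    rfl
  rw [h1, Finset.sum_mul_sum, ← Finset.sum_product']
  have h2 : ∑ q ∈ SS w, (16 : ℝ) ^ q.primeFactors.card / (q : ℝ) *
      ∑ d ∈ q.divisors.filter (fun d => d ∣ n), (d : ℝ) =
      ∑ x ∈ (SS w).sigma (fun q => q.divisors.filter (fun d => d ∣ n)),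
        (16 : ℝ) ^ x.1.primeFactors.card / (x.1 : ℝ) * (x.2 : ℝ) := by
    rw [Finset.sum_sigma]
    refine Finset.sum_congr rfl fun q _ => ?_
    rw [Finset.mul_sum]
  rw [h2]
  have h3 : ∀ x ∈ (SS w).sigma (fun q => q.divisors.filter (fun d => d ∣ n)),
      ((x.2, x.1 / x.2) : ℕ × ℕ) ∈ ((SS w).filter (fun d => d ∣ n)) ×ˢ (SS w) ∧
      (16 : ℝ) ^ x.1.primeFactors.card / (x.1 : ℝ) * (x.2 : ℝ) =
        (16 : ℝ) ^ x.2.primeFactors.card *
          ((16 : ℝ) ^ (x.1 / x.2).primeFactors.card / ((x.1 / x.2 : ℕ) : ℝ)) := by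
    rintro ⟨q, d⟩ hx
    rw [Finset.mem_sigma, mem_SS, mem_filter, Nat.mem_divisors] at hx
    obtain ⟨⟨⟨q1, q2⟩, q3⟩, ⟨d1, q4⟩, d2⟩ := hx
    simp only at q1 q2 q3 d1 q4 d2 ⊢
    obtain ⟨e, rfl⟩ := d1
    have hd0 : 0 < d := Nat.pos_of_mul_pos_right q1
    have he0 : 0 < e := Nat.pos_of_mul_pos_left q1
    rw [Nat.mul_div_cancel_left e hd0]
    have hdw : d ≤ w := (Nat.le_mul_of_pos_right d he0).trans q2
    have hew : e ≤ w := (Nat.le_mul_of_pos_left e hd0).trans q2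
    refine ⟨?_, ?_⟩
    · rw [mem_product, mem_filter, mem_SS, mem_SS]
      exact ⟨⟨⟨⟨hd0, hdw⟩, q3.squarefree_of_dvd (dvd_mul_right d e)⟩, d2⟩,
        ⟨he0, hew⟩, q3.squarefree_of_dvd (dvd_mul_left e d)⟩
    · rw [card_pf_mul q3, pow_add, Nat.cast_mul]
      have hd1 : (d : ℝ) ≠ 0 := by exact_mod_cast hd0.ne'
      have he1 : (e : ℝ) ≠ 0 := by exact_mod_cast he0.ne'
      field_simp
  rw [Finset.sum_congr rfl fun x hx => (h3 x hx).2]
  have h4 : Set.InjOn (fun x : (_ : ℕ) × ℕ => ((x.2, x.1 / x.2) : ℕ × ℕ))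
      ((SS w).sigma (fun q => q.divisors.filter (fun d => d ∣ n)) : Finset ((_ : ℕ) × ℕ)) := by
    rintro ⟨q, d⟩ hx ⟨q', d'⟩ hx' hxx
    rw [Finset.mem_coe, Finset.mem_sigma, mem_filter, Nat.mem_divisors] at hx hx'
    simp only [Prod.mk.injEq] at hxx
    obtain ⟨rfl, h5⟩ := hxx
    have h6 : q = q' := by
      have h7 := Nat.div_mul_cancel hx.2.1.1
      have h8 := Nat.div_mul_cancel hx'.2.1.1
      simp only at h7 h8
      rw [← h7, ← h8, h5]
    rw [h6]
  have h5 := Finset.sum_image (s := (SS w).sigma (fun q => q.divisors.filter (fun d => d ∣ n)))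
    (g := fun x : (_ : ℕ) × ℕ => ((x.2, x.1 / x.2) : ℕ × ℕ))
    (f := fun y : ℕ × ℕ => (16 : ℝ) ^ y.1.primeFactors.card *
      ((16 : ℝ) ^ y.2.primeFactors.card / (y.2 : ℝ))) h4
  rw [← h5]
  refine Finset.sum_le_sum_of_subset_of_nonneg ?_ (fun _ _ _ => by positivity)
  intro y hy
  rw [Finset.mem_image] at hy
  obtain ⟨x, hx, rfl⟩ := hy
  exact (h3 x hx).1

lemma nuF_le : ∃ C : ℝ, 0 < C ∧ ∀ (R w n : ℕ), 1 ≤ R →
    ‖nuF R w n‖ ≤ C * ((DD w 16 n : ℝ) * (1 + Real.log w) ^ 16) := by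
  obtain ⟨C, hC, huu⟩ := uu_le
  refine ⟨C, hC, fun R w n hR => ?_⟩
  have hmap : ∀ t ∈ (Finset.univ : Finset (ZMod (primorial R))).filter (fun t => addOrderOf t ≤ w),
      addOrderOf t ∈ SS w := by
    intro t ht
    rw [mem_filter] at ht
    rw [mem_SS]
    exact ⟨⟨ord_pos R t, ht.2⟩, ord_sqf R t⟩
  unfold nuF
  rw [← Finset.sum_fiberwise_of_maps_to hmap]
  refine (norm_sum_le _ _).trans ?_
  refine le_trans ?_ (mul_le_mul_of_nonneg_left (pair_sum w n) hC.le)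
  rw [Finset.mul_sum]
  refine Finset.sum_le_sum fun q hq => ?_
  rw [mem_SS] at hq
  have hfil : ((Finset.univ : Finset (ZMod (primorial R))).filter (fun t => addOrderOf t ≤ w)).filter
      (fun t => addOrderOf t = q) =
      (Finset.univ : Finset (ZMod (primorial R))).filter (fun t => addOrderOf t = q) := by
    ext t
    rw [mem_filter, mem_filter, mem_filter]
    constructor
    · rintro ⟨⟨a, b⟩, c⟩
      exact ⟨a, c⟩
    · rintro ⟨a, c⟩
      exact ⟨⟨a, c ▸ hq.1.2⟩, c⟩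
  rw [hfil]
  by_cases hne : ∃ t0 : ZMod (primorial R), addOrderOf t0 = q
  · obtain ⟨t0, ht0⟩ := hne
    have hconst : ∑ t ∈ (Finset.univ : Finset (ZMod (primorial R))).filter (fun t => addOrderOf t = q),
        (uu R t : ℂ) * chi R t n =
        (uu R t0 : ℂ) * ∑ t ∈ (Finset.univ : Finset (ZMod (primorial R))).filter
          (fun t => addOrderOf t = q), chi R t n := by
      rw [Finset.mul_sum]
      refine Finset.sum_congr rfl fun t ht => ?_
      rw [mem_filter] at ht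
      rw [uu_ord R t t0 (ht.2.trans ht0.symm)]
    rw [hconst, norm_mul, Complex.norm_real, Real.norm_eq_abs]
    have hqd : q ∣ primorial R := ht0 ▸ ord_dvd R t0
    have h1 := huu R t0 hR
    rw [ht0] at h1
    calc _ ≤ (C * 16 ^ q.primeFactors.card / (q : ℝ)) *
          ∑ d ∈ q.divisors.filter (fun d => d ∣ n), (d : ℝ) :=
          mul_le_mul h1 (ram_le R q n hqd) (norm_nonneg _) (by positivity)
      _ = _ := by ring
  · have hem : (Finset.univ : Finset (ZMod (primorial R))).filter (fun t => addOrderOf t = q) = ∅ := by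
      rw [Finset.filter_eq_empty_iff]
      intro t _ ht
      exact hne ⟨t, ht⟩
    rw [hem, Finset.sum_empty, norm_zero]
    positivity

end FlatAux

open FlatAux in
theorem flat_moment (m : ℕ) : ∃ (C : ℝ) (A : ℕ), 0 < C ∧ ∀ (R w X : ℕ), 1 ≤ R → 1 ≤ w →
    ∑ n ∈ Icc 1 X, ‖nuF R w n‖ ^ m ≤ C * X * (1 + Real.log w) ^ A := by
  obtain ⟨C, hC, hF⟩ := nuF_le
  refine ⟨C ^ m * ((m : ℝ) + 1) ^ (64 ^ m), 16 * m + 64 ^ m, by positivity, fun R w X hR hw => ?_⟩
  have hlog : 0 ≤ Real.log w := Real.log_natCast_nonneg w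
  have h1 : ∀ n ∈ Icc 1 X, ‖nuF R w n‖ ^ m ≤
      (C ^ m * (1 + Real.log w) ^ (16 * m)) * (DD (w ^ m) (64 ^ m) n : ℝ) := by
    intro n _
    calc ‖nuF R w n‖ ^ m ≤ (C * ((DD w 16 n : ℝ) * (1 + Real.log w) ^ 16)) ^ m :=
          pow_le_pow_left₀ (norm_nonneg _) (hF R w n hR) m
      _ = (C ^ m * (1 + Real.log w) ^ (16 * m)) * ((DD w 16 n ^ m : ℕ) : ℝ) := by
          rw [mul_pow, mul_pow, ← pow_mul]
          push_cast
          ring
      _ ≤ _ := mul_le_mul_of_nonneg_left (by exact_mod_cast DD_pow w n m hw) (by positivity)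
  refine (Finset.sum_le_sum h1).trans ?_
  rw [← Finset.mul_sum]
  have h2 := sum_DD (w ^ m) (64 ^ m) X
  have h3 : (1 + Real.log ((w ^ m : ℕ) : ℝ)) ≤ ((m : ℝ) + 1) * (1 + Real.log w) := by
    push_cast
    rw [Real.log_pow]
    nlinarith [mul_nonneg (Nat.cast_nonneg (α := ℝ) m) hlog, Nat.cast_nonneg (α := ℝ) m]
  have h4 : 0 ≤ 1 + Real.log ((w ^ m : ℕ) : ℝ) := by
    have := Real.log_natCast_nonneg (w ^ m)
    linarith
  calc (C ^ m * (1 + Real.log w) ^ (16 * m)) * ∑ n ∈ Icc 1 X, (DD (w ^ m) (64 ^ m) n : ℝ)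
      ≤ (C ^ m * (1 + Real.log w) ^ (16 * m)) * (X * (1 + Real.log ((w ^ m : ℕ) : ℝ)) ^ (64 ^ m)) :=
        mul_le_mul_of_nonneg_left h2 (by positivity)
    _ ≤ (C ^ m * (1 + Real.log w) ^ (16 * m)) *
        (X * (((m : ℝ) + 1) * (1 + Real.log w)) ^ (64 ^ m)) := by
        refine mul_le_mul_of_nonneg_left ?_ (by positivity)
        exact mul_le_mul_of_nonneg_left (pow_le_pow_left₀ h4 h3 _) (Nat.cast_nonneg X)
    _ = _ := by
        rw [mul_pow ((m : ℝ) + 1), pow_add (1 + Real.log (w : ℝ))]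
        ring

end Pool.SSP
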