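import Mathlib
import Pool.Agent.SSP.Flat
import Pool.Agent.MRZ.PairUp

/-!
# SSP/LevelA: auxiliary lemmas for SSP/Level
-/

set_option autoImplicit false

namespace Pool.SSP

open Finset Pool.MRZ

/-- double counting of windows -/
theorem win_sum_le (X H : ℕ) (f : ℕ → ℝ) (hf : ∀ k, 0 ≤ f k) :
    ∑ x ∈ range X, ∑ k ∈ Ioc x (x + H), f k ≤ H * ∑ k ∈ Icc 1 (X + H), f k := by
  have h1 : ∀ x, ∑ k ∈ Ioc x (x + H), f k = ∑ j ∈ Icc 1 H, f (x + j) := by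
    intro x
    symm
    apply Finset.sum_bij (fun j _ => x + j)
    · intro j hj
      rw [mem_Icc] at hj
      rw [mem_Ioc]
      omega
    · intro i _ j _ h
      omega
    · intro k hk
      rw [mem_Ioc] at hk
      refine ⟨k - x, ?_, ?_⟩
      · rw [mem_Icc]
        omega
      · omega
    · intro j _
      rfl
  simp_rw [h1]
  rw [Finset.sum_comm]
  have h2 : ∀ j ∈ Icc 1 H, ∑ x ∈ range X, f (x + j) ≤ ∑ k ∈ Icc 1 (X + H), f k := by
    intro j hj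
    rw [mem_Icc] at hj
    have h3 : ∑ x ∈ range X, f (x + j) = ∑ k ∈ (range X).map (addRightEmbedding j), f k := by
      rw [Finset.sum_map]
      rfl
    rw [h3]
    apply Finset.sum_le_sum_of_subset_of_nonneg
    · intro k hk
      rw [Finset.mem_map] at hk
      obtain ⟨x, hx, rfl⟩ := hk
      rw [mem_range] at hx
      rw [mem_Icc]
      simp only [addRightEmbedding_apply]
      omega
    · intro k _ _
      exact hf k
  refine (Finset.sum_le_sum h2).trans ?_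
  rw [Finset.sum_const, Nat.card_Icc, nsmul_eq_mul]
  simp

/-- Parseval in a window of length at most `N` -/
theorem window_parseval (N H x : ℕ) (hN : 1 ≤ N) (hH : H ≤ N) (Rs : Finset ℕ) (hRs : Rs ⊆ range N)
    (c : ℕ → ℂ) :
    ∑ k ∈ Ioc x (x + H), ‖∑ r ∈ Rs, c r * ee (-((r : ℝ) / N) * k)‖ ^ 2 ≤ N * ∑ r ∈ Rs, ‖c r‖ ^ 2 := by
  have hN0 : (N : ℝ) ≠ 0 := by
    have : (0 : ℝ) < N := by exact_mod_cast hN
    exact this.ne'
  have h1 : ∑ k ∈ Ioc x (x + H), ‖∑ r ∈ Rs, c r * ee (-((r : ℝ) / N) * k)‖ ^ 2 =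
      ∑ i ∈ range H, ‖∑ r ∈ Rs, (c r * ee (-((r : ℝ) / N) * ((x : ℝ) + 1))) *
        ee ((i : ℝ) / N * ((-(r : ℤ) : ℤ) : ℝ))‖ ^ 2 := by
    symm
    apply Finset.sum_bij (fun i _ => x + 1 + i)
    · intro i hi
      rw [mem_range] at hi
      rw [mem_Ioc]
      omega
    · intro i _ j _ h
      omega
    · intro k hk
      rw [mem_Ioc] at hk
      refine ⟨k - x - 1, ?_, ?_⟩
      · rw [mem_range]
        omega
      · omega
    · intro i _
      congr 2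
      apply Finset.sum_congr rfl
      intro r _
      rw [mul_assoc, ← ee_add]
      congr 2
      push_cast
      field_simp
      ring
  rw [h1]
  have h2 : ∑ i ∈ range H, ‖∑ r ∈ Rs, (c r * ee (-((r : ℝ) / N) * ((x : ℝ) + 1))) *
        ee ((i : ℝ) / N * ((-(r : ℤ) : ℤ) : ℝ))‖ ^ 2 ≤
      ∑ i ∈ range N, ‖∑ r ∈ Rs, (c r * ee (-((r : ℝ) / N) * ((x : ℝ) + 1))) *
        ee ((i : ℝ) / N * ((-(r : ℤ) : ℤ) : ℝ))‖ ^ 2 := by
    apply Finset.sum_le_sum_of_subset_of_nonneg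
    · exact Finset.range_mono hH
    · intro i _ _
      positivity
  refine h2.trans ?_
  rw [dft_parseval_gen Rs (fun r => -(r : ℤ)) (fun r => c r * ee (-((r : ℝ) / N) * ((x : ℝ) + 1))) N hN]
  · simp
  · intro i hi j hj hd
    have hi' := mem_range.1 (hRs hi)
    have hj' := mem_range.1 (hRs hj)
    have h3 : (N : ℤ) ∣ (j : ℤ) - i := by
      have : -(i : ℤ) - -(j : ℤ) = (j : ℤ) - i := by ring
      rwa [this] at hd
    obtain ⟨t, ht⟩ := h3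
    have ht0 : t = 0 := by
      by_contra hne
      rcases lt_or_gt_of_ne hne with h | h
      · have : (N : ℤ) * t ≤ -(N : ℤ) := by nlinarith
        omega
      · have : (N : ℤ) ≤ (N : ℤ) * t := by nlinarith
        omega
    rw [ht0] at ht
    omega

/-- truncation at height `T` -/
theorem trunc_le (y T : ℝ) (hy : 0 ≤ y) (hT : 0 < T) (m : ℕ) :
    y ≤ T + T * (T⁻¹) ^ (m + 1) * y ^ (m + 1) := by
  by_cases h : y ≤ T
  · have : 0 ≤ T * (T⁻¹) ^ (m + 1) * y ^ (m + 1) := by positivity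
    linarith
  · push Not at h
    have h1 : 1 ≤ T⁻¹ * y := by
      rw [inv_mul_eq_div, le_div_iff₀ hT]
      linarith
    have h2 : T⁻¹ * y ≤ (T⁻¹ * y) ^ (m + 1) := by
      calc T⁻¹ * y = (T⁻¹ * y) ^ 1 := by ring
        _ ≤ _ := pow_le_pow_right₀ h1 (by omega)
    have h3 : y = T * (T⁻¹ * y) := by field_simp
    have h4 : T * (T⁻¹ * y) ≤ T * (T⁻¹ * y) ^ (m + 1) := mul_le_mul_of_nonneg_left h2 hT.le
    rw [mul_pow] at h4
    have h5 : T * ((T⁻¹) ^ (m + 1) * y ^ (m + 1)) = T * (T⁻¹) ^ (m + 1) * y ^ (m + 1) := by ring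
    linarith

/-- the Fourier coefficient of `a` in the window `(x, x+H]` -/
noncomputable def Ah (a : ℕ → ℂ) (H N x r : ℕ) : ℂ := ∑ k ∈ Ioc x (x + H), a k * ee ((r : ℝ) / N * k)

/-- the restricted inverse transform -/
noncomputable def Phi (a : ℕ → ℂ) (H N : ℕ) (Rs : Finset ℕ) (x k : ℕ) : ℂ :=
  ∑ r ∈ Rs, Ah a H N x r * ee (-((r : ℝ) / N) * k)

theorem norm_Ah_le (a : ℕ → ℂ) (H N x r : ℕ) : ‖Ah a H N x r‖ ≤ ∑ k ∈ Ioc x (x + H), ‖a k‖ := by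
  unfold Ah
  refine (norm_sum_le _ _).trans (le_of_eq ?_)
  apply Finset.sum_congr rfl
  intro k _
  rw [norm_mul, norm_ee, mul_one]

theorem norm_Phi_le (a : ℕ → ℂ) (H N : ℕ) (Rs : Finset ℕ) (x k : ℕ) (B : ℝ)
    (hB : ∀ r ∈ Rs, ‖Ah a H N x r‖ ≤ B) : ‖Phi a H N Rs x k‖ ≤ Rs.card * B := by
  unfold Phi
  refine (norm_sum_le _ _).trans ?_
  rw [← nsmul_eq_mul]
  apply Finset.sum_le_card_nsmul
  intro r hr
  rw [norm_mul, norm_ee, mul_one]
  exact hB r hr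

theorem sum_sq_Ah (a : ℕ → ℂ) (H N : ℕ) (Rs : Finset ℕ) (x : ℕ) :
    ((∑ r ∈ Rs, ‖Ah a H N x r‖ ^ 2 : ℝ) : ℂ) =
      ∑ k ∈ Ioc x (x + H), (starRingEnd ℂ) (a k) * Phi a H N Rs x k := by
  unfold Phi
  simp_rw [Finset.mul_sum]
  rw [Finset.sum_comm, Complex.ofReal_sum]
  apply Finset.sum_congr rfl
  intro r _
  have h1 : ((‖Ah a H N x r‖ ^ 2 : ℝ) : ℂ) = (starRingEnd ℂ) (Ah a H N x r) * Ah a H N x r := by
    rw [mul_comm, Complex.mul_conj, Complex.normSq_eq_norm_sq]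
  rw [h1]
  have h2 : (starRingEnd ℂ) (Ah a H N x r) =
      ∑ k ∈ Ioc x (x + H), (starRingEnd ℂ) (a k) * ee (-((r : ℝ) / N) * k) := by
    unfold Ah
    rw [map_sum]
    apply Finset.sum_congr rfl
    intro k _
    rw [map_mul, conj_ee, neg_mul]
  rw [h2, Finset.sum_mul]
  apply Finset.sum_congr rfl
  intro k _
  ring

/-- the first Cauchy–Schwarz step -/
theorem cs_step (a : ℕ → ℂ) (H N : ℕ) (Rs S : Finset ℕ) :
    (∑ x ∈ S, ∑ r ∈ Rs, ‖Ah a H N x r‖ ^ 2) ^ 2 ≤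
      (∑ x ∈ S, ∑ k ∈ Ioc x (x + H), ‖a k‖) *
        (∑ x ∈ S, ∑ k ∈ Ioc x (x + H), ‖a k‖ * ‖Phi a H N Rs x k‖ ^ 2) := by
  have h1 : ∑ x ∈ S, ∑ r ∈ Rs, ‖Ah a H N x r‖ ^ 2 ≤
      ∑ x ∈ S, ∑ k ∈ Ioc x (x + H), ‖a k‖ * ‖Phi a H N Rs x k‖ := by
    apply Finset.sum_le_sum
    intro x _
    have h2 : ∑ r ∈ Rs, ‖Ah a H N x r‖ ^ 2 = ‖((∑ r ∈ Rs, ‖Ah a H N x r‖ ^ 2 : ℝ) : ℂ)‖ := by
      rw [Complex.norm_real, Real.norm_of_nonneg]
      positivity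
    rw [h2, sum_sq_Ah]
    refine (norm_sum_le _ _).trans (le_of_eq ?_)
    apply Finset.sum_congr rfl
    intro k _
    rw [norm_mul, RCLike.norm_conj]
  have h0 : 0 ≤ ∑ x ∈ S, ∑ r ∈ Rs, ‖Ah a H N x r‖ ^ 2 := by positivity
  refine (pow_le_pow_left₀ h0 h1 2).trans ?_
  rw [Finset.sum_sigma', Finset.sum_sigma', Finset.sum_sigma']
  apply Finset.sum_sq_le_sum_mul_sum_of_sq_le_mul
  · intro i _
    positivity
  · intro i _
    positivity
  · intro i _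
    apply le_of_eq
    ring

/-- the part `nuS` : expansion of the square -/
theorem nuS_part (a : ℕ → ℂ) (H N R w : ℕ) (Rs : Finset ℕ) (x : ℕ) (B : ℝ)
    (hB : ∀ r ∈ Rs, ‖Ah a H N x r‖ ≤ B) :
    ‖∑ k ∈ Ioc x (x + H), nuS R w k * ((‖Phi a H N Rs x k‖ ^ 2 : ℝ) : ℂ)‖ ≤
      B ^ 2 * ∑ r ∈ Rs, ∑ s ∈ Rs, ‖∑ k ∈ Ioc x (x + H), nuS R w k * ee (((s : ℝ) / N - (r : ℝ) / N) * k)‖ := by
  have h1 : ∑ k ∈ Ioc x (x + H), nuS R w k * ((‖Phi a H N Rs x k‖ ^ 2 : ℝ) : ℂ) =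
      ∑ r ∈ Rs, ∑ s ∈ Rs, (Ah a H N x r * (starRingEnd ℂ) (Ah a H N x s)) *
        ∑ k ∈ Ioc x (x + H), nuS R w k * ee (((s : ℝ) / N - (r : ℝ) / N) * k) := by
    have h2 : ∀ k, ((‖Phi a H N Rs x k‖ ^ 2 : ℝ) : ℂ) =
        ∑ r ∈ Rs, ∑ s ∈ Rs, (Ah a H N x r * (starRingEnd ℂ) (Ah a H N x s)) *
          ee (((s : ℝ) / N - (r : ℝ) / N) * k) := by
      intro k
      have h3 : ((‖Phi a H N Rs x k‖ ^ 2 : ℝ) : ℂ) =
          Phi a H N Rs x k * (starRingEnd ℂ) (Phi a H N Rs x k) := by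
        rw [Complex.mul_conj, Complex.normSq_eq_norm_sq]
      rw [h3]
      unfold Phi
      rw [map_sum, Finset.sum_mul_sum]
      apply Finset.sum_congr rfl
      intro r _
      apply Finset.sum_congr rfl
      intro s _
      rw [map_mul, conj_ee]
      have h4 : ee (((s : ℝ) / N - (r : ℝ) / N) * k) =
          ee (-((r : ℝ) / N) * k) * ee (-(-((s : ℝ) / N) * k)) := by
        rw [← ee_add]
        congr 1
        ring
      rw [h4]
      ring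
    simp_rw [h2, Finset.mul_sum]
    rw [Finset.sum_comm]
    apply Finset.sum_congr rfl
    intro r _
    rw [Finset.sum_comm]
    apply Finset.sum_congr rfl
    intro s _
    apply Finset.sum_congr rfl
    intro k _
    ring
  rw [h1, Finset.mul_sum]
  refine (norm_sum_le _ _).trans ?_
  apply Finset.sum_le_sum
  intro r hr
  rw [Finset.mul_sum]
  refine (norm_sum_le _ _).trans ?_
  apply Finset.sum_le_sum
  intro s hs
  rw [norm_mul, norm_mul, RCLike.norm_conj]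
  apply mul_le_mul_of_nonneg_right _ (norm_nonneg _)
  have h5 := hB r hr
  have h6 := hB s hs
  have h7 : 0 ≤ ‖Ah a H N x r‖ := norm_nonneg _
  have h8 : 0 ≤ ‖Ah a H N x s‖ := norm_nonneg _
  nlinarith

theorem sum_nuS_part (a : ℕ → ℂ) (X H N R w : ℕ) (Rs S : Finset ℕ) (B W : ℝ) (hS : S ⊆ range X)
    (hB : ∀ x ∈ S, ∀ r ∈ Rs, ‖Ah a H N x r‖ ≤ B)
    (hW : ∀ θ : ℝ, ∑ x ∈ range X, ‖∑ k ∈ Ioc x (x + H), nuS R w k * ee (θ * k)‖ ^ 2 ≤ W) :
    ∑ x ∈ S, ‖∑ k ∈ Ioc x (x + H), nuS R w k * ((‖Phi a H N Rs x k‖ ^ 2 : ℝ) : ℂ)‖ ≤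
      (Rs.card * B) ^ 2 * Real.sqrt (X * W) := by
  have h1 : ∀ θ : ℝ, ∑ x ∈ S, ‖∑ k ∈ Ioc x (x + H), nuS R w k * ee (θ * k)‖ ≤ Real.sqrt (X * W) := by
    intro θ
    have h2 : ∑ x ∈ S, ‖∑ k ∈ Ioc x (x + H), nuS R w k * ee (θ * k)‖ ≤
        ∑ x ∈ range X, ‖∑ k ∈ Ioc x (x + H), nuS R w k * ee (θ * k)‖ :=
      Finset.sum_le_sum_of_subset_of_nonneg hS (fun _ _ _ => norm_nonneg _)
    refine h2.trans ?_
    apply Real.le_sqrt_of_sq_le
    have h3 := sq_sum_le_card_mul_sum_sq (s := range X)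
      (f := fun x => ‖∑ k ∈ Ioc x (x + H), nuS R w k * ee (θ * k)‖)
    rw [Finset.card_range] at h3
    refine h3.trans ?_
    exact mul_le_mul_of_nonneg_left (hW θ) (Nat.cast_nonneg X)
  calc ∑ x ∈ S, ‖∑ k ∈ Ioc x (x + H), nuS R w k * ((‖Phi a H N Rs x k‖ ^ 2 : ℝ) : ℂ)‖
      ≤ ∑ x ∈ S, B ^ 2 * ∑ r ∈ Rs, ∑ s ∈ Rs,
          ‖∑ k ∈ Ioc x (x + H), nuS R w k * ee (((s : ℝ) / N - (r : ℝ) / N) * k)‖ :=
        Finset.sum_le_sum fun x hx => nuS_part a H N R w Rs x B (hB x hx)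
    _ = B ^ 2 * ∑ r ∈ Rs, ∑ s ∈ Rs, ∑ x ∈ S,
          ‖∑ k ∈ Ioc x (x + H), nuS R w k * ee (((s : ℝ) / N - (r : ℝ) / N) * k)‖ := by
        rw [← Finset.mul_sum, Finset.sum_comm]
        congr 1
        apply Finset.sum_congr rfl
        intro r _
        rw [Finset.sum_comm]
    _ ≤ B ^ 2 * ∑ r ∈ Rs, ∑ s ∈ Rs, Real.sqrt (X * W) := by
        apply mul_le_mul_of_nonneg_left _ (sq_nonneg B)
        exact Finset.sum_le_sum fun r _ => Finset.sum_le_sum fun s _ => h1 _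
    _ = (Rs.card * B) ^ 2 * Real.sqrt (X * W) := by
        simp only [Finset.sum_const, nsmul_eq_mul]
        ring

/-- the small numbers -/
theorem small_part (X H R : ℕ) (S : Finset ℕ) (f : ℕ → ℕ → ℝ) (D : ℝ) (hD : 0 ≤ D)
    (hf : ∀ x ∈ S, ∀ k, f x k ≤ D) :
    ∑ x ∈ S, ∑ k ∈ Ioc x (x + H), (if k ≤ R then Real.log X else 0) * f x k ≤
      (R : ℝ) ^ 2 * Real.log X * D := by
  have hlog : 0 ≤ Real.log X := Real.log_natCast_nonneg X
  have h1 : ∀ x ∈ S, ∑ k ∈ Ioc x (x + H), (if k ≤ R then Real.log X else 0) * f x k ≤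
      if x < R then (R : ℝ) * (Real.log X * D) else 0 := by
    intro x hx
    have h2 : ∑ k ∈ Ioc x (x + H), (if k ≤ R then Real.log X else 0) * f x k ≤
        ∑ k ∈ Ioc x (x + H), (if k ≤ R then Real.log X * D else 0) := by
      apply Finset.sum_le_sum
      intro k _
      split_ifs
      · exact mul_le_mul_of_nonneg_left (hf x hx k) hlog
      · simp
    refine h2.trans ?_
    split_ifs with hxR
    · rw [← Finset.sum_filter, Finset.sum_const, nsmul_eq_mul]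
      apply mul_le_mul_of_nonneg_right _ (mul_nonneg hlog hD)
      have h3 : ((Ioc x (x + H)).filter (fun k => k ≤ R)).card ≤ (Icc 1 R).card := by
        apply Finset.card_le_card
        intro k hk
        rw [mem_filter, mem_Ioc] at hk
        rw [mem_Icc]
        omega
      rw [Nat.card_Icc] at h3
      exact_mod_cast h3
    · apply le_of_eq
      apply Finset.sum_eq_zero
      intro k hk
      rw [mem_Ioc] at hk
      rw [if_neg]
      omega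
  refine (Finset.sum_le_sum h1).trans ?_
  rw [← Finset.sum_filter, Finset.sum_const, nsmul_eq_mul]
  have h4 : ((S.filter (fun x => x < R)).card : ℝ) ≤ R := by
    have h5 : (S.filter (fun x => x < R)).card ≤ (range R).card := by
      apply Finset.card_le_card
      intro x hx
      rw [mem_filter] at hx
      rw [mem_range]
      exact hx.2
    rw [card_range] at h5
    exact_mod_cast h5
  have h6 : 0 ≤ (R : ℝ) * (Real.log X * D) := by positivity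
  calc ((S.filter (fun x => x < R)).card : ℝ) * ((R : ℝ) * (Real.log X * D))
      ≤ R * ((R : ℝ) * (Real.log X * D)) := mul_le_mul_of_nonneg_right h4 h6
    _ = _ := by ring

/-- the basic inequality -/
theorem big_ineq (X H N R w m : ℕ) (a : ℕ → ℂ) (S Rs : Finset ℕ) (M T W : ℝ) (hT : 0 < T)
    (hN : 1 ≤ N) (hHN : H ≤ N) (hRs : Rs ⊆ range N) (hS : S ⊆ range X)
    (hR : 2 ≤ R) (hX : X ≤ R ^ 17) (ha : ∀ k, ‖a k‖ ≤ thp k) (ha0 : ∀ k, X < k → a k = 0)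
    (hM : ∀ x ∈ S, ∑ k ∈ Ioc x (x + H), ‖a k‖ ≤ M * H)
    (hW : ∀ θ : ℝ, ∑ x ∈ range X, ‖∑ k ∈ Ioc x (x + H), nuS R w k * ee (θ * k)‖ ^ 2 ≤ W) :
    (∑ x ∈ S, ∑ r ∈ Rs, ‖Ah a H N x r‖ ^ 2) ^ 2 ≤
      (H * ∑ k ∈ Icc 1 (X + H), thp k) *
        (34 * (T * (N * ∑ x ∈ S, ∑ r ∈ Rs, ‖Ah a H N x r‖ ^ 2) +
            T * (T⁻¹) ^ (m + 1) * (Rs.card * (M * H)) ^ 2 *
              (H * ∑ k ∈ Icc 1 (X + H), ‖nuF R w k‖ ^ (m + 1))) +
          34 * ((Rs.card * (M * H)) ^ 2 * Real.sqrt (X * W)) +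
          (R : ℝ) ^ 2 * Real.log X * (Rs.card * (M * H)) ^ 2) := by
  have hlog : 0 ≤ Real.log X := Real.log_natCast_nonneg X
  have hB : ∀ x ∈ S, ∀ r ∈ Rs, ‖Ah a H N x r‖ ≤ M * H := fun x hx r _ =>
    (norm_Ah_le a H N x r).trans (hM x hx)
  have hPhi : ∀ x ∈ S, ∀ k, ‖Phi a H N Rs x k‖ ^ 2 ≤ (Rs.card * (M * H)) ^ 2 := by
    intro x hx k
    exact pow_le_pow_left₀ (norm_nonneg _) (norm_Phi_le a H N Rs x k (M * H) (hB x hx)) 2
  have h1 : ∑ x ∈ S, ∑ k ∈ Ioc x (x + H), ‖a k‖ ≤ H * ∑ k ∈ Icc 1 (X + H), thp k := by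
    calc ∑ x ∈ S, ∑ k ∈ Ioc x (x + H), ‖a k‖ ≤ ∑ x ∈ S, ∑ k ∈ Ioc x (x + H), thp k :=
          Finset.sum_le_sum fun x _ => Finset.sum_le_sum fun k _ => ha k
      _ ≤ ∑ x ∈ range X, ∑ k ∈ Ioc x (x + H), thp k :=
          Finset.sum_le_sum_of_subset_of_nonneg hS
            (fun x _ _ => Finset.sum_nonneg fun k _ => thp_nonneg k)
      _ ≤ _ := win_sum_le X H thp thp_nonneg
  -- pointwise bound
  have hmaj : ∀ k, ‖a k‖ ≤ 34 * nu R k + (if k ≤ R then Real.log X else 0) := by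
    intro k
    by_cases hk : k ≤ X
    · exact (ha k).trans (maj R X k hR hX hk)
    · push Not at hk
      rw [ha0 k hk, norm_zero]
      have h2 := nu_nonneg R k
      have h3 : (0 : ℝ) ≤ if k ≤ R then Real.log X else 0 := by
        split_ifs
        · exact hlog
        · exact le_refl 0
      linarith
  -- the nu part
  have hnu : ∑ x ∈ S, ∑ k ∈ Ioc x (x + H), nu R k * ‖Phi a H N Rs x k‖ ^ 2 ≤
      (T * (N * ∑ x ∈ S, ∑ r ∈ Rs, ‖Ah a H N x r‖ ^ 2) +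
            T * (T⁻¹) ^ (m + 1) * (Rs.card * (M * H)) ^ 2 *
              (H * ∑ k ∈ Icc 1 (X + H), ‖nuF R w k‖ ^ (m + 1))) +
        (Rs.card * (M * H)) ^ 2 * Real.sqrt (X * W) := by
    have h4 : ∀ x ∈ S, ∑ k ∈ Ioc x (x + H), nu R k * ‖Phi a H N Rs x k‖ ^ 2 ≤
        ∑ k ∈ Ioc x (x + H), ‖nuF R w k‖ * ‖Phi a H N Rs x k‖ ^ 2 +
          ‖∑ k ∈ Ioc x (x + H), nuS R w k * ((‖Phi a H N Rs x k‖ ^ 2 : ℝ) : ℂ)‖ := by
      intro x _
      have h5 : ((∑ k ∈ Ioc x (x + H), nu R k * ‖Phi a H N Rs x k‖ ^ 2 : ℝ) : ℂ) =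
          ∑ k ∈ Ioc x (x + H), nuF R w k * ((‖Phi a H N Rs x k‖ ^ 2 : ℝ) : ℂ) +
            ∑ k ∈ Ioc x (x + H), nuS R w k * ((‖Phi a H N Rs x k‖ ^ 2 : ℝ) : ℂ) := by
        rw [← Finset.sum_add_distrib, Complex.ofReal_sum]
        apply Finset.sum_congr rfl
        intro k _
        rw [Complex.ofReal_mul, nu_split R w k]
        ring
      have h6 : ∑ k ∈ Ioc x (x + H), nu R k * ‖Phi a H N Rs x k‖ ^ 2 =
          ‖((∑ k ∈ Ioc x (x + H), nu R k * ‖Phi a H N Rs x k‖ ^ 2 : ℝ) : ℂ)‖ := by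
        rw [Complex.norm_real, Real.norm_of_nonneg]
        exact Finset.sum_nonneg fun k _ => mul_nonneg (nu_nonneg R k) (by positivity)
      rw [h6, h5]
      refine (norm_add_le _ _).trans ?_
      apply add_le_add_left
      refine (norm_sum_le _ _).trans (le_of_eq ?_)
      apply Finset.sum_congr rfl
      intro k _
      rw [norm_mul, Complex.norm_real, Real.norm_of_nonneg (by positivity)]
    refine (Finset.sum_le_sum h4).trans ?_
    rw [Finset.sum_add_distrib]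
    apply add_le_add _ (sum_nuS_part a X H N R w Rs S (M * H) W hS hB hW)
    -- the flat part
    have h7 : ∀ x ∈ S, ∑ k ∈ Ioc x (x + H), ‖nuF R w k‖ * ‖Phi a H N Rs x k‖ ^ 2 ≤
        T * (N * ∑ r ∈ Rs, ‖Ah a H N x r‖ ^ 2) +
          T * (T⁻¹) ^ (m + 1) * (Rs.card * (M * H)) ^ 2 *
            ∑ k ∈ Ioc x (x + H), ‖nuF R w k‖ ^ (m + 1) := by
      intro x hx
      have h8 : ∑ k ∈ Ioc x (x + H), ‖nuF R w k‖ * ‖Phi a H N Rs x k‖ ^ 2 ≤
          ∑ k ∈ Ioc x (x + H), (T * ‖Phi a H N Rs x k‖ ^ 2 +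
            T * (T⁻¹) ^ (m + 1) * (Rs.card * (M * H)) ^ 2 * ‖nuF R w k‖ ^ (m + 1)) := by
        apply Finset.sum_le_sum
        intro k _
        have h9 := trunc_le ‖nuF R w k‖ T (norm_nonneg _) hT m
        have h10 := hPhi x hx k
        have h11 : 0 ≤ ‖Phi a H N Rs x k‖ ^ 2 := by positivity
        have h12 : 0 ≤ T * (T⁻¹) ^ (m + 1) * ‖nuF R w k‖ ^ (m + 1) := by positivity
        calc ‖nuF R w k‖ * ‖Phi a H N Rs x k‖ ^ 2
            ≤ (T + T * (T⁻¹) ^ (m + 1) * ‖nuF R w k‖ ^ (m + 1)) * ‖Phi a H N Rs x k‖ ^ 2 :=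
              mul_le_mul_of_nonneg_right h9 h11
          _ = T * ‖Phi a H N Rs x k‖ ^ 2 +
              (T * (T⁻¹) ^ (m + 1) * ‖nuF R w k‖ ^ (m + 1)) * ‖Phi a H N Rs x k‖ ^ 2 := by ring
          _ ≤ T * ‖Phi a H N Rs x k‖ ^ 2 +
              (T * (T⁻¹) ^ (m + 1) * ‖nuF R w k‖ ^ (m + 1)) * (Rs.card * (M * H)) ^ 2 := by
              have := mul_le_mul_of_nonneg_left h10 h12
              linarith
          _ = _ := by ring
      refine h8.trans ?_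
      rw [Finset.sum_add_distrib, ← Finset.mul_sum, ← Finset.mul_sum]
      apply add_le_add_left
      apply mul_le_mul_of_nonneg_left _ hT.le
      exact window_parseval N H x hN hHN Rs hRs (fun r => Ah a H N x r)
    refine (Finset.sum_le_sum h7).trans ?_
    rw [Finset.sum_add_distrib, ← Finset.mul_sum, ← Finset.mul_sum, ← Finset.mul_sum]
    apply add_le_add_right
    apply mul_le_mul_of_nonneg_left _ (by positivity)
    calc ∑ x ∈ S, ∑ k ∈ Ioc x (x + H), ‖nuF R w k‖ ^ (m + 1)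
        ≤ ∑ x ∈ range X, ∑ k ∈ Ioc x (x + H), ‖nuF R w k‖ ^ (m + 1) :=
          Finset.sum_le_sum_of_subset_of_nonneg hS
            (fun x _ _ => Finset.sum_nonneg fun k _ => by positivity)
      _ ≤ _ := win_sum_le X H (fun k => ‖nuF R w k‖ ^ (m + 1)) (fun k => by positivity)
  have hsm := small_part X H R S (fun x k => ‖Phi a H N Rs x k‖ ^ 2) ((Rs.card * (M * H)) ^ 2)
    (by positivity) hPhi
  have h2 : ∑ x ∈ S, ∑ k ∈ Ioc x (x + H), ‖a k‖ * ‖Phi a H N Rs x k‖ ^ 2 ≤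
      34 * ∑ x ∈ S, ∑ k ∈ Ioc x (x + H), nu R k * ‖Phi a H N Rs x k‖ ^ 2 +
        ∑ x ∈ S, ∑ k ∈ Ioc x (x + H), (if k ≤ R then Real.log X else 0) * ‖Phi a H N Rs x k‖ ^ 2 := by
    rw [Finset.mul_sum, ← Finset.sum_add_distrib]
    apply Finset.sum_le_sum
    intro x _
    rw [Finset.mul_sum, ← Finset.sum_add_distrib]
    apply Finset.sum_le_sum
    intro k _
    have h13 := mul_le_mul_of_nonneg_right (hmaj k) (sq_nonneg ‖Phi a H N Rs x k‖)
    linarith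
  have hcs := cs_step a H N Rs S
  refine hcs.trans ?_
  have h14 : 0 ≤ ∑ x ∈ S, ∑ k ∈ Ioc x (x + H), ‖a k‖ * ‖Phi a H N Rs x k‖ ^ 2 := by positivity
  have h15 : 0 ≤ ∑ x ∈ S, ∑ k ∈ Ioc x (x + H), ‖a k‖ := by positivity
  apply mul_le_mul h1 _ h14 (h15.trans h1)
  linarith

end Pool.SSP
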