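import Mathlib
import Pool.Agent.SSP.Flat
import Pool.Agent.MRZ.PairUp
import Pool.Agent.SSP.LevelA

/-!
# SSP/Level: restricted weak type restriction estimate for the primes in windows of length `(log X)^A`

`a` supported on `[1,X]`, `|a| ≤ thp`; `S ⊆ [0,X)` a set of windows with `∑_{x<k≤x+H} |a(k)| ≤ M H`; `Rs ⊆ [0,N)` a set
of frequencies `r/N`, `H ≤ N ≤ MH`, with `A(r) := ∑_{x∈S} |Â_x(r)|² ≥ λ H² X` for `r ∈ Rs`,
`Â_x(r) = ∑_{x<k≤x+H} a(k) e(rk/N)`. Then `#Rs ≤ C λ^{-(1+τ)}` provided `(log X)^{-A₁} ≤ λ ≤ 1`, `H ≥ (log X)^{A₂}`,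
`A₂ = A₂(τ, A₁)`, `X ≥ X₀`.

Proof. Take `R = ⌊X^{1/16}⌋` (so `R^16 ≤ X ≤ R^{18}`; more precisely for large `X` it satisfies `X ≤ R^{17}`).
By `maj`, `‖a k‖ ≤ thp k ≤ 34 nu R k + (log X) 1_{k≤R}` for all `k ≤ X`.
Put `n = #Rs`, `𝒜 = ∑_{r∈Rs} A(r) ≥ n λ H² X`, `Φ_x(k) = ∑_{r∈Rs} Â_x(r) e(-rk/N)`. Then
`𝒜 = ∑_{x∈S} ∑_{x<k≤x+H} a(k) conj(conj-version)`: precisely `|Â_x(r)|² = Â_x(r) conj Â_x(r)
= conj( ∑_k a(k) e(rk/N) ) Â_x(r)`, so `𝒜 = ∑_{x∈S} ∑_k conj(a(k)) Φ_x(k)`, whence by Cauchy–Schwarz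
`𝒜² ≤ (∑_{x∈S} ∑_k |a(k)|) (∑_{x∈S} ∑_k |a(k)| |Φ_x(k)|²)`. The first factor is `≤ C H X` (`thp_sums`, every `k` lies
in at most `H` windows). In the second `|a(k)| ≤ 34 nu(k) + (log X) 1_{k≤R}`; note `|Â_x| ≤ MH`, `|Φ_x(k)| ≤ n M H`.
(a) `k ≤ R`: only `x < R`: at most `R · R · (log X) (nMH)²`.
(b) `nuS` part: `∑_{k} nuS(k) |Φ_x(k)|² = ∑_{r,r'∈Rs} Â_x(r) conj Â_x(r') ∑_{x<k≤x+H} nuS(k) e((r'-r)k/N)`, so summed
over `x ∈ S` it is at most `n² (MH)² max_{θ} ∑_{x<X} ‖∑_k nuS(k) e(θk)‖ ≤ n² M² H² (X · C X (H²/√w + H(1+log R)^{A}))^{1/2}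
≤ C n² M² H³ X (w^{-1/4} + H^{-1/2} (1+log X)^{A})` (`sharp_window`, Cauchy–Schwarz in `x`).
(c) `nuF` part: for any threshold `T ≥ 1` and `m ≥ 1`: `‖nuF(k)‖ ≤ T + T^{1-m} ‖nuF(k)‖^m`. First term:
`∑_{x∈S} ∑_{x<k≤x+H} |Φ_x(k)|² ≤ N ∑_{x∈S} ∑_{r∈Rs} |Â_x(r)|² = N 𝒜` (orthogonality mod `N`, the window is contained in
an interval of length `N`; `Pool.MRZ.dft_orth`). Second term: `≤ (nMH)² T^{1-m} ∑_{x<X} ∑_{x<k≤x+H} ‖nuF(k)‖^m
≤ (nMH)² T^{1-m} H C_m (2X) (1+log w)^{A_m}` (`flat_moment` with `X + H ≤ 2X`).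
Since `nu = nuF + nuS` (`nu_split`) is real, `∑ nu |Φ|² ≤ ‖∑ nuF|Φ|²‖ + ‖∑ nuS |Φ|²‖`. Altogether, with `C₁` absolute
(depending on `m`),
`𝒜² ≤ C₁ H X ( T N 𝒜 + n² M² H³ X [ T^{1-m}(1+log w)^{A_m} + w^{-1/4} + H^{-1/2}(1+log X)^{A} + R² (log X)/(H X) ] )`.
Choose: `m` with `τ (m-1) ≥ 4`; `T = B λ^{-τ}`, `w = ⌈(B/λ)^{16}⌉`, where `B = B(τ, M, C₁) ≥ 1` is large, and
`A₂ = 2(A + 2 A₁ + 1)`. The bracket is `≤ λ²/(4 C₁ M²)`:
`T^{1-m}(1+log w)^{A_m} ≤ B^{1-m} λ^4 (3+16 log(B/λ))^{A_m}`, and `sup_{0<λ≤1} λ² (3 + 16 log(B/λ))^{A_m} ≤ C (1+log B)^{A_m}`,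
so this is `≤ λ² · B^{1-m} C (1+log B)^{A_m}`; `w^{-1/4} ≤ (λ/B)^4`; `H^{-1/2}(1+log X)^A ≤ 2^A (log X)^{-2A₁-1}`
`≤ 2^A λ² /log X`; the last term is tiny (`R² ≤ X^{1/8}`, `λ² ≥ (log X)^{-2A₁}`).
If the bracket term were the larger one, `n² λ² H⁴ X² ≤ 𝒜² ≤ 2 C₁ n² M² H⁴ X² λ²/(4 C₁ M²) = n² λ² H⁴X²/2`:
impossible for `n ≥ 1`. So `𝒜² ≤ 2 C₁ H X T N 𝒜`, `𝒜 ≤ 2 C₁ M T H² X`, `n λ ≤ 2 C₁ M B λ^{-τ}`. Done (`n = 0` trivial).
-/

set_option autoImplicit false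

namespace Pool.SSP

open Finset Pool.MRZ

/-- an approximate sixteenth root -/
theorem exists_root (X : ℕ) (hX : 16 ^ 16 ≤ X) : ∃ R : ℕ, 2 ≤ R ∧ R ^ 16 ≤ X ∧ X ≤ R ^ 17 := by
  have hex : ∃ R : ℕ, X < (R + 1) ^ 16 := by
    refine ⟨X, ?_⟩
    calc X < X + 1 := Nat.lt_succ_self X
      _ = (X + 1) ^ 1 := (pow_one _).symm
      _ ≤ (X + 1) ^ 16 := Nat.pow_le_pow_right (Nat.succ_pos X) (by norm_num)
  classical
  set R := Nat.find hex with hRdef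
  have h1 : X < (R + 1) ^ 16 := Nat.find_spec hex
  have h16 : 16 ≤ R := by
    by_contra h
    push Not at h
    have : (R + 1) ^ 16 ≤ 16 ^ 16 := Nat.pow_le_pow_left (by omega) 16
    omega
  have h2 : R ^ 16 ≤ X := by
    have h3 : ¬ X < ((R - 1) + 1) ^ 16 := Nat.find_min hex (by omega)
    have h4 : R - 1 + 1 = R := by omega
    rw [h4] at h3
    omega
  refine ⟨R, by omega, h2, ?_⟩
  have h5 : (R + 1) ^ 16 ≤ R ^ 17 := by
    have h6 : (16 * (R + 1)) ^ 16 ≤ (17 * R) ^ 16 := Nat.pow_le_pow_left (by omega) 16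
    rw [mul_pow, mul_pow] at h6
    have h7 : 17 ^ 16 * R ^ 16 ≤ 16 ^ 16 * R ^ 17 := by
      have h8 : (17 : ℕ) ^ 16 ≤ 16 ^ 16 * 16 := by norm_num
      calc 17 ^ 16 * R ^ 16 ≤ (16 ^ 16 * 16) * R ^ 16 := Nat.mul_le_mul_right _ h8
        _ ≤ (16 ^ 16 * R) * R ^ 16 := Nat.mul_le_mul_right _ (Nat.mul_le_mul_left _ h16)
        _ = 16 ^ 16 * R ^ 17 := by ring
    exact Nat.le_of_mul_le_mul_left (h6.trans h7) (by positivity)
  omega

/-- the logarithmic factor -/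
theorem log_pow_le (A v : ℕ) (hv : 1 ≤ v) :
    (1 + Real.log ((v ^ 8 : ℕ) : ℝ)) ^ A ≤ 8 ^ A * ((A.factorial : ℝ) * (3 * v)) := by
  have hv1 : (1 : ℝ) ≤ v := by exact_mod_cast hv
  have hlog : 0 ≤ Real.log (v : ℝ) := Real.log_nonneg hv1
  have h1 : 1 + Real.log ((v ^ 8 : ℕ) : ℝ) ≤ 8 * (1 + Real.log v) := by
    push_cast
    rw [Real.log_pow]
    push_cast
    linarith
  have h0 : 0 ≤ 1 + Real.log ((v ^ 8 : ℕ) : ℝ) := by
    have := Real.log_natCast_nonneg (v ^ 8)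
    linarith
  have h2 : (1 + Real.log v) ^ A ≤ (A.factorial : ℝ) * (3 * v) := by
    have h3 := Real.pow_div_factorial_le_exp (1 + Real.log v) (by linarith) A
    have hf : (0 : ℝ) < A.factorial := by exact_mod_cast A.factorial_pos
    rw [div_le_iff₀ hf] at h3
    have h4 : Real.exp (1 + Real.log v) ≤ 3 * v := by
      rw [Real.exp_add, Real.exp_log (by linarith)]
      apply mul_le_mul_of_nonneg_right _ (by linarith)
      exact Real.exp_one_lt_three.le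
    calc (1 + Real.log v) ^ A ≤ Real.exp (1 + Real.log v) * A.factorial := h3
      _ ≤ (3 * v) * A.factorial := mul_le_mul_of_nonneg_right h4 hf.le
      _ = _ := by ring
  calc (1 + Real.log ((v ^ 8 : ℕ) : ℝ)) ^ A ≤ (8 * (1 + Real.log v)) ^ A := pow_le_pow_left₀ h0 h1 A
    _ = 8 ^ A * (1 + Real.log v) ^ A := mul_pow _ _ _
    _ ≤ _ := mul_le_mul_of_nonneg_left h2 (by positivity)

/-- the end of the argument, pure algebra -/
theorem end_game (A n lam H X M C₁ T N P d : ℝ) (hn : 1 ≤ n) (hlam : 0 < lam) (hH : 0 < H) (hX : 0 < X)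
    (hM : 1 ≤ M) (hC : 0 < C₁) (hT : 0 < T) (hN : 0 < N) (hNM : N ≤ M * H)
    (hA : n * (lam * H ^ 2 * X) ≤ A) (hP : P = n ^ 2 * M ^ 2 * H ^ 3 * X) (hd : d = 1 / (4 * C₁ * M ^ 2))
    (h : A ^ 2 ≤ C₁ * H * X * (T * (N * A) + P * (d * lam ^ 2))) :
    n * lam ≤ 2 * C₁ * M * T := by
  have hM0 : 0 < M := by linarith
  have hn0 : 0 < n := by linarith
  have hA0 : 0 < A := lt_of_lt_of_le (by positivity) hA
  have hdC : C₁ * M ^ 2 * d = 1 / 4 := by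
    rw [hd]
    field_simp
  have hPd : C₁ * H * X * (P * (d * lam ^ 2)) = (n * (lam * H ^ 2 * X)) ^ 2 / 4 := by
    rw [hP]
    calc C₁ * H * X * (n ^ 2 * M ^ 2 * H ^ 3 * X * (d * lam ^ 2))
        = (C₁ * M ^ 2 * d) * (n * (lam * H ^ 2 * X)) ^ 2 := by ring
      _ = _ := by rw [hdC]; ring
  have h1 : (n * (lam * H ^ 2 * X)) ^ 2 ≤ A ^ 2 := pow_le_pow_left₀ (by positivity) hA 2
  have h2 : A ^ 2 ≤ 2 * (C₁ * H * X * (T * (N * A))) := by
    have h3 : A ^ 2 ≤ C₁ * H * X * (T * (N * A)) + A ^ 2 / 4 := by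
      calc A ^ 2 ≤ C₁ * H * X * (T * (N * A) + P * (d * lam ^ 2)) := h
        _ = C₁ * H * X * (T * (N * A)) + C₁ * H * X * (P * (d * lam ^ 2)) := by ring
        _ ≤ _ := by rw [hPd]; linarith
    have h4 : 0 ≤ C₁ * H * X * (T * (N * A)) := by positivity
    nlinarith
  have h5 : A ≤ 2 * (C₁ * H * X * (T * N)) := by
    have h6 : A * A ≤ (2 * (C₁ * H * X * (T * N))) * A := by
      calc A * A = A ^ 2 := by ring
        _ ≤ _ := h2
        _ = _ := by ring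
    exact le_of_mul_le_mul_right h6 hA0
  have h7 : (n * lam) * (H ^ 2 * X) ≤ (2 * C₁ * M * T) * (H ^ 2 * X) := by
    calc (n * lam) * (H ^ 2 * X) = n * (lam * H ^ 2 * X) := by ring
      _ ≤ A := hA
      _ ≤ 2 * (C₁ * H * X * (T * N)) := h5
      _ ≤ 2 * (C₁ * H * X * (T * (M * H))) := by gcongr
      _ = _ := by ring
  exact le_of_mul_le_mul_right h7 (by positivity)

theorem level_bound (τ A₁ : ℝ) (hτ : 0 < τ) (hA₁ : 0 ≤ A₁) : ∃ A₂ : ℝ, ∀ M : ℝ, 1 ≤ M →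
    ∃ (C : ℝ) (X₀ : ℕ), 0 < C ∧ ∀ (X H N : ℕ) (a : ℕ → ℂ) (S Rs : Finset ℕ) (lam : ℝ),
      X₀ ≤ X → (Real.log X) ^ A₂ ≤ H → H ≤ X → H ≤ N → (N : ℝ) ≤ M * H →
      (∀ k, ‖a k‖ ≤ thp k) → (∀ k, X < k → a k = 0) → S ⊆ range X →
      (∀ x ∈ S, ∑ k ∈ Ioc x (x + H), ‖a k‖ ≤ M * H) →
      (Real.log X) ^ (-A₁) ≤ lam → lam ≤ 1 → Rs ⊆ range N →
      (∀ r ∈ Rs, lam * (H : ℝ) ^ 2 * X ≤
        ∑ x ∈ S, ‖∑ k ∈ Ioc x (x + H), a k * ee ((r : ℝ) / N * k)‖ ^ 2) →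
      (Rs.card : ℝ) ≤ C * lam ^ (-(1 + τ)) := by
  obtain ⟨Cθ, hCθ, hθ⟩ := thp_sums
  obtain ⟨Cs, As, hCs, hsharp⟩ := sharp_window
  obtain ⟨m, hm1, hmτ⟩ : ∃ m : ℕ, 1 ≤ m ∧ 3 ≤ τ * m := by
    obtain ⟨m, hm⟩ := exists_nat_ge (3 / τ)
    refine ⟨m + 1, by omega, ?_⟩
    push_cast
    rw [div_le_iff₀ hτ] at hm
    nlinarith
  obtain ⟨Cm, Am, hCm, hflat⟩ := flat_moment (m + 1)
  refine ⟨As + 4 * A₁ + 1, ?_⟩
  intro M hM
  have hM0 : 0 < M := by linarith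
  set C₁ : ℝ := 68 * Cθ with hC₁
  have hC₁0 : 0 < C₁ := by positivity
  set d : ℝ := 1 / (4 * C₁ * M ^ 2) with hd
  have hd0 : 0 < d := by positivity
  set B₂ : ℝ := max 1 (18 * Cs / d ^ 2) with hB₂
  have hB₂1 : 1 ≤ B₂ := le_max_left _ _
  have hB₂2 : 18 * Cs / d ^ 2 ≤ B₂ := le_max_right _ _
  set K₁ : ℝ := 2 * Cm * (8 ^ Am * ((Am.factorial : ℝ) * (6 * B₂))) with hK₁
  have hK₁0 : 0 < K₁ := by positivity
  set B : ℝ := max 1 (3 * K₁ / d) with hB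
  have hB1 : 1 ≤ B := le_max_left _ _
  have hB2 : 3 * K₁ / d ≤ B := le_max_right _ _
  have hB0 : 0 < B := by linarith
  -- size of `X`
  have hev : ∀ᶠ x : ℝ in Filter.atTop, Real.exp 1 ≤ x ∧ 18 * Cs * 2 ^ As / d ^ 2 ≤ Real.log x ∧
      Real.log x ^ (2 * A₁ + 1) ≤ d / 3 * x ^ (1 / 2 : ℝ) := by
    refine Filter.Eventually.and (Filter.eventually_ge_atTop _) (Filter.Eventually.and ?_ ?_)
    · exact Real.tendsto_log_atTop.eventually_ge_atTop _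
    · have h1 := isLittleO_log_rpow_rpow_atTop (2 * A₁ + 1) (s := 1 / 2) (by norm_num)
      have h2 := h1.bound (show (0 : ℝ) < d / 3 by positivity)
      filter_upwards [h2, Filter.eventually_ge_atTop (1 : ℝ)] with x hx hx1
      rw [Real.norm_of_nonneg (Real.rpow_nonneg (Real.log_nonneg hx1) _),
        Real.norm_of_nonneg (Real.rpow_nonneg (by linarith) _)] at hx
      exact hx
  obtain ⟨X₁, hX₁⟩ := Filter.eventually_atTop.1 hev
  obtain ⟨X₂, hX₂⟩ := exists_nat_ge X₁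
  refine ⟨2 * C₁ * M * B, max (16 ^ 16) X₂, by positivity, ?_⟩
  intro X H N a S Rs lam hX hHlog hHX hHN hNM ha ha0 hS hMH hlam hlam1 hRs hr
  have hX16 : 16 ^ 16 ≤ X := (le_max_left _ _).trans hX
  have hXX₁ : X₁ ≤ (X : ℝ) := hX₂.trans (by exact_mod_cast (le_max_right _ _).trans hX)
  obtain ⟨hXe, hXlog, hXr⟩ := hX₁ X hXX₁
  have hX0 : (0 : ℝ) < X := lt_of_lt_of_le (Real.exp_pos 1) hXe
  have hlog1 : 1 ≤ Real.log X := by
    rw [Real.le_log_iff_exp_le hX0]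
    exact hXe
  have hlog0 : 0 < Real.log X := by linarith
  have hlam0 : 0 < lam := lt_of_lt_of_le (Real.rpow_pos_of_pos hlog0 _) hlam
  have hH1 : (1 : ℝ) ≤ H := by
    refine le_trans ?_ hHlog
    apply Real.one_le_rpow hlog1
    positivity
  have hH1' : 1 ≤ H := by exact_mod_cast hH1
  have hN1 : 1 ≤ N := hH1'.trans hHN
  have hN0 : (0 : ℝ) < N := by exact_mod_cast hN1
  -- trivial case
  rcases Nat.eq_zero_or_pos Rs.card with hcard | hcard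
  · rw [hcard]
    push_cast
    positivity
  have hn : (1 : ℝ) ≤ Rs.card := by exact_mod_cast hcard
  obtain ⟨R, hR2, hR16, hR17⟩ := exists_root X hX16
  -- the choice of `v`, `w`, `T`
  set v : ℕ := ⌈B₂ / lam⌉₊ with hv
  have hBl : 1 ≤ B₂ / lam := by
    rw [le_div_iff₀ hlam0]
    linarith
  have hv1 : B₂ / lam ≤ v := Nat.le_ceil _
  have hv2 : (v : ℝ) ≤ 2 * (B₂ / lam) := by
    have := (Nat.ceil_lt_add_one (show 0 ≤ B₂ / lam by positivity)).le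
    linarith
  have hv1' : 1 ≤ v := by
    have : (1 : ℝ) ≤ v := hBl.trans hv1
    exact_mod_cast this
  set T : ℝ := B * lam ^ (-τ) with hT
  have hT0 : 0 < T := by positivity
  have hXH : ((X + H : ℕ) : ℝ) ≤ 2 * X := by
    push_cast
    have : (H : ℝ) ≤ X := by exact_mod_cast hHX
    linarith
  set W : ℝ := Cs * X * ((H : ℝ) ^ 2 / Real.sqrt ((v ^ 8 : ℕ) : ℝ) + H * (1 + Real.log R) ^ As) with hWdef
  have hW : ∀ θ : ℝ, ∑ x ∈ range X, ‖∑ k ∈ Ioc x (x + H), nuS R (v ^ 8) k * ee (θ * k)‖ ^ 2 ≤ W :=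
    fun θ => hsharp R (v ^ 8) H X θ (by omega) (Nat.one_le_pow _ _ hv1') hH1' hR16
  have hbig := big_ineq X H N R (v ^ 8) m a S Rs M T W hT0 hN1 hHN hRs hS hR2 hR17 ha ha0 hMH hW
  set AA : ℝ := ∑ x ∈ S, ∑ r ∈ Rs, ‖Ah a H N x r‖ ^ 2 with hAA
  set n : ℝ := (Rs.card : ℝ) with hndef
  set P : ℝ := n ^ 2 * M ^ 2 * (H : ℝ) ^ 3 * X with hP
  have hP0 : 0 ≤ P := by positivity
  have hlamd : 0 < d * lam ^ 2 / 3 := by positivity
  -- first sum
  have hs1 : (H : ℝ) * ∑ k ∈ Icc 1 (X + H), thp k ≤ 2 * Cθ * H * X := by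
    have h1 := (hθ (X + H) (by omega)).1
    calc (H : ℝ) * ∑ k ∈ Icc 1 (X + H), thp k ≤ H * (Cθ * ((X + H : ℕ) : ℝ)) :=
          mul_le_mul_of_nonneg_left h1 (by positivity)
      _ ≤ H * (Cθ * (2 * X)) := by gcongr
      _ = _ := by ring
  -- flat term
  have hterm2 : T * (T⁻¹) ^ (m + 1) * (n * (M * H)) ^ 2 *
      (H * ∑ k ∈ Icc 1 (X + H), ‖nuF R (v ^ 8) k‖ ^ (m + 1)) ≤ P * (d * lam ^ 2 / 3) := by
    have h1 := hflat R (v ^ 8) (X + H) (by omega) (Nat.one_le_pow _ _ hv1')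
    have h2 := log_pow_le Am v hv1'
    have h3 : T * (T⁻¹) ^ (m + 1) ≤ B⁻¹ * lam ^ 3 := by
      have h4 : T * (T⁻¹) ^ (m + 1) = (T⁻¹) ^ m := by
        rw [pow_succ]
        field_simp
      rw [h4]
      have h5 : T⁻¹ = B⁻¹ * lam ^ τ := by
        rw [hT, mul_inv, Real.rpow_neg hlam0.le, inv_inv]
      rw [h5, mul_pow]
      have h6 : (B⁻¹) ^ m ≤ B⁻¹ := by
        calc (B⁻¹) ^ m ≤ (B⁻¹) ^ 1 :=
              pow_le_pow_of_le_one (by positivity) (inv_le_one_of_one_le₀ hB1) hm1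
          _ = B⁻¹ := pow_one _
      have h7 : (lam ^ τ) ^ m ≤ lam ^ 3 := by
        rw [← Real.rpow_natCast (lam ^ τ) m, ← Real.rpow_mul hlam0.le, ← Real.rpow_natCast lam 3]
        apply Real.rpow_le_rpow_of_exponent_ge hlam0 hlam1
        push_cast
        exact hmτ
      exact mul_le_mul h6 h7 (by positivity) (by positivity)
    have h8 : ∑ k ∈ Icc 1 (X + H), ‖nuF R (v ^ 8) k‖ ^ (m + 1) ≤
        Cm * (2 * X) * (8 ^ Am * ((Am.factorial : ℝ) * (3 * (2 * (B₂ / lam))))) := by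
      refine h1.trans ?_
      have h9 : 0 ≤ (1 + Real.log ((v ^ 8 : ℕ) : ℝ)) ^ Am := by
        have := Real.log_natCast_nonneg (v ^ 8)
        positivity
      calc Cm * ((X + H : ℕ) : ℝ) * (1 + Real.log ((v ^ 8 : ℕ) : ℝ)) ^ Am
          ≤ Cm * (2 * X) * (1 + Real.log ((v ^ 8 : ℕ) : ℝ)) ^ Am := by gcongr
        _ ≤ Cm * (2 * X) * (8 ^ Am * ((Am.factorial : ℝ) * (3 * v))) := by gcongr
        _ ≤ _ := by gcongr
    have h10 : K₁ / B ≤ d / 3 := by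
      rw [div_le_iff₀ hB0]
      rw [div_le_iff₀ hd0] at hB2
      linarith
    calc T * (T⁻¹) ^ (m + 1) * (n * (M * H)) ^ 2 *
          (H * ∑ k ∈ Icc 1 (X + H), ‖nuF R (v ^ 8) k‖ ^ (m + 1))
        ≤ (B⁻¹ * lam ^ 3) * (n * (M * H)) ^ 2 *
          (H * (Cm * (2 * X) * (8 ^ Am * ((Am.factorial : ℝ) * (3 * (2 * (B₂ / lam))))))) := by
          gcongr
      _ = P * ((K₁ / B) * lam ^ 2) := by
          rw [hK₁, hP]
          field_simp
          ring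
      _ ≤ P * ((d / 3) * lam ^ 2) := by gcongr
      _ = _ := by ring
  -- sharp term
  have hterm3 : (n * (M * H)) ^ 2 * Real.sqrt (X * W) ≤ P * (d * lam ^ 2 / 3) := by
    have h1 : Real.sqrt (X * W) ≤ H * X * (d * lam ^ 2 / 3) := by
      apply Real.sqrt_le_iff.2
      refine ⟨by positivity, ?_⟩
      have h2 : Cs * ((H : ℝ) ^ 2 / Real.sqrt ((v ^ 8 : ℕ) : ℝ)) ≤ (H : ℝ) ^ 2 * (d * lam ^ 2 / 3) ^ 2 / 2 := by
        have h3 : Real.sqrt ((v ^ 8 : ℕ) : ℝ) = (v : ℝ) ^ 4 := by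
          push_cast
          rw [show (v : ℝ) ^ 8 = ((v : ℝ) ^ 4) ^ 2 by ring]
          exact Real.sqrt_sq (by positivity)
        rw [h3]
        have h4 : B₂ / lam ^ 4 ≤ (v : ℝ) ^ 4 := by
          calc B₂ / lam ^ 4 ≤ B₂ ^ 4 / lam ^ 4 := by
                apply div_le_div_of_nonneg_right _ (by positivity)
                calc B₂ = B₂ ^ 1 := (pow_one _).symm
                  _ ≤ B₂ ^ 4 := pow_le_pow_right₀ hB₂1 (by norm_num)
            _ = (B₂ / lam) ^ 4 := by rw [div_pow]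
            _ ≤ (v : ℝ) ^ 4 := pow_le_pow_left₀ (by positivity) hv1 4
        have hvpos : (0 : ℝ) < (v : ℝ) ^ 4 := by positivity
        have h5 : 18 * Cs ≤ B₂ * d ^ 2 := by
          rw [div_le_iff₀ (by positivity)] at hB₂2
          exact hB₂2
        have h6 : B₂ ≤ (v : ℝ) ^ 4 * lam ^ 4 := by
          rw [div_le_iff₀ (by positivity)] at h4
          exact h4
        have h7 : 18 * Cs ≤ (v : ℝ) ^ 4 * lam ^ 4 * d ^ 2 :=
          h5.trans (mul_le_mul_of_nonneg_right h6 (by positivity))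
        rw [mul_div_assoc', div_le_iff₀ hvpos]
        have h8 : 0 ≤ (H : ℝ) ^ 2 := by positivity
        have h9 := mul_le_mul_of_nonneg_left h7 h8
        calc Cs * (H : ℝ) ^ 2 = ((H : ℝ) ^ 2 * (18 * Cs)) / 18 := by ring
          _ ≤ ((H : ℝ) ^ 2 * ((v : ℝ) ^ 4 * lam ^ 4 * d ^ 2)) / 18 :=
              div_le_div_of_nonneg_right h9 (by norm_num)
          _ = _ := by ring
      have h10 : Cs * (H * (1 + Real.log R) ^ As) ≤ (H : ℝ) ^ 2 * (d * lam ^ 2 / 3) ^ 2 / 2 := by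
        have h11 : (1 + Real.log R) ^ As ≤ 2 ^ As * Real.log X ^ As := by
          rw [← mul_pow]
          have hR0 : (0 : ℝ) < R := by
            have : 0 < R := by omega
            exact_mod_cast this
          apply pow_le_pow_left₀
          · have := Real.log_natCast_nonneg R
            linarith
          · have h12 : Real.log R ≤ Real.log X := by
              apply Real.log_le_log hR0
              have h13 : R ≤ X := by
                calc R = R ^ 1 := (pow_one _).symm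
                  _ ≤ R ^ 16 := Nat.pow_le_pow_right (by omega) (by norm_num)
                  _ ≤ X := hR16
              exact_mod_cast h13
            linarith
        have h14 : Real.log X ^ As * Real.log X ≤ H * lam ^ 4 := by
          have h15 : Real.log X ^ (-(4 * A₁)) ≤ lam ^ 4 := by
            calc Real.log X ^ (-(4 * A₁)) = (Real.log X ^ (-A₁)) ^ 4 := by
                  rw [← Real.rpow_natCast, ← Real.rpow_mul hlog0.le]
                  congr 1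
                  push_cast
                  ring
              _ ≤ lam ^ 4 := pow_le_pow_left₀ (by positivity) hlam 4
          calc Real.log X ^ As * Real.log X
              = Real.log X ^ ((As : ℝ) + 4 * A₁ + 1) * Real.log X ^ (-(4 * A₁)) := by
                rw [← Real.rpow_natCast, ← Real.rpow_add hlog0]
                nth_rewrite 2 [← Real.rpow_one (Real.log X)]
                rw [← Real.rpow_add hlog0]
                congr 1
                ring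
            _ ≤ H * lam ^ 4 := mul_le_mul hHlog h15 (by positivity) (by positivity)
        have h16 : 18 * Cs * 2 ^ As ≤ Real.log X * d ^ 2 := by
          rw [div_le_iff₀ (by positivity)] at hXlog
          exact hXlog
        have h17 : 18 * (Cs * (2 ^ As * Real.log X ^ As)) ≤ d ^ 2 * (H * lam ^ 4) := by
          calc 18 * (Cs * (2 ^ As * Real.log X ^ As)) = (18 * Cs * 2 ^ As) * Real.log X ^ As := by ring
            _ ≤ (Real.log X * d ^ 2) * Real.log X ^ As :=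
                mul_le_mul_of_nonneg_right h16 (by positivity)
            _ = d ^ 2 * (Real.log X ^ As * Real.log X) := by ring
            _ ≤ _ := mul_le_mul_of_nonneg_left h14 (by positivity)
        calc Cs * (H * (1 + Real.log R) ^ As) ≤ Cs * (H * (2 ^ As * Real.log X ^ As)) := by gcongr
          _ = H * (18 * (Cs * (2 ^ As * Real.log X ^ As))) / 18 := by ring
          _ ≤ H * (d ^ 2 * (H * lam ^ 4)) / 18 := by gcongr
          _ = _ := by ring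
      calc (X : ℝ) * W = X ^ 2 * (Cs * ((H : ℝ) ^ 2 / Real.sqrt ((v ^ 8 : ℕ) : ℝ)) +
            Cs * (H * (1 + Real.log R) ^ As)) := by rw [hWdef]; ring
        _ ≤ X ^ 2 * ((H : ℝ) ^ 2 * (d * lam ^ 2 / 3) ^ 2 / 2 + (H : ℝ) ^ 2 * (d * lam ^ 2 / 3) ^ 2 / 2) := by
            gcongr
        _ = _ := by ring
    calc (n * (M * H)) ^ 2 * Real.sqrt (X * W) ≤ (n * (M * H)) ^ 2 * (H * X * (d * lam ^ 2 / 3)) :=
          mul_le_mul_of_nonneg_left h1 (by positivity)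
      _ = _ := by rw [hP]; ring
  -- small numbers
  have hterm4 : (R : ℝ) ^ 2 * Real.log X * (n * (M * H)) ^ 2 ≤ P * (d * lam ^ 2 / 3) := by
    have h1 : (R : ℝ) ^ 2 ≤ (X : ℝ) ^ (1 / 2 : ℝ) := by
      rw [← Real.sqrt_eq_rpow]
      apply Real.le_sqrt_of_sq_le
      have h2 : (R ^ 2) ^ 2 ≤ X := by
        calc (R ^ 2) ^ 2 = R ^ 4 := by ring
          _ ≤ R ^ 16 := Nat.pow_le_pow_right (by omega) (by norm_num)
          _ ≤ X := hR16
      exact_mod_cast h2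
    have h3 : Real.log X * Real.log X ^ (2 * A₁) ≤ d / 3 * (X : ℝ) ^ (1 / 2 : ℝ) := by
      refine le_trans (le_of_eq ?_) hXr
      rw [Real.rpow_add hlog0, Real.rpow_one]
      ring
    have h4 : 1 ≤ Real.log X ^ (2 * A₁) * lam ^ 2 := by
      have h5 : Real.log X ^ (-(2 * A₁)) ≤ lam ^ 2 := by
        calc Real.log X ^ (-(2 * A₁)) = (Real.log X ^ (-A₁)) ^ 2 := by
              rw [← Real.rpow_natCast, ← Real.rpow_mul hlog0.le]
              congr 1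
              push_cast
              ring
          _ ≤ lam ^ 2 := pow_le_pow_left₀ (by positivity) hlam 2
      calc (1 : ℝ) = Real.log X ^ (2 * A₁) * Real.log X ^ (-(2 * A₁)) := by
            rw [← Real.rpow_add hlog0]
            simp
        _ ≤ _ := mul_le_mul_of_nonneg_left h5 (by positivity)
    have h6 : (X : ℝ) ^ (1 / 2 : ℝ) * (X : ℝ) ^ (1 / 2 : ℝ) = X := by
      rw [← Real.rpow_add hX0]
      norm_num
    have h7 : (R : ℝ) ^ 2 * Real.log X ≤ X * (d * lam ^ 2 / 3) := by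
      calc (R : ℝ) ^ 2 * Real.log X ≤ (X : ℝ) ^ (1 / 2 : ℝ) * Real.log X :=
            mul_le_mul_of_nonneg_right h1 hlog0.le
        _ ≤ ((X : ℝ) ^ (1 / 2 : ℝ) * Real.log X) * (Real.log X ^ (2 * A₁) * lam ^ 2) :=
            le_mul_of_one_le_right (by positivity) h4
        _ = (X : ℝ) ^ (1 / 2 : ℝ) * (Real.log X * Real.log X ^ (2 * A₁)) * lam ^ 2 := by ring
        _ ≤ (X : ℝ) ^ (1 / 2 : ℝ) * (d / 3 * (X : ℝ) ^ (1 / 2 : ℝ)) * lam ^ 2 := by gcongr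
        _ = ((X : ℝ) ^ (1 / 2 : ℝ) * (X : ℝ) ^ (1 / 2 : ℝ)) * (d * lam ^ 2 / 3) := by ring
        _ = _ := by rw [h6]
    calc (R : ℝ) ^ 2 * Real.log X * (n * (M * H)) ^ 2
        ≤ (X * (d * lam ^ 2 / 3)) * (n * (M * H)) ^ 2 :=
          mul_le_mul_of_nonneg_right h7 (by positivity)
      _ ≤ (X * (d * lam ^ 2 / 3)) * (n * (M * H)) ^ 2 * H :=
          le_mul_of_one_le_right (by positivity) hH1
      _ = _ := by rw [hP]; ring
  have hmain : AA ^ 2 ≤ C₁ * H * X * (T * (N * AA) + P * (d * lam ^ 2)) := by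
    have hAA0 : 0 ≤ AA := by positivity
    calc AA ^ 2 ≤ _ := hbig
      _ ≤ (2 * Cθ * H * X) * (34 * (T * (N * AA) + P * (d * lam ^ 2 / 3)) +
          34 * (P * (d * lam ^ 2 / 3)) + P * (d * lam ^ 2 / 3)) := by
          apply mul_le_mul hs1 _ _ (by positivity)
          · gcongr
          · positivity
      _ ≤ (2 * Cθ * H * X) * (34 * (T * (N * AA) + P * (d * lam ^ 2))) := by
          apply mul_le_mul_of_nonneg_left _ (by positivity)
          have : 0 ≤ P * (d * lam ^ 2 / 3) := by positivity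
          nlinarith
      _ = _ := by rw [hC₁]; ring
  have hAlow : n * (lam * (H : ℝ) ^ 2 * X) ≤ AA := by
    rw [hAA, Finset.sum_comm]
    have h1 : ∑ r ∈ Rs, (lam * (H : ℝ) ^ 2 * X) ≤ ∑ r ∈ Rs, ∑ x ∈ S, ‖Ah a H N x r‖ ^ 2 :=
      Finset.sum_le_sum fun r hrr => hr r hrr
    rw [Finset.sum_const, nsmul_eq_mul] at h1
    exact h1
  have hfin := end_game AA n lam H X M C₁ T N P d hn hlam0 (by linarith) hX0 hM hC₁0 hT0 hN0 hNM
    hAlow hP hd hmain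
  have h20 : n ≤ (2 * C₁ * M * T) / lam := by
    rw [le_div_iff₀ hlam0]
    exact hfin
  refine h20.trans (le_of_eq ?_)
  rw [hT, neg_add, Real.rpow_add hlam0, Real.rpow_neg hlam0.le 1, Real.rpow_one]
  field_simp

end Pool.SSP
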