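import Mathlib
import Pool.Agent.MRZ.CorrCore

/-!
# SSP/Win: the windowed sum with a general modulus `N ≥ 2H`

Same as `Pool.MRZ.CorrCoreAux.window_dft` (file `Pool/Agent/MRZ/CorrCore.lean`), which is the case `N = 2H`; the proof
is the same (`dft_triple` is stated for all `N ≥ 2H`).
-/

set_option autoImplicit false

namespace Pool.SSP

open Finset Pool.MRZ

theorem window_dftN (a e g : ℕ → ℂ) (x h₀ H N : ℕ) (hH : 1 ≤ H) (hN : 2 * H ≤ N) :
    ‖∑ k ∈ Finset.Ioc x (x + H), a k * ∑ h ∈ Finset.Ioc h₀ (h₀ + H), e h * g (k + h)‖ * N ≤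
      ∑ r ∈ Finset.range N,
        ‖∑ k ∈ Finset.Ioc x (x + H), a k * ee ((r : ℝ) / N * k)‖ *
        ‖∑ h ∈ Finset.Icc 1 H, e (h₀ + h) * ee ((r : ℝ) / N * h)‖ *
        ‖∑ l ∈ Finset.Icc 1 (2 * H), g (x + h₀ + l) * ee (-((r : ℝ) / N) * l)‖ := by
  have h1 : ∑ k ∈ Finset.Ioc x (x + H), a k * ∑ h ∈ Finset.Ioc h₀ (h₀ + H), e h * g (k + h) =
      ∑ i ∈ Finset.Icc 1 H, ∑ h ∈ Finset.Icc 1 H, a (x + i) * e (h₀ + h) * g (x + h₀ + (i + h)) := by
    rw [← CorrCoreAux.shift_sum (fun k => a k * ∑ h ∈ Finset.Ioc h₀ (h₀ + H), e h * g (k + h)) x H]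
    refine Finset.sum_congr rfl fun i _ => ?_
    rw [← CorrCoreAux.shift_sum (fun h => e h * g (x + i + h)) h₀ H, Finset.mul_sum]
    refine Finset.sum_congr rfl fun h _ => ?_
    have h2 : x + i + (h₀ + h) = x + h₀ + (i + h) := by ring
    rw [h2]
    ring
  rw [h1, dft_triple (fun i => a (x + i)) (fun h => e (h₀ + h)) (fun l => g (x + h₀ + l)) H N hH
    hN]
  have hN0 : (0 : ℝ) < (N : ℝ) := by
    have : 0 < N := by omega
    exact_mod_cast this
  rw [norm_mul, norm_inv, Complex.norm_natCast]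
  have h4 : ∀ z : ℝ, (N : ℝ)⁻¹ * z * (N : ℝ) = z := by
    intro z
    field_simp
  rw [h4]
  refine norm_sum_le_of_le _ fun r _ => ?_
  rw [norm_mul, norm_mul, CorrCoreAux.norm_shift_ee a]

end Pool.SSP
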