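import Mathlib
import Pool.Agent.SSP.Level
import Pool.Agent.SSP.LevSum
import Pool.Agent.SSP.Energy
import Pool.Agent.SSP.Win
import Pool.Agent.MRZ.AMom

/-!
# SSP/Core: the correlation estimate for a sparse family of shifts

`|g| ≤ 1`, `SupA g`, `r ≥ 2`. There are `A₂` (depending on `r` only) and an absolute `C'` such that: for all
`A, E, ε` and `X ≥ X₀`, `(log X)^{A₂} ≤ H ≤ X`, `h₀ ≤ A X`, a finite family `φ k ∈ (h₀, h₀+H]`, `k ∈ K`, `#K ≤ κ`, with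
`H · energy r K φ ≤ E κ^{2r}`, and all `|b| ≤ 1`, `|c| ≤ 1`:
`‖∑_{k∈K} c_k ∑_{n≤X} thp(n) b_n g(n + φ k)‖ ≤ ε κ X + C' H #K`.

Proof. (Compare `Pool/Agent/MRZ/CorrCore.lean`.) `a(n) = thp(n) b_n` for `n ≤ X`, `0` else. `e_h = ∑_{k∈K, φ k = h} c_k`.
`T = ∑_n a(n) ∑_{h₀<h≤h₀+H} e_h g(n+h)`; `F(n) = a(n) ∑_h e_h g(n+h)`, `|F(n)| ≤ thp(n) #K`.
`window_error`: `|H T - W| ≤ H ∑_{n≤H} thp(n) #K ≤ C' H² #K`, `W = ∑_{x<X} ∑_{x<n≤x+H} F(n)`. So it suffices to show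
`|W| ≤ ε H κ X`.
Windows: `M_x = ∑_{x<n≤x+H} |a(n)|`, `S = {x < X : M_x ≤ M₀ H}`. By `a_mom` (for the function `|a|`, `r = 0`, as
`H ≥ log X` for large `X`) `∑_{x<X} M_x² ≤ C H² X`, so the windows `x ∉ S` contribute at most
`∑_{x∉S} M_x #K ≤ κ ∑ M_x²/(M₀H) ≤ C κ H X/M₀ ≤ (ε/2) κ H X` for `M₀ = 2C/ε`.
Windows in `S`: `N = 2rH`, by `window_dftN` and Cauchy–Schwarz over `x ∈ S`:
`N ∑_{x∈S} |∑_{x<n≤x+H} F(n)| ≤ ∑_{ρ<N} |ê(ρ)| (A(ρ) B(ρ))^{1/2}`, `A(ρ) = ∑_{x∈S} |Â_x(ρ)|²`,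
`ê(ρ) = ∑_{1≤h≤H} e_{h₀+h} e(ρh/N) = ∑_{k∈K} c_k e(ρ(φ k - h₀)/N)`, `B(ρ) = ∑_{x∈S} |∑_{l≤2H} g(x+h₀+l) e(-ρl/N)|²`.
Put `A = α H² X`, `B = β H² X`, `|ê| = s κ`. We need `∑_ρ s √(αβ) ≤ r ε` (since
`(1/N) κ H² X ∑ s√(αβ) = κ H X ∑ s√(αβ)/(2r)`). Apply `level_sum` with `L = log X`, `C` of `level_bound`, and `M` large:
* `0 ≤ s ≤ 1` as `|ê| ≤ #K ≤ κ`; `∑ s^{2r} ≤ N energy/κ^{2r} ≤ 2rE` by `dft_energy` (with `φ k - h₀ ∈ [1,H]`,
  `energy_sub_const`);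
* `α ≤ M₀²` (`|Â_x| ≤ M_x ≤ M₀H`); `∑ α ≤ (H²X)^{-1} N ∑_x ∑_n |a|² ≤ 2r C log X` (`dft_parseval`-type bound: for each `x`,
  `∑_{ρ<N} |Â_x(ρ)|² = N ∑_{x<n≤x+H} |a(n)|²`, and the first part of `a_mom`);
* `∑_ρ B(ρ) ≤ ∑_x N ∑_{l≤2H} |g|² ≤ X N 2H` (`dft_parseval'`, `2H ≤ N`), so `∑β ≤ 4r`; `B(ρ) ≤ 2H ∑_{x<X} |…| ≤
  2H · η' 2H (A+1) X` by `SupA g` with length `2H ≤ (A+1)X` (`2H ≥ H₁` for `X` large), so `β ≤ 4η'(A+1) ≤ η`;
* the level sets: `level_bound` with `τ = 1/(2r)`, `A₁ = r`; this fixes `A₂ = max(A₂(τ,A₁), 2)`.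
If `κ = 0` then `K = ∅` and everything is `0`.
-/

set_option autoImplicit false

namespace Pool.SSP

open Finset Pool.MRZ

namespace CoreAux

/-- Fourier expansion of the coefficients attached to the family `φ` -/
theorem fiber_sum (K : Finset ℕ) (φ : ℕ → ℕ) (c G : ℕ → ℂ) (h₀ H : ℕ)
    (hφ : ∀ k ∈ K, h₀ < φ k ∧ φ k ≤ h₀ + H) :
    ∑ h ∈ Finset.Ioc h₀ (h₀ + H), (∑ k ∈ K.filter (fun k => φ k = h), c k) * G h =
      ∑ k ∈ K, c k * G (φ k) := by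
  have h1 : ∀ h ∈ Finset.Ioc h₀ (h₀ + H), (∑ k ∈ K.filter (fun k => φ k = h), c k) * G h =
      ∑ k ∈ K.filter (fun k => φ k = h), c k * G (φ k) := by
    intro h _
    rw [Finset.sum_mul]
    refine Finset.sum_congr rfl fun k hk => ?_
    rw [Finset.mem_filter] at hk
    rw [hk.2]
  rw [Finset.sum_congr rfl h1]
  apply Finset.sum_fiberwise_of_maps_to
  intro k hk
  rw [Finset.mem_Ioc]
  exact hφ k hk

theorem fiber_sum' (K : Finset ℕ) (φ : ℕ → ℕ) (c G : ℕ → ℂ) (h₀ H : ℕ)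
    (hφ : ∀ k ∈ K, h₀ < φ k ∧ φ k ≤ h₀ + H) :
    ∑ h ∈ Finset.Icc 1 H, (∑ k ∈ K.filter (fun k => φ k = h₀ + h), c k) * G h =
      ∑ k ∈ K, c k * G (φ k - h₀) := by
  have h1 := fiber_sum K φ c (fun h => G (h - h₀)) h₀ H hφ
  rw [← h1, ← CorrCoreAux.shift_sum (fun h => (∑ k ∈ K.filter (fun k => φ k = h), c k) * G (h - h₀)) h₀ H]
  refine Finset.sum_congr rfl fun h _ => ?_
  rw [Nat.add_sub_cancel_left]

/-- Cauchy–Schwarz over the windows -/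
theorem cs_win {κ : Type} (s : Finset ℕ) (t : Finset κ) (P Q : ℕ → κ → ℝ) (E A B : κ → ℝ)
    (hE : ∀ r ∈ t, 0 ≤ E r) (hA : ∀ r ∈ t, ∑ x ∈ s, P x r ^ 2 ≤ A r)
    (hB : ∀ r ∈ t, ∑ x ∈ s, Q x r ^ 2 ≤ B r) :
    ∑ x ∈ s, ∑ r ∈ t, P x r * E r * Q x r ≤ ∑ r ∈ t, E r * Real.sqrt (A r * B r) := by
  rw [Finset.sum_comm]
  refine Finset.sum_le_sum fun r hr => ?_
  have h1 : ∑ x ∈ s, P x r * E r * Q x r = E r * ∑ x ∈ s, P x r * Q x r := by
    rw [Finset.mul_sum]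
    refine Finset.sum_congr rfl fun x _ => ?_
    ring
  rw [h1]
  apply mul_le_mul_of_nonneg_left _ (hE r hr)
  apply Real.le_sqrt_of_sq_le
  have h2 := Finset.sum_mul_sq_le_sq_mul_sq s (fun x => P x r) (fun x => Q x r)
  refine h2.trans ?_
  have h3 : 0 ≤ ∑ x ∈ s, Q x r ^ 2 := Finset.sum_nonneg fun x _ => sq_nonneg _
  have h4 : 0 ≤ ∑ x ∈ s, P x r ^ 2 := Finset.sum_nonneg fun x _ => sq_nonneg _
  exact mul_le_mul (hA r hr) (hB r hr) h3 (h4.trans (hA r hr))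

/-- the windows with a large mass -/
theorem big_windows (X : ℕ) (m : ℕ → ℝ) (hm : ∀ x, 0 ≤ m x) (Y V : ℝ) (hY : 0 < Y)
    (hV : ∑ x ∈ Finset.range X, m x ^ 2 ≤ V) :
    ∑ x ∈ (Finset.range X).filter (fun x => ¬ m x ≤ Y), m x ≤ V / Y := by
  rw [le_div_iff₀ hY, Finset.sum_mul]
  refine le_trans ?_ hV
  refine le_trans (Finset.sum_le_sum (g := fun x => m x ^ 2) ?_) ?_
  · intro x hx
    rw [Finset.mem_filter, not_le] at hx
    rw [sq]
    exact mul_le_mul_of_nonneg_left hx.2.le (hm x)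
  · exact Finset.sum_le_sum_of_subset_of_nonneg (Finset.filter_subset _ _) fun x _ _ => sq_nonneg _

end CoreAux

open CoreAux CorrCoreAux

theorem sparse_core (g : ℕ → ℂ) (hg : ∀ n, ‖g n‖ ≤ 1) (hs : SupA g) (r : ℕ) (hr : 2 ≤ r) :
    ∃ (A₂ C' : ℝ), 0 < C' ∧ ∀ (A : ℕ) (E ε : ℝ), 1 ≤ A → 0 < E → 0 < ε → ∃ X₀ : ℕ,
      ∀ (X H h₀ : ℕ) (κ : ℝ) (K : Finset ℕ) (φ : ℕ → ℕ) (b c : ℕ → ℂ),
      X₀ ≤ X → (Real.log X) ^ A₂ ≤ H → H ≤ X → h₀ ≤ A * X → (∀ k ∈ K, h₀ < φ k ∧ φ k ≤ h₀ + H) →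
      (K.card : ℝ) ≤ κ → (H : ℝ) * energy r K (fun k => (φ k : ℤ)) ≤ E * κ ^ (2 * r) →
      (∀ n, ‖b n‖ ≤ 1) → (∀ k, ‖c k‖ ≤ 1) →
      ‖∑ k ∈ K, c k * ∑ n ∈ Icc 1 X, (thp n : ℂ) * b n * g (n + φ k)‖ ≤
        ε * κ * X + C' * H * K.card := by
  classical
  obtain ⟨C, hC, hmom⟩ := a_mom
  obtain ⟨C', hC', hthp⟩ := thp_sums
  have hr2 : (2 : ℝ) ≤ r := by exact_mod_cast hr
  have hr0 : (0 : ℝ) < r := by linarith
  obtain ⟨A₂, hlev⟩ := level_bound (1 / (2 * (r : ℝ))) (r : ℝ) (by positivity) hr0.le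
  refine ⟨max A₂ 2, C', hC', ?_⟩
  intro A E ε hA hE hε
  obtain ⟨M₁, hM₁⟩ : ∃ M₁ : ℝ, M₁ = max 1 (max (4 * C / ε) (2 * r)) := ⟨_, rfl⟩
  have hM1 : 1 ≤ M₁ := by rw [hM₁]; exact le_max_left _ _
  have hM2 : 4 * C / ε ≤ M₁ := by rw [hM₁]; exact (le_max_left _ _).trans (le_max_right _ _)
  have hM3 : 2 * (r : ℝ) ≤ M₁ := by rw [hM₁]; exact (le_max_right _ _).trans (le_max_right _ _)
  have hM0 : 0 < M₁ := by linarith
  obtain ⟨CL, XL, hCL, hlev'⟩ := hlev M₁ hM1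
  obtain ⟨M₂, hM₂⟩ : ∃ M₂ : ℝ, M₂ = M₁ ^ 2 + 4 * r + 2 * r * E + 2 * r * C := ⟨_, rfl⟩
  have hM₂0 : 0 < M₂ := by rw [hM₂]; positivity
  obtain ⟨η, L₀, hη, hsum⟩ := level_sum r hr M₂ CL (r * ε) hM₂0 hCL (by positivity)
  have hA0 : (0 : ℝ) < (A : ℝ) + 1 := by positivity
  obtain ⟨η', hη'e⟩ : ∃ η' : ℝ, η' = η / (4 * (A + 1)) := ⟨_, rfl⟩
  have hη' : 0 < η' := by rw [hη'e]; positivity
  obtain ⟨H₁, X₁, hsup⟩ := hs η' hη'
  obtain ⟨Λ, hΛ⟩ : ∃ Λ : ℝ, Λ = max 1 (max L₀ (H₁ + 2)) := ⟨_, rfl⟩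
  have hΛ1 : 1 ≤ Λ := by rw [hΛ]; exact le_max_left _ _
  have hΛ2 : L₀ ≤ Λ := by rw [hΛ]; exact (le_max_left _ _).trans (le_max_right _ _)
  have hΛ3 : (H₁ : ℝ) + 2 ≤ Λ := by rw [hΛ]; exact (le_max_right _ _).trans (le_max_right _ _)
  refine ⟨max (max 2 XL) (max X₁ ⌈Real.exp Λ⌉₊), ?_⟩
  intro X H h₀ κ K φ b c hX hHlog hHX hh₀ hφ hK hen hb hc
  have hX2 : 2 ≤ X := ((le_max_left _ _).trans (le_max_left _ _)).trans hX
  have hXL : XL ≤ X := ((le_max_right _ _).trans (le_max_left _ _)).trans hX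
  have hXX₁ : X₁ ≤ X := ((le_max_left _ _).trans (le_max_right _ _)).trans hX
  have hXe : ⌈Real.exp Λ⌉₊ ≤ X := ((le_max_right _ _).trans (le_max_right _ _)).trans hX
  have hX2' : (2 : ℝ) ≤ X := by exact_mod_cast hX2
  have hX0 : (0 : ℝ) < X := by linarith
  have hlogΛ : Λ ≤ Real.log X := by
    rw [Real.le_log_iff_exp_le hX0]
    exact (Nat.le_ceil _).trans (by exact_mod_cast hXe)
  have hlog1 : 1 ≤ Real.log X := hΛ1.trans hlogΛ
  have hlogX0 : 0 < Real.log X := by linarith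
  have hHlog2 : (Real.log X) ^ A₂ ≤ H :=
    (Real.rpow_le_rpow_of_exponent_le hlog1 (le_max_left _ _)).trans hHlog
  have hlogH : Real.log X ≤ H := by
    have h1 : (Real.log X) ^ (1 : ℝ) ≤ (Real.log X) ^ (max A₂ 2) :=
      Real.rpow_le_rpow_of_exponent_le hlog1 (by
        have := le_max_right A₂ 2
        linarith)
    rw [Real.rpow_one] at h1
    exact h1.trans hHlog
  have hHbig : (H₁ : ℝ) + 2 ≤ H := by linarith
  have hH2 : 2 ≤ H := by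
    have : ((2 : ℕ) : ℝ) ≤ H := by
      have h1 : (0 : ℝ) ≤ (H₁ : ℝ) := Nat.cast_nonneg _
      push_cast
      linarith
    exact_mod_cast this
  have hH₁ : H₁ ≤ H := by
    have : (H₁ : ℝ) ≤ H := by linarith
    exact_mod_cast this
  have hH2' : (2 : ℝ) ≤ H := by exact_mod_cast hH2
  have hH0 : (0 : ℝ) < H := by linarith
  -- the trivial case
  have hκ0 : 0 ≤ κ := (Nat.cast_nonneg _).trans hK
  rcases hκ0.eq_or_lt with hκz | hκpos
  · have hK0 : K = ∅ := by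
      rw [← Finset.card_eq_zero]
      have h1 : (K.card : ℝ) ≤ 0 := by linarith
      have h2 : K.card ≤ 0 := by exact_mod_cast h1
      omega
    rw [hK0, ← hκz]
    simp
  obtain ⟨N, hN⟩ : ∃ N : ℕ, N = 2 * r * H := ⟨_, rfl⟩
  have hN1 : 1 ≤ N := by
    rw [hN]
    have : 0 < 2 * r * H := by positivity
    omega
  have hN2 : 2 * H ≤ N := by
    rw [hN]
    apply Nat.mul_le_mul_right
    omega
  have hNr : (N : ℝ) = 2 * r * H := by rw [hN]; push_cast; ring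
  have hN0 : (0 : ℝ) < N := by rw [hNr]; positivity
  -- the coefficients
  obtain ⟨a, ha⟩ : ∃ a : ℕ → ℂ, a = fun k => if k ≤ X then (thp k : ℂ) * b k else 0 := ⟨_, rfl⟩
  have ha1 : ∀ k, ‖a k‖ ≤ thp k := by
    intro k
    rw [ha]
    simp only
    split_ifs
    · rw [norm_mul, Complex.norm_real, Real.norm_eq_abs, abs_of_nonneg (thp_nonneg k)]
      exact mul_le_of_le_one_right (thp_nonneg k) (hb k)
    · rw [norm_zero]
      exact thp_nonneg k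
  have ha2 : ∀ k, X < k → a k = 0 := by
    intro k hk
    rw [ha]
    simp only
    rw [if_neg (not_le.2 hk)]
  have ha3 : ∀ k ∈ Finset.Icc 1 X, a k = (thp k : ℂ) * b k := by
    intro k hk
    rw [Finset.mem_Icc] at hk
    rw [ha]
    simp only
    rw [if_pos hk.2]
  obtain ⟨e, he⟩ : ∃ e : ℕ → ℂ, e = fun h => ∑ k ∈ K.filter (fun k => φ k = h), c k := ⟨_, rfl⟩
  -- the sum
  obtain ⟨T, hT⟩ : ∃ T, T = ∑ k ∈ K, c k * ∑ n ∈ Icc 1 X, (thp n : ℂ) * b n * g (n + φ k) := ⟨_, rfl⟩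
  rw [← hT]
  obtain ⟨F, hF⟩ : ∃ F : ℕ → ℂ, F = fun k => a k * ∑ h ∈ Finset.Ioc h₀ (h₀ + H), e h * g (k + h) :=
    ⟨_, rfl⟩
  have hFK : ∀ n, F n = a n * ∑ k ∈ K, c k * g (n + φ k) := by
    intro n
    rw [hF, he]
    simp only
    rw [fiber_sum K φ c (fun h => g (n + h)) h₀ H hφ]
  have hTF : T = ∑ k ∈ Finset.Icc 1 X, F k := by
    rw [hT]
    simp_rw [hFK, Finset.mul_sum]
    rw [Finset.sum_comm]
    refine Finset.sum_congr rfl fun n hn => ?_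
    refine Finset.sum_congr rfl fun k _ => ?_
    rw [ha3 n hn]
    ring
  have hFb1 : ∀ n, ‖F n‖ ≤ ‖a n‖ * K.card := by
    intro n
    rw [hFK, norm_mul]
    apply mul_le_mul_of_nonneg_left _ (norm_nonneg _)
    have h1 : ‖∑ k ∈ K, c k * g (n + φ k)‖ ≤ ∑ k ∈ K, (1 : ℝ) := by
      refine norm_sum_le_of_le _ fun k _ => ?_
      rw [norm_mul]
      exact mul_le_one₀ (hc k) (norm_nonneg _) (hg _)
    rw [Finset.sum_const, nsmul_eq_mul, mul_one] at h1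
    exact h1
  have hFb : ∀ n, ‖F n‖ ≤ thp n * K.card := fun n =>
    (hFb1 n).trans (mul_le_mul_of_nonneg_right (ha1 n) (Nat.cast_nonneg _))
  have hF0 : ∀ k, X < k → F k = 0 := by
    intro k hk
    rw [hF]
    simp only
    rw [ha2 k hk, zero_mul]
  obtain ⟨W, hW⟩ : ∃ W, W = ∑ x ∈ Finset.range X, ∑ k ∈ Finset.Ioc x (x + H), F k := ⟨_, rfl⟩
  -- error term
  have herr : ‖(H : ℂ) * T - W‖ ≤ H * (C' * H * K.card) := by
    have h1 := window_error F (fun k => thp k * K.card) X H hF0 hFb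
    rw [← hTF, ← hW, ← Finset.sum_mul] at h1
    have h2 := (hthp H hH2).1
    refine h1.trans ?_
    apply mul_le_mul_of_nonneg_left _ hH0.le
    exact mul_le_mul_of_nonneg_right h2 (Nat.cast_nonneg _)
  -- the masses of the windows
  obtain ⟨m, hm⟩ : ∃ m : ℕ → ℝ, m = fun x => ∑ k ∈ Finset.Ioc x (x + H), ‖a k‖ := ⟨_, rfl⟩
  have hm0 : ∀ x, 0 ≤ m x := by
    intro x
    rw [hm]
    exact Finset.sum_nonneg fun k _ => norm_nonneg _
  obtain ⟨D, hD⟩ : ∃ D, D = ∑ x ∈ Finset.range X, ∑ k ∈ Finset.Ioc x (x + H), ‖a k‖ ^ 2 :=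
    ⟨_, rfl⟩
  obtain ⟨mm1, -, -⟩ := hmom X H N a hX2 (by omega) hHX hN2 ha1 ha2
  rw [← hD] at mm1
  have hmsq : ∑ x ∈ Finset.range X, m x ^ 2 ≤ 2 * C * (H ^ 2 * X) := by
    obtain ⟨n1, n2, -⟩ := hmom X H N (fun k => ((‖a k‖ : ℝ) : ℂ)) hX2 (by omega) hHX hN2
      (by
        intro k
        rw [Complex.norm_real, norm_norm]
        exact ha1 k)
      (by
        intro k hk
        rw [ha2 k hk, norm_zero]
        simp)
    have h1 := n2 0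
    have h2 : ∀ x ∈ Finset.range X, ‖∑ k ∈ Finset.Ioc x (x + H), ((‖a k‖ : ℝ) : ℂ) *
        ee (((0 : ℕ) : ℝ) / N * k)‖ ^ 2 = m x ^ 2 := by
      intro x _
      have h3 : ∑ k ∈ Finset.Ioc x (x + H), ((‖a k‖ : ℝ) : ℂ) * ee (((0 : ℕ) : ℝ) / N * k) =
          ((m x : ℝ) : ℂ) := by
        rw [hm]
        push_cast
        refine Finset.sum_congr rfl fun k _ => ?_
        rw [zero_div, zero_mul, ee_zero, mul_one]
      rw [h3, Complex.norm_real, Real.norm_eq_abs, sq_abs]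
    rw [Finset.sum_congr rfl h2] at h1
    have h4 : C * H * X * Real.log X ≤ C * H * X * H :=
      mul_le_mul_of_nonneg_left hlogH (by positivity)
    have h5 : C * H * X * H = C * H ^ 2 * X := by ring
    linarith
  obtain ⟨S, hS⟩ : ∃ S : Finset ℕ, S = (Finset.range X).filter (fun x => m x ≤ M₁ * H) := ⟨_, rfl⟩
  have hSX : S ⊆ Finset.range X := by rw [hS]; exact Finset.filter_subset _ _
  have hSm : ∀ x ∈ S, m x ≤ M₁ * H := by
    intro x hx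
    rw [hS, Finset.mem_filter] at hx
    exact hx.2
  have hFm : ∀ x, ‖∑ k ∈ Finset.Ioc x (x + H), F k‖ ≤ m x * κ := by
    intro x
    rw [hm]
    simp only
    rw [Finset.sum_mul]
    refine norm_sum_le_of_le _ fun k _ => ?_
    exact (hFb1 k).trans (mul_le_mul_of_nonneg_left hK (norm_nonneg _))
  have hbad : ∑ x ∈ (Finset.range X).filter (fun x => ¬ m x ≤ M₁ * H),
      ‖∑ k ∈ Finset.Ioc x (x + H), F k‖ ≤ ε / 2 * κ * H * X := by
    refine (Finset.sum_le_sum fun x _ => hFm x).trans ?_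
    rw [← Finset.sum_mul]
    have h1 := big_windows X m hm0 (M₁ * H) (2 * C * (H ^ 2 * X)) (by positivity) hmsq
    have h2 : 2 * C * ((H : ℝ) ^ 2 * X) / (M₁ * H) ≤ ε / 2 * H * X := by
      rw [div_le_iff₀ (by positivity)]
      have h3 : 4 * C ≤ M₁ * ε := by
        rw [div_le_iff₀ hε] at hM2
        exact hM2
      have h4 := mul_le_mul_of_nonneg_right h3 (show (0 : ℝ) ≤ H ^ 2 * X by positivity)
      calc 2 * C * ((H : ℝ) ^ 2 * X) = (4 * C) * (H ^ 2 * X) / 2 := by ring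
        _ ≤ (M₁ * ε) * (H ^ 2 * X) / 2 := by linarith
        _ = ε / 2 * H * X * (M₁ * H) := by ring
    calc (∑ x ∈ (Finset.range X).filter (fun x => ¬ m x ≤ M₁ * H), m x) * κ ≤
        (ε / 2 * H * X) * κ := mul_le_mul_of_nonneg_right (h1.trans h2) hκ0
      _ = ε / 2 * κ * H * X := by ring
  -- Fourier transform
  obtain ⟨P, hP⟩ : ∃ P : ℕ → ℕ → ℝ, P = fun (x ρ : ℕ) =>
    ‖∑ k ∈ Finset.Ioc x (x + H), a k * ee ((ρ : ℝ) / N * k)‖ := ⟨_, rfl⟩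
  obtain ⟨Eh, hEh⟩ : ∃ Eh : ℕ → ℝ, Eh = fun (ρ : ℕ) =>
    ‖∑ h ∈ Finset.Icc 1 H, e (h₀ + h) * ee ((ρ : ℝ) / N * h)‖ := ⟨_, rfl⟩
  obtain ⟨Q, hQ⟩ : ∃ Q : ℕ → ℕ → ℝ, Q = fun (x ρ : ℕ) =>
    ‖∑ l ∈ Finset.Icc 1 (2 * H), g (x + h₀ + l) * ee (-((ρ : ℝ) / N) * l)‖ := ⟨_, rfl⟩
  have hP0 : ∀ x ρ, 0 ≤ P x ρ := by
    intro x ρ
    rw [hP]
    exact norm_nonneg _
  have hQ0 : ∀ x ρ, 0 ≤ Q x ρ := by
    intro x ρ
    rw [hQ]
    exact norm_nonneg _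
  have hE0 : ∀ ρ, 0 ≤ Eh ρ := by
    intro ρ
    rw [hEh]
    exact norm_nonneg _
  obtain ⟨AA, hAA⟩ : ∃ AA : ℕ → ℝ, AA = fun (ρ : ℕ) => ∑ x ∈ S, P x ρ ^ 2 := ⟨_, rfl⟩
  obtain ⟨BB, hBB⟩ : ∃ BB : ℕ → ℝ, BB = fun (ρ : ℕ) => ∑ x ∈ Finset.range X, Q x ρ ^ 2 := ⟨_, rfl⟩
  have hAA0 : ∀ ρ, 0 ≤ AA ρ := by
    intro ρ
    rw [hAA]
    exact Finset.sum_nonneg fun x _ => sq_nonneg _
  have hBB0 : ∀ ρ, 0 ≤ BB ρ := by
    intro ρ
    rw [hBB]
    exact Finset.sum_nonneg fun x _ => sq_nonneg _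
  have hgood : (∑ x ∈ S, ‖∑ k ∈ Finset.Ioc x (x + H), F k‖) * N ≤
      ∑ ρ ∈ Finset.range N, Eh ρ * Real.sqrt (AA ρ * BB ρ) := by
    rw [Finset.sum_mul]
    have h1 : ∀ x ∈ S, ‖∑ k ∈ Finset.Ioc x (x + H), F k‖ * N ≤
        ∑ ρ ∈ Finset.range N, P x ρ * Eh ρ * Q x ρ := by
      intro x _
      rw [hF, hP, hEh, hQ]
      exact window_dftN a e g x h₀ H N (by omega) hN2
    refine (Finset.sum_le_sum h1).trans ?_
    apply cs_win S (Finset.range N) P Q Eh AA BB (fun ρ _ => hE0 ρ)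
    · intro ρ _
      rw [hAA]
    · intro ρ _
      rw [hBB]
      exact Finset.sum_le_sum_of_subset_of_nonneg hSX fun x _ _ => sq_nonneg _
  -- the coefficients of the family
  have hEeq : ∀ ρ, Eh ρ = ‖∑ k ∈ K, c k * ee ((ρ : ℝ) / N * (((φ k : ℤ) - (h₀ : ℤ) : ℤ) : ℝ))‖ := by
    intro ρ
    rw [hEh, he]
    simp only
    rw [fiber_sum' K φ c (fun h => ee ((ρ : ℝ) / N * h)) h₀ H hφ]
    congr 1
    refine Finset.sum_congr rfl fun k hk => ?_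
    have h1 := (hφ k hk).1
    rw [Nat.cast_sub h1.le]
    push_cast
    rfl
  have hE1 : ∀ ρ, Eh ρ ≤ κ := by
    intro ρ
    rw [hEeq]
    have h1 : ‖∑ k ∈ K, c k * ee ((ρ : ℝ) / N * (((φ k : ℤ) - (h₀ : ℤ) : ℤ) : ℝ))‖ ≤ ∑ k ∈ K, (1 : ℝ) := by
      refine norm_sum_le_of_le _ fun k _ => ?_
      rw [norm_mul, norm_ee, mul_one]
      exact hc k
    rw [Finset.sum_const, nsmul_eq_mul, mul_one] at h1
    exact h1.trans hK
  have hE2 : ∑ ρ ∈ Finset.range N, Eh ρ ^ (2 * r) ≤ 2 * r * E * κ ^ (2 * r) := by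
    simp_rw [hEeq]
    have h1 := dft_energy r K (fun k => (φ k : ℤ) - (h₀ : ℤ)) c H N (fun k _ => hc k)
      (by
        intro k hk
        have := hφ k hk
        constructor <;> omega)
      (by
        rw [hN]
        apply Nat.mul_le_mul_right
        omega) hN1
    rw [energy_sub_const] at h1
    refine h1.trans ?_
    rw [hNr]
    have h2 := mul_le_mul_of_nonneg_left hen (show (0 : ℝ) ≤ 2 * r by positivity)
    linarith
  -- the energies of g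
  have hQle : ∀ x ρ, Q x ρ ≤ 2 * H := by
    intro x ρ
    rw [hQ]
    have h1 : ‖∑ l ∈ Finset.Icc 1 (2 * H), g (x + h₀ + l) * ee (-((ρ : ℝ) / N) * l)‖ ≤
        ∑ l ∈ Finset.Icc 1 (2 * H), (1 : ℝ) := by
      refine norm_sum_le_of_le _ fun l _ => ?_
      rw [norm_mul, norm_ee, mul_one]
      exact hg _
    rw [Finset.sum_const, Nat.card_Icc, Nat.add_sub_cancel, nsmul_eq_mul, mul_one] at h1
    push_cast at h1 ⊢
    exact h1
  have hB1 : ∀ ρ, BB ρ ≤ η * (H ^ 2 * X) := by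
    intro ρ
    have h1 : BB ρ ≤ ∑ x ∈ Finset.range X, 2 * H * Q x ρ := by
      rw [hBB]
      refine Finset.sum_le_sum fun x _ => ?_
      rw [sq]
      exact mul_le_mul_of_nonneg_right (hQle x ρ) (hQ0 x ρ)
    rw [← Finset.mul_sum] at h1
    have h2 : ∑ x ∈ Finset.range X, Q x ρ ≤ ∑ y ∈ Finset.range ((A + 1) * X),
        ‖∑ n ∈ Finset.Ioc y (y + 2 * H), g n * ee (-((ρ : ℝ) / N) * n)‖ := by
      have h3 : ∑ x ∈ Finset.range X, Q x ρ = ∑ y ∈ (Finset.range X).image (fun x => x + h₀),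
          ‖∑ n ∈ Finset.Ioc y (y + 2 * H), g n * ee (-((ρ : ℝ) / N) * n)‖ := by
        rw [Finset.sum_image (fun x _ y _ h => Nat.add_right_cancel h)]
        refine Finset.sum_congr rfl fun x _ => ?_
        rw [hQ]
        exact norm_shift_ee g _ (x + h₀) (2 * H)
      rw [h3]
      apply Finset.sum_le_sum_of_subset_of_nonneg
      · intro y hy
        rw [Finset.mem_image] at hy
        obtain ⟨x, hx, rfl⟩ := hy
        rw [Finset.mem_range] at hx ⊢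
        nlinarith
      · intro y _ _
        exact norm_nonneg _
    have h4 := hsup ((A + 1) * X) (2 * H) (by nlinarith) (by omega) (by nlinarith)
      (-((ρ : ℝ) / N))
    have h5 := h2.trans h4
    have h6 := mul_le_mul_of_nonneg_left h5 (show (0 : ℝ) ≤ 2 * H by positivity)
    refine (h1.trans h6).trans (le_of_eq ?_)
    rw [hη'e]
    push_cast
    field_simp
    ring
  have hB2 : ∑ ρ ∈ Finset.range N, BB ρ ≤ 4 * r * (H ^ 2 * X) := by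
    rw [hBB, Finset.sum_comm]
    have h1 : ∀ x ∈ Finset.range X, ∑ ρ ∈ Finset.range N, Q x ρ ^ 2 ≤ 4 * r * (H : ℝ) ^ 2 := by
      intro x _
      rw [hQ, dft_parseval' (fun l => g (x + h₀ + l)) (2 * H) N hN2 hN1]
      have h2 : ∑ l ∈ Finset.Icc 1 (2 * H), ‖g (x + h₀ + l)‖ ^ 2 ≤
          ∑ l ∈ Finset.Icc 1 (2 * H), (1 : ℝ) :=
        Finset.sum_le_sum fun l _ => pow_le_one₀ (norm_nonneg _) (hg _)
      rw [Finset.sum_const, Nat.card_Icc, Nat.add_sub_cancel, nsmul_eq_mul, mul_one] at h2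
      have h3 := mul_le_mul_of_nonneg_left h2 hN0.le
      refine h3.trans (le_of_eq ?_)
      rw [hNr]
      push_cast
      ring
    refine (Finset.sum_le_sum h1).trans ?_
    rw [Finset.sum_const, Finset.card_range, nsmul_eq_mul]
    apply le_of_eq
    ring
  -- the energies of a
  have hPm : ∀ x ρ, P x ρ ≤ m x := by
    intro x ρ
    rw [hP, hm]
    refine norm_sum_le_of_le _ fun k _ => ?_
    rw [norm_mul, norm_ee, mul_one]
  have hA1 : ∀ ρ, AA ρ ≤ M₁ ^ 2 * (H ^ 2 * X) := by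
    intro ρ
    rw [hAA]
    have h1 : ∀ x ∈ S, P x ρ ^ 2 ≤ (M₁ * H) ^ 2 := by
      intro x hx
      exact pow_le_pow_left₀ (hP0 x ρ) ((hPm x ρ).trans (hSm x hx)) 2
    refine (Finset.sum_le_sum h1).trans ?_
    rw [Finset.sum_const, nsmul_eq_mul]
    have h2 : (S.card : ℝ) ≤ X := by
      have := Finset.card_le_card hSX
      rw [Finset.card_range] at this
      exact_mod_cast this
    have h3 := mul_le_mul_of_nonneg_right h2 (show (0 : ℝ) ≤ (M₁ * H) ^ 2 by positivity)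
    refine h3.trans (le_of_eq ?_)
    ring
  have hA2 : ∑ ρ ∈ Finset.range N, AA ρ ≤ 2 * r * C * Real.log X * (H ^ 2 * X) := by
    rw [hAA, Finset.sum_comm]
    have h1 : ∀ x ∈ S, ∑ ρ ∈ Finset.range N, P x ρ ^ 2 =
        N * ∑ k ∈ Finset.Ioc x (x + H), ‖a k‖ ^ 2 := by
      intro x _
      rw [hP]
      have h2 := dft_parseval_gen (Finset.Ioc x (x + H)) (fun k : ℕ => (k : ℤ)) a N hN1 (by
        intro i hi j hj hd
        rw [Finset.mem_Ioc] at hi hj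
        have h4 : |(i : ℤ) - j| < N := by
          rw [abs_lt]
          constructor <;> omega
        have h5 := Int.eq_zero_of_abs_lt_dvd hd h4
        omega)
      simpa using h2
    rw [Finset.sum_congr rfl h1, ← Finset.mul_sum]
    have h2 : ∑ x ∈ S, ∑ k ∈ Finset.Ioc x (x + H), ‖a k‖ ^ 2 ≤ D := by
      rw [hD]
      exact Finset.sum_le_sum_of_subset_of_nonneg hSX fun x _ _ =>
        Finset.sum_nonneg fun k _ => sq_nonneg _
    have h3 := mul_le_mul_of_nonneg_left (h2.trans mm1) hN0.le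
    refine h3.trans (le_of_eq ?_)
    rw [hNr]
    ring
  -- level sets
  have hY : (0 : ℝ) < H ^ 2 * X := by positivity
  have hκr : 0 < κ ^ (2 * r) := by positivity
  have hfinal := hsum (Finset.range N) (fun ρ => Eh ρ / κ) (fun ρ => AA ρ / (H ^ 2 * X))
    (fun ρ => BB ρ / (H ^ 2 * X)) (Real.log X) (hΛ2.trans hlogΛ)
    (by
      intro ρ _
      refine ⟨div_nonneg (hE0 ρ) hκ0, ?_⟩
      rw [div_le_one hκpos]
      exact hE1 ρ)
    (by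
      intro ρ _
      refine ⟨div_nonneg (hAA0 ρ) hY.le, ?_⟩
      rw [div_le_iff₀ hY]
      refine (hA1 ρ).trans (mul_le_mul_of_nonneg_right ?_ hY.le)
      rw [hM₂]
      have h1 : 0 ≤ 4 * (r : ℝ) + 2 * r * E + 2 * r * C := by positivity
      linarith)
    (by
      intro ρ _
      refine ⟨div_nonneg (hBB0 ρ) hY.le, ?_⟩
      rw [div_le_iff₀ hY]
      exact hB1 ρ)
    (by
      rw [← Finset.sum_div, div_le_iff₀ hY]
      refine hB2.trans (mul_le_mul_of_nonneg_right ?_ hY.le)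
      rw [hM₂]
      have h1 : 0 ≤ M₁ ^ 2 + 2 * (r : ℝ) * E + 2 * r * C := by positivity
      linarith)
    (by
      simp_rw [div_pow]
      rw [← Finset.sum_div, div_le_iff₀ hκr]
      refine hE2.trans (mul_le_mul_of_nonneg_right ?_ hκr.le)
      rw [hM₂]
      have h1 : 0 ≤ M₁ ^ 2 + 4 * (r : ℝ) + 2 * r * C := by positivity
      linarith)
    (by
      rw [← Finset.sum_div, div_le_iff₀ hY]
      refine hA2.trans (mul_le_mul_of_nonneg_right (mul_le_mul_of_nonneg_right ?_ hlogX0.le) hY.le)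
      rw [hM₂]
      have h1 : 0 ≤ M₁ ^ 2 + 4 * (r : ℝ) + 2 * r * E := by positivity
      linarith)
    (by
      intro lam hlam1 hlam2
      have hN3 : (N : ℝ) ≤ M₁ * H := by
        rw [hNr]
        exact mul_le_mul_of_nonneg_right hM3 hH0.le
      refine hlev' X H N a S ((Finset.range N).filter (fun ρ => lam ≤ AA ρ / (H ^ 2 * X))) lam hXL
        hHlog2 hHX (by omega) hN3 ha1 ha2 hSX ?_ hlam1 hlam2 (Finset.filter_subset _ _) ?_
      · intro x hx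
        have h1 := hSm x hx
        rw [hm] at h1
        exact h1
      · intro ρ hρ
        rw [Finset.mem_filter] at hρ
        have h1 := hρ.2
        rw [le_div_iff₀ hY, hAA, hP] at h1
        refine le_trans (le_of_eq ?_) h1
        ring)
  have hsqrt : ∀ ρ, Real.sqrt (AA ρ * BB ρ) =
      (H ^ 2 * X) * Real.sqrt (AA ρ / (H ^ 2 * X) * (BB ρ / (H ^ 2 * X))) := by
    intro ρ
    have h1 : AA ρ * BB ρ = (H ^ 2 * X) ^ 2 * (AA ρ / (H ^ 2 * X) * (BB ρ / (H ^ 2 * X))) := by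
      field_simp
    rw [h1, Real.sqrt_mul (sq_nonneg _), Real.sqrt_sq hY.le]
  have hgood2 : ∑ x ∈ S, ‖∑ k ∈ Finset.Ioc x (x + H), F k‖ ≤ ε / 2 * κ * H * X := by
    have h1 : ∑ ρ ∈ Finset.range N, Eh ρ * Real.sqrt (AA ρ * BB ρ) ≤ κ * (H ^ 2 * X) * (r * ε) := by
      have h2 : ∑ ρ ∈ Finset.range N, Eh ρ * Real.sqrt (AA ρ * BB ρ) =
          κ * (H ^ 2 * X) * ∑ ρ ∈ Finset.range N, Eh ρ / κ *
            Real.sqrt (AA ρ / (H ^ 2 * X) * (BB ρ / (H ^ 2 * X))) := by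
        rw [Finset.mul_sum]
        refine Finset.sum_congr rfl fun ρ _ => ?_
        rw [hsqrt]
        field_simp
      rw [h2]
      exact mul_le_mul_of_nonneg_left hfinal (by positivity)
    have h3 := hgood.trans h1
    rw [hNr] at h3
    have h4 : (ε / 2 * κ * H * X) * (2 * r * H) = κ * (H ^ 2 * X) * (r * ε) := by ring
    rw [← h4] at h3
    exact le_of_mul_le_mul_right h3 (by positivity)
  have hWle : ‖W‖ ≤ ε * κ * H * X := by
    have h1 : ‖W‖ ≤ ∑ x ∈ Finset.range X, ‖∑ k ∈ Finset.Ioc x (x + H), F k‖ := by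
      rw [hW]; exact norm_sum_le _ _
    rw [← Finset.sum_filter_add_sum_filter_not (Finset.range X) (fun x => m x ≤ M₁ * H), ← hS] at h1
    have h2 := add_le_add hgood2 hbad
    have h3 : ε * κ * H * X = ε / 2 * κ * H * X + ε / 2 * κ * H * X := by ring
    rw [h3]
    exact h1.trans h2
  have hfin : ‖(H : ℂ) * T‖ ≤ H * (C' * H * K.card) + ε * κ * H * X := by
    have h1 : (H : ℂ) * T = ((H : ℂ) * T - W) + W := by ring
    rw [h1]
    exact (norm_add_le _ _).trans (add_le_add herr hWle)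
  rw [norm_mul, Complex.norm_natCast] at hfin
  have h9 : (H : ℝ) * ‖T‖ ≤ H * (ε * κ * X + C' * H * K.card) := by
    refine hfin.trans (le_of_eq ?_)
    ring
  exact le_of_mul_le_mul_left h9 hH0

end Pool.SSP
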