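import Mathlib
import Pool.Agent.SSP.Core

/-!
# SSP/Gen: the general theorem for sparse families of shifts

`|g| ≤ 1`, `SupA g`, `r ≥ 1`: there is `A₂` such that for all `A, E, ε > 0` and `X ≥ X₀`, `(log X)^{A₂} ≤ H ≤ X`,
`h₀ ≤ AX`, a family `φ k ∈ (h₀, h₀+H]` (`k ∈ K`) with `H · energy r K φ ≤ E #K^{2r}` and `|b| ≤ 1`:
`∑_{k∈K} |∑_{n≤X} b_n Λ(n) g(n+φ k)| ≤ ε #K X`.

Proof. We may take `r ≥ 2`: for `r = 1` use `energy_succ`: `energy 2 ≤ #K² energy 1`, so the hypothesis holds with `r = 2`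
and the same `E`. (`E > 0`, `A ≥ 1` w.l.o.g.)
`vm_sub_thp`: replacing `Λ` by `thp` costs at most `#K · C √X log X ≤ (ε/4) #K X` for large `X`.
Let `C'` be from `sparse_core` and `δ = min(1, ε/(8C'))`.
* `H ≤ δX`: choose `c_k = conj(z_k)/|z_k|`, `z_k = ∑_n thp(n) b_n g(n+φ k)`; `sparse_core` with `κ = #K` and `ε/4` gives
  `≤ (ε/4) #K X + C' δ X #K`.
* `H > δX`: `H' = ⌊δX⌋` (`≥ (log X)^{A₂}` for large `X`), cover `(h₀, h₀+H]` by `J ≤ 2/δ` intervals
  `(h₀+jH', h₀+(j+1)H']` and let `K_j` be the `k ∈ K` with `φ k` in the `j`-th interval (a partition of `K`). For each `j`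
  apply `sparse_core` with `κ = #K`, `H'`, `h₀ + jH' ≤ (A+1)X`, the constant `E` (`energy r K_j ≤ energy r K`,
  `H' ≤ H`) and `ε' = δε/8`: the sum over `j` is `≤ J ε' #K X + C' H' ∑_j #K_j ≤ (ε/4) #K X + C' δ X #K`.
-/

set_option autoImplicit false

namespace Pool.SSP

open Finset Pool.MRZ

namespace GenAux

theorem log_small' (c : ℝ) (hc : 0 < c) : ∃ X₁ : ℕ, ∀ X : ℕ, X₁ ≤ X →
    Real.log X ≤ c * Real.sqrt X := by
  have h1 := (isLittleO_log_rpow_atTop (r := 1 / 2) (by norm_num)).def hc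
  have h2 := tendsto_natCast_atTop_atTop.eventually h1
  obtain ⟨X₁, hX₁⟩ := Filter.eventually_atTop.1 h2
  refine ⟨max X₁ 1, fun X hX => ?_⟩
  have h3 := hX₁ X ((le_max_left _ _).trans hX)
  have h4 : (0 : ℝ) ≤ (X : ℝ) := Nat.cast_nonneg _
  rw [Real.norm_of_nonneg (Real.log_natCast_nonneg X), Real.norm_of_nonneg (Real.rpow_nonneg h4 _),
    ← Real.sqrt_eq_rpow] at h3
  exact h3

theorem logpow_small (A₂ c : ℝ) (hc : 0 < c) : ∃ X₁ : ℕ, ∀ X : ℕ, X₁ ≤ X →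
    (Real.log X) ^ A₂ ≤ c * X := by
  have h1 := (isLittleO_log_rpow_rpow_atTop (s := 1) A₂ one_pos).def hc
  have h2 := tendsto_natCast_atTop_atTop.eventually h1
  obtain ⟨X₁, hX₁⟩ := Filter.eventually_atTop.1 h2
  refine ⟨max X₁ 1, fun X hX => ?_⟩
  have h3 := hX₁ X ((le_max_left _ _).trans hX)
  have h4 : (0 : ℝ) ≤ (X : ℝ) := Nat.cast_nonneg _
  rw [Real.norm_of_nonneg (Real.rpow_nonneg (Real.log_natCast_nonneg X) _),
    Real.norm_of_nonneg (Real.rpow_nonneg h4 _), Real.rpow_one] at h3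
  exact h3

/-- duality -/
theorem dual (K : Finset ℕ) (z : ℕ → ℂ) (B : ℝ)
    (h : ∀ c : ℕ → ℂ, (∀ k, ‖c k‖ ≤ 1) → ‖∑ k ∈ K, c k * z k‖ ≤ B) :
    ∑ k ∈ K, ‖z k‖ ≤ B := by
  have h1 : ∀ z : ℂ, ((starRingEnd ℂ) z / (‖z‖ : ℂ)) * z = ((‖z‖ : ℝ) : ℂ) := by
    intro z
    rcases eq_or_ne z 0 with hz | hz
    · simp [hz]
    have h2 : (‖z‖ : ℂ) ≠ 0 := by
      exact_mod_cast (norm_ne_zero_iff.2 hz)
    rw [div_mul_eq_mul_div, Complex.conj_mul', div_eq_iff h2]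
    ring
  have h3 := h (fun k => (starRingEnd ℂ) (z k) / (‖z k‖ : ℂ)) (by
    intro n
    rw [norm_div, Complex.norm_real, norm_norm, RCLike.norm_conj]
    exact div_self_le_one _)
  have h4 : ∑ k ∈ K, (starRingEnd ℂ) (z k) / (‖z k‖ : ℂ) * z k =
      ((∑ k ∈ K, ‖z k‖ : ℝ) : ℂ) := by
    rw [Complex.ofReal_sum]
    exact Finset.sum_congr rfl fun n _ => h1 _
  rw [h4, Complex.norm_real, Real.norm_of_nonneg (Finset.sum_nonneg fun _ _ => norm_nonneg _)] at h3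
  exact h3

/-- the inner sum with `thp` -/
noncomputable def zS (g : ℕ → ℂ) (X : ℕ) (b : ℕ → ℂ) (h : ℕ) : ℂ :=
  ∑ n ∈ Icc 1 X, (thp n : ℂ) * b n * g (n + h)

/-- reduction to `r ≥ 2` -/
theorem energy_red (r : ℕ) (hr : 1 ≤ r) (H : ℕ) (K : Finset ℕ) (φ : ℕ → ℤ) (E : ℝ)
    (h : (H : ℝ) * energy r K φ ≤ E * (K.card : ℝ) ^ (2 * r)) :
    (H : ℝ) * energy (max r 2) K φ ≤ E * (K.card : ℝ) ^ (2 * (max r 2)) := by
  rcases Nat.lt_or_ge r 2 with h2 | h2
  · have h3 : r = 1 := by omega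
    subst h3
    have h4 : max 1 2 = 1 + 1 := rfl
    rw [h4]
    have h5 : (energy (1 + 1) K φ : ℝ) ≤ (K.card : ℝ) ^ 2 * energy 1 K φ := by
      exact_mod_cast energy_succ 1 K φ
    calc (H : ℝ) * energy (1 + 1) K φ ≤ H * ((K.card : ℝ) ^ 2 * energy 1 K φ) :=
          mul_le_mul_of_nonneg_left h5 (Nat.cast_nonneg _)
      _ = (K.card : ℝ) ^ 2 * (H * energy 1 K φ) := by ring
      _ ≤ (K.card : ℝ) ^ 2 * (E * (K.card : ℝ) ^ (2 * 1)) :=
          mul_le_mul_of_nonneg_left h (by positivity)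
      _ = E * (K.card : ℝ) ^ (2 * (1 + 1)) := by ring
  · rw [max_eq_left h2]
    exact h

/-- the theorem for `thp` -/
theorem thp_gen (g : ℕ → ℂ) (hg : ∀ n, ‖g n‖ ≤ 1) (hs : SupA g) (r : ℕ) (hr : 2 ≤ r) :
    ∃ A₂ : ℝ, ∀ (A : ℕ) (E ε : ℝ), 0 < ε → ∃ X₀ : ℕ,
      ∀ (X H h₀ : ℕ) (K : Finset ℕ) (φ : ℕ → ℕ) (b : ℕ → ℂ),
      X₀ ≤ X → (Real.log X) ^ A₂ ≤ H → H ≤ X → h₀ ≤ A * X → (∀ k ∈ K, h₀ < φ k ∧ φ k ≤ h₀ + H) →
      (H : ℝ) * energy r K (fun k => (φ k : ℤ)) ≤ E * (K.card : ℝ) ^ (2 * r) →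
      (∀ n, ‖b n‖ ≤ 1) →
      ∑ k ∈ K, ‖zS g X b (φ k)‖ ≤ ε * K.card * X := by
  obtain ⟨A₂, C', hC', hcore⟩ := sparse_core g hg hs r hr
  refine ⟨A₂, fun A E ε hε => ?_⟩
  obtain ⟨δ, hδ⟩ : ∃ δ, δ = min 1 (ε / (8 * C')) := ⟨_, rfl⟩
  have hδ0 : 0 < δ := by rw [hδ]; exact lt_min one_pos (by positivity)
  have hδ1 : δ ≤ 1 := by rw [hδ]; exact min_le_left _ _
  have hδC : C' * δ ≤ ε / 8 := by
    have h1 : δ ≤ ε / (8 * C') := by rw [hδ]; exact min_le_right _ _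
    calc C' * δ ≤ C' * (ε / (8 * C')) := mul_le_mul_of_nonneg_left h1 hC'.le
      _ = ε / 8 := by field_simp
  obtain ⟨X₀, hX₀⟩ := hcore (A + 1) (max E 1) (δ * ε / 8) (by omega)
    (lt_of_lt_of_le one_pos (le_max_right _ _)) (by positivity)
  obtain ⟨X₁, hX₁⟩ := logpow_small A₂ (δ / 2) (by positivity)
  refine ⟨max (max X₀ X₁) (⌈2 / δ⌉₊ + 1), ?_⟩
  intro X H h₀ K φ b hX hH hHX hh₀ hφ hen hb
  have hX0 : X₀ ≤ X := (le_max_left _ _).trans ((le_max_left _ _).trans hX)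
  have hX1 : X₁ ≤ X := (le_max_right _ _).trans ((le_max_left _ _).trans hX)
  have hX2 : ⌈2 / δ⌉₊ + 1 ≤ X := (le_max_right _ _).trans hX
  have hXpos : 1 ≤ X := by omega
  have hXr : (1 : ℝ) ≤ X := by exact_mod_cast hXpos
  have hcard0 : (0 : ℝ) ≤ K.card := Nat.cast_nonneg _
  -- the core estimate for subfamilies
  have hsub : ∀ (H' h₁ : ℕ) (K' : Finset ℕ), K' ⊆ K → H' ≤ H → (Real.log X) ^ A₂ ≤ H' →
      h₁ ≤ (A + 1) * X → (∀ k ∈ K', h₁ < φ k ∧ φ k ≤ h₁ + H') →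
      ∑ k ∈ K', ‖zS g X b (φ k)‖ ≤ δ * ε / 8 * K.card * X + C' * H' * K'.card := by
    intro H' h₁ K' hK' hH' hlog hh₁ hφ'
    refine dual K' (fun k => zS g X b (φ k)) _ fun c hc => ?_
    refine hX₀ X H' h₁ K.card K' φ b c hX0 hlog (hH'.trans hHX) hh₁ hφ' ?_ ?_ hb hc
    · exact_mod_cast Finset.card_le_card hK'
    · have h1 : (energy r K' (fun k => (φ k : ℤ)) : ℝ) ≤ energy r K (fun k => (φ k : ℤ)) := by
        exact_mod_cast energy_subset r hK' _
      have h2 : (H' : ℝ) ≤ H := by exact_mod_cast hH'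
      calc (H' : ℝ) * energy r K' (fun k => (φ k : ℤ))
          ≤ H * energy r K (fun k => (φ k : ℤ)) :=
            mul_le_mul h2 h1 (Nat.cast_nonneg _) (Nat.cast_nonneg _)
        _ ≤ E * (K.card : ℝ) ^ (2 * r) := hen
        _ ≤ max E 1 * (K.card : ℝ) ^ (2 * r) :=
            mul_le_mul_of_nonneg_right (le_max_left _ _) (by positivity)
  by_cases hshort : (H : ℝ) ≤ δ * X
  · have h1 := hsub H h₀ K (Finset.Subset.refl _) le_rfl hH
      (hh₀.trans (Nat.mul_le_mul_right _ (by omega))) hφ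
    have h2 : C' * H * K.card ≤ ε / 8 * K.card * X := by
      calc C' * H * K.card ≤ C' * (δ * X) * K.card := by
            refine mul_le_mul_of_nonneg_right ?_ hcard0
            exact mul_le_mul_of_nonneg_left hshort hC'.le
        _ = (C' * δ) * (K.card * X) := by ring
        _ ≤ (ε / 8) * (K.card * X) := mul_le_mul_of_nonneg_right hδC (by positivity)
        _ = ε / 8 * K.card * X := by ring
    have h3 : δ * ε / 8 * K.card * X ≤ ε / 8 * K.card * X := by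
      have h4 : δ * ε ≤ 1 * ε := mul_le_mul_of_nonneg_right hδ1 hε.le
      have h5 : 0 ≤ (K.card : ℝ) * X := by positivity
      nlinarith
    have h4 : 0 ≤ ε * K.card * X := by positivity
    linarith
  · rw [not_le] at hshort
    set H' := ⌊δ * X⌋₊ with hH'
    have hδX : 0 ≤ δ * X := by positivity
    have h2 : 2 ≤ δ * X := by
      have h3 : 2 / δ ≤ (X : ℝ) := by
        have h4 := Nat.le_ceil (2 / δ)
        have h5 : ((⌈2 / δ⌉₊ + 1 : ℕ) : ℝ) ≤ X := by exact_mod_cast hX2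
        push_cast at h5
        linarith
      rw [div_le_iff₀ hδ0] at h3
      linarith
    have hH'1 : 1 ≤ H' := by
      rw [hH', Nat.one_le_floor_iff]
      linarith
    have hH'2 : (H' : ℝ) ≤ δ * X := Nat.floor_le hδX
    have hH'3 : δ * X < H' + 1 := Nat.lt_floor_add_one _
    have hH'4 : δ * X / 2 ≤ H' := by linarith
    have hlog' : (Real.log X) ^ A₂ ≤ H' := by
      have h3 := hX₁ X hX1
      linarith
    have hH'H : H' ≤ H := by
      have : (H' : ℝ) ≤ H := by linarith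
      exact_mod_cast this
    set J := H / H' + 1 with hJ
    -- the partition
    have hmaps : ∀ k ∈ K, (φ k - h₀ - 1) / H' ∈ range J := by
      intro k hk
      obtain ⟨h3, h4⟩ := hφ k hk
      rw [mem_range, hJ, Nat.lt_succ_iff]
      exact Nat.div_le_div_right (by omega)
    have hpart : ∑ k ∈ K, ‖zS g X b (φ k)‖ =
        ∑ j ∈ range J, ∑ k ∈ K.filter (fun k => (φ k - h₀ - 1) / H' = j),
          ‖zS g X b (φ k)‖ :=
      (Finset.sum_fiberwise_of_maps_to hmaps _).symm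
    have hcardp : (K.card : ℝ) = ∑ j ∈ range J,
        ((K.filter (fun k => (φ k - h₀ - 1) / H' = j)).card : ℝ) := by
      exact_mod_cast Finset.card_eq_sum_card_fiberwise hmaps
    have hterm : ∀ j ∈ range J, ∑ k ∈ K.filter (fun k => (φ k - h₀ - 1) / H' = j),
          ‖zS g X b (φ k)‖ ≤ δ * ε / 8 * K.card * X +
          C' * H' * (K.filter (fun k => (φ k - h₀ - 1) / H' = j)).card := by
      intro j hj
      rw [mem_range] at hj
      refine hsub H' (h₀ + j * H') _ (Finset.filter_subset _ _) hH'H hlog' ?_ ?_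
      · have h3 : j ≤ H / H' := by omega
        have h4 : j * H' ≤ X := ((Nat.mul_le_mul_right _ h3).trans (Nat.div_mul_le_self H H')).trans
          hHX
        rw [add_mul, one_mul]
        omega
      · intro k hk
        rw [mem_filter] at hk
        obtain ⟨h3, h4⟩ := hφ k hk.1
        have h5 := Nat.div_mul_le_self (φ k - h₀ - 1) H'
        have h6 := Nat.lt_div_mul_add (a := φ k - h₀ - 1) (b := H') hH'1
        rw [hk.2] at h5 h6
        constructor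
        · omega
        · omega
    have hJ3 : (J : ℝ) ≤ 3 / δ := by
      have h3 : ((H / H' : ℕ) : ℝ) ≤ H / H' := Nat.cast_div_le
      have h4 : (H : ℝ) / H' ≤ 2 / δ := by
        have hH'pos : (0 : ℝ) < H' := by exact_mod_cast hH'1
        rw [div_le_div_iff₀ hH'pos hδ0]
        have h5 : (H : ℝ) ≤ X := by exact_mod_cast hHX
        have h6 : (H : ℝ) * δ ≤ X * δ := mul_le_mul_of_nonneg_right h5 hδ0.le
        linarith
      have h5 : (1 : ℝ) ≤ 1 / δ := by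
        rw [le_div_iff₀ hδ0]
        linarith
      rw [hJ]
      push_cast
      have h6 : 3 / δ = 2 / δ + 1 / δ := by ring
      linarith
    rw [hpart]
    refine (Finset.sum_le_sum hterm).trans ?_
    rw [Finset.sum_add_distrib, Finset.sum_const, card_range, nsmul_eq_mul, ← Finset.mul_sum,
      ← hcardp]
    have h3 : (J : ℝ) * (δ * ε / 8 * K.card * X) ≤ 3 * ε / 8 * K.card * X := by
      calc (J : ℝ) * (δ * ε / 8 * K.card * X) ≤ (3 / δ) * (δ * ε / 8 * K.card * X) :=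
            mul_le_mul_of_nonneg_right hJ3 (by positivity)
        _ = 3 * ε / 8 * K.card * X := by field_simp
    have h4 : C' * H' * K.card ≤ ε / 8 * K.card * X := by
      calc C' * H' * K.card ≤ C' * (δ * X) * K.card := by
            refine mul_le_mul_of_nonneg_right ?_ hcard0
            exact mul_le_mul_of_nonneg_left hH'2 hC'.le
        _ = (C' * δ) * (K.card * X) := by ring
        _ ≤ (ε / 8) * (K.card * X) := mul_le_mul_of_nonneg_right hδC (by positivity)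
        _ = ε / 8 * K.card * X := by ring
    have h5 : 0 ≤ ε * K.card * X := by positivity
    linarith

end GenAux

open GenAux

theorem sparse_gen (g : ℕ → ℂ) (hg : ∀ n, ‖g n‖ ≤ 1) (hs : SupA g) (r : ℕ) (hr : 1 ≤ r) :
    ∃ A₂ : ℝ, ∀ (A : ℕ) (E ε : ℝ), 0 < ε → ∃ X₀ : ℕ,
      ∀ (X H h₀ : ℕ) (K : Finset ℕ) (φ : ℕ → ℕ) (b : ℕ → ℂ),
      X₀ ≤ X → (Real.log X) ^ A₂ ≤ H → H ≤ X → h₀ ≤ A * X → (∀ k ∈ K, h₀ < φ k ∧ φ k ≤ h₀ + H) →
      (H : ℝ) * energy r K (fun k => (φ k : ℤ)) ≤ E * (K.card : ℝ) ^ (2 * r) →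
      (∀ n, ‖b n‖ ≤ 1) →
      ∑ k ∈ K, ‖∑ n ∈ Icc 1 X, b n * ((ArithmeticFunction.vonMangoldt n : ℝ) : ℂ) * g (n + φ k)‖ ≤
        ε * K.card * X := by
  obtain ⟨A₂, hthp⟩ := thp_gen g hg hs (max r 2) (le_max_right _ _)
  refine ⟨A₂, fun A E ε hε => ?_⟩
  obtain ⟨X₀, hX₀⟩ := hthp A E (ε / 2) (by positivity)
  obtain ⟨C, hC, hvm⟩ := vm_sub_thp
  obtain ⟨X₁, hX₁⟩ := log_small' (ε / (2 * C)) (by positivity)
  refine ⟨max (max X₀ X₁) 2, ?_⟩
  intro X H h₀ K φ b hX hH hHX hh₀ hφ hen hb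
  have hX0 : X₀ ≤ X := (le_max_left _ _).trans ((le_max_left _ _).trans hX)
  have hX1 : X₁ ≤ X := (le_max_right _ _).trans ((le_max_left _ _).trans hX)
  have hX2 : 2 ≤ X := (le_max_right _ _).trans hX
  have h1 := hX₀ X H h₀ K φ b hX0 hH hHX hh₀ hφ (energy_red r hr H K _ E hen) hb
  have h2 := hvm X hX2
  have h3 := hX₁ X hX1
  have hsq : Real.sqrt X * Real.sqrt X = X := Real.mul_self_sqrt (Nat.cast_nonneg _)
  have hsq0 : 0 ≤ Real.sqrt X := Real.sqrt_nonneg _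
  have h4 : C * Real.sqrt X * Real.log X ≤ ε / 2 * X := by
    calc C * Real.sqrt X * Real.log X ≤ C * Real.sqrt X * (ε / (2 * C) * Real.sqrt X) :=
          mul_le_mul_of_nonneg_left h3 (by positivity)
      _ = ε / 2 * (Real.sqrt X * Real.sqrt X) := by
          field_simp
      _ = ε / 2 * X := by rw [hsq]
  have h5 : ∀ h, ‖∑ n ∈ Icc 1 X, b n * ((ArithmeticFunction.vonMangoldt n : ℝ) : ℂ) * g (n + h)‖ ≤
      ‖zS g X b h‖ + ε / 2 * X := by
    intro h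
    have e1 : ∑ n ∈ Icc 1 X, b n * ((ArithmeticFunction.vonMangoldt n : ℝ) : ℂ) * g (n + h) =
        zS g X b h + ∑ n ∈ Icc 1 X,
          ((ArithmeticFunction.vonMangoldt n - thp n : ℝ) : ℂ) * b n * g (n + h) := by
      unfold zS
      rw [← Finset.sum_add_distrib]
      refine Finset.sum_congr rfl fun n _ => ?_
      push_cast
      ring
    rw [e1]
    refine (norm_add_le _ _).trans (add_le_add le_rfl ?_)
    refine le_trans (norm_sum_le_of_le (f := fun n => ((ArithmeticFunction.vonMangoldt n - thp n : ℝ) : ℂ)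
      * b n * g (n + h)) (n := fun n => |ArithmeticFunction.vonMangoldt n - thp n|) _
      fun n _ => ?_) (h2.trans h4)
    rw [norm_mul, norm_mul, Complex.norm_real, Real.norm_eq_abs, mul_assoc]
    exact mul_le_of_le_one_right (abs_nonneg _) (mul_le_one₀ (hb _) (norm_nonneg _) (hg _))
  calc ∑ k ∈ K, ‖∑ n ∈ Icc 1 X, b n * ((ArithmeticFunction.vonMangoldt n : ℝ) : ℂ) * g (n + φ k)‖
      ≤ ∑ k ∈ K, (‖zS g X b (φ k)‖ + ε / 2 * X) := Finset.sum_le_sum fun k _ => h5 (φ k)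
    _ = (∑ k ∈ K, ‖zS g X b (φ k)‖) + K.card * (ε / 2 * X) := by
        rw [Finset.sum_add_distrib, Finset.sum_const, nsmul_eq_mul]
    _ ≤ ε * K.card * X := by
        have h6 : (K.card : ℝ) * (ε / 2 * X) = ε / 2 * K.card * X := by ring
        have h7 : ε / 2 * K.card * X + ε / 2 * K.card * X = ε * K.card * X := by ring
        linarith

end Pool.SSP
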