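import Mathlib
import Pool.Agent.SSP.Gen
import Pool.Agent.MRZ.SupLam
import Pool.Agent.Lib.PrimePairsMoment
import Pool.Agent.Lib.PNT

/-!
# SSP/PrimeSh: shifts by primes

`prime_shifts`: for `X ≥ X₀`, `(log X)^{A₂} ≤ Q ≤ X`, `h₀ ≤ AX`, `|b| ≤ 1`:
`∑_{q≤Q prime} |∑_{n≤X} b_n Λ(n) μ(n+h₀+q)| ≤ ε π(Q) X`.

Proof. Energy: for `K = {q prime : P < q ≤ 2P}`, `energy 2 K = ∑_m #{(q,q') : q - q' = m}² ≤ #K² + 2∑_{1≤d≤P} r(d)²
≤ C P³/(log P)⁴` by `prime_pair_second_moment` (`Pool/Agent/Lib/PrimePairsMoment.lean`; write `q₁ + q₂ = q₁' + q₂'` as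
`q₁ - q₁' = q₂' - q₂`) and `#K ≤ C P/log P`. As `#K ≥ c P/log P` for `P ≥ P₀` (Chebyshev or the prime number theorem,
`Pool/Agent/Lib/PNT.lean`), `P · energy 2 K ≤ E #K⁴`. So `sparse_gen` (`r = 2`, `H = P`, shifts in
`(h₀+P, h₀+2P]`, `h₀ + P ≤ (A+1)X`) applies to every dyadic block with `P ≥ (log X)^{A₂'}`. Cover the primes in
`(Z, Q]`, `Z = ⌈(log X)^{A₂'}⌉ + P₀`, by blocks `(P_j, 2P_j]`, e.g. `P_0 = ⌈Q/2⌉`-type halving
(`P_j = ⌊Q/2^{j+1}⌋`, with the block `{q prime : ⌊Q/2^{j+1}⌋ < q ≤ ⌊Q/2^j⌋}`, contained in `(P_j, 2P_j+1]`; to avoid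
the `+1` use strong induction on `Q`: `Q = 2P` or `2P+1`, where the single additional shift `2P+1` costs `C X`, in total
`C X log₂ Q`). The sum over the blocks is `≤ ε ∑_j #K_j X ≤ ε π(Q) X`. The remaining `q ≤ 2Z` cost
`≤ 2Z · C X ≤ ε π(Q) X` for `A₂ = A₂' + 2` (`π(Q) ≥ c Q/log Q`, and `C X log₂ Q` is also fine).
-/

set_option autoImplicit false

namespace Pool.SSP

open Finset Pool.MRZ

/-- quadruples `((a, b), (c, d))` in `K` with `a + d = c + b` -/
def quad (K : Finset ℕ) : Finset ((ℕ × ℕ) × (ℕ × ℕ)) :=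
  ((K ×ˢ K) ×ˢ (K ×ˢ K)).filter (fun z => z.1.1 + z.2.2 = z.2.1 + z.1.2)

lemma mem_quad {K : Finset ℕ} {z : (ℕ × ℕ) × (ℕ × ℕ)} :
    z ∈ quad K ↔ ((z.1.1 ∈ K ∧ z.1.2 ∈ K) ∧ (z.2.1 ∈ K ∧ z.2.2 ∈ K)) ∧ z.1.1 + z.2.2 = z.2.1 + z.1.2 := by
  unfold quad
  rw [Finset.mem_filter, Finset.mem_product, Finset.mem_product, Finset.mem_product]

lemma energy_le_quad (K : Finset ℕ) : energy 2 K (fun q : ℕ => (q : ℤ)) ≤ (quad K).card := by
  unfold energy
  apply Finset.card_le_card_of_injOn (fun z => ((z.1 0, z.2 0), (z.2 1, z.1 1)))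
  · intro z hz
    simp only [Finset.coe_filter, Finset.mem_product, Fintype.mem_piFinset, Set.mem_ofPred_eq,
      Fin.sum_univ_two] at hz
    rw [Finset.mem_coe, mem_quad]
    refine ⟨⟨⟨hz.1.1 0, hz.1.2 0⟩, ⟨hz.1.2 1, hz.1.1 1⟩⟩, ?_⟩
    have := hz.2
    change z.1 0 + z.1 1 = z.2 1 + z.2 0
    omega
  · intro z _ w _ h
    simp only [Prod.mk.injEq] at h
    apply Prod.ext
    · funext i
      fin_cases i
      · exact h.1.1
      · exact h.2.2
    · funext i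
      fin_cases i
      · exact h.1.2
      · exact h.2.1

/-- number of primes `n ∈ (P, 2P]` with `n + d` prime -/
def rd (P d : ℕ) : ℕ := ((Ioc P (2 * P)).filter (fun n => n.Prime ∧ (n + d).Prime)).card

lemma card_quad_lt (P : ℕ) :
    ((quad ((Ioc P (2 * P)).filter Nat.Prime)).filter (fun z => z.1.2 < z.1.1)).card ≤
      ∑ d ∈ Icc 1 P, rd P d ^ 2 := by
  rw [Finset.card_eq_sum_card_fiberwise (f := fun z : (ℕ × ℕ) × (ℕ × ℕ) => z.1.1 - z.1.2) (t := Icc 1 P)]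
  · apply Finset.sum_le_sum
    intro d hd
    unfold rd
    rw [sq, ← Finset.card_product]
    apply Finset.card_le_card_of_injOn (fun z => (z.1.2, z.2.2))
    · intro z hz
      rw [Finset.mem_coe, Finset.mem_filter, Finset.mem_filter, mem_quad] at hz
      simp only [Finset.mem_filter, Finset.mem_Ioc] at hz
      obtain ⟨⟨⟨⟨⟨⟨h1, h2⟩, h3, h4⟩, ⟨h5, h6⟩, h7, h8⟩, h9⟩, h10⟩, h11⟩ := hz
      rw [Finset.mem_coe, Finset.mem_product, Finset.mem_filter, Finset.mem_filter, Finset.mem_Ioc,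
        Finset.mem_Ioc]
      refine ⟨⟨h3, h4, ?_⟩, ⟨h7, h8, ?_⟩⟩
      · have : z.1.2 + d = z.1.1 := by omega
        change (z.1.2 + d).Prime
        rw [this]
        exact h2
      · have : z.2.2 + d = z.2.1 := by omega
        change (z.2.2 + d).Prime
        rw [this]
        exact h6
    · intro z hz w hw h
      rw [Finset.mem_coe, Finset.mem_filter, Finset.mem_filter, mem_quad] at hz hw
      simp only [Prod.mk.injEq] at h
      obtain ⟨⟨⟨_, h9⟩, h10⟩, h11⟩ := hz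
      obtain ⟨⟨⟨_, h9'⟩, h10'⟩, h11'⟩ := hw
      obtain ⟨h12, h13⟩ := h
      have e1 : z.1.1 = w.1.1 := by omega
      have e2 : z.2.1 = w.2.1 := by omega
      exact Prod.ext (Prod.ext e1 h12) (Prod.ext e2 h13)
  · intro z hz
    rw [Finset.mem_coe, Finset.mem_filter, mem_quad] at hz
    simp only [Finset.mem_filter, Finset.mem_Ioc] at hz
    rw [Finset.mem_coe, Finset.mem_Icc]
    change 1 ≤ z.1.1 - z.1.2 ∧ z.1.1 - z.1.2 ≤ P
    omega

lemma card_quad (P : ℕ) :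
    (quad ((Ioc P (2 * P)).filter Nat.Prime)).card ≤
      ((Ioc P (2 * P)).filter Nat.Prime).card ^ 2 + 2 * ∑ d ∈ Icc 1 P, rd P d ^ 2 := by
  set K := (Ioc P (2 * P)).filter Nat.Prime with hK
  have h1 := Finset.card_filter_add_card_filter_not (s := quad K) (fun z => z.1.2 < z.1.1)
  have h2 := Finset.card_filter_add_card_filter_not (s := (quad K).filter (fun z => ¬ z.1.2 < z.1.1))
    (fun z => z.1.1 < z.1.2)
  have h3 := card_quad_lt P
  rw [← hK] at h3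
  have h4 : (((quad K).filter (fun z => ¬ z.1.2 < z.1.1)).filter (fun z => z.1.1 < z.1.2)).card ≤
      ((quad K).filter (fun z => z.1.2 < z.1.1)).card := by
    apply Finset.card_le_card_of_injOn (fun z => ((z.1.2, z.1.1), (z.2.2, z.2.1)))
    · intro z hz
      rw [Finset.mem_coe, Finset.mem_filter, Finset.mem_filter, mem_quad] at hz
      rw [Finset.mem_coe, Finset.mem_filter, mem_quad]
      obtain ⟨⟨⟨⟨⟨h5, h6⟩, h7, h8⟩, h9⟩, h10⟩, h11⟩ := hz
      refine ⟨⟨⟨⟨h6, h5⟩, h8, h7⟩, ?_⟩, h11⟩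
      change z.1.2 + z.2.1 = z.2.2 + z.1.1
      omega
    · intro z _ w _ h
      simp only [Prod.mk.injEq] at h
      exact Prod.ext (Prod.ext h.1.2 h.1.1) (Prod.ext h.2.2 h.2.1)
  have h5 : (((quad K).filter (fun z => ¬ z.1.2 < z.1.1)).filter (fun z => ¬ z.1.1 < z.1.2)).card ≤
      K.card ^ 2 := by
    rw [sq, ← Finset.card_product]
    apply Finset.card_le_card_of_injOn (fun z => (z.1.1, z.2.1))
    · intro z hz
      rw [Finset.mem_coe, Finset.mem_filter, Finset.mem_filter, mem_quad] at hz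
      rw [Finset.mem_coe, Finset.mem_product]
      exact ⟨hz.1.1.1.1.1, hz.1.1.1.2.1⟩
    · intro z hz w hw h
      rw [Finset.mem_coe, Finset.mem_filter, Finset.mem_filter, mem_quad] at hz hw
      simp only [Prod.mk.injEq] at h
      obtain ⟨⟨⟨_, h9⟩, h10⟩, h11⟩ := hz
      obtain ⟨⟨⟨_, h9'⟩, h10'⟩, h11'⟩ := hw
      obtain ⟨h12, h13⟩ := h
      have e1 : z.1.2 = w.1.2 := by omega
      have e2 : z.2.2 = w.2.2 := by omega
      exact Prod.ext (Prod.ext h12 e1) (Prod.ext h13 e2)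
  omega

/-- number of primes `≤ n` -/
lemma card_Icc_prime (n : ℕ) : ((Icc 1 n).filter Nat.Prime).card = Nat.primeCounting n := by
  rw [← Nat.primesLE_card_eq_primeCounting, Nat.primesLE_eq_filter_Icc_one]

lemma card_Icc_split {P Q : ℕ} (h : P ≤ Q) (F : ℕ → ℝ) :
    ∑ q ∈ (Icc 1 Q).filter Nat.Prime, F q = ∑ q ∈ (Icc 1 P).filter Nat.Prime, F q +
      ∑ q ∈ (Ioc P Q).filter Nat.Prime, F q := by
  have h1 : (Icc 1 Q).filter Nat.Prime = (Icc 1 P).filter Nat.Prime ∪ (Ioc P Q).filter Nat.Prime := by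
    ext q
    simp only [Finset.mem_filter, Finset.mem_union, Finset.mem_Icc, Finset.mem_Ioc]
    constructor
    · rintro ⟨h2, h3⟩
      by_cases h4 : q ≤ P
      · exact Or.inl ⟨⟨h2.1, h4⟩, h3⟩
      · exact Or.inr ⟨⟨by omega, h2.2⟩, h3⟩
    · rintro (⟨h2, h3⟩ | ⟨h2, h3⟩)
      · exact ⟨⟨h2.1, by omega⟩, h3⟩
      · exact ⟨⟨by omega, h2.2⟩, h3⟩
  rw [h1, Finset.sum_union]
  rw [Finset.disjoint_left]
  intro q hq hq'
  rw [Finset.mem_filter, Finset.mem_Icc] at hq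
  rw [Finset.mem_filter, Finset.mem_Ioc] at hq'
  omega

lemma card_split {P Q : ℕ} (h : P ≤ Q) : ((Icc 1 Q).filter Nat.Prime).card =
    ((Icc 1 P).filter Nat.Prime).card + ((Ioc P Q).filter Nat.Prime).card := by
  have h1 := card_Icc_split h (fun _ => (1 : ℝ))
  simp only [Finset.sum_const, nsmul_eq_mul, mul_one] at h1
  exact_mod_cast h1

/-- lower bound for the number of primes in `(P, 2P]` -/
lemma card_block : ∃ P₀ : ℕ, 2 ≤ P₀ ∧ ∀ P : ℕ, P₀ ≤ P →
    (1 / 2) * ((P : ℝ) / Real.log P) ≤ (((Ioc P (2 * P)).filter Nat.Prime).card : ℝ) := by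
  have h1 := Pool.Agent.Lib.PNT.pi_nat
  have h2 : ∀ᶠ n : ℕ in Filter.atTop, (9 / 10 : ℝ) < (Nat.primeCounting n : ℝ) * Real.log n / n :=
    h1.eventually (lt_mem_nhds (by norm_num))
  have h3 : ∀ᶠ n : ℕ in Filter.atTop, (Nat.primeCounting n : ℝ) * Real.log n / n < 11 / 10 :=
    h1.eventually (gt_mem_nhds (by norm_num))
  obtain ⟨N₁, hN₁⟩ := Filter.eventually_atTop.1 h2
  obtain ⟨N₂, hN₂⟩ := Filter.eventually_atTop.1 h3
  refine ⟨max (max N₁ N₂) (2 ^ 10), (by norm_num : 2 ≤ 2 ^ 10).trans (le_max_right _ _), fun P hP => ?_⟩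
  have hP1 : N₁ ≤ 2 * P := by
    have : N₁ ≤ P := (le_max_left _ _).trans ((le_max_left _ _).trans hP)
    omega
  have hP2 : N₂ ≤ P := (le_max_right _ _).trans ((le_max_left _ _).trans hP)
  have hP3 : 2 ^ 10 ≤ P := (le_max_right _ _).trans hP
  have hPr : ((2 : ℝ) ^ 10) ≤ P := by exact_mod_cast hP3
  have hP0 : (0 : ℝ) < P := lt_of_lt_of_le (by norm_num) hPr
  have hlog : 10 * Real.log 2 ≤ Real.log P := by
    have := Real.log_le_log (by norm_num) hPr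
    rw [Real.log_pow] at this
    exact_mod_cast this
  have hl2 : 0 < Real.log 2 := Real.log_pos (by norm_num)
  have hlp : 0 < Real.log P := lt_of_lt_of_le (by positivity) hlog
  have h4 := hN₁ _ hP1
  have h5 := hN₂ _ hP2
  push_cast at h4
  rw [Real.log_mul (by norm_num) hP0.ne', lt_div_iff₀ (by positivity)] at h4
  rw [div_lt_iff₀ hP0] at h5
  have h6 := card_Icc_split (show P ≤ 2 * P by omega) (fun _ => (1 : ℝ))
  simp only [Finset.sum_const, nsmul_eq_mul, mul_one, card_Icc_prime] at h6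
  set a : ℝ := (Nat.primeCounting (2 * P) : ℝ)
  set b : ℝ := (Nat.primeCounting P : ℝ)
  set c : ℝ := (((Ioc P (2 * P)).filter Nat.Prime).card : ℝ)
  have ha : 0 ≤ a := Nat.cast_nonneg _
  have h7 : a * (Real.log 2 + Real.log P) ≤ a * (11 / 10 * Real.log P) := by
    apply mul_le_mul_of_nonneg_left _ ha
    linarith
  rw [← mul_div_assoc, div_le_iff₀ hlp]
  nlinarith

theorem prime_energy : ∃ (E : ℝ) (P₀ : ℕ), 0 < E ∧ ∀ P : ℕ, P₀ ≤ P →
    (P : ℝ) * energy 2 ((Ioc P (2 * P)).filter Nat.Prime) (fun q : ℕ => (q : ℤ)) ≤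
      E * (((Ioc P (2 * P)).filter Nat.Prime).card : ℝ) ^ 4 := by
  obtain ⟨C, hC, hmom⟩ := Pool.Agent.Lib.PrimePairs.prime_pair_second_moment
  obtain ⟨P₀, hP₀2, hP₀⟩ := card_block
  have hsq : ∃ N₃ : ℕ, ∀ P : ℕ, N₃ ≤ P → 4 * Real.log P ^ 2 ≤ P := by
    have h := (Real.isLittleO_pow_log_id_atTop (n := 2)).bound (show (0 : ℝ) < 1 / 4 by norm_num)
    have h' := (tendsto_natCast_atTop_atTop (R := ℝ)).eventually h
    obtain ⟨N, hN⟩ := Filter.eventually_atTop.1 h'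
    refine ⟨N, fun P hP => ?_⟩
    have := hN P hP
    simp only [id] at this
    rw [Real.norm_of_nonneg (by positivity), Real.norm_of_nonneg (by positivity)] at this
    linarith
  obtain ⟨N₃, hN₃⟩ := hsq
  refine ⟨1 + 32 * C, max P₀ N₃, by positivity, fun P hP => ?_⟩
  have hPa : P₀ ≤ P := (le_max_left _ _).trans hP
  have hPb : N₃ ≤ P := (le_max_right _ _).trans hP
  have hP2 : 2 ≤ P := hP₀2.trans hPa
  have hPr : (2 : ℝ) ≤ P := by exact_mod_cast hP2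
  have hP0 : (0 : ℝ) < P := by linarith
  have hlp : 0 < Real.log P := Real.log_pos (by linarith)
  have h1 : (energy 2 ((Ioc P (2 * P)).filter Nat.Prime) (fun q : ℕ => (q : ℤ)) : ℝ) ≤
      (((Ioc P (2 * P)).filter Nat.Prime).card : ℝ) ^ 2 + 2 * (C * (P : ℝ) ^ 3 / (Real.log P) ^ 4) := by
    have h2 := (energy_le_quad ((Ioc P (2 * P)).filter Nat.Prime)).trans (card_quad P)
    have h3 : (energy 2 ((Ioc P (2 * P)).filter Nat.Prime) (fun q : ℕ => (q : ℤ)) : ℝ) ≤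
      (((Ioc P (2 * P)).filter Nat.Prime).card : ℝ) ^ 2 + 2 * ∑ d ∈ Icc 1 P, (rd P d : ℝ) ^ 2 := by
      exact_mod_cast h2
    have h4 := hmom P hP2
    have h5 : ∑ d ∈ Icc 1 P, (rd P d : ℝ) ^ 2 ≤ C * (P : ℝ) ^ 3 / (Real.log P) ^ 4 := h4
    linarith
  have h2 := hP₀ P hPa
  have h3 := hN₃ P hPb
  set k : ℝ := (((Ioc P (2 * P)).filter Nat.Prime).card : ℝ) with hk
  set y : ℝ := (P : ℝ) / Real.log P with hy
  have hy0 : 0 < y := by positivity
  have h4 : (P : ℝ) ≤ k ^ 2 := by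
    have h5 : ((1 / 2) * y) ^ 2 ≤ k ^ 2 := pow_le_pow_left₀ (by positivity) h2 2
    refine le_trans ?_ h5
    have e1 : ((1 / 2) * y) ^ 2 = ((P : ℝ) ^ 2 / 4) / (Real.log P) ^ 2 := by
      rw [hy]
      ring
    rw [e1, le_div_iff₀ (by positivity)]
    have := mul_le_mul_of_nonneg_left h3 hP0.le
    nlinarith
  have h5 : y ^ 4 ≤ 16 * k ^ 4 := by
    have h6 : ((1 / 2) * y) ^ 4 ≤ k ^ 4 := pow_le_pow_left₀ (by positivity) h2 4
    rw [mul_pow] at h6
    linarith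
  have h6 : (P : ℝ) * (C * (P : ℝ) ^ 3 / (Real.log P) ^ 4) = C * y ^ 4 := by
    rw [hy, div_pow]
    ring
  calc (P : ℝ) * energy 2 ((Ioc P (2 * P)).filter Nat.Prime) (fun q : ℕ => (q : ℤ)) ≤
      P * (k ^ 2 + 2 * (C * (P : ℝ) ^ 3 / (Real.log P) ^ 4)) := mul_le_mul_of_nonneg_left h1 hP0.le
    _ = P * k ^ 2 + 2 * (P * (C * (P : ℝ) ^ 3 / (Real.log P) ^ 4)) := by ring
    _ = P * k ^ 2 + 2 * (C * y ^ 4) := by rw [h6]
    _ ≤ k ^ 2 * k ^ 2 + 2 * (C * (16 * k ^ 4)) := by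
        have h7 : P * k ^ 2 ≤ k ^ 2 * k ^ 2 := mul_le_mul_of_nonneg_right h4 (by positivity)
        have h8 : C * y ^ 4 ≤ C * (16 * k ^ 4) := mul_le_mul_of_nonneg_left h5 hC.le
        linarith
    _ = (1 + 32 * C) * k ^ 4 := by ring

lemma norm_shift_le (X h : ℕ) (b : ℕ → ℂ) (hb : ∀ n, ‖b n‖ ≤ 1) :
    ‖∑ n ∈ Icc 1 X, b n * ((ArithmeticFunction.vonMangoldt n : ℝ) : ℂ) * mu (n + h)‖ ≤
      (Real.log 4 + 4) * X := by
  refine (norm_sum_le _ _).trans ((Finset.sum_le_sum fun n _ => ?_).trans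
    (Pool.Agent.Lib.PNT.sum_vonMangoldt_le X))
  rw [norm_mul, norm_mul, Complex.norm_real, Real.norm_of_nonneg ArithmeticFunction.vonMangoldt_nonneg]
  have h1 := hb n
  have h2 := norm_mu_le (n + h)
  have h3 : 0 ≤ ArithmeticFunction.vonMangoldt n := ArithmeticFunction.vonMangoldt_nonneg
  calc ‖b n‖ * ArithmeticFunction.vonMangoldt n * ‖mu (n + h)‖ ≤
      1 * ArithmeticFunction.vonMangoldt n * 1 := by gcongr
    _ = _ := by ring

theorem prime_shifts : ∃ A₂ : ℝ, ∀ (A : ℕ) (ε : ℝ), 0 < ε → ∃ X₀ : ℕ, ∀ (X Q h₀ : ℕ) (b : ℕ → ℂ),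
    X₀ ≤ X → (Real.log X) ^ A₂ ≤ Q → Q ≤ X → h₀ ≤ A * X → (∀ n, ‖b n‖ ≤ 1) →
    ∑ q ∈ (Icc 1 Q).filter Nat.Prime, ‖∑ n ∈ Icc 1 X, b n * ((ArithmeticFunction.vonMangoldt n : ℝ) : ℂ) *
      mu (n + h₀ + q)‖ ≤ ε * ((Icc 1 Q).filter Nat.Prime).card * X := by
  obtain ⟨A', hA'⟩ := sparse_gen mu norm_mu_le sup_mu 2 (by norm_num)
  obtain ⟨E, P₀, hE, hen⟩ := prime_energy
  have h1 := Pool.Agent.Lib.PNT.pi_nat
  have h2 : ∀ᶠ n : ℕ in Filter.atTop, (1 / 2 : ℝ) < (Nat.primeCounting n : ℝ) * Real.log n / n :=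
    h1.eventually (lt_mem_nhds (by norm_num))
  obtain ⟨N₁, hN₁⟩ := Filter.eventually_atTop.1 h2
  set a : ℝ := max A' 0 with ha
  set B : ℝ := Real.log 4 + 4 with hB
  have hB0 : 0 < B := by positivity
  refine ⟨a + 2, fun A ε hε => ?_⟩
  obtain ⟨X₁, hX₁⟩ := hA' (A + 1) E (ε / 2) (by positivity)
  -- a lower bound for `log X`
  obtain ⟨X₂, hX₂⟩ : ∃ X₂ : ℕ, ∀ X : ℕ, X₂ ≤ X →
      (N₁ : ℝ) + 2 + 1 + (4 * (P₀ + 3) * B / (ε / 2)) ≤ Real.log X := by
    have h := (Real.tendsto_log_atTop.comp (tendsto_natCast_atTop_atTop (R := ℝ))).eventually_ge_atTop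
      ((N₁ : ℝ) + 2 + 1 + (4 * (P₀ + 3) * B / (ε / 2)))
    exact Filter.eventually_atTop.1 h
  refine ⟨max X₁ (max X₂ 1), fun X Q h₀ b hX hQ hQX hh hb => ?_⟩
  have hXa : X₁ ≤ X := (le_max_left _ _).trans hX
  have hXb : X₂ ≤ X := (le_max_left _ _).trans ((le_max_right _ _).trans hX)
  have hXc : 1 ≤ X := (le_max_right _ _).trans ((le_max_right _ _).trans hX)
  have hL := hX₂ X hXb
  set L : ℝ := Real.log X with hLdef
  have hε4 : 0 ≤ 4 * ((P₀ : ℝ) + 3) * B / (ε / 2) := by positivity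
  have hN0 : (0 : ℝ) ≤ N₁ := Nat.cast_nonneg _
  have hL1 : 1 ≤ L := by linarith
  have hL0 : 0 < L := by linarith
  have ha0 : 0 ≤ a := le_max_right _ _
  have hLa1 : 1 ≤ L ^ a := Real.one_le_rpow hL1 ha0
  set Z : ℕ := ⌈L ^ a⌉₊ + P₀ + 1 with hZ
  have hZ1 : L ^ a ≤ Z := by
    rw [hZ]
    push_cast
    have := Nat.le_ceil (L ^ a)
    have h3 : (0 : ℝ) ≤ P₀ := Nat.cast_nonneg _
    linarith
  have hZ2 : (Z : ℝ) ≤ (P₀ + 3) * L ^ a := by
    rw [hZ]
    push_cast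
    have h3 := (Nat.ceil_lt_add_one (show 0 ≤ L ^ a by linarith)).le
    have h4 : (0 : ℝ) ≤ P₀ := Nat.cast_nonneg _
    nlinarith
  have hXr : (0 : ℝ) ≤ X := Nat.cast_nonneg _
  -- the main induction
  have key : ∀ Q : ℕ, Q ≤ X → ∑ q ∈ (Icc 1 Q).filter Nat.Prime,
      ‖∑ n ∈ Icc 1 X, b n * ((ArithmeticFunction.vonMangoldt n : ℝ) : ℂ) * mu (n + h₀ + q)‖ ≤
      ε / 2 * ((Icc 1 Q).filter Nat.Prime).card * X + 2 * Z * (B * X) := by
    intro Q
    induction Q using Nat.strong_induction_on with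
    | _ Q ih =>
    intro hQ
    by_cases hQZ : Q < 2 * Z
    · have h3 : ∑ q ∈ (Icc 1 Q).filter Nat.Prime,
          ‖∑ n ∈ Icc 1 X, b n * ((ArithmeticFunction.vonMangoldt n : ℝ) : ℂ) * mu (n + h₀ + q)‖ ≤
          ∑ q ∈ (Icc 1 Q).filter Nat.Prime, B * X := by
        apply Finset.sum_le_sum
        intro q _
        simp_rw [add_assoc]
        exact norm_shift_le X (h₀ + q) b hb
      have h4 : (((Icc 1 Q).filter Nat.Prime).card : ℝ) ≤ 2 * Z := by
        have h5 : ((Icc 1 Q).filter Nat.Prime).card ≤ 2 * Z := by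
          refine (Finset.card_filter_le _ _).trans ?_
          rw [Nat.card_Icc]
          omega
        exact_mod_cast h5
      rw [Finset.sum_const, nsmul_eq_mul] at h3
      have h5 : (((Icc 1 Q).filter Nat.Prime).card : ℝ) * (B * X) ≤ 2 * Z * (B * X) :=
        mul_le_mul_of_nonneg_right h4 (by positivity)
      have h6 : 0 ≤ ε / 2 * (((Icc 1 Q).filter Nat.Prime).card : ℝ) * X := by positivity
      linarith
    · rw [not_lt] at hQZ
      have hZ1' : 1 ≤ Z := by omega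
      set P : ℕ := (Q + 1) / 2 with hP
      have hPQ : P ≤ Q := by omega
      have hPQ' : P < Q := by omega
      have hZP : Z ≤ P := by omega
      have hP2 : 2 * P = Q ∨ 2 * P = Q + 1 := by omega
      have hset : (Ioc P Q).filter Nat.Prime = (Ioc P (2 * P)).filter Nat.Prime := by
        ext q
        simp only [Finset.mem_filter, Finset.mem_Ioc]
        constructor
        · rintro ⟨h3, h4⟩
          exact ⟨⟨h3.1, by omega⟩, h4⟩
        · rintro ⟨h3, h4⟩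
          refine ⟨⟨h3.1, ?_⟩, h4⟩
          by_contra h5
          have h6 : q = 2 * P := by omega
          have h7 := (Nat.Prime.even_iff h4).1 ⟨P, by omega⟩
          omega
      rw [card_Icc_split hPQ, card_split hPQ]
      have h3 := ih P hPQ' (by omega)
      have h4 : ∑ q ∈ (Ioc P Q).filter Nat.Prime,
          ‖∑ n ∈ Icc 1 X, b n * ((ArithmeticFunction.vonMangoldt n : ℝ) : ℂ) * mu (n + h₀ + q)‖ ≤
          ε / 2 * ((Ioc P Q).filter Nat.Prime).card * X := by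
        rw [hset]
        have h5 := hX₁ X P (h₀ + P) ((Ioc P (2 * P)).filter Nat.Prime) (fun q => h₀ + q) b hXa ?_ (by omega)
          ?_ ?_ ?_ hb
        · simp_rw [← add_assoc] at h5
          exact h5
        · have h6 : L ^ A' ≤ L ^ a := Real.rpow_le_rpow_of_exponent_le hL1 (le_max_left _ _)
          have h7 : (Z : ℝ) ≤ P := by exact_mod_cast hZP
          linarith
        · have h6 : P ≤ X := by omega
          calc h₀ + P ≤ A * X + X := by omega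
            _ = (A + 1) * X := by ring
        · intro k hk
          rw [Finset.mem_filter, Finset.mem_Ioc] at hk
          omega
        · have h6 := hen P (by omega)
          have h7 : energy 2 ((Ioc P (2 * P)).filter Nat.Prime) (fun k : ℕ => (((h₀ + k : ℕ)) : ℤ)) =
              energy 2 ((Ioc P (2 * P)).filter Nat.Prime) (fun q : ℕ => (q : ℤ)) := by
            rw [← energy_sub_const 2 _ (fun k : ℕ => (((h₀ + k : ℕ)) : ℤ)) h₀]
            apply energy_congr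
            intro k _
            push_cast
            ring
          rw [h7]
          exact h6
      push_cast
      linarith
  have h3 := key Q hQX
  refine h3.trans ?_
  -- the small shifts
  have hQL : (N₁ : ℝ) ≤ Q := by
    have h4 : L ^ (1 : ℝ) ≤ L ^ (a + 2) := Real.rpow_le_rpow_of_exponent_le hL1 (by linarith)
    rw [Real.rpow_one] at h4
    linarith
  have hQN : N₁ ≤ Q := by exact_mod_cast hQL
  have hQ3 : (1 : ℝ) < Q := by
    have h4 : L ^ (1 : ℝ) ≤ L ^ (a + 2) := Real.rpow_le_rpow_of_exponent_le hL1 (by linarith)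
    rw [Real.rpow_one] at h4
    linarith
  have h4 := hN₁ Q hQN
  have hQ0 : (0 : ℝ) < Q := by linarith
  have hlQ : 0 < Real.log Q := Real.log_pos hQ3
  have hlQL : Real.log Q ≤ L := Real.log_le_log hQ0 (by exact_mod_cast hQX)
  rw [lt_div_iff₀ hQ0] at h4
  rw [card_Icc_prime]
  set π' : ℝ := (Nat.primeCounting Q : ℝ) with hπ
  have hπ0 : 0 ≤ π' := Nat.cast_nonneg _
  have h5 : 1 / 2 * Q ≤ π' * L := by
    have := mul_le_mul_of_nonneg_left hlQL hπ0
    linarith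
  have h6 : L ^ (a + 2) = L ^ a * L ^ 2 := by
    rw [Real.rpow_add hL0]
    norm_num
  have h7 : L ^ a * L ≤ 2 * π' := by
    have h8 : (L ^ a * L) * L ≤ (2 * π') * L := by
      calc (L ^ a * L) * L = L ^ (a + 2) := by rw [h6]; ring
        _ ≤ Q := hQ
        _ ≤ (2 * π') * L := by linarith
    exact le_of_mul_le_mul_right h8 hL0
  have h8 : 2 * Z * B ≤ ε / 2 * π' := by
    have h9 : 4 * ((P₀ : ℝ) + 3) * B ≤ (ε / 2) * L := by
      have : 4 * ((P₀ : ℝ) + 3) * B / (ε / 2) ≤ L := by linarith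
      rwa [div_le_iff₀' (by positivity)] at this
    have h10 : 0 ≤ L ^ a := by linarith
    have h11 : 2 * Z * B ≤ 2 * ((P₀ + 3) * L ^ a) * B := by
      apply mul_le_mul_of_nonneg_right _ hB0.le
      linarith
    have h12 := mul_le_mul_of_nonneg_right h9 h10
    have h13 := mul_le_mul_of_nonneg_left h7 (show 0 ≤ ε / 4 by positivity)
    calc 2 * Z * B ≤ 2 * ((P₀ + 3) * L ^ a) * B := h11
      _ = 1 / 2 * (4 * ((P₀ : ℝ) + 3) * B * L ^ a) := by ring
      _ ≤ 1 / 2 * (ε / 2 * L * L ^ a) := by linarith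
      _ = ε / 4 * (L ^ a * L) := by ring
      _ ≤ ε / 4 * (2 * π') := h13
      _ = ε / 2 * π' := by ring
  nlinarith

end Pool.SSP
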