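import Mathlib

/-!
# SSP/Count3: solutions of `h₁m₁ + h₂m₂ + h₃m₃ = 0`

For `1 ≤ P ≤ Y`: the number of `(h, m)` with `0 < |h_i| ≤ P`, `|m_i| ≤ Y` and `h₁m₁ + h₂m₂ + h₃m₃ = 0` is at most
`C P² Y²`, `C` absolute.

Proof. Let `n = |h₃|` be the largest `|h_i|` (by symmetry, three cases). Then `m₃` is determined by `(m₁, m₂)` and
`h₁m₁ + h₂m₂ ≡ 0 (mod n)`. With `d = gcd(h₂, n)`, `g = gcd(h₁, d)`: `d ∣ h₁m₁`, so `(d/g) ∣ m₁`, at most `4Yg/d`
values; for given `m₁` two values of `m₂` differ by a multiple of `n/d`: at most `4Yd/n` values.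
So the number of `m` is at most `16 Y² g/n`.
Sum over `h`: `g ≤ ∑_{d ∣ h₁, h₂, n} d`, the number of `h₁ ∈ [-n,n]` with `d ∣ h₁` is at most `4n/d`, so
the sum over `(h₁,h₂)` is at most `256 Y² ∑_{d ∣ n} n/d`, and the sum of this over `n ≤ P` is at most `256 Y² P²`.
-/

set_option autoImplicit false

namespace Pool.SSP

open Finset

namespace Count3Aux

/-- A set of integers in `[-Y, Y]` with all differences divisible by `e ≤ Y` has at most `4Y/e` elements. -/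
theorem card_spaced (Y e : ℕ) (he : 1 ≤ e) (heY : e ≤ Y) (S : Finset ℤ)
    (hS : ∀ x ∈ S, -(Y : ℤ) ≤ x ∧ x ≤ Y) (hd : ∀ x ∈ S, ∀ y ∈ S, (e : ℤ) ∣ x - y) :
    S.card * e ≤ 4 * Y := by
  have he0 : (0 : ℤ) < e := by exact_mod_cast he
  have hinj : Set.InjOn (fun x : ℤ => x / (e : ℤ)) (S : Set ℤ) := by
    intro x hx y hy hxy
    simp only at hxy
    have h1 := Int.emod_add_mul_ediv x e
    have h2 := Int.emod_add_mul_ediv y e
    obtain ⟨k, hk⟩ := hd x hx y hy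
    have h3 : x % e = y % e := Int.emod_eq_emod_iff_emod_sub_eq_zero.mpr (by
      rw [hk]; exact Int.mul_emod_right _ _)
    rw [← h1, ← h2, h3, hxy]
  have hcard : S.card ≤ (Icc ((-(Y : ℤ)) / e) ((Y : ℤ) / e)).card := by
    refine card_le_card_of_injOn (fun x : ℤ => x / (e : ℤ)) ?_ hinj
    intro x hx
    have h := hS x (by exact_mod_cast hx)
    simp only [coe_Icc, Set.mem_Icc]
    exact ⟨Int.ediv_le_ediv he0 h.1, Int.ediv_le_ediv he0 h.2⟩
  rw [Int.card_Icc] at hcard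
  have h1 := Int.emod_add_mul_ediv (-(Y : ℤ)) e
  have h2 := Int.emod_add_mul_ediv ((Y : ℤ)) e
  have h3 := Int.emod_nonneg (Y : ℤ) he0.ne'
  have h4 := Int.emod_lt_of_pos (-(Y : ℤ)) he0
  have h5 : (-(Y : ℤ)) / e ≤ (Y : ℤ) / e := Int.ediv_le_ediv he0 (by omega)
  have h6 : (S.card : ℤ) ≤ (Y : ℤ) / e + 1 - (-(Y : ℤ)) / e := by
    have : ((S.card : ℕ) : ℤ) ≤ (((Y : ℤ) / e + 1 - (-(Y : ℤ)) / e).toNat : ℤ) := by exact_mod_cast hcard
    rw [Int.toNat_of_nonneg (by omega)] at this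
    exact this
  have h7 : (S.card : ℤ) * e ≤ ((Y : ℤ) / e + 1 - (-(Y : ℤ)) / e) * e :=
    mul_le_mul_of_nonneg_right h6 he0.le
  have h8 : ((Y : ℤ) / e + 1 - (-(Y : ℤ)) / e) * e ≤ 4 * Y := by
    have : (e : ℤ) ≤ Y := by exact_mod_cast heY
    nlinarith
  exact_mod_cast h7.trans h8

/-- The number of pairs. -/
theorem card_pairs (Y n : ℕ) (hn : 1 ≤ n) (hnY : n ≤ Y) (a b : ℤ) :
    (((Icc (-(Y : ℤ)) Y) ×ˢ (Icc (-(Y : ℤ)) Y)).filter (fun z : ℤ × ℤ => (n : ℤ) ∣ a * z.1 + b * z.2)).card * n ≤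
      16 * Y ^ 2 * (Nat.gcd a.natAbs (Nat.gcd b.natAbs n)) := by
  classical
  set d : ℕ := Nat.gcd b.natAbs n with hd
  set g : ℕ := Nat.gcd a.natAbs d with hg
  have hd0 : 0 < d := Nat.gcd_pos_of_pos_right _ hn
  have hg0 : 0 < g := Nat.gcd_pos_of_pos_right _ hd0
  have hdn : d ∣ n := Nat.gcd_dvd_right _ _
  have hgd : g ∣ d := Nat.gcd_dvd_right _ _
  set S := ((Icc (-(Y : ℤ)) Y) ×ˢ (Icc (-(Y : ℤ)) Y)).filter (fun z : ℤ × ℤ => (n : ℤ) ∣ a * z.1 + b * z.2)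
    with hS
  set M := S.image Prod.fst with hM
  have hMcard : M.card * (d / g) ≤ 4 * Y := by
    refine card_spaced Y (d / g) (Nat.div_pos (Nat.le_of_dvd hd0 hgd) hg0)
      ((Nat.div_le_self _ _).trans ((Nat.le_of_dvd (by omega) hdn).trans hnY)) M ?_ ?_
    · intro x hx
      obtain ⟨z, hz, rfl⟩ := mem_image.mp hx
      rw [hS, mem_filter, mem_product, mem_Icc, mem_Icc] at hz
      exact hz.1.1
    · have key : ∀ x ∈ M, ((d / g : ℕ) : ℤ) ∣ x := by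
        intro x hx
        obtain ⟨z, hz, rfl⟩ := mem_image.mp hx
        rw [hS, mem_filter] at hz
        have h1 : (d : ℤ) ∣ a * z.1 + b * z.2 := dvd_trans (Int.natCast_dvd_natCast.mpr hdn) hz.2
        have h2 : (d : ℤ) ∣ b := Int.natCast_dvd.mpr (Nat.gcd_dvd_left _ _)
        have h3 : (d : ℤ) ∣ a * z.1 := (Int.dvd_add_left (dvd_mul_of_dvd_left h2 _)).mp h1
        have h4 : d ∣ a.natAbs * z.1.natAbs := by
          rw [← Int.natAbs_mul]; exact Int.natCast_dvd.mp h3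
        have h5 : d / g ∣ (a.natAbs / g) * z.1.natAbs := by
          have h6 : d / g * g = d := Nat.div_mul_cancel hgd
          have h7 : a.natAbs / g * g = a.natAbs := Nat.div_mul_cancel (Nat.gcd_dvd_left _ _)
          have h8 : (d / g) * g ∣ ((a.natAbs / g) * z.1.natAbs) * g := by
            rw [h6, mul_right_comm, h7]; exact h4
          exact Nat.dvd_of_mul_dvd_mul_right hg0 h8
        have h9 : Nat.Coprime (d / g) (a.natAbs / g) := by
          have := Nat.coprime_div_gcd_div_gcd (m := a.natAbs) (n := d) (by rw [← hg]; exact hg0)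
          rw [← hg] at this
          exact this.symm
        have h10 : d / g ∣ z.1.natAbs := h9.dvd_of_dvd_mul_left h5
        exact Int.natCast_dvd.mpr h10
      intro x hx y hy
      exact dvd_sub (key x hx) (key y hy)
  have hfib : ∀ x ∈ M, (S.filter (fun z => z.1 = x)).card * (n / d) ≤ 4 * Y := by
    intro x _
    have hc : (S.filter (fun z => z.1 = x)).card = ((S.filter (fun z => z.1 = x)).image Prod.snd).card := by
      rw [card_image_of_injOn]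
      intro z hz w hw hzw
      have h1 := (mem_filter.mp (by exact_mod_cast hz : z ∈ S.filter (fun z => z.1 = x))).2
      have h2 := (mem_filter.mp (by exact_mod_cast hw : w ∈ S.filter (fun z => z.1 = x))).2
      exact Prod.ext (h1.trans h2.symm) hzw
    rw [hc]
    refine card_spaced Y (n / d) (Nat.div_pos (Nat.le_of_dvd (by omega) hdn) hd0)
      ((Nat.div_le_self _ _).trans hnY) _ ?_ ?_
    · intro y hy
      obtain ⟨z, hz, rfl⟩ := mem_image.mp hy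
      have hz' := (mem_filter.mp hz).1
      rw [hS, mem_filter, mem_product, mem_Icc, mem_Icc] at hz'
      exact hz'.1.2
    · intro y hy y' hy'
      obtain ⟨z, hz, rfl⟩ := mem_image.mp hy
      obtain ⟨w, hw, rfl⟩ := mem_image.mp hy'
      have hz' := mem_filter.mp hz
      have hw' := mem_filter.mp hw
      have hz2 := (mem_filter.mp hz'.1).2
      have hw2 := (mem_filter.mp hw'.1).2
      have h1 : (n : ℤ) ∣ b * (z.2 - w.2) := by
        have := dvd_sub hz2 hw2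
        rw [hz'.2, hw'.2] at this
        have h2 : a * x + b * z.2 - (a * x + b * w.2) = b * (z.2 - w.2) := by ring
        rwa [h2] at this
      have h4 : n ∣ b.natAbs * (z.2 - w.2).natAbs := by
        rw [← Int.natAbs_mul]; exact Int.natCast_dvd.mp h1
      have h5 : n / d ∣ (b.natAbs / d) * (z.2 - w.2).natAbs := by
        have h6 : n / d * d = n := Nat.div_mul_cancel hdn
        have h7 : b.natAbs / d * d = b.natAbs := Nat.div_mul_cancel (Nat.gcd_dvd_left _ _)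
        have h8 : (n / d) * d ∣ ((b.natAbs / d) * (z.2 - w.2).natAbs) * d := by
          rw [h6, mul_right_comm, h7]; exact h4
        exact Nat.dvd_of_mul_dvd_mul_right hd0 h8
      have h9 : Nat.Coprime (n / d) (b.natAbs / d) := by
        have := Nat.coprime_div_gcd_div_gcd (m := b.natAbs) (n := n) (by rw [← hd]; exact hd0)
        rw [← hd] at this
        exact this.symm
      exact Int.natCast_dvd.mpr (h9.dvd_of_dvd_mul_left h5)
  have hsum : S.card = ∑ x ∈ M, (S.filter (fun z => z.1 = x)).card :=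
    card_eq_sum_card_image Prod.fst S
  have h1 : S.card * (n / d) ≤ M.card * (4 * Y) := by
    rw [hsum, sum_mul, ← smul_eq_mul (M.card), ← sum_const]
    exact sum_le_sum hfib
  calc S.card * n = S.card * (n / d) * d := by rw [mul_assoc, Nat.div_mul_cancel hdn]
    _ ≤ M.card * (4 * Y) * d := Nat.mul_le_mul_right _ h1
    _ = (M.card * (d / g)) * (4 * Y) * g := by
        conv_lhs => rw [← Nat.div_mul_cancel hgd]
        ring
    _ ≤ (4 * Y) * (4 * Y) * g := Nat.mul_le_mul_right _ (Nat.mul_le_mul_right _ hMcard)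
    _ = 16 * Y ^ 2 * g := by ring

/-- The number of triples for given `h`. -/
theorem card_triples (Y : ℕ) (a b c : ℤ) (hc : c ≠ 0) (hcY : c.natAbs ≤ Y) :
    (((Icc (-(Y : ℤ)) Y) ×ˢ (Icc (-(Y : ℤ)) Y) ×ˢ (Icc (-(Y : ℤ)) Y)).filter
      (fun z : ℤ × ℤ × ℤ => a * z.1 + b * z.2.1 + c * z.2.2 = 0)).card * c.natAbs ≤
      16 * Y ^ 2 * (Nat.gcd a.natAbs (Nat.gcd b.natAbs c.natAbs)) := by
  have hn : 1 ≤ c.natAbs := Int.natAbs_pos.mpr hc
  refine le_trans (Nat.mul_le_mul_right _ ?_) (card_pairs Y c.natAbs hn hcY a b)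
  refine card_le_card_of_injOn (fun z : ℤ × ℤ × ℤ => (z.1, z.2.1)) ?_ ?_
  · intro z hz
    have hz' := mem_filter.mp (by exact_mod_cast hz : z ∈ ((Icc (-(Y : ℤ)) Y) ×ˢ (Icc (-(Y : ℤ)) Y) ×ˢ
      (Icc (-(Y : ℤ)) Y)).filter (fun z : ℤ × ℤ × ℤ => a * z.1 + b * z.2.1 + c * z.2.2 = 0))
    have h1 := mem_product.mp hz'.1
    have h2 := mem_product.mp h1.2
    refine mem_coe.mpr (mem_filter.mpr ⟨mem_product.mpr ⟨h1.1, h2.1⟩, ?_⟩)
    rw [Int.natCast_natAbs, abs_dvd]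
    refine ⟨-z.2.2, ?_⟩
    have := hz'.2
    simp only
    linarith
  · intro z hz w hw hzw
    have hz' := (mem_filter.mp (by exact_mod_cast hz : z ∈ ((Icc (-(Y : ℤ)) Y) ×ˢ (Icc (-(Y : ℤ)) Y) ×ˢ
      (Icc (-(Y : ℤ)) Y)).filter (fun z : ℤ × ℤ × ℤ => a * z.1 + b * z.2.1 + c * z.2.2 = 0))).2
    have hw' := (mem_filter.mp (by exact_mod_cast hw : w ∈ ((Icc (-(Y : ℤ)) Y) ×ˢ (Icc (-(Y : ℤ)) Y) ×ˢ
      (Icc (-(Y : ℤ)) Y)).filter (fun z : ℤ × ℤ × ℤ => a * z.1 + b * z.2.1 + c * z.2.2 = 0))).2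
    simp only [Prod.mk.injEq] at hzw
    obtain ⟨h1, h2⟩ := hzw
    rw [h1, h2] at hz'
    have h3 : c * (z.2.2 - w.2.2) = 0 := by linarith
    have h4 : z.2.2 - w.2.2 = 0 := by
      rcases mul_eq_zero.mp h3 with h | h
      · exact absurd h hc
      · exact h
    exact Prod.ext h1 (Prod.ext h2 (by linarith))

/-- The gcd is at most the sum of the common divisors. -/
theorem gcd_le_sum (a b n : ℕ) (hn : 1 ≤ n) :
    Nat.gcd a (Nat.gcd b n) ≤ ∑ d ∈ n.divisors, (if d ∣ a then 1 else 0) * (if d ∣ b then 1 else 0) * d := by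
  set g := Nat.gcd a (Nat.gcd b n) with hg
  have h1 : g ∣ n := (Nat.gcd_dvd_right _ _).trans (Nat.gcd_dvd_right _ _)
  have h2 : g ∣ b := (Nat.gcd_dvd_right _ _).trans (Nat.gcd_dvd_left _ _)
  have h3 : g ∣ a := Nat.gcd_dvd_left _ _
  have h4 : g ∈ n.divisors := Nat.mem_divisors.mpr ⟨h1, by omega⟩
  have h5 := single_le_sum (f := fun d => (if d ∣ a then 1 else 0) * (if d ∣ b then 1 else 0) * d)
    (s := n.divisors) (fun i _ => Nat.zero_le _) h4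
  simpa [h2, h3] using h5

/-- The number of multiples of `d ∣ n` in `[-n, n]`. -/
theorem card_mult (n d : ℕ) (hn : 1 ≤ n) (hd : d ∣ n) :
    ∑ x ∈ Icc (-(n : ℤ)) n, (if d ∣ x.natAbs then 1 else 0) ≤ 4 * (n / d) := by
  rw [← card_filter]
  have hd0 : 0 < d := Nat.pos_of_dvd_of_pos hd hn
  have h1 := card_spaced n d hd0 (Nat.le_of_dvd hn hd)
    ((Icc (-(n : ℤ)) n).filter (fun x => d ∣ x.natAbs))
    (fun x hx => mem_Icc.mp (mem_filter.mp hx).1)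
    (fun x hx y hy => dvd_sub (Int.natCast_dvd.mpr (mem_filter.mp hx).2) (Int.natCast_dvd.mpr (mem_filter.mp hy).2))
  have h2 : 4 * n = 4 * (n / d) * d := by rw [mul_assoc, Nat.div_mul_cancel hd]
  rw [h2] at h1
  exact Nat.le_of_mul_le_mul_right h1 hd0

/-- The sum over `h₁, h₂`. -/
theorem sum_pairs (Y : ℕ) (c : ℤ) (hc : c ≠ 0) (hcY : c.natAbs ≤ Y) :
    ∑ a ∈ Icc (-(c.natAbs : ℤ)) c.natAbs, ∑ b ∈ Icc (-(c.natAbs : ℤ)) c.natAbs,
      (((Icc (-(Y : ℤ)) Y) ×ˢ (Icc (-(Y : ℤ)) Y) ×ˢ (Icc (-(Y : ℤ)) Y)).filter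
      (fun z : ℤ × ℤ × ℤ => a * z.1 + b * z.2.1 + c * z.2.2 = 0)).card ≤
      256 * Y ^ 2 * ∑ d ∈ (c.natAbs).divisors, d := by
  set n := c.natAbs with hn
  have hn1 : 1 ≤ n := Int.natAbs_pos.mpr hc
  refine Nat.le_of_mul_le_mul_right ?_ hn1
  rw [sum_mul]
  have h1 : ∀ a ∈ Icc (-(n : ℤ)) n, (∑ b ∈ Icc (-(n : ℤ)) n,
      (((Icc (-(Y : ℤ)) Y) ×ˢ (Icc (-(Y : ℤ)) Y) ×ˢ (Icc (-(Y : ℤ)) Y)).filter
      (fun z : ℤ × ℤ × ℤ => a * z.1 + b * z.2.1 + c * z.2.2 = 0)).card) * n ≤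
      ∑ b ∈ Icc (-(n : ℤ)) n, 16 * Y ^ 2 * ∑ d ∈ n.divisors,
        (if d ∣ a.natAbs then 1 else 0) * (if d ∣ b.natAbs then 1 else 0) * d := by
    intro a _
    rw [sum_mul]
    refine sum_le_sum fun b _ => ?_
    exact (card_triples Y a b c hc hcY).trans (Nat.mul_le_mul_left _ (gcd_le_sum _ _ _ hn1))
  refine (sum_le_sum h1).trans ?_
  have h2 : ∑ a ∈ Icc (-(n : ℤ)) n, ∑ b ∈ Icc (-(n : ℤ)) n, 16 * Y ^ 2 * ∑ d ∈ n.divisors,
        (if d ∣ a.natAbs then 1 else 0) * (if d ∣ b.natAbs then 1 else 0) * d =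
      16 * Y ^ 2 * ∑ d ∈ n.divisors, (∑ a ∈ Icc (-(n : ℤ)) n, (if d ∣ a.natAbs then 1 else 0)) *
        (∑ b ∈ Icc (-(n : ℤ)) n, (if d ∣ b.natAbs then 1 else 0)) * d := by
    simp_rw [← mul_sum]
    congr 1
    have h3 : ∀ a ∈ Icc (-(n : ℤ)) n, ∑ b ∈ Icc (-(n : ℤ)) n, ∑ d ∈ n.divisors,
        (if d ∣ a.natAbs then 1 else 0) * (if d ∣ b.natAbs then 1 else 0) * d =
        ∑ d ∈ n.divisors, (if d ∣ a.natAbs then 1 else 0) *
          (∑ b ∈ Icc (-(n : ℤ)) n, (if d ∣ b.natAbs then 1 else 0)) * d := by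
      intro a _
      rw [sum_comm]
      refine sum_congr rfl fun d _ => ?_
      rw [mul_sum, sum_mul]
    rw [sum_congr rfl h3, sum_comm]
    refine sum_congr rfl fun d _ => ?_
    rw [sum_mul, sum_mul]
  rw [h2]
  have h4 : ∑ d ∈ n.divisors, (∑ a ∈ Icc (-(n : ℤ)) n, (if d ∣ a.natAbs then 1 else 0)) *
        (∑ b ∈ Icc (-(n : ℤ)) n, (if d ∣ b.natAbs then 1 else 0)) * d ≤
      ∑ d ∈ n.divisors, 16 * n * (n / d) := by
    refine sum_le_sum fun d hd => ?_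
    have hdn := (Nat.mem_divisors.mp hd).1
    have h5 := card_mult n d hn1 hdn
    calc _ ≤ (4 * (n / d)) * (4 * (n / d)) * d := Nat.mul_le_mul_right _ (Nat.mul_le_mul h5 h5)
      _ = 16 * (n / d * d) * (n / d) := by ring
      _ = 16 * n * (n / d) := by rw [Nat.div_mul_cancel hdn]
  have h6 : ∑ d ∈ n.divisors, 16 * n * (n / d) = 16 * n * ∑ d ∈ n.divisors, d := by
    rw [← mul_sum]
    congr 1
    exact Nat.sum_div_divisors n (fun d => d)
  calc 16 * Y ^ 2 * ∑ d ∈ n.divisors, (∑ a ∈ Icc (-(n : ℤ)) n, (if d ∣ a.natAbs then 1 else 0)) *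
        (∑ b ∈ Icc (-(n : ℤ)) n, (if d ∣ b.natAbs then 1 else 0)) * d ≤
      16 * Y ^ 2 * (16 * n * ∑ d ∈ n.divisors, d) := Nat.mul_le_mul_left _ (h4.trans h6.le)
    _ = 256 * Y ^ 2 * (∑ d ∈ n.divisors, d) * n := by ring

/-- The sum of the divisor sums. -/
theorem sum_sigma (P : ℕ) : ∑ n ∈ Icc 1 P, ∑ d ∈ n.divisors, d ≤ P ^ 2 := by
  have h1 : ∑ n ∈ Icc 1 P, ∑ d ∈ n.divisors, d = ∑ n ∈ Icc 1 P, ∑ d ∈ Icc 1 P, if d ∣ n then d else 0 := by
    refine sum_congr rfl fun n hn => ?_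
    rw [← sum_filter]
    refine sum_congr ?_ fun _ _ => rfl
    ext d
    simp only [Nat.mem_divisors, mem_filter, mem_Icc] at hn ⊢
    constructor
    · rintro ⟨h, _⟩
      have := Nat.le_of_dvd (by omega) h
      have h0 := Nat.pos_of_dvd_of_pos h (by omega)
      exact ⟨⟨h0, by omega⟩, h⟩
    · rintro ⟨_, h⟩
      exact ⟨h, by omega⟩
  rw [h1, sum_comm]
  have h2 : ∀ d ∈ Icc 1 P, (∑ n ∈ Icc 1 P, if d ∣ n then d else 0) ≤ P := by
    intro d _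
    rw [← sum_filter, sum_const, smul_eq_mul]
    have h3 : ((Icc 1 P).filter (fun n => d ∣ n)).card = P / d := by
      have := Nat.Ioc_filter_dvd_card_eq_div P d
      rw [← this]
      congr 1
    rw [h3]
    exact Nat.div_mul_le_self P d
  calc _ ≤ ∑ d ∈ Icc 1 P, P := sum_le_sum h2
    _ = P ^ 2 := by rw [sum_const, Nat.card_Icc, smul_eq_mul]; simp [sq]

/-- The whole set. -/
noncomputable def full (P Y : ℕ) : Finset ((ℤ × ℤ × ℤ) × (ℤ × ℤ × ℤ)) :=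
  (((Icc (-(P : ℤ)) P) ×ˢ (Icc (-(P : ℤ)) P) ×ˢ (Icc (-(P : ℤ)) P)) ×ˢ
      ((Icc (-(Y : ℤ)) Y) ×ˢ (Icc (-(Y : ℤ)) Y) ×ˢ (Icc (-(Y : ℤ)) Y))).filter
      (fun z : (ℤ × ℤ × ℤ) × (ℤ × ℤ × ℤ) => z.1.1 ≠ 0 ∧ z.1.2.1 ≠ 0 ∧ z.1.2.2 ≠ 0 ∧
        z.1.1 * z.2.1 + z.1.2.1 * z.2.2.1 + z.1.2.2 * z.2.2.2 = 0)

/-- The part where the third coordinate is the largest. -/
noncomputable def part3 (P Y : ℕ) : Finset ((ℤ × ℤ × ℤ) × (ℤ × ℤ × ℤ)) :=
  (full P Y).filter (fun z => z.1.1.natAbs ≤ z.1.2.2.natAbs ∧ z.1.2.1.natAbs ≤ z.1.2.2.natAbs)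

theorem card_part3 (P Y : ℕ) (hPY : P ≤ Y) : (part3 P Y).card ≤ 512 * P ^ 2 * Y ^ 2 := by
  classical
  have h1 : (part3 P Y).card ≤ ∑ c ∈ (Icc (-(P : ℤ)) P).erase 0,
      ((part3 P Y).filter (fun z => z.1.2.2 = c)).card := by
    refine (card_eq_sum_card_fiberwise (f := fun z : (ℤ × ℤ × ℤ) × (ℤ × ℤ × ℤ) => z.1.2.2)
      (t := (Icc (-(P : ℤ)) P).erase 0) ?_).le
    intro z hz
    have hz1 := (mem_filter.mp (by exact_mod_cast hz : z ∈ part3 P Y)).1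
    have hz2 := mem_filter.mp hz1
    have hz3 := (mem_product.mp (mem_product.mp (mem_product.mp hz2.1).1).2).2
    exact mem_coe.mpr (mem_erase.mpr ⟨hz2.2.2.2.1, hz3⟩)
  have h2 : ∀ c ∈ (Icc (-(P : ℤ)) P).erase 0, ((part3 P Y).filter (fun z => z.1.2.2 = c)).card ≤
      256 * Y ^ 2 * ∑ d ∈ (c.natAbs).divisors, d := by
    intro c hc
    have hc0 : c ≠ 0 := (mem_erase.mp hc).1
    have hcP := mem_Icc.mp (mem_erase.mp hc).2
    have hcY : c.natAbs ≤ Y := by omega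
    refine le_trans ?_ (sum_pairs Y c hc0 hcY)
    rw [← sum_product', ]
    refine le_trans (card_eq_sum_card_fiberwise (f := fun z : (ℤ × ℤ × ℤ) × (ℤ × ℤ × ℤ) => (z.1.1, z.1.2.1))
      (t := Icc (-(c.natAbs : ℤ)) c.natAbs ×ˢ Icc (-(c.natAbs : ℤ)) c.natAbs) ?_).le ?_
    · intro z hz
      have hz0 := mem_filter.mp (by exact_mod_cast hz : z ∈ (part3 P Y).filter (fun z => z.1.2.2 = c))
      have hz1 := (mem_filter.mp hz0.1).2
      rw [hz0.2] at hz1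
      refine mem_coe.mpr (mem_product.mpr ⟨mem_Icc.mpr ?_, mem_Icc.mpr ?_⟩)
      · simp only; omega
      · simp only; omega
    · refine sum_le_sum fun ab _ => ?_
      refine card_le_card_of_injOn (fun z : (ℤ × ℤ × ℤ) × (ℤ × ℤ × ℤ) => z.2) ?_ ?_
      · intro z hz
        have hz0 := mem_filter.mp (mem_coe.mp hz)
        have hz1 := mem_filter.mp hz0.1
        have hz2 := mem_filter.mp (mem_filter.mp hz1.1).1
        refine mem_coe.mpr (mem_filter.mpr ⟨(mem_product.mp hz2.1).2, ?_⟩)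
        have h3 := hz2.2.2.2.2
        rw [hz1.2] at h3
        have h4 : z.1.1 = ab.1 := congrArg Prod.fst hz0.2
        have h5 : z.1.2.1 = ab.2 := congrArg Prod.snd hz0.2
        rw [h4, h5] at h3
        exact h3
      · intro z hz w hw hzw
        have hz0 := mem_filter.mp (mem_coe.mp hz)
        have hz1 := mem_filter.mp hz0.1
        have hw0 := mem_filter.mp (mem_coe.mp hw)
        have hw1 := mem_filter.mp hw0.1
        have h3 : (z.1.1, z.1.2.1) = (w.1.1, w.1.2.1) := hz0.2.trans hw0.2.symm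
        simp only [Prod.mk.injEq] at h3
        exact Prod.ext (Prod.ext h3.1 (Prod.ext h3.2 (hz1.2.trans hw1.2.symm))) hzw
  have h3 : ∑ c ∈ (Icc (-(P : ℤ)) P).erase 0, ∑ d ∈ (c.natAbs).divisors, d ≤ 2 * P ^ 2 := by
    have h4 : ∑ c ∈ (Icc (-(P : ℤ)) P).erase 0, ∑ d ∈ (c.natAbs).divisors, d ≤
        ∑ n ∈ Icc 1 P, ∑ c ∈ ((Icc (-(P : ℤ)) P).erase 0).filter (fun c => c.natAbs = n),
          ∑ d ∈ (c.natAbs).divisors, d := by
      refine (sum_fiberwise_of_maps_to (g := fun c : ℤ => c.natAbs) ?_ _).symm.le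
      intro c hc
      have hc0 : c ≠ 0 := (mem_erase.mp hc).1
      have hcP := mem_Icc.mp (mem_erase.mp hc).2
      exact mem_Icc.mpr ⟨Int.natAbs_pos.mpr hc0, by omega⟩
    refine h4.trans ?_
    have h5 : ∀ n ∈ Icc 1 P, (∑ c ∈ ((Icc (-(P : ℤ)) P).erase 0).filter (fun c => c.natAbs = n),
          ∑ d ∈ (c.natAbs).divisors, d) ≤ 2 * ∑ d ∈ n.divisors, d := by
      intro n _
      have h6 : ∑ c ∈ ((Icc (-(P : ℤ)) P).erase 0).filter (fun c => c.natAbs = n),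
          ∑ d ∈ (c.natAbs).divisors, d = ∑ c ∈ ((Icc (-(P : ℤ)) P).erase 0).filter (fun c => c.natAbs = n),
          ∑ d ∈ n.divisors, d := by
        refine sum_congr rfl fun c hc => ?_
        rw [(mem_filter.mp hc).2]
      rw [h6, sum_const, smul_eq_mul]
      refine Nat.mul_le_mul_right _ ?_
      refine (card_le_card (t := {(n : ℤ), -(n : ℤ)}) ?_).trans card_le_two
      intro c hc
      have := (mem_filter.mp hc).2
      rw [mem_insert, mem_singleton]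
      omega
    refine (sum_le_sum h5).trans ?_
    rw [← mul_sum]
    exact Nat.mul_le_mul_left _ (sum_sigma P)
  calc (part3 P Y).card ≤ _ := h1
    _ ≤ ∑ c ∈ (Icc (-(P : ℤ)) P).erase 0, 256 * Y ^ 2 * ∑ d ∈ (c.natAbs).divisors, d := sum_le_sum h2
    _ = 256 * Y ^ 2 * ∑ c ∈ (Icc (-(P : ℤ)) P).erase 0, ∑ d ∈ (c.natAbs).divisors, d := by rw [mul_sum]
    _ ≤ 256 * Y ^ 2 * (2 * P ^ 2) := Nat.mul_le_mul_left _ h3
    _ = 512 * P ^ 2 * Y ^ 2 := by ring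

theorem card_part1 (P Y : ℕ) (hPY : P ≤ Y) :
    ((full P Y).filter (fun z => z.1.2.1.natAbs ≤ z.1.1.natAbs ∧ z.1.2.2.natAbs ≤ z.1.1.natAbs)).card ≤
      512 * P ^ 2 * Y ^ 2 := by
  refine le_trans (card_le_card_of_injOn (t := part3 P Y)
    (fun z => ((z.1.2.2, z.1.2.1, z.1.1), (z.2.2.2, z.2.2.1, z.2.1))) ?_ ?_) (card_part3 P Y hPY)
  · intro z hz
    have hz0 := mem_filter.mp (mem_coe.mp hz)
    have hz1 := mem_filter.mp hz0.1
    have h1 := mem_product.mp hz1.1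
    have h2 := mem_product.mp h1.1
    have h3 := mem_product.mp h2.2
    have h4 := mem_product.mp h1.2
    have h5 := mem_product.mp h4.2
    refine mem_coe.mpr (mem_filter.mpr ⟨mem_filter.mpr ⟨mem_product.mpr
      ⟨mem_product.mpr ⟨h3.2, mem_product.mpr ⟨h3.1, h2.1⟩⟩,
        mem_product.mpr ⟨h5.2, mem_product.mpr ⟨h5.1, h4.1⟩⟩⟩, ?_⟩, ?_⟩)
    · refine ⟨hz1.2.2.2.1, hz1.2.2.1, hz1.2.1, ?_⟩
      have := hz1.2.2.2.2
      simp only
      linarith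
    · exact ⟨hz0.2.2, hz0.2.1⟩
  · intro z _ w _ hzw
    simp only [Prod.mk.injEq] at hzw
    obtain ⟨⟨h1, h2, h3⟩, h4, h5, h6⟩ := hzw
    exact Prod.ext (Prod.ext h3 (Prod.ext h2 h1)) (Prod.ext h6 (Prod.ext h5 h4))

theorem card_part2 (P Y : ℕ) (hPY : P ≤ Y) :
    ((full P Y).filter (fun z => z.1.1.natAbs ≤ z.1.2.1.natAbs ∧ z.1.2.2.natAbs ≤ z.1.2.1.natAbs)).card ≤
      512 * P ^ 2 * Y ^ 2 := by
  refine le_trans (card_le_card_of_injOn (t := part3 P Y)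
    (fun z => ((z.1.1, z.1.2.2, z.1.2.1), (z.2.1, z.2.2.2, z.2.2.1))) ?_ ?_) (card_part3 P Y hPY)
  · intro z hz
    have hz0 := mem_filter.mp (mem_coe.mp hz)
    have hz1 := mem_filter.mp hz0.1
    have h1 := mem_product.mp hz1.1
    have h2 := mem_product.mp h1.1
    have h3 := mem_product.mp h2.2
    have h4 := mem_product.mp h1.2
    have h5 := mem_product.mp h4.2
    refine mem_coe.mpr (mem_filter.mpr ⟨mem_filter.mpr ⟨mem_product.mpr
      ⟨mem_product.mpr ⟨h2.1, mem_product.mpr ⟨h3.2, h3.1⟩⟩,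
        mem_product.mpr ⟨h4.1, mem_product.mpr ⟨h5.2, h5.1⟩⟩⟩, ?_⟩, ?_⟩)
    · refine ⟨hz1.2.1, hz1.2.2.2.1, hz1.2.2.1, ?_⟩
      have := hz1.2.2.2.2
      simp only
      linarith
    · exact ⟨hz0.2.1, hz0.2.2⟩
  · intro z _ w _ hzw
    simp only [Prod.mk.injEq] at hzw
    obtain ⟨⟨h1, h2, h3⟩, h4, h5, h6⟩ := hzw
    exact Prod.ext (Prod.ext h1 (Prod.ext h3 h2)) (Prod.ext h4 (Prod.ext h6 h5))

end Count3Aux

open Count3Aux in
theorem count3 : ∃ C : ℕ, ∀ P Y : ℕ, 1 ≤ P → P ≤ Y →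
    ((((Icc (-(P : ℤ)) P) ×ˢ (Icc (-(P : ℤ)) P) ×ˢ (Icc (-(P : ℤ)) P)) ×ˢ
      ((Icc (-(Y : ℤ)) Y) ×ˢ (Icc (-(Y : ℤ)) Y) ×ˢ (Icc (-(Y : ℤ)) Y))).filter
      (fun z : (ℤ × ℤ × ℤ) × (ℤ × ℤ × ℤ) => z.1.1 ≠ 0 ∧ z.1.2.1 ≠ 0 ∧ z.1.2.2 ≠ 0 ∧
        z.1.1 * z.2.1 + z.1.2.1 * z.2.2.1 + z.1.2.2 * z.2.2.2 = 0)).card ≤ C * P ^ 2 * Y ^ 2 := by
  classical
  refine ⟨1536, fun P Y _ hPY => ?_⟩
  change (full P Y).card ≤ _
  have hsub : full P Y ⊆ part3 P Y ∪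
      ((full P Y).filter (fun z => z.1.2.1.natAbs ≤ z.1.1.natAbs ∧ z.1.2.2.natAbs ≤ z.1.1.natAbs) ∪
      (full P Y).filter (fun z => z.1.1.natAbs ≤ z.1.2.1.natAbs ∧ z.1.2.2.natAbs ≤ z.1.2.1.natAbs)) := by
    intro z hz
    rw [part3, mem_union, mem_union, mem_filter, mem_filter, mem_filter]
    by_cases h1 : z.1.1.natAbs ≤ z.1.2.2.natAbs
    · by_cases h2 : z.1.2.1.natAbs ≤ z.1.2.2.natAbs
      · exact Or.inl ⟨hz, h1, h2⟩
      · exact Or.inr (Or.inr ⟨hz, by omega, by omega⟩)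
    · by_cases h2 : z.1.2.1.natAbs ≤ z.1.1.natAbs
      · exact Or.inr (Or.inl ⟨hz, h2, by omega⟩)
      · exact Or.inr (Or.inr ⟨hz, by omega, by omega⟩)
  have h1 := card_le_card hsub
  have h2 := card_union_le (part3 P Y)
      ((full P Y).filter (fun z => z.1.2.1.natAbs ≤ z.1.1.natAbs ∧ z.1.2.2.natAbs ≤ z.1.1.natAbs) ∪
      (full P Y).filter (fun z => z.1.1.natAbs ≤ z.1.2.1.natAbs ∧ z.1.2.2.natAbs ≤ z.1.2.1.natAbs))
  have h3 := card_union_le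
      ((full P Y).filter (fun z => z.1.2.1.natAbs ≤ z.1.1.natAbs ∧ z.1.2.2.natAbs ≤ z.1.1.natAbs))
      ((full P Y).filter (fun z => z.1.1.natAbs ≤ z.1.2.1.natAbs ∧ z.1.2.2.natAbs ≤ z.1.2.1.natAbs))
  have h4 := card_part1 P Y hPY
  have h5 := card_part2 P Y hPY
  have h6 := card_part3 P Y hPY
  have h7 : 1536 * P ^ 2 * Y ^ 2 = 512 * P ^ 2 * Y ^ 2 + (512 * P ^ 2 * Y ^ 2 + 512 * P ^ 2 * Y ^ 2) := by ring
  omega

end Pool.SSP
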