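import Mathlib
import Pool.Agent.SSP.Count3
import Pool.Agent.SSP.Energy

/-!
# SSP/Linnik: the additive energy of a polynomial (Linnik's lemma)

`k ≥ 1`, `f ∈ ℤ[X]` of degree `k` with `|coeff_i f| ≤ c P^{k-i}`: with `R = 6^{k-1}`
`energy R [-P,P] f ≤ C P^{2R-k}`, `C = C(k,c)`.

Proof by induction on `k`. `k = 1`: `f` is injective, the energy of order `1` is `2P+1 ≤ 3P`.
Step (`k ≥ 2`): `r = 6^{k-2}`, `R = 6r`, `I = [-P,P]`. Let `N` be huge, `f̂(ρ) = ∑_{y∈I} e(ρ f(y)/N)`; by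
`dft_energy_eq`, `N · energy R I f = ∑_{ρ<N} |f̂|^{2R}`.
For `|h| ≤ 2P` let `I_h = {y ∈ I : y + h ∈ I}`, and for `h ≠ 0` let `φ_h` be the polynomial with
`f(y+h) - f(y) = h φ_h(y)`: `φ_h = ∑_{i<k} (∑_{i<j≤k} C(j,i) a_j h^{j-i-1}) X^i`; it has degree `≤ k-1`,
`coeff_{k-1} = k a_k ≠ 0`, and `|coeff_i φ_h| ≤ ∑_j 2^k c P^{k-j} (2P)^{j-i-1} ≤ c' P^{k-1-i}`, `c' = (k+1) 4^k c`.
`|f̂|² = ∑_h S_h`, `S_h(ρ) = ∑_{y∈I_h} e(ρ(f(y+h)-f(y))/N)`, `S_0 = 2P+1`. So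
`|f̂|^{12r} = (|f̂|²)^{6r} ≤ 2^{6r} ((2P+1)^{6r} + |∑_{h≠0} S_h|^{6r})` and by the power mean inequality
`|∑_{h≠0} S_h|^{6r} ≤ ((4P)^{2r-1} ∑_{h≠0} |S_h|^{2r})³`.
`(1/N) ∑_ρ (∑_{h≠0} |S_h|^{2r})³ = ∑_{h₁,h₂,h₃≠0} #{(y^{(i)}, y'^{(i)}) ∈ (I_{h_i}^r)², i=1,2,3 : ∑ h_i m_i = 0}`,
`m_i = ∑_j φ_{h_i}(y^{(i)}_j) - ∑_j φ_{h_i}(y'^{(i)}_j)` (orthogonality, `N` huge), and this is
`∑_{h} ∑_{m : ∑h_im_i=0} ∏ ρ_{h_i}(m_i)`, `ρ_h(m) = #{(y,y') ∈ (I_h^r)² : ∑φ_h(y_j) - ∑φ_h(y'_j) = m} ≤ ρ_h(0) =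
energy r I_h φ_h` (Cauchy–Schwarz: `ρ_h(m) = ∑_v w(v) w(v-m) ≤ ∑ w(v)²`, `w(v) = #{y ∈ I_h^r : ∑φ_h(y_j) = v}`)
`≤ energy r I φ_h ≤ B := C P^{2r-(k-1)}` by induction (in the form `energy · P^{k-1} ≤ C P^{2r}`). Moreover
`|m_i| ≤ Y := c'' P^{k-1}`, `c'' = 2r k c' + 2`, so `Y ≥ 2P` (`k ≥ 2`), and by `count3` (with `2P` and `Y`) the triple
sum is at most `B³ · C (2P)² Y²`. Altogether
`energy R I f ≤ 2^{6r}((3P)^{6r} + (4P)^{6r-3} B³ C 4P² c''² P^{2k-2}) ≤ C' P^{12r-k}` (`6r = 6^{k-1} ≥ k`).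
-/

set_option autoImplicit false

namespace Pool.SSP

open Finset Pool.MRZ

/-- values of the polynomial with coefficients `a 0, …, a k` -/
def pv (k : ℕ) (a : ℕ → ℤ) (y : ℤ) : ℤ := ∑ i ∈ range (k + 1), a i * y ^ i

/-- the coefficients of the difference quotient -/
def dc (k : ℕ) (a : ℕ → ℤ) (h : ℤ) (i : ℕ) : ℤ :=
  ∑ j ∈ Ioc i (k + 1), (j.choose i : ℤ) * a j * h ^ (j - i - 1)

/-- the counting function of the differences -/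
def rho (r : ℕ) (J : Finset ℤ) (φ : ℤ → ℤ) (m : ℤ) : ℕ :=
  ((Fintype.piFinset (fun _ : Fin r => J) ×ˢ Fintype.piFinset (fun _ : Fin r => J)).filter
    (fun z : (Fin r → ℤ) × (Fin r → ℤ) => ∑ i, φ (z.1 i) - ∑ i, φ (z.2 i) = m)).card

namespace LinnikAux

lemma pv_bound (k c P : ℕ) (a : ℕ → ℤ) (ha : ∀ i ≤ k, |a i| ≤ (c : ℤ) * (P : ℤ) ^ (k - i)) (y : ℤ)
    (hy : y ∈ Icc (-(P : ℤ)) P) : |pv k a y| ≤ ((k + 1 : ℕ) : ℤ) * (c : ℤ) * (P : ℤ) ^ k := by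
  have hy' : |y| ≤ P := abs_le.2 (mem_Icc.1 hy)
  have hP : (0 : ℤ) ≤ P := by positivity
  unfold pv
  calc |∑ i ∈ range (k + 1), a i * y ^ i| ≤ ∑ i ∈ range (k + 1), |a i * y ^ i| :=
        abs_sum_le_sum_abs _ _
    _ ≤ ∑ i ∈ range (k + 1), (c : ℤ) * (P : ℤ) ^ k := by
        refine sum_le_sum fun i hi => ?_
        have hik : i ≤ k := by have := mem_range.1 hi; omega
        rw [abs_mul, abs_pow]
        calc |a i| * |y| ^ i ≤ ((c : ℤ) * (P : ℤ) ^ (k - i)) * (P : ℤ) ^ i :=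
              mul_le_mul (ha i hik) (pow_le_pow_left₀ (abs_nonneg y) hy' i) (by positivity)
                (by positivity)
          _ = c * (P : ℤ) ^ k := by rw [mul_assoc, ← pow_add, Nat.sub_add_cancel hik]
    _ = _ := by
        rw [sum_const, card_range, nsmul_eq_mul]
        ring

lemma pv_diff (k : ℕ) (a : ℕ → ℤ) (h y : ℤ) :
    pv (k + 1) a (y + h) - pv (k + 1) a y = h * pv k (dc k a h) y := by
  have h1 : ∀ j : ℕ, (y + h) ^ j - y ^ j =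
      h * ∑ i ∈ range j, (j.choose i : ℤ) * y ^ i * h ^ (j - i - 1) := by
    intro j
    rw [add_pow, sum_range_succ, mul_sum]
    simp only [tsub_self, pow_zero, mul_one, Nat.choose_self, Nat.cast_one, add_sub_cancel_right]
    refine sum_congr rfl fun i hi => ?_
    have h2 : h ^ (j - i) = h ^ (j - i - 1) * h := by
      rw [← pow_succ]
      congr 1
      have := mem_range.1 hi
      omega
    rw [h2]
    ring
  unfold pv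
  rw [← sum_sub_distrib]
  have h2 : ∀ j ∈ range (k + 1 + 1), a j * (y + h) ^ j - a j * y ^ j =
      h * ∑ i ∈ range j, (j.choose i : ℤ) * a j * h ^ (j - i - 1) * y ^ i := by
    intro j _
    rw [← mul_sub, h1 j, mul_left_comm, mul_sum]
    congr 1
    refine sum_congr rfl fun i _ => ?_
    ring
  rw [sum_congr rfl h2, ← mul_sum]
  congr 1
  unfold dc
  simp_rw [sum_mul]
  refine sum_comm' ?_
  intro i j
  simp only [mem_range, mem_Ioc]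
  omega

lemma dc_bound (k c P : ℕ) (a : ℕ → ℤ)
    (ha : ∀ i ≤ k + 1, |a i| ≤ (c : ℤ) * (P : ℤ) ^ (k + 1 - i)) (h : ℤ) (hh : |h| ≤ 2 * (P : ℤ))
    (i : ℕ) (hi : i ≤ k) :
    |dc k a h i| ≤ (((k + 1) * (2 ^ (k + 1) * (2 ^ k * c)) : ℕ) : ℤ) * (P : ℤ) ^ (k - i) := by
  unfold dc
  calc |∑ j ∈ Ioc i (k + 1), (j.choose i : ℤ) * a j * h ^ (j - i - 1)|
      ≤ ∑ j ∈ Ioc i (k + 1), |(j.choose i : ℤ) * a j * h ^ (j - i - 1)| := abs_sum_le_sum_abs _ _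
    _ ≤ ∑ j ∈ Ioc i (k + 1), (2 ^ (k + 1) * (2 ^ k * (c : ℤ))) * (P : ℤ) ^ (k - i) := by
        refine sum_le_sum fun j hj => ?_
        have hj1 := mem_Ioc.1 hj
        rw [abs_mul, abs_mul, abs_pow, Nat.abs_cast]
        have b1 : ((j.choose i : ℕ) : ℤ) ≤ 2 ^ (k + 1) := by
          have := (Nat.choose_le_two_pow j i).trans (Nat.pow_le_pow_right (by norm_num) hj1.2)
          exact_mod_cast this
        have b2 : |h| ^ (j - i - 1) ≤ (2 * (P : ℤ)) ^ (j - i - 1) :=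
          pow_le_pow_left₀ (abs_nonneg h) hh _
        have b3 : (2 : ℤ) ^ (j - i - 1) ≤ 2 ^ k := pow_le_pow_right₀ (by norm_num) (by omega)
        have e : k - i = (k + 1 - j) + (j - i - 1) := by omega
        calc ((j.choose i : ℕ) : ℤ) * |a j| * |h| ^ (j - i - 1)
            ≤ 2 ^ (k + 1) * ((c : ℤ) * (P : ℤ) ^ (k + 1 - j)) * (2 * (P : ℤ)) ^ (j - i - 1) :=
              mul_le_mul (mul_le_mul b1 (ha j hj1.2) (abs_nonneg _) (by positivity)) b2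
                (by positivity) (by positivity)
          _ = (2 ^ (k + 1) * (2 ^ (j - i - 1) * (c : ℤ))) * (P : ℤ) ^ (k - i) := by
              rw [e, pow_add, mul_pow]
              ring
          _ ≤ _ := by gcongr
    _ = (((k + 1 - i : ℕ) : ℤ)) * ((2 ^ (k + 1) * (2 ^ k * (c : ℤ))) * (P : ℤ) ^ (k - i)) := by
        rw [sum_const, Nat.card_Ioc, nsmul_eq_mul]
    _ ≤ ((k + 1 : ℕ) : ℤ) * ((2 ^ (k + 1) * (2 ^ k * (c : ℤ))) * (P : ℤ) ^ (k - i)) := by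
        gcongr
        omega
    _ = _ := by push_cast; ring

lemma dc_top (k : ℕ) (a : ℕ → ℤ) (h : ℤ) (ha : a (k + 1) ≠ 0) : dc k a h k ≠ 0 := by
  unfold dc
  have e : Ioc k (k + 1) = {k + 1} := by
    ext x
    simp only [mem_Ioc, mem_singleton]
    omega
  rw [e, sum_singleton]
  have : k + 1 - k - 1 = 0 := by omega
  rw [this, pow_zero, mul_one]
  refine mul_ne_zero ?_ ha
  have := Nat.choose_pos (Nat.le_succ k)
  exact_mod_cast this.ne'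

lemma pow_expand (r : ℕ) (J : Finset ℤ) (φ : ℤ → ℤ) (x : ℝ) :
    (∑ y ∈ J, ee (x * (φ y : ℝ))) ^ r =
      ∑ z ∈ Fintype.piFinset (fun _ : Fin r => J), ee (x * ((∑ i, φ (z i) : ℤ) : ℝ)) := by
  have h1 : (∑ y ∈ J, ee (x * (φ y : ℝ))) ^ r = ∏ _i : Fin r, ∑ y ∈ J, ee (x * (φ y : ℝ)) := by
    rw [prod_const, card_univ, Fintype.card_fin]
  rw [h1, prod_univ_sum]
  refine sum_congr rfl fun z _ => ?_
  have h2 : ∀ (s : Finset (Fin r)), ∏ i ∈ s, ee (x * (φ (z i) : ℝ)) =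
      ee (x * ((∑ i ∈ s, φ (z i) : ℤ) : ℝ)) := by
    intro s
    induction s using Finset.induction_on with
    | empty => simp [ee_zero]
    | insert i s hi ih =>
      rw [prod_insert hi, sum_insert hi, ih, ← ee_add]
      congr 1
      push_cast
      ring
  exact h2 _

lemma norm_pow_expand (r : ℕ) (J : Finset ℤ) (φ : ℤ → ℤ) (Y : ℕ)
    (hY : ∀ z ∈ (Fintype.piFinset (fun _ : Fin r => J) ×ˢ Fintype.piFinset (fun _ : Fin r => J)),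
      |∑ i, φ (z.1 i) - ∑ i, φ (z.2 i)| ≤ (Y : ℤ)) (x : ℝ) :
    ((‖∑ y ∈ J, ee (x * (φ y : ℝ))‖ ^ (2 * r) : ℝ) : ℂ) =
      ∑ m ∈ Icc (-(Y : ℤ)) Y, (rho r J φ m : ℂ) * ee (x * (m : ℝ)) := by
  have hsq : ∀ z : ℂ, ((‖z‖ ^ 2 : ℝ) : ℂ) = z * (starRingEnd ℂ) z := by
    intro z
    rw [Complex.mul_conj, Complex.normSq_eq_norm_sq]
  have e1 : ((‖∑ y ∈ J, ee (x * (φ y : ℝ))‖ ^ (2 * r) : ℝ) : ℂ) =
      (∑ y ∈ J, ee (x * (φ y : ℝ))) ^ r * (starRingEnd ℂ) ((∑ y ∈ J, ee (x * (φ y : ℝ))) ^ r) := by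
    rw [← hsq, norm_pow, ← pow_mul, mul_comm r 2]
  rw [e1, pow_expand, map_sum, sum_mul_sum, ← sum_product']
  have e2 : ∀ z : (Fin r → ℤ) × (Fin r → ℤ), ee (x * ((∑ i, φ (z.1 i) : ℤ) : ℝ)) *
      (starRingEnd ℂ) (ee (x * ((∑ i, φ (z.2 i) : ℤ) : ℝ))) =
      ee (x * ((∑ i, φ (z.1 i) - ∑ i, φ (z.2 i) : ℤ) : ℝ)) := by
    intro z
    rw [conj_ee, ← ee_add]
    congr 1
    push_cast
    ring
  simp_rw [e2]
  rw [← sum_fiberwise_of_maps_to (t := Icc (-(Y : ℤ)) Y)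
    (g := fun z : (Fin r → ℤ) × (Fin r → ℤ) => ∑ i, φ (z.1 i) - ∑ i, φ (z.2 i))
    (fun z hz => mem_Icc.2 (abs_le.1 (hY z hz)))]
  refine sum_congr rfl fun m _ => ?_
  rw [rho, ← nsmul_eq_mul, ← sum_const]
  refine sum_congr rfl fun z hz => ?_
  rw [(mem_filter.1 hz).2]

lemma rho_zero (r : ℕ) (J : Finset ℤ) (φ : ℤ → ℤ) : rho r J φ 0 = energy r J φ := by
  unfold rho energy
  congr 1
  refine filter_congr fun z _ => ?_
  exact sub_eq_zero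

lemma rho_le (r : ℕ) (J : Finset ℤ) (φ : ℤ → ℤ) (Y : ℕ)
    (hY : ∀ z ∈ (Fintype.piFinset (fun _ : Fin r => J) ×ˢ Fintype.piFinset (fun _ : Fin r => J)),
      |∑ i, φ (z.1 i) - ∑ i, φ (z.2 i)| ≤ (Y : ℤ)) (m : ℤ) (hm : m ∈ Icc (-(Y : ℤ)) Y) :
    rho r J φ m ≤ energy r J φ := by
  set N : ℕ := 2 * Y + 1 with hN
  have hN1 : 1 ≤ N := by omega
  have hN0 : (0 : ℝ) < N := by exact_mod_cast hN1
  have key : ∀ m ∈ Icc (-(Y : ℤ)) Y, ∑ ρ ∈ range N,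
      ((‖∑ y ∈ J, ee ((ρ : ℝ) / N * (φ y : ℝ))‖ ^ (2 * r) : ℝ) : ℂ) * ee (-((ρ : ℝ) / N * (m : ℝ))) =
      (N : ℂ) * (rho r J φ m : ℂ) := by
    intro m hm
    have h1 : ∀ ρ ∈ range N,
        ((‖∑ y ∈ J, ee ((ρ : ℝ) / N * (φ y : ℝ))‖ ^ (2 * r) : ℝ) : ℂ) *
          ee (-((ρ : ℝ) / N * (m : ℝ))) =
        ∑ m' ∈ Icc (-(Y : ℤ)) Y, (rho r J φ m' : ℂ) * ee ((ρ : ℝ) / N * ((m' - m : ℤ) : ℝ)) := by
      intro ρ _
      rw [norm_pow_expand r J φ Y hY, sum_mul]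
      refine sum_congr rfl fun m' _ => ?_
      rw [mul_assoc, ← ee_add]
      congr 2
      push_cast
      ring
    rw [sum_congr rfl h1, sum_comm]
    simp_rw [← mul_sum, dft_orth N hN1]
    rw [sum_eq_single m]
    · rw [sub_self, if_pos (dvd_zero _)]
      ring
    · intro m' hm' hne
      rw [if_neg, mul_zero]
      intro hd
      have h3 := Int.eq_zero_of_abs_lt_dvd hd (by
        have a1 := mem_Icc.1 hm
        have a2 := mem_Icc.1 hm'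
        rw [abs_lt]
        constructor <;> omega)
      omega
    · intro h
      exact absurd hm h
  have k0 := key 0 (by rw [mem_Icc]; constructor <;> omega)
  have km := key m hm
  have h5 : ‖(N : ℂ) * (rho r J φ m : ℂ)‖ ≤ (N : ℝ) * (rho r J φ 0 : ℝ) := by
    have h6 : (N : ℝ) * (rho r J φ 0 : ℝ) =
        ∑ ρ ∈ range N, ‖∑ y ∈ J, ee ((ρ : ℝ) / N * (φ y : ℝ))‖ ^ (2 * r) := by
      have : ((∑ ρ ∈ range N, ‖∑ y ∈ J, ee ((ρ : ℝ) / N * (φ y : ℝ))‖ ^ (2 * r) : ℝ) : ℂ) =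
          (((N : ℝ) * (rho r J φ 0 : ℝ) : ℝ) : ℂ) := by
        push_cast
        rw [← k0]
        refine sum_congr rfl fun ρ _ => ?_
        simp [ee_zero]
      exact_mod_cast this.symm
    rw [← km, h6]
    refine (norm_sum_le _ _).trans (sum_le_sum fun ρ _ => ?_)
    rw [norm_mul, norm_ee, mul_one, Complex.norm_real, Real.norm_eq_abs, abs_of_nonneg (by positivity)]
  rw [norm_mul, Complex.norm_natCast, Complex.norm_natCast] at h5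
  have h7 := le_of_mul_le_mul_left h5 hN0
  rw [rho_zero] at h7
  exact_mod_cast h7

lemma cube_bound (U : Finset (ℤ × ℤ)) (G : ℤ × ℤ → ℝ) (B : ℝ) (N : ℕ) (hN : 1 ≤ N)
    (hG : ∀ p ∈ U, 0 ≤ G p ∧ G p ≤ B) (D : ℕ) (hU : ∀ p ∈ U, |p.1 * p.2| ≤ (D : ℤ))
    (hD : 3 * D < N) (S : ℕ → ℝ)
    (hS : ∀ ρ ∈ range N, ((S ρ : ℝ) : ℂ) =
      ∑ p ∈ U, (G p : ℂ) * ee ((ρ : ℝ) / N * ((p.1 * p.2 : ℤ) : ℝ))) :
    ∑ ρ ∈ range N, S ρ ^ 3 ≤ N * (B ^ 3 * (((U ×ˢ U ×ˢ U).filter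
      (fun q : (ℤ × ℤ) × (ℤ × ℤ) × (ℤ × ℤ) =>
        q.1.1 * q.1.2 + q.2.1.1 * q.2.1.2 + q.2.2.1 * q.2.2.2 = 0)).card : ℝ)) := by
  have h1 : ∀ ρ ∈ range N, ((S ρ ^ 3 : ℝ) : ℂ) = ∑ q ∈ U ×ˢ U ×ˢ U,
      ((G q.1 * G q.2.1 * G q.2.2 : ℝ) : ℂ) * ee ((ρ : ℝ) / N *
        ((q.1.1 * q.1.2 + q.2.1.1 * q.2.1.2 + q.2.2.1 * q.2.2.2 : ℤ) : ℝ)) := by
    intro ρ hρ
    have e3 : ((S ρ ^ 3 : ℝ) : ℂ) = ((S ρ : ℝ) : ℂ) * (((S ρ : ℝ) : ℂ) * ((S ρ : ℝ) : ℂ)) := by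
      push_cast
      ring
    rw [e3, hS ρ hρ, sum_mul_sum, ← sum_product', sum_mul_sum, ← sum_product']
    refine sum_congr rfl fun q _ => ?_
    have e4 : ee ((ρ : ℝ) / N *
        ((q.1.1 * q.1.2 + q.2.1.1 * q.2.1.2 + q.2.2.1 * q.2.2.2 : ℤ) : ℝ)) =
        ee ((ρ : ℝ) / N * ((q.1.1 * q.1.2 : ℤ) : ℝ)) * (ee ((ρ : ℝ) / N * ((q.2.1.1 * q.2.1.2 : ℤ) : ℝ)) *
          ee ((ρ : ℝ) / N * ((q.2.2.1 * q.2.2.2 : ℤ) : ℝ))) := by
      rw [← ee_add, ← ee_add]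
      congr 1
      push_cast
      ring
    rw [e4]
    push_cast
    ring
  have h2 : ((∑ ρ ∈ range N, S ρ ^ 3 : ℝ) : ℂ) = ((N * ∑ q ∈ (U ×ˢ U ×ˢ U).filter
      (fun q : (ℤ × ℤ) × (ℤ × ℤ) × (ℤ × ℤ) =>
        q.1.1 * q.1.2 + q.2.1.1 * q.2.1.2 + q.2.2.1 * q.2.2.2 = 0),
        (G q.1 * G q.2.1 * G q.2.2) : ℝ) : ℂ) := by
    rw [Complex.ofReal_sum, sum_congr rfl h1, sum_comm]
    simp_rw [← mul_sum, dft_orth N hN]
    rw [sum_filter, Complex.ofReal_mul, Complex.ofReal_sum, mul_sum]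
    refine sum_congr rfl fun q hq => ?_
    by_cases h0 : q.1.1 * q.1.2 + q.2.1.1 * q.2.1.2 + q.2.2.1 * q.2.2.2 = 0
    · rw [if_pos h0, h0, if_pos (dvd_zero _)]
      push_cast
      ring
    · rw [if_neg h0, if_neg]
      · push_cast
        ring
      · intro hd
        apply h0
        refine Int.eq_zero_of_abs_lt_dvd hd ?_
        have hq' := mem_product.1 hq
        have hq2 := mem_product.1 hq'.2
        have a1 := abs_le.1 (hU _ hq'.1)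
        have a2 := abs_le.1 (hU _ hq2.1)
        have a3 := abs_le.1 (hU _ hq2.2)
        rw [abs_lt]
        constructor <;> omega
  have h3 : ∑ ρ ∈ range N, S ρ ^ 3 = N * ∑ q ∈ (U ×ˢ U ×ˢ U).filter
      (fun q : (ℤ × ℤ) × (ℤ × ℤ) × (ℤ × ℤ) =>
        q.1.1 * q.1.2 + q.2.1.1 * q.2.1.2 + q.2.2.1 * q.2.2.2 = 0),
        (G q.1 * G q.2.1 * G q.2.2) := by
    exact_mod_cast h2
  rw [h3]
  refine mul_le_mul_of_nonneg_left ?_ (by positivity)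
  calc _ ≤ ∑ q ∈ (U ×ˢ U ×ˢ U).filter (fun q : (ℤ × ℤ) × (ℤ × ℤ) × (ℤ × ℤ) =>
        q.1.1 * q.1.2 + q.2.1.1 * q.2.1.2 + q.2.2.1 * q.2.2.2 = 0), B ^ 3 := by
        refine sum_le_sum fun q hq => ?_
        have hq' := mem_product.1 (mem_filter.1 hq).1
        have hq2 := mem_product.1 hq'.2
        obtain ⟨a1, b1⟩ := hG _ hq'.1
        obtain ⟨a2, b2⟩ := hG _ hq2.1
        obtain ⟨a3, b3⟩ := hG _ hq2.2
        have hB : 0 ≤ B := a1.trans b1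
        calc G q.1 * G q.2.1 * G q.2.2 ≤ B * B * B :=
              mul_le_mul (mul_le_mul b1 b2 a2 hB) b3 a3 (by positivity)
          _ = B ^ 3 := by ring
    _ = _ := by rw [sum_const, nsmul_eq_mul]; ring

/-- the square of the exponential sum as sum over differences -/
lemma sq_diff (P : ℕ) (f : ℤ → ℤ) (x : ℝ) :
    ((‖∑ y ∈ Icc (-(P : ℤ)) P, ee (x * (f y : ℝ))‖ ^ 2 : ℝ) : ℂ) =
      ∑ h ∈ Icc (-((2 * P : ℕ) : ℤ)) ((2 * P : ℕ) : ℤ),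
        ∑ y ∈ (Icc (-(P : ℤ)) P).filter (fun y => y + h ∈ Icc (-(P : ℤ)) P),
        ee (x * ((f (y + h) - f y : ℤ) : ℝ)) := by
  have hsq : ∀ z : ℂ, ((‖z‖ ^ 2 : ℝ) : ℂ) = z * (starRingEnd ℂ) z := by
    intro z
    rw [Complex.mul_conj, Complex.normSq_eq_norm_sq]
  rw [hsq, map_sum, sum_mul_sum, sum_comm]
  simp_rw [sum_filter]
  rw [sum_comm (s := Icc (-((2 * P : ℕ) : ℤ)) ((2 * P : ℕ) : ℤ))]
  refine sum_congr rfl fun y hy => ?_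
  rw [← sum_filter]
  have hy1 := mem_Icc.1 hy
  symm
  refine sum_nbij' (fun h => y + h) (fun y' => y' - y) ?_ ?_ ?_ ?_ ?_
  · intro h hh
    exact (mem_filter.1 hh).2
  · intro y' hy'
    have h1 := mem_Icc.1 hy'
    rw [mem_filter, mem_Icc]
    refine ⟨⟨by push_cast; omega, by push_cast; omega⟩, ?_⟩
    rw [add_sub_cancel]
    exact hy'
  · intro h _
    ring
  · intro y' _
    ring
  · intro h _
    rw [conj_ee, ← ee_add]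
    congr 1
    push_cast
    ring

lemma card_I (P : ℕ) : (Icc (-(P : ℤ)) P).card = 2 * P + 1 := by
  rw [Int.card_Icc]
  omega

lemma norm_bound (P : ℕ) (f : ℤ → ℤ) (x : ℝ) :
    ‖∑ y ∈ Icc (-(P : ℤ)) P, ee (x * (f y : ℝ))‖ ^ 2 ≤ (2 * (P : ℝ) + 1) +
      ∑ h ∈ (Icc (-((2 * P : ℕ) : ℤ)) ((2 * P : ℕ) : ℤ)).erase 0,
        ‖∑ y ∈ (Icc (-(P : ℤ)) P).filter (fun y => y + h ∈ Icc (-(P : ℤ)) P),
          ee (x * ((f (y + h) - f y : ℤ) : ℝ))‖ := by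
  have h0 : (0 : ℤ) ∈ Icc (-((2 * P : ℕ) : ℤ)) ((2 * P : ℕ) : ℤ) := by
    rw [mem_Icc]; constructor <;> omega
  have h1 : ‖∑ y ∈ Icc (-(P : ℤ)) P, ee (x * (f y : ℝ))‖ ^ 2 =
      ‖((‖∑ y ∈ Icc (-(P : ℤ)) P, ee (x * (f y : ℝ))‖ ^ 2 : ℝ) : ℂ)‖ := by
    rw [Complex.norm_real, Real.norm_eq_abs, abs_of_nonneg (by positivity)]
  rw [h1, sq_diff, ← add_sum_erase _ _ h0]
  refine (norm_add_le _ _).trans (add_le_add ?_ (norm_sum_le _ _))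
  refine (norm_sum_le _ _).trans ?_
  have h2 : ∀ y ∈ (Icc (-(P : ℤ)) P).filter (fun y => y + 0 ∈ Icc (-(P : ℤ)) P),
      ‖ee (x * ((f (y + 0) - f y : ℤ) : ℝ))‖ ≤ 1 := fun y _ => (norm_ee _).le
  refine (sum_le_sum h2).trans ?_
  rw [sum_const, nsmul_eq_mul, mul_one]
  have h3 := card_filter_le (Icc (-(P : ℤ)) P) (fun y => y + 0 ∈ Icc (-(P : ℤ)) P)
  rw [card_I] at h3
  exact_mod_cast h3

lemma pow_ineq (r : ℕ) (hr : 1 ≤ r) (A : ℝ) (hA : 0 ≤ A) (Hs : Finset ℤ) (s : ℤ → ℝ)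
    (hs : ∀ h, 0 ≤ s h) (M : ℕ) (hM : Hs.card ≤ M) (F : ℝ) (h : F ^ 2 ≤ A + ∑ h ∈ Hs, s h) :
    F ^ (2 * (6 * r)) ≤ 2 ^ (6 * r) * (A ^ (6 * r) +
      (M : ℝ) ^ (6 * r - 3) * (∑ h ∈ Hs, s h ^ (2 * r)) ^ 3) := by
  set T := ∑ h ∈ Hs, s h with hT
  have hT0 : 0 ≤ T := sum_nonneg fun h _ => hs h
  have h1 : T ^ (2 * r) ≤ (M : ℝ) ^ (2 * r - 1) * ∑ h ∈ Hs, s h ^ (2 * r) := by
    have h2 := pow_sum_div_card_le_sum_pow (s := Hs) (f := s) (fun i _ => hs i) (2 * r - 1)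
    have e : 2 * r - 1 + 1 = 2 * r := by omega
    rw [e] at h2
    have hS0 : 0 ≤ ∑ h ∈ Hs, s h ^ (2 * r) := sum_nonneg fun h _ => pow_nonneg (hs h) _
    rcases Nat.eq_zero_or_pos Hs.card with h3 | h3
    · have : Hs = ∅ := card_eq_zero.1 h3
      rw [hT, this, sum_empty, sum_empty, mul_zero, zero_pow (by omega)]
    · have h4 : (0 : ℝ) < (Hs.card : ℝ) ^ (2 * r - 1) := by positivity
      rw [div_le_iff₀' h4] at h2
      refine h2.trans (mul_le_mul_of_nonneg_right ?_ hS0)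
      exact pow_le_pow_left₀ (by positivity) (by exact_mod_cast hM) _
  have h5 : T ^ (6 * r) ≤ (M : ℝ) ^ (6 * r - 3) * (∑ h ∈ Hs, s h ^ (2 * r)) ^ 3 := by
    have e1 : T ^ (6 * r) = (T ^ (2 * r)) ^ 3 := by rw [← pow_mul]; congr 1; ring
    have e2 : (M : ℝ) ^ (6 * r - 3) = ((M : ℝ) ^ (2 * r - 1)) ^ 3 := by
      rw [← pow_mul]; congr 1; omega
    rw [e1, e2, ← mul_pow]
    exact pow_le_pow_left₀ (by positivity) h1 3
  have h6 : (A + T) ^ (6 * r) ≤ 2 ^ (6 * r) * (A ^ (6 * r) + T ^ (6 * r)) := by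
    have h7 : (A + T) ≤ 2 * max A T := by
      have := le_max_left A T
      have := le_max_right A T
      linarith
    calc (A + T) ^ (6 * r) ≤ (2 * max A T) ^ (6 * r) := pow_le_pow_left₀ (by positivity) h7 _
      _ = 2 ^ (6 * r) * (max A T) ^ (6 * r) := mul_pow _ _ _
      _ ≤ 2 ^ (6 * r) * (A ^ (6 * r) + T ^ (6 * r)) := by
          refine mul_le_mul_of_nonneg_left ?_ (by positivity)
          rcases max_choice A T with h8 | h8 <;> rw [h8]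
          · linarith [pow_nonneg hT0 (6 * r)]
          · linarith [pow_nonneg hA (6 * r)]
  calc F ^ (2 * (6 * r)) = (F ^ 2) ^ (6 * r) := by rw [← pow_mul]
    _ ≤ (A + T) ^ (6 * r) := pow_le_pow_left₀ (by positivity) h _
    _ ≤ 2 ^ (6 * r) * (A ^ (6 * r) + T ^ (6 * r)) := h6
    _ ≤ _ := by
        refine mul_le_mul_of_nonneg_left ?_ (by positivity)
        linarith

/-- the claim at level `n`: degree `n + 1`, order `6 ^ n` -/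
def Claim (n : ℕ) : Prop :=
  ∀ c : ℕ, ∃ C : ℕ, ∀ (P : ℕ) (a : ℕ → ℤ), 1 ≤ P → a (n + 1) ≠ 0 →
    (∀ i ≤ n + 1, |a i| ≤ (c : ℤ) * (P : ℤ) ^ (n + 1 - i)) →
    energy (6 ^ n) (Icc (-(P : ℤ)) P) (pv (n + 1) a) * P ^ (n + 1) ≤ C * P ^ (2 * 6 ^ n)

lemma claim_zero : Claim 0 := by
  intro c
  refine ⟨3, fun P a hP ha _ => ?_⟩
  have h1 : energy (6 ^ 0) (Icc (-(P : ℤ)) P) (pv (0 + 1) a) ≤ 2 * P + 1 := by
    rw [pow_zero]
    unfold energy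
    rw [← card_I P]
    refine card_le_card_of_injOn (fun z => z.1 0) (fun z hz => ?_) ?_
    · have h2 := (mem_product.1 (mem_filter.1 hz).1).1
      exact Fintype.mem_piFinset.1 h2 0
    · intro z hz z' hz' h
      have e1 := (mem_filter.1 hz).2
      have e2 := (mem_filter.1 hz').2
      have inj : ∀ y y' : ℤ, pv (0 + 1) a y = pv (0 + 1) a y' → y = y' := by
        intro y y' h
        unfold pv at h
        simp only [zero_add, sum_range_succ, range_zero, sum_empty, pow_zero, mul_one, pow_one] at h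
        have h4 : a 1 * (y - y') = 0 := by linarith
        rcases mul_eq_zero.1 h4 with h5 | h5
        · exact absurd h5 ha
        · linarith
      simp only [Fin.sum_univ_one] at e1 e2
      have f1 := inj _ _ e1
      have f2 := inj _ _ e2
      have h' : z.1 0 = z'.1 0 := h
      refine Prod.ext ?_ ?_
      · funext i
        have : i = 0 := Subsingleton.elim i 0
        rw [this, h']
      · funext i
        have : i = 0 := Subsingleton.elim i 0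
        rw [this, ← f1, ← f2, h']
  calc energy (6 ^ 0) (Icc (-(P : ℤ)) P) (pv (0 + 1) a) * P ^ (0 + 1) ≤ (2 * P + 1) * P ^ (0 + 1) :=
        Nat.mul_le_mul_right _ h1
    _ ≤ (3 * P) * P ^ (0 + 1) := Nat.mul_le_mul_right _ (by omega)
    _ = 3 * P ^ (2 * 6 ^ 0) := by ring

lemma claim_succ (n : ℕ) (ih : Claim n) : Claim (n + 1) := by
  intro c
  set c' : ℕ := (n + 1 + 1) * (2 ^ (n + 1 + 1) * (2 ^ (n + 1) * c)) with hc'
  obtain ⟨C0, hC0⟩ := ih c'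
  obtain ⟨C3, hC3⟩ := count3
  set r : ℕ := 6 ^ n with hr
  have hr1 : 1 ≤ r := Nat.one_le_pow _ _ (by norm_num)
  set cY : ℕ := 2 * r * ((n + 1 + 1) * c') + 2 with hcY
  refine ⟨2 ^ (6 * r) * (3 ^ (6 * r) + 4 ^ (6 * r - 3) * (C0 ^ 3 * (C3 * 4 * cY ^ 2))),
    fun P a hP ha hab => ?_⟩
  have hPR : (1 : ℝ) ≤ P := by exact_mod_cast hP
  have hP0 : (0 : ℝ) < P := by linarith
  set Y : ℕ := cY * P ^ (n + 1) with hY
  set I : Finset ℤ := Icc (-(P : ℤ)) P with hI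
  set f : ℤ → ℤ := pv (n + 1 + 1) a with hf
  set φ : ℤ → ℤ → ℤ := fun h => pv (n + 1) (dc (n + 1) a h) with hφ
  set Hs : Finset ℤ := (Icc (-((2 * P : ℕ) : ℤ)) ((2 * P : ℕ) : ℤ)).erase 0 with hHs
  set Ih : ℤ → Finset ℤ := fun h => I.filter (fun y => y + h ∈ I) with hIh
  have hHm : ∀ h ∈ Hs, h ≠ 0 ∧ |h| ≤ 2 * (P : ℤ) := by
    intro h hh
    have h1 := mem_erase.1 hh
    have h2 := mem_Icc.1 h1.2
    push_cast at h2
    exact ⟨h1.1, abs_le.2 h2⟩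
  have hdc : ∀ h ∈ Hs, ∀ i ≤ n + 1, |dc (n + 1) a h i| ≤ (c' : ℤ) * (P : ℤ) ^ (n + 1 - i) :=
    fun h hh i hi => dc_bound (n + 1) c P a hab h (hHm h hh).2 i hi
  have hφb : ∀ h ∈ Hs, ∀ y ∈ I, |φ h y| ≤ ((n + 1 + 1 : ℕ) : ℤ) * (c' : ℤ) * (P : ℤ) ^ (n + 1) :=
    fun h hh y hy => pv_bound (n + 1) c' P _ (hdc h hh) y hy
  have hE : ∀ h ∈ Hs, energy r I (φ h) * P ^ (n + 1) ≤ C0 * P ^ (2 * r) :=
    fun h hh => hC0 P _ hP (dc_top (n + 1) a h ha) (hdc h hh)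
  -- the real bound
  set B : ℝ := (C0 : ℝ) * (P : ℝ) ^ (2 * r) / (P : ℝ) ^ (n + 1) with hB
  have hB0 : 0 ≤ B := by positivity
  have hBP : B * (P : ℝ) ^ (n + 1) = (C0 : ℝ) * (P : ℝ) ^ (2 * r) := by
    rw [hB]; field_simp
  have hEB : ∀ h ∈ Hs, (energy r I (φ h) : ℝ) ≤ B := by
    intro h hh
    rw [hB, le_div_iff₀ (by positivity)]
    exact_mod_cast hE h hh
  -- values
  have hYb : ∀ h ∈ Hs, ∀ z ∈ (Fintype.piFinset (fun _ : Fin r => Ih h) ×ˢ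
      Fintype.piFinset (fun _ : Fin r => Ih h)),
      |∑ i, φ h (z.1 i) - ∑ i, φ h (z.2 i)| ≤ (Y : ℤ) := by
    intro h hh z hz
    have hz1 := Fintype.mem_piFinset.1 (mem_product.1 hz).1
    have hz2 := Fintype.mem_piFinset.1 (mem_product.1 hz).2
    have g : ∀ w : Fin r → ℤ, (∀ i, w i ∈ Ih h) → |∑ i, φ h (w i)| ≤
        (r : ℤ) * (((n + 1 + 1 : ℕ) : ℤ) * (c' : ℤ) * (P : ℤ) ^ (n + 1)) := by
      intro w hw
      calc |∑ i, φ h (w i)| ≤ ∑ i, |φ h (w i)| := abs_sum_le_sum_abs _ _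
        _ ≤ ∑ _i : Fin r, (((n + 1 + 1 : ℕ) : ℤ) * (c' : ℤ) * (P : ℤ) ^ (n + 1)) :=
            sum_le_sum fun i _ => hφb h hh _ (mem_filter.1 (hw i)).1
        _ = _ := by rw [sum_const, card_univ, Fintype.card_fin, nsmul_eq_mul]
    have g1 := g _ hz1
    have g2 := g _ hz2
    have g3 : (Y : ℤ) = 2 * ((r : ℤ) * (((n + 1 + 1 : ℕ) : ℤ) * (c' : ℤ) * (P : ℤ) ^ (n + 1))) +
        2 * (P : ℤ) ^ (n + 1) := by
      rw [hY, hcY]
      push_cast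
      ring
    have g4 : (0 : ℤ) ≤ (P : ℤ) ^ (n + 1) := by positivity
    have g5 := abs_sub (∑ i, φ h (z.1 i)) (∑ i, φ h (z.2 i))
    rw [g3]
    linarith
  have h2PY : 2 * P ≤ Y := by
    have h1 : P ≤ P ^ (n + 1) := Nat.le_self_pow (by omega) P
    calc 2 * P ≤ cY * P := Nat.mul_le_mul_right _ (by omega)
      _ ≤ cY * P ^ (n + 1) := Nat.mul_le_mul_left _ h1
  -- the modulus
  set Bf : ℕ := (n + 1 + 1 + 1) * c * P ^ (n + 1 + 1) with hBf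
  set D : ℕ := 2 * P * Y with hD
  set N : ℕ := 2 * (6 * r) * Bf + 3 * D + 1 with hN
  have hN1 : 1 ≤ N := by omega
  have hN0 : (0 : ℝ) < N := by exact_mod_cast hN1
  have hfB : ∀ y ∈ I, |f y| ≤ (Bf : ℤ) := by
    intro y hy
    have := pv_bound (n + 1 + 1) c P a hab y hy
    rw [hBf]
    push_cast at this ⊢
    exact this
  have hen := dft_energy_eq (6 * r) I f Bf N hfB (by omega)
  -- sums over differences
  set sh : ℕ → ℤ → ℝ := fun ρ h =>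
    ‖∑ y ∈ Ih h, ee ((ρ : ℝ) / N * ((f (y + h) - f y : ℤ) : ℝ))‖ with hsh
  set S : ℕ → ℝ := fun ρ => ∑ h ∈ Hs, sh ρ h ^ (2 * r) with hS
  have hM : Hs.card ≤ 4 * P := by
    have h0 : (0 : ℤ) ∈ Icc (-((2 * P : ℕ) : ℤ)) ((2 * P : ℕ) : ℤ) := by
      rw [mem_Icc]; constructor <;> omega
    rw [hHs, card_erase_of_mem h0, card_I]
    omega
  have hpt : ∀ ρ ∈ range N, ‖∑ y ∈ I, ee ((ρ : ℝ) / N * (f y : ℝ))‖ ^ (2 * (6 * r)) ≤
      2 ^ (6 * r) * ((2 * (P : ℝ) + 1) ^ (6 * r) + ((4 * P : ℕ) : ℝ) ^ (6 * r - 3) * S ρ ^ 3) := by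
    intro ρ _
    exact pow_ineq r hr1 (2 * (P : ℝ) + 1) (by positivity) Hs (sh ρ) (fun h => norm_nonneg _) (4 * P)
      hM _ (norm_bound P f ((ρ : ℝ) / N))
  set U : Finset (ℤ × ℤ) := Hs ×ˢ Icc (-(Y : ℤ)) Y with hU
  set G : ℤ × ℤ → ℝ := fun p => (rho r (Ih p.1) (φ p.1) p.2 : ℝ) with hG
  have hGb : ∀ p ∈ U, 0 ≤ G p ∧ G p ≤ B := by
    intro p hp
    have hp1 := (mem_product.1 hp).1
    have hp2 := (mem_product.1 hp).2
    refine ⟨by positivity, ?_⟩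
    have g1 := rho_le r (Ih p.1) (φ p.1) Y (hYb p.1 hp1) p.2 hp2
    have g2 := energy_subset r (filter_subset (fun y => y + p.1 ∈ I) I) (φ p.1)
    have g3 : (rho r (Ih p.1) (φ p.1) p.2 : ℝ) ≤ (energy r I (φ p.1) : ℝ) := by
      exact_mod_cast g1.trans g2
    exact g3.trans (hEB p.1 hp1)
  have hUD : ∀ p ∈ U, |p.1 * p.2| ≤ (D : ℤ) := by
    intro p hp
    have hp1 := (hHm _ (mem_product.1 hp).1).2
    have hp2 := abs_le.2 (mem_Icc.1 (mem_product.1 hp).2)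
    rw [abs_mul, hD]
    push_cast
    exact mul_le_mul hp1 hp2 (abs_nonneg _) (by positivity)
  have hSe : ∀ ρ ∈ range N, ((S ρ : ℝ) : ℂ) =
      ∑ p ∈ U, (G p : ℂ) * ee ((ρ : ℝ) / N * ((p.1 * p.2 : ℤ) : ℝ)) := by
    intro ρ _
    rw [hU, sum_product, hS]
    rw [Complex.ofReal_sum]
    refine sum_congr rfl fun h hh => ?_
    have e1 : ∑ y ∈ Ih h, ee ((ρ : ℝ) / N * ((f (y + h) - f y : ℤ) : ℝ)) =
        ∑ y ∈ Ih h, ee (((ρ : ℝ) / N * (h : ℝ)) * (φ h y : ℝ)) := by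
      refine sum_congr rfl fun y _ => ?_
      have : f (y + h) - f y = h * φ h y := pv_diff (n + 1) a h y
      rw [this]
      congr 1
      push_cast
      ring
    have e2 := norm_pow_expand r (Ih h) (φ h) Y (hYb h hh) ((ρ : ℝ) / N * (h : ℝ))
    rw [← e1] at e2
    rw [e2]
    refine sum_congr rfl fun m _ => ?_
    have e3 : (ρ : ℝ) / N * (h : ℝ) * (m : ℝ) = (ρ : ℝ) / N * ((h * m : ℤ) : ℝ) := by
      push_cast
      ring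
    rw [e3]
    simp [hG]
  have hcube := cube_bound U G B N hN1 hGb D hUD (by omega) S hSe
  have hcard : ((U ×ˢ U ×ˢ U).filter (fun q : (ℤ × ℤ) × (ℤ × ℤ) × (ℤ × ℤ) =>
      q.1.1 * q.1.2 + q.2.1.1 * q.2.1.2 + q.2.2.1 * q.2.2.2 = 0)).card ≤
      C3 * (2 * P) ^ 2 * Y ^ 2 := by
    refine le_trans ?_ (hC3 (2 * P) Y (by omega) h2PY)
    refine card_le_card_of_injOn
      (fun q => ((q.1.1, q.2.1.1, q.2.2.1), (q.1.2, q.2.1.2, q.2.2.2))) (fun q hq => ?_) ?_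
    · have hq0 := mem_filter.1 hq
      have hq1 := mem_product.1 hq0.1
      have hq2 := mem_product.1 hq1.2
      have u1 := mem_product.1 hq1.1
      have u2 := mem_product.1 hq2.1
      have u3 := mem_product.1 hq2.2
      have v1 := mem_erase.1 u1.1
      have v2 := mem_erase.1 u2.1
      have v3 := mem_erase.1 u3.1
      refine mem_coe.2 (mem_filter.2 ⟨?_, v1.1, v2.1, v3.1, hq0.2⟩)
      exact mem_product.2 ⟨mem_product.2 ⟨v1.2, mem_product.2 ⟨v2.2, v3.2⟩⟩,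
        mem_product.2 ⟨u1.2, mem_product.2 ⟨u2.2, u3.2⟩⟩⟩
    · intro q _ q' _ h
      simp only [Prod.mk.injEq] at h
      obtain ⟨⟨h1, h2, h3⟩, h4, h5, h6⟩ := h
      exact Prod.ext (Prod.ext h1 h4) (Prod.ext (Prod.ext h2 h5) (Prod.ext h3 h6))
  have hcardR : (((U ×ˢ U ×ˢ U).filter (fun q : (ℤ × ℤ) × (ℤ × ℤ) × (ℤ × ℤ) =>
      q.1.1 * q.1.2 + q.2.1.1 * q.2.1.2 + q.2.2.1 * q.2.2.2 = 0)).card : ℝ) ≤
      C3 * (2 * P) ^ 2 * Y ^ 2 := by exact_mod_cast hcard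
  have hcube' : ∑ ρ ∈ range N, S ρ ^ 3 ≤ N * (B ^ 3 * (C3 * (2 * P) ^ 2 * Y ^ 2)) :=
    hcube.trans (mul_le_mul_of_nonneg_left (mul_le_mul_of_nonneg_left hcardR (by positivity))
      hN0.le)
  -- put together
  have hsum : (N : ℝ) * energy (6 * r) I f ≤ N * (2 ^ (6 * r) * ((2 * (P : ℝ) + 1) ^ (6 * r) +
      ((4 * P : ℕ) : ℝ) ^ (6 * r - 3) * (B ^ 3 * (C3 * (2 * P) ^ 2 * Y ^ 2)))) := by
    rw [← hen]
    refine (sum_le_sum hpt).trans ?_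
    rw [← mul_sum, sum_add_distrib, ← mul_sum, sum_const, card_range, nsmul_eq_mul]
    have q1 : (0 : ℝ) ≤ ((4 * P : ℕ) : ℝ) ^ (6 * r - 3) := by positivity
    have q2 := mul_le_mul_of_nonneg_left hcube' q1
    calc 2 ^ (6 * r) * ((N : ℝ) * (2 * (P : ℝ) + 1) ^ (6 * r) +
          ((4 * P : ℕ) : ℝ) ^ (6 * r - 3) * ∑ ρ ∈ range N, S ρ ^ 3)
        ≤ 2 ^ (6 * r) * ((N : ℝ) * (2 * (P : ℝ) + 1) ^ (6 * r) +
          ((4 * P : ℕ) : ℝ) ^ (6 * r - 3) * (N * (B ^ 3 * (C3 * (2 * P) ^ 2 * Y ^ 2)))) :=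
          mul_le_mul_of_nonneg_left (by linarith) (by positivity)
      _ = _ := by ring
  have hfin := le_of_mul_le_mul_left hsum hN0
  have h6r : n + 1 + 1 ≤ 6 * r := by
    have : n < 6 ^ n := Nat.lt_pow_self (by norm_num)
    omega
  have t1 : (2 * (P : ℝ) + 1) ^ (6 * r) * (P : ℝ) ^ (n + 1 + 1) ≤ 3 ^ (6 * r) * (P : ℝ) ^ (12 * r) := by
    have e : 12 * r = 6 * r + 6 * r := by ring
    calc (2 * (P : ℝ) + 1) ^ (6 * r) * (P : ℝ) ^ (n + 1 + 1)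
        ≤ (3 * (P : ℝ)) ^ (6 * r) * (P : ℝ) ^ (6 * r) :=
          mul_le_mul (pow_le_pow_left₀ (by positivity) (by linarith) _)
            (pow_le_pow_right₀ hPR h6r) (by positivity) (by positivity)
      _ = _ := by rw [e, pow_add, mul_pow]; ring
  have t2 : ((4 * P : ℕ) : ℝ) ^ (6 * r - 3) * (B ^ 3 * (C3 * (2 * P) ^ 2 * Y ^ 2)) *
      (P : ℝ) ^ (n + 1 + 1) = 4 ^ (6 * r - 3) * ((C0 : ℝ) ^ 3 * (C3 * 4 * (cY : ℝ) ^ 2)) *
        (P : ℝ) ^ (12 * r) := by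
    have e1 : (P : ℝ) ^ (12 * r) = (P : ℝ) ^ (6 * r - 3) * (P : ℝ) ^ 3 * ((P : ℝ) ^ (2 * r)) ^ 3 := by
      rw [← pow_mul, ← pow_add, ← pow_add]
      congr 1
      omega
    have e2 : (Y : ℝ) = cY * (P : ℝ) ^ (n + 1) := by rw [hY]; push_cast; ring
    have e3 : (P : ℝ) ^ (n + 1 + 1) = (P : ℝ) ^ (n + 1) * P := pow_succ _ _
    have e4 : ((C0 : ℝ) * (P : ℝ) ^ (2 * r)) ^ 3 = (B * (P : ℝ) ^ (n + 1)) ^ 3 := by rw [hBP]
    have e5 : ((4 * P : ℕ) : ℝ) ^ (6 * r - 3) = 4 ^ (6 * r - 3) * (P : ℝ) ^ (6 * r - 3) := by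
      push_cast
      rw [mul_pow]
    rw [e5, e2, e3, e1]
    have e6 : (C0 : ℝ) ^ 3 * ((P : ℝ) ^ (2 * r)) ^ 3 = B ^ 3 * ((P : ℝ) ^ (n + 1)) ^ 3 := by
      rw [← mul_pow, ← mul_pow, hBP]
    linear_combination (-(4 ^ (6 * r - 3) * (C3 * 4 * (cY : ℝ) ^ 2) * (P : ℝ) ^ (6 * r - 3) *
      (P : ℝ) ^ 3)) * e6
  have hfinal : (energy (6 * r) I f : ℝ) * (P : ℝ) ^ (n + 1 + 1) ≤
      (2 ^ (6 * r) * (3 ^ (6 * r) + 4 ^ (6 * r - 3) * ((C0 : ℝ) ^ 3 * (C3 * 4 * (cY : ℝ) ^ 2)))) *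
        (P : ℝ) ^ (12 * r) := by
    have hPn : (0 : ℝ) ≤ (P : ℝ) ^ (n + 1 + 1) := by positivity
    calc (energy (6 * r) I f : ℝ) * (P : ℝ) ^ (n + 1 + 1)
        ≤ (2 ^ (6 * r) * ((2 * (P : ℝ) + 1) ^ (6 * r) + ((4 * P : ℕ) : ℝ) ^ (6 * r - 3) *
          (B ^ 3 * (C3 * (2 * P) ^ 2 * Y ^ 2)))) * (P : ℝ) ^ (n + 1 + 1) :=
          mul_le_mul_of_nonneg_right hfin hPn
      _ = 2 ^ (6 * r) * ((2 * (P : ℝ) + 1) ^ (6 * r) * (P : ℝ) ^ (n + 1 + 1) +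
          ((4 * P : ℕ) : ℝ) ^ (6 * r - 3) * (B ^ 3 * (C3 * (2 * P) ^ 2 * Y ^ 2)) *
            (P : ℝ) ^ (n + 1 + 1)) := by ring
      _ ≤ 2 ^ (6 * r) * (3 ^ (6 * r) * (P : ℝ) ^ (12 * r) +
          4 ^ (6 * r - 3) * ((C0 : ℝ) ^ 3 * (C3 * 4 * (cY : ℝ) ^ 2)) * (P : ℝ) ^ (12 * r)) := by
          rw [t2]
          exact mul_le_mul_of_nonneg_left (by linarith) (by positivity)
      _ = _ := by ring
  have e6 : 6 ^ (n + 1) = 6 * r := by rw [hr]; ring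
  have e7 : 2 * (6 * r) = 12 * r := by ring
  rw [e6, e7]
  exact_mod_cast hfinal

lemma claim_all (n : ℕ) : Claim n := by
  induction n with
  | zero => exact claim_zero
  | succ n ih => exact claim_succ n ih

end LinnikAux

open LinnikAux

theorem linnik (k : ℕ) (hk : 1 ≤ k) : ∀ c : ℕ, ∃ C : ℕ, ∀ (P : ℕ) (f : Polynomial ℤ), 1 ≤ P →
    f.natDegree ≤ k → f.coeff k ≠ 0 → (∀ i ≤ k, |f.coeff i| ≤ (c : ℤ) * (P : ℤ) ^ (k - i)) →
    energy (6 ^ (k - 1)) (Icc (-(P : ℤ)) P) (fun y : ℤ => f.eval y) * P ^ k ≤ C * P ^ (2 * 6 ^ (k - 1)) := by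
  obtain ⟨n, rfl⟩ : ∃ n, k = n + 1 := ⟨k - 1, by omega⟩
  intro c
  obtain ⟨C, hC⟩ := claim_all n c
  refine ⟨C, fun P f hP hd hk hc => ?_⟩
  have h := hC P (fun i => f.coeff i) hP hk hc
  have e : (fun y : ℤ => f.eval y) = pv (n + 1) (fun i => f.coeff i) := by
    funext y
    unfold pv
    exact Polynomial.eval_eq_sum_range' (by omega) y
  rw [e, Nat.add_sub_cancel]
  exact h

end Pool.SSP
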