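import Mathlib
import Pool.Agent.SSP.Linnik
import Pool.Agent.SSP.Gen
import Pool.Agent.MRZ.SupLam

/-!
# SSP/Poly: shifts by the values of a polynomial

`poly_energy`: for `f ∈ ℤ[X]` of degree `d ≥ 1` and `K ≥ 1`:
`energy (6^{d-1}) [1,K] f · K^d ≤ C_f K^{2·6^{d-1}}` (`linnik` with `c = max_i |coeff_i f|`, `P = K`, and
`energy_comp_le` for the inclusion `[1,K] → [-K,K]`).

`poly_shifts`: let `f` have degree `d ≥ 1` and positive leading coefficient. For `X ≥ X₀`, `K ≥ (log X)^{A₂}`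
(`A₂ = A₂(d)`), `f(k) ≤ X` for `k ≤ K`, `h₀ ≤ AX`, `|b| ≤ 1`:
`∑_{k≤K} |∑_{n≤X} b_n Λ(n) μ(n+h₀+f(k))| ≤ ε K X` (`μ` of a non-positive integer is `0`).
Proof. Let `k₁` be such that `f(k) ≥ k/2` (in particular `≥ 1`) for `k > k₁` (the leading coefficient is `≥ 1`). The
`k ≤ k₁` contribute at most `k₁ C X ≤ (ε/2) K X` (`∑_{n≤X} Λ(n) ≤ C X`). For `K' = (k₁, K]`, `φ(k) = h₀ + f(k)`,
`H = max_{k₁<k≤K} f(k)`: `K/2 ≤ f(K) ≤ H ≤ X`, `H ≤ c_f K^d`; `H · energy ≤ c_f K^d · C K^{2r-d} ≤ E #K'^{2r}`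
(`#K' ≥ K/2`), `r = 6^{d-1}`; apply `sparse_gen` with `g = mu` (`sup_mu`); `(log X)^{A₂'} ≤ K/2 ≤ H` if
`A₂ = A₂' + 1`. The shifted energy is the same (`energy_sub_const`, `energy_congr`).
-/

set_option autoImplicit false

namespace Pool.SSP

open Finset Pool.MRZ

lemma coeff_le_sum (f : Polynomial ℤ) (d i : ℕ) (hi : i ≤ d) :
    |f.coeff i| ≤ ((∑ j ∈ range (d + 1), (f.coeff j).natAbs : ℕ) : ℤ) := by
  have h1 : (f.coeff i).natAbs ≤ ∑ j ∈ range (d + 1), (f.coeff j).natAbs :=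
    Finset.single_le_sum (f := fun j => (f.coeff j).natAbs) (fun _ _ => Nat.zero_le _)
      (mem_range.2 (by omega))
  rw [← Int.natCast_natAbs]
  exact_mod_cast h1

theorem poly_energy (f : Polynomial ℤ) (hd : 1 ≤ f.natDegree) : ∃ C : ℕ, ∀ K : ℕ, 1 ≤ K →
    energy (6 ^ (f.natDegree - 1)) (Icc 1 K) (fun k : ℕ => f.eval (k : ℤ)) * K ^ f.natDegree ≤
      C * K ^ (2 * 6 ^ (f.natDegree - 1)) := by
  obtain ⟨C, hC⟩ := linnik f.natDegree hd (∑ j ∈ range (f.natDegree + 1), (f.coeff j).natAbs)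
  refine ⟨C, fun K hK => ?_⟩
  have hf0 : f ≠ 0 := by
    rintro rfl
    rw [Polynomial.natDegree_zero] at hd
    exact Nat.not_succ_le_zero 0 hd
  have hlc : f.coeff f.natDegree ≠ 0 := Polynomial.leadingCoeff_ne_zero.2 hf0
  have h1 := hC K f hK le_rfl hlc (fun i hi => by
    have h2 := coeff_le_sum f f.natDegree i hi
    have h3 : (1 : ℤ) ≤ (K : ℤ) ^ (f.natDegree - i) := by
      have : (1 : ℤ) ≤ (K : ℤ) := by exact_mod_cast hK
      exact one_le_pow₀ this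
    have h4 : (0 : ℤ) ≤ ((∑ j ∈ range (f.natDegree + 1), (f.coeff j).natAbs : ℕ) : ℤ) :=
      Int.natCast_nonneg _
    nlinarith [mul_le_mul_of_nonneg_left h3 h4])
  refine (Nat.mul_le_mul_right _ ?_).trans h1
  refine energy_comp_le (6 ^ (f.natDegree - 1)) (Icc 1 K) (Icc (-(K : ℤ)) K) (fun k : ℕ => (k : ℤ))
    (fun y : ℤ => f.eval y) ?_ ?_
  · intro a _ b _ hab
    have hab' : (a : ℤ) = (b : ℤ) := hab
    exact_mod_cast hab'
  · intro k hk
    rw [mem_Icc] at hk ⊢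
    constructor <;> omega

/-- lower bound for the values of a polynomial with positive leading coefficient -/
lemma eval_lower (f : Polynomial ℤ) (hd : 1 ≤ f.natDegree) (hf : 0 < f.leadingCoeff) (k : ℕ)
    (hk : 2 * (∑ j ∈ range (f.natDegree + 1), (f.coeff j).natAbs) < k) :
    (k : ℤ) ≤ 2 * f.eval (k : ℤ) := by
  set d := f.natDegree with hdd
  set c : ℕ := ∑ j ∈ range (d + 1), (f.coeff j).natAbs with hc
  have hk1 : (1 : ℤ) ≤ (k : ℤ) := by
    have : 1 ≤ k := by omega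
    exact_mod_cast this
  have h1 : f.eval (k : ℤ) = ∑ i ∈ range d, f.coeff i * (k : ℤ) ^ i + f.coeff d * (k : ℤ) ^ d := by
    rw [Polynomial.eval_eq_sum_range, Finset.sum_range_succ]
  have h2 : (1 : ℤ) ≤ f.coeff d := by
    have : 0 < f.coeff d := hf
    omega
  have h3 : -((c : ℤ) * (k : ℤ) ^ (d - 1)) ≤ ∑ i ∈ range d, f.coeff i * (k : ℤ) ^ i := by
    have h4 : ∀ i ∈ range d, -(((f.coeff i).natAbs : ℤ) * (k : ℤ) ^ (d - 1)) ≤
        f.coeff i * (k : ℤ) ^ i := by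
      intro i hi
      rw [mem_range] at hi
      have h5 : (k : ℤ) ^ i ≤ (k : ℤ) ^ (d - 1) := pow_le_pow_right₀ hk1 (by omega)
      have h6 : -((f.coeff i).natAbs : ℤ) ≤ f.coeff i := by
        rw [Int.natCast_natAbs]
        exact neg_abs_le _
      have h7 : (0 : ℤ) ≤ (k : ℤ) ^ i := by positivity
      have h8 : (0 : ℤ) ≤ ((f.coeff i).natAbs : ℤ) := Int.natCast_nonneg _
      nlinarith [mul_le_mul_of_nonneg_left h5 h8, mul_le_mul_of_nonneg_right h6 h7]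
    have h9 := Finset.sum_le_sum h4
    rw [Finset.sum_neg_distrib, ← Finset.sum_mul] at h9
    refine le_trans ?_ h9
    rw [neg_le_neg_iff]
    apply mul_le_mul_of_nonneg_right _ (by positivity)
    rw [hc, Finset.sum_range_succ]
    push_cast
    have : (0 : ℤ) ≤ |f.coeff d| := abs_nonneg _
    linarith
  have h10 : (k : ℤ) ^ d = (k : ℤ) ^ (d - 1) * k := by
    rw [← pow_succ]
    congr 1
    omega
  have h11 : (1 : ℤ) ≤ (k : ℤ) ^ (d - 1) := one_le_pow₀ hk1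
  have h12 : 2 * (c : ℤ) < k := by exact_mod_cast hk
  have h13 : (k : ℤ) ^ (d - 1) * k ≤ f.coeff d * (k : ℤ) ^ d := by
    rw [h10]
    have h14 : (0 : ℤ) ≤ (k : ℤ) ^ (d - 1) * k := by positivity
    nlinarith [mul_le_mul_of_nonneg_right h2 h14]
  rw [h1]
  have h15 : (0 : ℤ) ≤ (k : ℤ) - 2 * c := by linarith
  have h16 : ((k : ℤ) - 2 * c) ≤ (k : ℤ) ^ (d - 1) * ((k : ℤ) - 2 * c) := by
    nlinarith [mul_le_mul_of_nonneg_right h11 h15]
  nlinarith [mul_le_mul_of_nonneg_right h11 (by positivity : (0 : ℤ) ≤ (k : ℤ))]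

/-- upper bound for the values of a polynomial -/
lemma eval_upper (f : Polynomial ℤ) (k : ℕ) (hk : 1 ≤ k) :
    f.eval (k : ℤ) ≤ ((∑ j ∈ range (f.natDegree + 1), (f.coeff j).natAbs : ℕ) : ℤ) *
      (k : ℤ) ^ f.natDegree := by
  have hk1 : (1 : ℤ) ≤ (k : ℤ) := by exact_mod_cast hk
  rw [Polynomial.eval_eq_sum_range]
  push_cast
  rw [Finset.sum_mul]
  apply Finset.sum_le_sum
  intro i hi
  rw [mem_range] at hi
  have h5 : (k : ℤ) ^ i ≤ (k : ℤ) ^ f.natDegree := pow_le_pow_right₀ hk1 (by omega)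
  have h6 : f.coeff i ≤ |f.coeff i| := le_abs_self _
  have h7 : (0 : ℤ) ≤ (k : ℤ) ^ i := by positivity
  have h8 : (0 : ℤ) ≤ |f.coeff i| := abs_nonneg _
  nlinarith [mul_le_mul_of_nonneg_left h5 h8, mul_le_mul_of_nonneg_right h6 h7]

lemma sum_vm_le (X : ℕ) : ∑ n ∈ Icc 1 X, ArithmeticFunction.vonMangoldt n ≤ (Real.log 4 + 4) * X := by
  have h := Chebyshev.psi_le_const_mul_self (x := (X : ℝ)) (Nat.cast_nonneg X)
  unfold Chebyshev.psi at h
  rw [Nat.floor_natCast] at h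
  exact h

lemma term_le (X : ℕ) (b : ℕ → ℂ) (hb : ∀ n, ‖b n‖ ≤ 1) (u : ℕ → ℕ) :
    ‖∑ n ∈ Icc 1 X, b n * ((ArithmeticFunction.vonMangoldt n : ℝ) : ℂ) * mu (u n)‖ ≤
      (Real.log 4 + 4) * X := by
  refine (norm_sum_le _ _).trans (le_trans ?_ (sum_vm_le X))
  apply Finset.sum_le_sum
  intro n _
  rw [norm_mul, norm_mul, Complex.norm_real, Real.norm_of_nonneg ArithmeticFunction.vonMangoldt_nonneg]
  have h1 := hb n
  have h2 := norm_mu_le (u n)
  have h3 : (0 : ℝ) ≤ ArithmeticFunction.vonMangoldt n := ArithmeticFunction.vonMangoldt_nonneg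
  have h4 : ‖b n‖ * ArithmeticFunction.vonMangoldt n ≤ ArithmeticFunction.vonMangoldt n :=
    mul_le_of_le_one_left h3 h1
  exact (mul_le_of_le_one_right (mul_nonneg (norm_nonneg _) h3) h2).trans h4

theorem poly_shifts (d : ℕ) (hd : 1 ≤ d) : ∃ A₂ : ℝ, ∀ (f : Polynomial ℤ), f.natDegree = d →
    0 < f.leadingCoeff → ∀ (A : ℕ) (ε : ℝ), 0 < ε → ∃ X₀ : ℕ, ∀ (X K h₀ : ℕ) (b : ℕ → ℂ),
    X₀ ≤ X → (Real.log X) ^ A₂ ≤ K → (∀ k ∈ Icc 1 K, f.eval (k : ℤ) ≤ X) → h₀ ≤ A * X →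
    (∀ n, ‖b n‖ ≤ 1) →
    ∑ k ∈ Icc 1 K, ‖∑ n ∈ Icc 1 X, b n * ((ArithmeticFunction.vonMangoldt n : ℝ) : ℂ) *
      mu ((n : ℤ) + h₀ + f.eval (k : ℤ)).toNat‖ ≤ ε * K * X := by
  obtain ⟨A₂, hA₂⟩ := sparse_gen mu norm_mu_le sup_mu (6 ^ (d - 1)) (Nat.one_le_pow _ _ (by norm_num))
  refine ⟨max A₂ 0 + 1, ?_⟩
  intro f hfd hlc A ε hε
  obtain ⟨C, hC⟩ := poly_energy f (by omega)
  rw [hfd] at hC
  set r : ℕ := 6 ^ (d - 1) with hr
  set c : ℕ := ∑ j ∈ range (f.natDegree + 1), (f.coeff j).natAbs with hc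
  set k₁ : ℕ := 2 * c with hk₁
  obtain ⟨X₁, hX₁⟩ := hA₂ A ((c : ℝ) * C * 2 ^ (2 * r)) (ε / 2) (by positivity)
  -- size of log X
  obtain ⟨M, hM⟩ := exists_nat_ge (max (2 * (k₁ : ℝ) + 2) (2 * k₁ * (Real.log 4 + 4) / ε))
  have htend : Filter.Tendsto (fun X : ℕ => Real.log X) Filter.atTop Filter.atTop :=
    Real.tendsto_log_atTop.comp tendsto_natCast_atTop_atTop
  obtain ⟨X₂, hX₂⟩ := Filter.eventually_atTop.1 (htend.eventually_ge_atTop (M : ℝ))
  refine ⟨max X₁ X₂, ?_⟩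
  intro X K h₀ b hX hKX hfX hh₀ hb
  have hXa : X₁ ≤ X := (le_max_left _ _).trans hX
  have hXb : X₂ ≤ X := (le_max_right _ _).trans hX
  have hlog : (M : ℝ) ≤ Real.log X := hX₂ X hXb
  have hM1 : 2 * (k₁ : ℝ) + 2 ≤ M := (le_max_left _ _).trans hM
  have hM2 : 2 * k₁ * (Real.log 4 + 4) / ε ≤ M := (le_max_right _ _).trans hM
  have hk0 : (0 : ℝ) ≤ k₁ := Nat.cast_nonneg _
  have hlog2 : 2 ≤ Real.log X := by linarith
  have hlogpos : 0 < Real.log X := by linarith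
  have hpow : (Real.log X) ^ (max A₂ 0 + 1) = (Real.log X) ^ (max A₂ 0) * Real.log X := by
    rw [Real.rpow_add hlogpos, Real.rpow_one]
  rw [hpow] at hKX
  have hp1 : 1 ≤ (Real.log X) ^ (max A₂ 0) := Real.one_le_rpow (by linarith) (le_max_right _ _)
  have hp2 : (Real.log X) ^ A₂ ≤ (Real.log X) ^ (max A₂ 0) :=
    Real.rpow_le_rpow_of_exponent_le (by linarith) (le_max_left _ _)
  have hKlog : Real.log X ≤ K := by
    refine le_trans ?_ hKX
    nlinarith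
  have hKM : (M : ℝ) ≤ K := hlog.trans hKlog
  have hK2 : 2 * k₁ + 2 ≤ K := by
    have : (2 * (k₁ : ℝ) + 2) ≤ K := hM1.trans hKM
    exact_mod_cast this
  have hK2' : 2 * (Real.log X) ^ A₂ ≤ K := by
    refine le_trans ?_ hKX
    nlinarith
  -- splitting
  have hsplit : Icc 1 K = Icc 1 k₁ ∪ Ioc k₁ K := by
    ext k
    simp only [mem_union, mem_Icc, mem_Ioc]
    omega
  have hdisj : Disjoint (Icc 1 k₁) (Ioc k₁ K) := by
    rw [Finset.disjoint_left]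
    intro k hk hk'
    rw [mem_Icc] at hk
    rw [mem_Ioc] at hk'
    omega
  have hval : ∀ k, k₁ < k → (k : ℤ) ≤ 2 * f.eval (k : ℤ) := fun k hk =>
    eval_lower f (by omega) hlc k hk
  have hpos : ∀ k, k₁ < k → 1 ≤ f.eval (k : ℤ) := by
    intro k hk
    have h1 := hval k hk
    have h2 : (1 : ℤ) ≤ k := by
      have : 1 ≤ k := by omega
      exact_mod_cast this
    omega
  set H : ℕ := (Ioc k₁ K).sup (fun k => (f.eval (k : ℤ)).toNat) with hH
  have hHle : ∀ k ∈ Ioc k₁ K, (f.eval (k : ℤ)).toNat ≤ H := fun k hk =>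
    Finset.le_sup (f := fun k : ℕ => (f.eval (k : ℤ)).toNat) hk
  have hHX : H ≤ X := by
    apply Finset.sup_le
    intro k hk
    rw [mem_Ioc] at hk
    have := hfX k (mem_Icc.2 ⟨by omega, hk.2⟩)
    omega
  have hHK : H ≤ c * K ^ d := by
    apply Finset.sup_le
    intro k hk
    rw [mem_Ioc] at hk
    have h1 := eval_upper f k (by omega)
    rw [← hc, hfd] at h1
    have h2 : (c : ℤ) * (k : ℤ) ^ d ≤ (c : ℤ) * (K : ℤ) ^ d := by
      apply mul_le_mul_of_nonneg_left _ (Int.natCast_nonneg _)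
      apply pow_le_pow_left₀ (Int.natCast_nonneg _)
      exact_mod_cast hk.2
    have h3 : f.eval (k : ℤ) ≤ ((c * K ^ d : ℕ) : ℤ) := by
      push_cast
      exact h1.trans h2
    omega
  have hKH : K ≤ 2 * H := by
    have h1 := hHle K (mem_Ioc.2 ⟨by omega, le_rfl⟩)
    have h2 := hval K (by omega)
    omega
  have hlogH : (Real.log X) ^ A₂ ≤ H := by
    have : (K : ℝ) ≤ 2 * H := by exact_mod_cast hKH
    linarith
  have hcard : (Ioc k₁ K).card = K - k₁ := Nat.card_Ioc _ _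
  -- the energy
  have hen : energy r (Ioc k₁ K) (fun k => ((h₀ + (f.eval (k : ℤ)).toNat : ℕ) : ℤ)) ≤
      energy r (Icc 1 K) (fun k : ℕ => f.eval (k : ℤ)) := by
    rw [← energy_sub_const r (Ioc k₁ K) _ (h₀ : ℤ)]
    rw [energy_congr r (Ioc k₁ K) (ψ := fun k : ℕ => f.eval (k : ℤ))]
    · apply energy_subset
      intro k hk
      rw [mem_Ioc] at hk
      rw [mem_Icc]
      omega
    · intro k hk
      rw [mem_Ioc] at hk
      have := hpos k hk.1
      push_cast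
      rw [Int.toNat_of_nonneg (by omega)]
      ring
  have hKpos : 1 ≤ K := by omega
  have hCK := hC K hKpos
  have hE : (H : ℝ) * (energy r (Ioc k₁ K) (fun k => ((h₀ + (f.eval (k : ℤ)).toNat : ℕ) : ℤ)) : ℕ) ≤
      (c : ℝ) * C * 2 ^ (2 * r) * ((Ioc k₁ K).card : ℝ) ^ (2 * r) := by
    have h1 : H * energy r (Ioc k₁ K) (fun k => ((h₀ + (f.eval (k : ℤ)).toNat : ℕ) : ℤ)) ≤
        c * C * 2 ^ (2 * r) * (Ioc k₁ K).card ^ (2 * r) := by
      calc H * energy r (Ioc k₁ K) (fun k => ((h₀ + (f.eval (k : ℤ)).toNat : ℕ) : ℤ))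
          ≤ (c * K ^ d) * energy r (Icc 1 K) (fun k : ℕ => f.eval (k : ℤ)) :=
            Nat.mul_le_mul hHK hen
        _ = c * (energy r (Icc 1 K) (fun k : ℕ => f.eval (k : ℤ)) * K ^ d) := by ring
        _ ≤ c * (C * K ^ (2 * r)) := Nat.mul_le_mul_left _ hCK
        _ ≤ c * (C * (2 * (Ioc k₁ K).card) ^ (2 * r)) := by
            apply Nat.mul_le_mul_left
            apply Nat.mul_le_mul_left
            apply Nat.pow_le_pow_left
            rw [hcard]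
            omega
        _ = c * C * 2 ^ (2 * r) * (Ioc k₁ K).card ^ (2 * r) := by
            rw [mul_pow]
            ring
    exact_mod_cast h1
  have hmain := hX₁ X H h₀ (Ioc k₁ K) (fun k => h₀ + (f.eval (k : ℤ)).toNat) b hXa hlogH hHX hh₀
    (fun k hk => by
      have h1 := hHle k hk
      rw [mem_Ioc] at hk
      have := hpos k hk.1
      constructor
      · omega
      · exact Nat.add_le_add_left h1 _) hE hb
  rw [hsplit, Finset.sum_union hdisj]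
  have hpart1 : ∑ k ∈ Icc 1 k₁, ‖∑ n ∈ Icc 1 X, b n * ((ArithmeticFunction.vonMangoldt n : ℝ) : ℂ) *
      mu ((n : ℤ) + h₀ + f.eval (k : ℤ)).toNat‖ ≤ ε / 2 * K * X := by
    refine (Finset.sum_le_card_nsmul (Icc 1 k₁) _ ((Real.log 4 + 4) * X)
      (fun (k : ℕ) _ => term_le X b hb (fun n : ℕ => ((n : ℤ) + h₀ + f.eval (k : ℤ)).toNat))).trans ?_
    rw [Nat.card_Icc, nsmul_eq_mul, Nat.add_sub_cancel]
    have h1 : 2 * k₁ * (Real.log 4 + 4) / ε ≤ K := hM2.trans hKM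
    rw [div_le_iff₀ hε] at h1
    have hX0 : (0 : ℝ) ≤ X := Nat.cast_nonneg _
    nlinarith [mul_le_mul_of_nonneg_right h1 hX0]
  have hpart2 : ∑ k ∈ Ioc k₁ K, ‖∑ n ∈ Icc 1 X, b n * ((ArithmeticFunction.vonMangoldt n : ℝ) : ℂ) *
      mu ((n : ℤ) + h₀ + f.eval (k : ℤ)).toNat‖ ≤ ε / 2 * K * X := by
    have h1 : ∑ k ∈ Ioc k₁ K, ‖∑ n ∈ Icc 1 X, b n * ((ArithmeticFunction.vonMangoldt n : ℝ) : ℂ) *
        mu ((n : ℤ) + h₀ + f.eval (k : ℤ)).toNat‖ =
        ∑ k ∈ Ioc k₁ K, ‖∑ n ∈ Icc 1 X, b n * ((ArithmeticFunction.vonMangoldt n : ℝ) : ℂ) *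
        mu (n + (h₀ + (f.eval (k : ℤ)).toNat))‖ := by
      apply Finset.sum_congr rfl
      intro k hk
      rw [mem_Ioc] at hk
      have hk' := hpos k hk.1
      congr 1
      apply Finset.sum_congr rfl
      intro n _
      congr 2
      omega
    rw [h1]
    refine hmain.trans ?_
    have h2 : ((Ioc k₁ K).card : ℝ) ≤ K := by
      rw [hcard]
      exact_mod_cast Nat.sub_le _ _
    have hX0 : (0 : ℝ) ≤ X := Nat.cast_nonneg _
    apply mul_le_mul_of_nonneg_right _ hX0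
    apply mul_le_mul_of_nonneg_left h2 (by positivity)
  calc _ ≤ ε / 2 * K * X + ε / 2 * K * X := add_le_add hpart1 hpart2
    _ = ε * K * X := by ring

end Pool.SSP
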